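import Mathlib
import Pool.Agent.Lib.MP_e6ed9e_al.Defs

/-!
# All transitive actions of the groups between `PSL(2,q)` and `PGL(2,q)`: statements of the modules
-/

namespace SpreadPerm.PL

open scoped LinearAlgebra.Projectivization MatrixGroups
open MulAction

noncomputable section

/-! ## Abstract part: Dickson by numbers -/

section
variable {H X : Type} [Group H] [MulAction H X]

/-- `h` is trivial or `x` is its only fixed point. -/
def IsU (x : X) (h : H) : Prop := h = 1 ∨ ∀ y : X, h • y = y ↔ y = x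

/-- `H` acts like a finite subgroup of `PGL(2, K)` on the projective line over an algebraically
closed field `K` of characteristic `p`. -/
structure DAct (H X : Type) [Group H] [MulAction H X] (p : ℕ) : Prop where
  fix_pos : ∀ h : H, h ≠ 1 → ∃ x : X, h • x = x
  fix_le : ∀ h : H, h ≠ 1 → ∀ x y z : X, h • x = x → h • y = y → h • z = z →
    x = y ∨ x = z ∨ y = z
  U_mul : ∀ (x : X) (g h : H), IsU x g → IsU x h → IsU x (g * h)
  U_pow : ∀ (x : X) (h : H), IsU x h → h ^ p = 1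
  T_ord : ∀ (x y : X) (h : H), x ≠ y → h • x = x → h • y = y → h ^ p = 1 → h = 1

/-- order of the unipotent group at `x` -/
def Uc (H : Type) {X : Type} [Group H] [MulAction H X] (x : X) : ℕ := Nat.card {h : H // IsU x h}

/-- order of the stabilizer of `x` -/
def Sc (H : Type) {X : Type} [Group H] [MulAction H X] (x : X) : ℕ :=
  Nat.card {h : H // h • x = x}

/-- order of the torus -/
def Tc (H : Type) {X : Type} [Group H] [MulAction H X] (x y : X) : ℕ :=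
  Nat.card {h : H // h • x = x ∧ h • y = y}

/-- order of the stabilizer of the pair -/
def Nc (H : Type) {X : Type} [Group H] [MulAction H X] (x y : X) : ℕ :=
  Nat.card {h : H // (h • x = x ∧ h • y = y) ∨ (h • x = y ∧ h • y = x)}

end

/-- STAB: the stabilizer of a point. -/
def StStab : Prop := ∀ (H X : Type) [Group H] [Finite H] [MulAction H X] (p : ℕ), p.Prime →
  DAct H X p → ∀ x : X, Sc H x = Uc H x ∨
    ∃ y, y ≠ x ∧ 1 < Tc H x y ∧ Sc H x = Uc H x * Tc H x y ∧ Tc H x y ∣ Uc H x - 1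

/-- SYL: the points with unipotent elements. -/
def StSyl : Prop := ∀ (H X : Type) [Group H] [Finite H] [MulAction H X] (p : ℕ), p.Prime →
  DAct H X p → ∀ x : X, 1 < Uc H x →
    (∀ z : X, 1 < Uc H z ↔ ∃ h : H, h • x = z) ∧
    {z : X | 1 < Uc H z}.ncard * Sc H x = Nat.card H ∧
    {z : X | 1 < Uc H z}.ncard % Uc H x = 1

/-- CLASS: the class equation. -/
def StClass : Prop := ∀ (H X : Type) [Group H] [Finite H] [MulAction H X] (p : ℕ), p.Prime →
  DAct H X p → ∃ (ι : Type) (_ : Fintype ι) (a b : ι → X),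
    (∀ i, a i ≠ b i ∧ 1 < Tc H (a i) (b i)) ∧
    (∀ i, Nc H (a i) (b i) = Tc H (a i) (b i) ∨ Nc H (a i) (b i) = 2 * Tc H (a i) (b i)) ∧
    (∀ i, Nc H (a i) (b i) ∣ Nat.card H) ∧
    (∀ x y : X, x ≠ y → 1 < Tc H x y → ∃ i, Tc H x y = Tc H (a i) (b i) ∧
      Nc H x y = Nc H (a i) (b i)) ∧
    ((∀ x : X, Uc H x = 1) → (1 : ℚ) / Nat.card H +
      ∑ i, ((Tc H (a i) (b i) : ℚ) - 1) / Nc H (a i) (b i) = 1) ∧
    (∀ x : X, 1 < Uc H x → (1 : ℚ) / Nat.card H + ((Uc H x : ℚ) - 1) / Sc H x +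
      ∑ i, ((Tc H (a i) (b i) : ℚ) - 1) / Nc H (a i) (b i) = 1)

/-- ARITH: the arithmetic of the class equation. -/
def StArith : Prop := ∀ (ι : Type) [Fintype ι] (k n : ι → ℕ) (h : ℕ), 0 < h →
  (∀ i, 2 ≤ k i) → (∀ i, n i = 1 ∨ n i = 2) → (∀ i, n i * k i ∣ h) →
  ((1 : ℚ) / h + ∑ i, ((k i : ℚ) - 1) / (n i * k i : ℕ) = 1 →
    h ≤ 60 ∨ ∃ i, n i * k i = h) ∧
  (∀ Q k0 N : ℕ, 2 ≤ Q → 1 ≤ k0 → k0 ∣ Q - 1 → h = N * (Q * k0) → N % Q = 1 →
    (k0 = 1 ∨ ∃ i, k i = k0) →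
    (1 : ℚ) / h + ((Q : ℚ) - 1) / (Q * k0 : ℕ) + ∑ i, ((k i : ℚ) - 1) / (n i * k i : ℕ) = 1 →
    N = 1 ∨ h ≤ 60 ∨ (∃ i, n i * k i = h) ∨
      (N = Q + 1 ∧ ∃ d : ℕ, (d = 1 ∨ d = 2) ∧ d * k0 = Q - 1))

/-- DICK: Dickson by numbers. -/
def StDick : Prop := ∀ (H X : Type) [Group H] [Finite H] [MulAction H X] (p : ℕ), p.Prime →
  DAct H X p → (∃ x : X, ∀ h : H, h • x = x) ∨
    (∃ x y : X, x ≠ y ∧ 1 < Tc H x y ∧
      ∀ h : H, (h • x = x ∧ h • y = y) ∨ (h • x = y ∧ h • y = x)) ∨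
    Nat.card H ≤ 60 ∨
    (∃ (x y : X) (d : ℕ), x ≠ y ∧ 1 < Uc H x ∧ {z : X | 1 < Uc H z}.ncard = Uc H x + 1 ∧
      (d = 1 ∨ d = 2) ∧ d * Tc H x y = Uc H x - 1 ∧
      Nat.card H = (Uc H x + 1) * (Uc H x * Tc H x y))

/-! ## Matrices -/

section
variable (F K : Type) [Field F] [Field K] [Algebra F K]

/-- The projective line over the big field. -/
abbrev PX : Type := ℙ K (Fin 2 → K)

/-- The action of `GL(2,F)` on the projective line over `K`. -/
def psi : GL (Fin 2) F →* Equiv.Perm (PX K) :=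
  (MulAction.toPermHom (GL (Fin 2) K) (PX K)).comp
    (Matrix.GeneralLinearGroup.map (algebraMap F K))

/-- The vector over `K`. -/
def up (v : Fin 2 → F) : Fin 2 → K := fun i => algebraMap F K (v i)

/-- Rational points. -/
def Rat (x : PX K) : Prop := ∃ v : Fin 2 → F, v ≠ 0 ∧ ∃ h : up F K v ≠ 0,
  x = Projectivization.mk K (up F K v) h

/-- The binary quadratic form `(a, b, c)`. -/
def bq {R : Type} [CommRing R] (a b c : R) (v : Fin 2 → R) : R :=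
  a * v 0 ^ 2 + b * (v 0 * v 1) + c * v 1 ^ 2

end

/-- PGL: finite subgroups of `GL(2,F)` act like finite subgroups of `PGL(2,K)`. -/
def StPgl : Prop := ∀ (F K : Type) [Field F] [Finite F] [Field K] [IsAlgClosed K] [Algebra F K]
  (p : ℕ) [CharP F p], p.Prime → ∀ H : Subgroup (GL (Fin 2) F), DAct (H.map (psi F K)) (PX K) p

/-- RAT: rationality of the fixed points. -/
def StRat : Prop := ∀ (F K : Type) [Field F] [Finite F] [Field K] [IsAlgClosed K] [Algebra F K]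
  (g : GL (Fin 2) F), psi F K g ≠ 1 →
  (∀ x : PX K, (∀ y, psi F K g y = y ↔ y = x) → Rat F K x) ∧
  (∀ x y : PX K, x ≠ y → psi F K g x = x → psi F K g y = y →
    (Rat F K x ∧ Rat F K y) ∨
    (∃ a b c : F, (∀ v : Fin 2 → F, v ≠ 0 → bq a b c v ≠ 0) ∧
      ∀ z : PX K, bq (algebraMap F K a) (algebraMap F K b) (algebraMap F K c) z.rep = 0 ↔
        z = x ∨ z = y))

/-- SUB: the subfield argument. -/
def StSub : Prop := ∀ (F K : Type) [Field F] [Finite F] [Field K] [IsAlgClosed K] [Algebra F K]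
  (H : Subgroup (GL (Fin 2) F)) (x y : PX K) (d : ℕ), x ≠ y → 1 < Uc (H.map (psi F K)) x →
  (d = 1 ∨ d = 2) → d * Tc (H.map (psi F K)) x y = Uc (H.map (psi F K)) x - 1 →
  Uc (H.map (psi F K)) x = Nat.card F ∨ Uc (H.map (psi F K)) x ^ 2 ≤ Nat.card F

/-- FULL: with full unipotent groups at all rational points the group contains `SL(2,F)` up to
scalars. -/
def StFull : Prop := ∀ (F K : Type) [Field F] [Finite F] [Field K] [IsAlgClosed K] [Algebra F K]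
  (H : Subgroup (GL (Fin 2) F)), (∀ x : PX K, Rat F K x → Uc (H.map (psi F K)) x = Nat.card F) →
  ∀ g : GL (Fin 2) F, Matrix.det g.1 = 1 → psi F K g ∈ H.map (psi F K)

/-- KER: the kernel of `psi` consists of the scalar matrices. -/
def StKer : Prop := ∀ (F K : Type) [Field F] [Field K] [Algebra F K] (g : GL (Fin 2) F),
  psi F K g = 1 ↔ ∃ c : F, g.1 = Matrix.scalar (Fin 2) c

/-! ## Actions -/

/-- A transitive action of a group between `SL(2,F)` and `GL(2,F)`, trivial for the scalars and not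
trivial for `SL(2,F)`. -/
structure LAct (F : Type) [Field F] (Γ : Subgroup (GL (Fin 2) F)) (Ω : Type) [MulAction Γ Ω] :
    Prop where
  sl : ∀ g : GL (Fin 2) F, Matrix.det g.1 = 1 → g ∈ Γ
  sc : ∀ g : Γ, (∃ c : F, g.1.1 = Matrix.scalar (Fin 2) c) → ∀ ω : Ω, g • ω = ω
  nt : ∃ g : Γ, Matrix.det g.1.1 = 1 ∧ ∃ ω : Ω, g • ω ≠ ω

/-- PRIM: in a spreading group the stabilizers are maximal. -/
def StPrim : Prop := ∀ (G Ω : Type) [Group G] [Fintype Ω] [MulAction G Ω] [IsPretransitive G Ω],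
  Spreading G Ω → 1 < Fintype.card Ω → ∀ ω : Ω, IsCoatom (stabilizer G ω)

/-- BOREL -/
def StBorel : Prop := ∀ (F Ω : Type) [Field F] [Fintype F] [Fintype Ω]
  (Γ : Subgroup (GL (Fin 2) F)) [MulAction Γ Ω] [IsPretransitive Γ Ω], LAct F Γ Ω → ∀ ω : Ω,
  IsCoatom (stabilizer Γ ω) → (∃ v : Fin 2 → F, v ≠ 0 ∧ ∀ g : Γ, g • ω = ω →
    ∃ c : F, g.1 • v = c • v) → IsMultiplyPretransitive Γ Ω 2

/-- PAIR -/
def StPair : Prop := ∀ (F Ω : Type) [Field F] [Fintype F] [Fintype Ω]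
  (Γ : Subgroup (GL (Fin 2) F)) [MulAction Γ Ω] [IsPretransitive Γ Ω], LAct F Γ Ω → ∀ ω : Ω,
  IsCoatom (stabilizer Γ ω) → 3 ≤ Fintype.card F →
  (∃ v w : Fin 2 → F, (∀ c : F, v ≠ c • w) ∧ (∀ c : F, w ≠ c • v) ∧ ∀ g : Γ, g • ω = ω →
    ((∃ c : F, g.1 • v = c • v) ∧ ∃ c : F, g.1 • w = c • w) ∨
    ((∃ c : F, g.1 • v = c • w) ∧ ∃ c : F, g.1 • w = c • v)) → NonSpreading Γ Ω

/-- SURJ: `SL(2,F)` is transitive on the anisotropic forms up to scalars. -/
def StSurj : Prop := ∀ (F : Type) [Field F] [Fintype F] (a b c a' b' c' : F),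
  (∀ v : Fin 2 → F, v ≠ 0 → bq a b c v ≠ 0) → (∀ v : Fin 2 → F, v ≠ 0 → bq a' b' c' v ≠ 0) →
  ∃ (g : GL (Fin 2) F) (l : F), Matrix.det g.1 = 1 ∧ l ≠ 0 ∧
    ∀ v : Fin 2 → F, bq a' b' c' (g • v) = l * bq a b c v

/-- A labelling of `Ω` by the anisotropic binary quadratic forms up to scalars. -/
structure Ell (F : Type) [Field F] (Γ : Subgroup (GL (Fin 2) F)) (Ω : Type) [MulAction Γ Ω]
    (A B C : Ω → F) : Prop where
  aniso : ∀ (ω : Ω) (v : Fin 2 → F), v ≠ 0 → bq (A ω) (B ω) (C ω) v ≠ 0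
  inj : ∀ ω ω' : Ω, ∀ l : F, A ω' = l * A ω → B ω' = l * B ω → C ω' = l * C ω → ω' = ω
  surj : ∀ a b c : F, (∀ v : Fin 2 → F, v ≠ 0 → bq a b c v ≠ 0) →
    ∃ (ω : Ω) (l : F), l ≠ 0 ∧ A ω = l * a ∧ B ω = l * b ∧ C ω = l * c
  act : ∀ (g : Γ) (ω : Ω), ∃ l : F, l ≠ 0 ∧ ∀ v : Fin 2 → F,
    bq (A (g • ω)) (B (g • ω)) (C (g • ω)) (g.1 • v) = l * bq (A ω) (B ω) (C ω) v

/-- LABEL -/
def StLabel : Prop := ∀ (F Ω : Type) [Field F] [Fintype F] [Fintype Ω]
  (Γ : Subgroup (GL (Fin 2) F)) [MulAction Γ Ω] [IsPretransitive Γ Ω], LAct F Γ Ω → ∀ ω : Ω,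
  IsCoatom (stabilizer Γ ω) → 3 ≤ Fintype.card F → (∃ a b c : F, (∀ v : Fin 2 → F, v ≠ 0 → bq a b c v ≠ 0) ∧
    ∀ g : Γ, g • ω = ω → ∃ l : F, ∀ v : Fin 2 → F, bq a b c (g.1 • v) = l * bq a b c v) →
  ∃ A B C : Ω → F, Ell F Γ Ω A B C

/-- CARD: the number of anisotropic forms up to scalars. -/
def StCard : Prop := ∀ (F Ω : Type) [Field F] [Fintype F] [Fintype Ω]
  (Γ : Subgroup (GL (Fin 2) F)) [MulAction Γ Ω] (A B C : Ω → F), Ell F Γ Ω A B C →
  2 * Fintype.card Ω = Fintype.card F * (Fintype.card F - 1)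

/-- TRA: the transversal trick. The order `m` of the group of the nonzero squares is composite. -/
def StTra : Prop := ∀ (F Ω : Type) [Field F] [Fintype F] [Fintype Ω]
  (Γ : Subgroup (GL (Fin 2) F)) [MulAction Γ Ω] [IsPretransitive Γ Ω] (A B C : Ω → F),
  Ell F Γ Ω A B C → ∀ m d e : ℕ, m = (Fintype.card F - 1) / Nat.gcd 2 (Fintype.card F - 1) →
  m = d * e → 2 ≤ d → 2 ≤ e → NonSpreading Γ Ω

/-- CON: the explicit vector, `q = 3` modulo `4`. -/
def StCon : Prop := ∀ (F Ω : Type) [Field F] [Fintype F] [Fintype Ω]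
  (Γ : Subgroup (GL (Fin 2) F)) [MulAction Γ Ω] [IsPretransitive Γ Ω] (A B C : Ω → F),
  Ell F Γ Ω A B C → Fintype.card F % 4 = 3 → 3 < Fintype.card F → NonSpreading Γ Ω

/-- NUM -/
def StNum : Prop := ∀ q n s : ℕ, 10000 ≤ q → q * (q ^ 2 - 1) ≤ 2 * n * s → s ^ 2 ≤ q ^ 3 →
  n ^ (q + 1) < 2 ^ n

/-- INTR: the stabilizer has few elements on the projective line over `K`; it is intransitive on
the rational points; then the group is non-spreading (`ModuleDimension`). -/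
def StIntr : Prop := ∀ (F K Ω : Type) [Field F] [Fintype F] [Field K] [IsAlgClosed K]
  [Algebra F K] [Fintype Ω] (Γ : Subgroup (GL (Fin 2) F)) [MulAction Γ Ω] [IsPretransitive Γ Ω],
  LAct F Γ Ω → ∀ ω : Ω, 10000 ≤ Fintype.card F →
  Nat.card (((stabilizer Γ ω).map Γ.subtype).map (psi F K)) ^ 2 ≤ Fintype.card F ^ 3 →
  (∃ x y : PX K, Rat F K x ∧ Rat F K y ∧ ∀ g : Γ, g • ω = ω → psi F K g.1 x ≠ y) →
  NonSpreading Γ Ω

/-- MAIN -/
def StMain : Prop := ∀ (F Ω : Type) [Field F] [Fintype F] [Fintype Ω]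
  (Γ : Subgroup (GL (Fin 2) F)) [MulAction Γ Ω] [IsPretransitive Γ Ω], LAct F Γ Ω →
  10000 ≤ Fintype.card F → Spreading Γ Ω → IsMultiplyPretransitive Γ Ω 2 ∨
    (ringChar F = 2 ∧ (Fintype.card F - 1).Prime ∧
      2 * Fintype.card Ω = Fintype.card F * (Fintype.card F - 1))

end

end SpreadPerm.PL
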