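import Pool.Agent.Lib.MP_e6ed9e_al.PL.Defs
import Pool.Agent.Lib.MP_e6ed9e_al.Sym.Block

/-!
# PRIM: in a spreading group the stabilizers are maximal
-/

namespace SpreadPerm.PL

theorem prim96 : StPrim := fun _ _ _ _ _ _ h h1 ω => isCoatom_stabilizer_of_spreading h h1 ω

end SpreadPerm.PL
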