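import Mathlib
import Pool.Agent.Lib.MP_e6ed9e_al.PL.Defs

/-!
# Rows KER and RAT: the form det(v, g v) and its zeros
-/

namespace SpreadPerm.PL

open scoped LinearAlgebra.Projectivization MatrixGroups
open MulAction

section
variable {F K : Type} [Field F] [Field K] [Algebra F K]

theorem ne_zero51 {L : Type} [Field L] {v : Fin 2 → L} (hv : v ≠ 0) : v 0 ≠ 0 ∨ v 1 ≠ 0 := by
  by_contra h
  push Not at h
  apply hv
  ext i
  fin_cases i
  · exact h.1
  · exact h.2

/-- Two vectors are proportional iff their determinant vanishes. -/
theorem mk_eq51 {u v : Fin 2 → K} (hu : u ≠ 0) (hv : v ≠ 0) :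
    Projectivization.mk K u hu = Projectivization.mk K v hv ↔ u 0 * v 1 - u 1 * v 0 = 0 := by
  rw [Projectivization.mk_eq_mk_iff']
  constructor
  · rintro ⟨a, rfl⟩
    simp only [Pi.smul_apply, smul_eq_mul]
    ring
  · intro h
    rcases ne_zero51 hv with h0 | h1
    · refine ⟨u 0 / v 0, ?_⟩
      ext i
      fin_cases i
      · simp [h0]
      · simp only [Pi.smul_apply, smul_eq_mul, Fin.mk_one]
        field_simp
        linear_combination h
    · refine ⟨u 1 / v 1, ?_⟩
      ext i
      fin_cases i
      · simp only [Pi.smul_apply, smul_eq_mul, Fin.zero_eta]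
        field_simp
        linear_combination -h
      · simp [h1]

theorem psi_mk51 (g : GL (Fin 2) F) {u : Fin 2 → K} (hu : u ≠ 0) :
    psi F K g (Projectivization.mk K u hu) = Projectivization.mk K
      ((Matrix.GeneralLinearGroup.map (algebraMap F K) g) • u)
      ((smul_ne_zero_iff_ne _).mpr hu) := rfl

theorem smul0_51 (g : GL (Fin 2) F) (u : Fin 2 → K) :
    ((Matrix.GeneralLinearGroup.map (algebraMap F K) g) • u) 0 =
      algebraMap F K (g.1 0 0) * u 0 + algebraMap F K (g.1 0 1) * u 1 := by
  change ((Matrix.GeneralLinearGroup.map (algebraMap F K) g).1.mulVec u) 0 = _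
  simp [Matrix.mulVec, dotProduct, Fin.sum_univ_two]

theorem smul1_51 (g : GL (Fin 2) F) (u : Fin 2 → K) :
    ((Matrix.GeneralLinearGroup.map (algebraMap F K) g) • u) 1 =
      algebraMap F K (g.1 1 0) * u 0 + algebraMap F K (g.1 1 1) * u 1 := by
  change ((Matrix.GeneralLinearGroup.map (algebraMap F K) g).1.mulVec u) 1 = _
  simp [Matrix.mulVec, dotProduct, Fin.sum_univ_two]

/-- The fixed points are the zeros of the form. -/
theorem fix_mk51 (g : GL (Fin 2) F) {u : Fin 2 → K} (hu : u ≠ 0) :
    psi F K g (Projectivization.mk K u hu) = Projectivization.mk K u hu ↔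
      bq (algebraMap F K (g.1 1 0)) (algebraMap F K (g.1 1 1 - g.1 0 0))
        (algebraMap F K (-g.1 0 1)) u = 0 := by
  rw [psi_mk51, mk_eq51, smul0_51, smul1_51]
  unfold bq
  rw [map_sub, map_neg]
  constructor
  · intro h
    linear_combination -h
  · intro h
    linear_combination -h

theorem fix51 (g : GL (Fin 2) F) (x : PX K) :
    psi F K g x = x ↔
      bq (algebraMap F K (g.1 1 0)) (algebraMap F K (g.1 1 1 - g.1 0 0))
        (algebraMap F K (-g.1 0 1)) x.rep = 0 := by
  have h := fix_mk51 (K := K) g (Projectivization.rep_nonzero x)
  rw [Projectivization.mk_rep] at h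
  exact h

theorem up_ne51 {v : Fin 2 → F} (hv : v ≠ 0) : up F K v ≠ 0 := by
  intro h
  apply hv
  ext i
  have h1 := congrFun h i
  simp only [up, Pi.zero_apply] at h1
  rw [Pi.zero_apply]
  exact (map_eq_zero _).mp h1

theorem bq_up51 (a b c : F) (v : Fin 2 → F) :
    bq (algebraMap F K a) (algebraMap F K b) (algebraMap F K c) (up F K v) =
      algebraMap F K (bq a b c v) := by
  simp [bq, up]

end

/-- Row KER. -/
theorem ker51 : StKer := by
  intro F K _ _ _ g
  constructor
  · intro h
    have hf : ∀ {u : Fin 2 → K} (hu : u ≠ 0),
        bq (algebraMap F K (g.1 1 0)) (algebraMap F K (g.1 1 1 - g.1 0 0))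
        (algebraMap F K (-g.1 0 1)) u = 0 := by
      intro u hu
      rw [← fix_mk51 g hu, h]
      rfl
    have e0 : (![1, 0] : Fin 2 → K) ≠ 0 := by
      intro h0
      have := congrFun h0 0
      simp at this
    have e1 : (![0, 1] : Fin 2 → K) ≠ 0 := by
      intro h0
      have := congrFun h0 1
      simp at this
    have e2 : (![1, 1] : Fin 2 → K) ≠ 0 := by
      intro h0
      have := congrFun h0 1
      simp at this
    have h0 := hf e0
    have h1 := hf e1
    have h2 := hf e2
    simp only [bq, Matrix.cons_val_zero, Matrix.cons_val_one, one_pow, mul_one, mul_zero, ne_eq,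
      OfNat.ofNat_ne_zero, not_false_eq_true, zero_pow, add_zero, zero_add, map_eq_zero]
      at h0 h1 h2
    rw [h0, map_zero, zero_add, h1, map_zero, add_zero, map_eq_zero] at h2
    refine ⟨g.1 0 0, ?_⟩
    ext i j
    fin_cases i <;> fin_cases j
    · simp
    · simp only [Fin.zero_eta, Fin.mk_one, Matrix.scalar_apply, ne_eq, zero_ne_one,
        not_false_eq_true, Matrix.diagonal_apply_ne]
      exact neg_eq_zero.mp h1
    · simp only [Fin.zero_eta, Fin.mk_one, Matrix.scalar_apply, ne_eq, one_ne_zero,
        not_false_eq_true, Matrix.diagonal_apply_ne]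
      exact h0
    · simp only [Fin.mk_one, Matrix.scalar_apply, Matrix.diagonal_apply_eq]
      exact sub_eq_zero.mp h2
  · rintro ⟨c, hc⟩
    ext x
    rw [Equiv.Perm.coe_one, id_eq, fix51]
    simp [hc, bq]

section
variable {F K : Type} [Field F] [Field K] [Algebra F K]

/-- A nonzero rational vector on which the form vanishes gives two rational zeros which are all
zeros. -/
theorem two_rat51 (a b c : F) (hne : ¬ (a = 0 ∧ b = 0 ∧ c = 0)) (v : Fin 2 → F) (hv : v ≠ 0)
    (h : bq a b c v = 0) : ∃ w : Fin 2 → F, w ≠ 0 ∧ ∀ z : Fin 2 → K,
      bq (algebraMap F K a) (algebraMap F K b) (algebraMap F K c) z = 0 →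
      z 0 * (up F K v) 1 - z 1 * (up F K v) 0 = 0 ∨
      z 0 * (up F K w) 1 - z 1 * (up F K w) 0 = 0 := by
  by_cases h1 : v 1 = 0
  · have h0 : v 0 ≠ 0 := by
      rcases ne_zero51 hv with h0 | h0
      · exact h0
      · exact absurd h1 h0
    have ha : a = 0 := by
      simp only [bq, h1, mul_zero, add_zero, ne_eq, OfNat.ofNat_ne_zero, not_false_eq_true,
        zero_pow, mul_eq_zero, pow_eq_zero_iff] at h
      tauto
    refine ⟨![-c, b], ?_, ?_⟩
    · intro hw
      have w0 := congrFun hw 0
      have w1 := congrFun hw 1
      simp at w0 w1
      exact hne ⟨ha, w1, w0⟩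
    · intro z hz
      simp only [bq, ha, map_zero, zero_mul, zero_add] at hz
      have : z 1 * (algebraMap F K b * z 0 + algebraMap F K c * z 1) = 0 := by
        linear_combination hz
      rcases mul_eq_zero.mp this with h2 | h2
      · left
        simp [up, h1, h2]
      · right
        simp only [up, Matrix.cons_val_one, Matrix.cons_val_zero, map_neg]
        linear_combination h2
  · -- normalize
    set t : F := v 0 / v 1 with ht
    have hvt : v 0 = t * v 1 := by rw [ht]; field_simp
    have hroot : a * t ^ 2 + b * t + c = 0 := by
      have : (v 1) ^ 2 * (a * t ^ 2 + b * t + c) = 0 := by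
        have h' := h
        simp only [bq] at h'
        rw [hvt] at h'
        linear_combination h'
      rcases mul_eq_zero.mp this with h2 | h2
      · exact absurd (pow_eq_zero_iff (two_ne_zero)|>.mp h2) h1
      · exact h2
    refine ⟨![-(b + a * t), a], ?_, ?_⟩
    · intro hw
      have w0 := congrFun hw 0
      have w1 := congrFun hw 1
      simp only [Matrix.cons_val_zero, Matrix.cons_val_one, Pi.zero_apply] at w0 w1
      rw [w1] at w0 hroot
      have hb : b = 0 := by linear_combination -w0
      rw [hb] at hroot
      exact hne ⟨w1, hb, by linear_combination hroot⟩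
    · intro z hz
      have hr : algebraMap F K a * (algebraMap F K t) ^ 2 + algebraMap F K b * algebraMap F K t
          + algebraMap F K c = 0 := by
        rw [← map_pow, ← map_mul, ← map_mul, ← map_add, ← map_add, hroot, map_zero]
      simp only [bq] at hz
      have : (z 0 - algebraMap F K t * z 1) * (algebraMap F K a * z 0 +
          (algebraMap F K b + algebraMap F K a * algebraMap F K t) * z 1) = 0 := by
        linear_combination hz - (z 1) ^ 2 * hr
      rcases mul_eq_zero.mp this with h2 | h2
      · left
        simp only [up]
        rw [hvt, map_mul]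
        linear_combination (algebraMap F K (v 1)) * h2
      · right
        simp only [up, Matrix.cons_val_one, Matrix.cons_val_zero, map_neg, map_add, map_mul]
        linear_combination h2

theorem not_all51 {g : GL (Fin 2) F} (hg : psi F K g ≠ 1) :
    ¬ (g.1 1 0 = 0 ∧ g.1 1 1 - g.1 0 0 = 0 ∧ -g.1 0 1 = 0) := by
  rintro ⟨h0, h1, h2⟩
  apply hg
  ext x
  rw [Equiv.Perm.coe_one, id_eq, fix51, h0, h1, h2]
  simp [bq]

/-- A point which is a zero of the form is rational if the form has a rational zero. -/
theorem rat_of51 (a b c : F) (hne : ¬ (a = 0 ∧ b = 0 ∧ c = 0)) (v : Fin 2 → F) (hv : v ≠ 0)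
    (h : bq a b c v = 0) (x : PX K)
    (hx : bq (algebraMap F K a) (algebraMap F K b) (algebraMap F K c) x.rep = 0) :
    Rat F K x := by
  obtain ⟨w, hw, hz⟩ := two_rat51 (K := K) a b c hne v hv h
  rcases hz x.rep hx with h1 | h1
  · refine ⟨v, hv, up_ne51 hv, ?_⟩
    have := (mk_eq51 (Projectivization.rep_nonzero x) (up_ne51 (K := K) hv)).mpr h1
    rwa [Projectivization.mk_rep] at this
  · refine ⟨w, hw, up_ne51 hw, ?_⟩
    have := (mk_eq51 (Projectivization.rep_nonzero x) (up_ne51 (K := K) hw)).mpr h1
    rwa [Projectivization.mk_rep] at this

end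

/-- Row RAT. -/
theorem rat51 : StRat := by
  intro F K _ _ _ _ _ g hg
  set a : F := g.1 1 0 with ha
  set b : F := g.1 1 1 - g.1 0 0 with hb
  set c : F := -g.1 0 1 with hc
  have hne : ¬ (a = 0 ∧ b = 0 ∧ c = 0) := not_all51 hg
  refine ⟨?_, ?_⟩
  · intro x hx
    have hx1 : bq (algebraMap F K a) (algebraMap F K b) (algebraMap F K c) x.rep = 0 :=
      (fix51 g x).mp ((hx x).mpr rfl)
    -- a rational zero
    obtain ⟨v, hv, h⟩ : ∃ v : Fin 2 → F, v ≠ 0 ∧ bq a b c v = 0 := by
      by_cases ha0 : a = 0
      · refine ⟨![1, 0], ?_, ?_⟩
        · intro h0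
          have := congrFun h0 0
          simp at this
        · simp [bq, ha0]
      · have haK : algebraMap F K a ≠ 0 := fun h => ha0 ((map_eq_zero _).mp h)
        have hr1 : x.rep 1 ≠ 0 := by
          intro h1
          rcases ne_zero51 (Projectivization.rep_nonzero x) with h0 | h0
          · simp only [bq, h1, mul_zero, add_zero, ne_eq, OfNat.ofNat_ne_zero, not_false_eq_true,
              zero_pow, mul_eq_zero, pow_eq_zero_iff] at hx1
            tauto
          · exact h0 h1
        set t : K := x.rep 0 / x.rep 1 with ht
        have hxt : x.rep 0 = t * x.rep 1 := by rw [ht]; field_simp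
        have hroot : algebraMap F K a * t ^ 2 + algebraMap F K b * t + algebraMap F K c = 0 := by
          have h2 : (x.rep 1) ^ 2 * (algebraMap F K a * t ^ 2 + algebraMap F K b * t
              + algebraMap F K c) = 0 := by
            have h' := hx1
            simp only [bq] at h'
            rw [hxt] at h'
            linear_combination h'
          rcases mul_eq_zero.mp h2 with h3 | h3
          · exact absurd (pow_eq_zero_iff (two_ne_zero)|>.mp h3) hr1
          · exact h3
        -- the other root
        set s : K := -(algebraMap F K b) / algebraMap F K a - t with hs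
        have hsum : algebraMap F K a * (s + t) = -(algebraMap F K b) := by
          rw [hs]; field_simp; ring
        have hroot' : algebraMap F K a * s ^ 2 + algebraMap F K b * s + algebraMap F K c = 0 := by
          linear_combination hroot + (s - t) * hsum
        have hs0 : (![s, 1] : Fin 2 → K) ≠ 0 := by
          intro h0
          have := congrFun h0 1
          simp at this
        have hfix : psi F K g (Projectivization.mk K ![s, 1] hs0) =
            Projectivization.mk K ![s, 1] hs0 := by
          rw [fix_mk51]
          simp only [bq, Matrix.cons_val_zero, Matrix.cons_val_one, mul_one, one_pow]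
          exact hroot'
        have heq := (hx _).mp hfix
        rw [← Projectivization.mk_rep x, mk_eq51] at heq
        simp only [Matrix.cons_val_zero, Matrix.cons_val_one, one_mul] at heq
        have hst : s = t := by
          rw [hxt] at heq
          have : (s - t) * x.rep 1 = 0 := by linear_combination heq
          rcases mul_eq_zero.mp this with h3 | h3
          · exact sub_eq_zero.mp h3
          · exact absurd h3 hr1
        rw [hst] at hsum
        by_cases h2 : (2 : F) = 0
        · have h2K : (2 : K) = 0 := by
            rw [← map_ofNat (algebraMap F K) 2, h2, map_zero]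
          have hb0 : algebraMap F K b = 0 := by linear_combination hsum - algebraMap F K a * t * h2K
          have hb1 : b = 0 := (map_eq_zero _).mp hb0
          have hch : ringChar F = 2 := by
            have : (ringChar F) ∣ 2 := (ringChar.spec F 2).mp (by exact_mod_cast h2)
            rcases (Nat.dvd_prime Nat.prime_two).mp this with h | h
            · have h1 := (ringChar.spec F 1).mpr (by rw [h])
              simp at h1
            · exact h
          obtain ⟨r, hr⟩ := FiniteField.isSquare_of_char_two hch (-c / a)
          refine ⟨![r, 1], ?_, ?_⟩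
          · intro h0
            have := congrFun h0 1
            simp at this
          · simp only [bq, Matrix.cons_val_zero, Matrix.cons_val_one, mul_one, one_pow, hb1,
              zero_mul, add_zero]
            rw [pow_two, ← hr]
            field_simp
            ring
        · refine ⟨![-b / (2 * a), 1], ?_, ?_⟩
          · intro h0
            have := congrFun h0 1
            simp at this
          · have h2K : (2 : K) ≠ 0 := by
              intro h
              apply h2
              apply (algebraMap F K).injective
              rw [map_ofNat, h, map_zero]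
            have htr : algebraMap F K (-b / (2 * a)) = t := by
              rw [map_div₀, map_neg, map_mul, map_ofNat]
              field_simp
              linear_combination -hsum
            apply (algebraMap F K).injective
            rw [map_zero]
            simp only [bq, Matrix.cons_val_zero, Matrix.cons_val_one, mul_one, one_pow]
            rw [map_add, map_add, map_mul, map_mul, map_pow, htr]
            exact hroot
    exact rat_of51 a b c hne v hv h x hx1
  · intro x y hxy hx hy
    have hx1 : bq (algebraMap F K a) (algebraMap F K b) (algebraMap F K c) x.rep = 0 :=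
      (fix51 g x).mp hx
    have hy1 : bq (algebraMap F K a) (algebraMap F K b) (algebraMap F K c) y.rep = 0 :=
      (fix51 g y).mp hy
    by_cases hz : ∃ v : Fin 2 → F, v ≠ 0 ∧ bq a b c v = 0
    · obtain ⟨v, hv, h⟩ := hz
      exact Or.inl ⟨rat_of51 a b c hne v hv h x hx1, rat_of51 a b c hne v hv h y hy1⟩
    · right
      push Not at hz
      refine ⟨a, b, c, hz, ?_⟩
      intro z
      constructor
      · intro hz1
        by_contra hcon
        push Not at hcon
        -- determinants
        have hd1 : z.rep 0 * x.rep 1 - z.rep 1 * x.rep 0 ≠ 0 := by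
          intro h
          apply hcon.1
          have := (mk_eq51 (Projectivization.rep_nonzero z)
            (Projectivization.rep_nonzero x)).mpr h
          rwa [Projectivization.mk_rep, Projectivization.mk_rep] at this
        have hd2 : z.rep 0 * y.rep 1 - z.rep 1 * y.rep 0 ≠ 0 := by
          intro h
          apply hcon.2
          have := (mk_eq51 (Projectivization.rep_nonzero z)
            (Projectivization.rep_nonzero y)).mpr h
          rwa [Projectivization.mk_rep, Projectivization.mk_rep] at this
        have hd3 : x.rep 0 * y.rep 1 - x.rep 1 * y.rep 0 ≠ 0 := by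
          intro h
          apply hxy
          have := (mk_eq51 (Projectivization.rep_nonzero x)
            (Projectivization.rep_nonzero y)).mpr h
          rwa [Projectivization.mk_rep, Projectivization.mk_rep] at this
        -- the coefficient a vanishes
        have ha0 : a ≠ 0 := by
          have := hz ![1, 0] (by
            intro h0
            have := congrFun h0 0
            simp at this)
          simpa [bq] using this
        apply ha0
        apply (algebraMap F K).injective
        rw [map_zero]
        simp only [bq] at hx1 hy1 hz1
        generalize algebraMap F K a = A at *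
        generalize algebraMap F K b = B at *
        generalize algebraMap F K c = C at *
        generalize x.rep 0 = x0 at *
        generalize x.rep 1 = x1 at *
        generalize y.rep 0 = y0 at *
        generalize y.rep 1 = y1 at *
        generalize z.rep 0 = z0 at *
        generalize z.rep 1 = z1 at *
        have key : A * ((z0 * x1 - z1 * x0) * (z0 * y1 - z1 * y0) * (x0 * y1 - x1 * y0)) = 0 := by
          linear_combination (-(y1 * z1) * (y1 * z0 - y0 * z1)) * hx1
            + (x1 * z1 * (x1 * z0 - x0 * z1)) * hy1 - (x1 * y1 * (x1 * y0 - x0 * y1)) * hz1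
        rcases mul_eq_zero.mp key with h | h
        · exact h
        · exact absurd h (mul_ne_zero (mul_ne_zero hd1 hd2) hd3)
      · rintro (h | h)
        · rw [h]; exact hx1
        · rw [h]; exact hy1

end SpreadPerm.PL
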