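import Pool.Agent.Lib.MP_e6ed9e_al.PL.Defs
import Pool.Agent.Lib.MP_e6ed9e_al.Dix88

/-! # Row DICK without further rows (helper88): from the Klein count on the poles -/

namespace SpreadPerm.PL

open MulAction Pool.Agent.Lib.MP_e6ed9e_al.DIX88

theorem dick88 : StDick := by
  intro H X _ _ _ p hp hD
  have hpF : Fact p.Prime := ⟨hp⟩
  have h1 := hD.fix_pos
  have h2 : ∀ (h : H) (x y z : X), x ≠ y → x ≠ z → y ≠ z → h • x = x → h • y = y →
      h • z = z → h = 1 := by
    intro h x y z hxy hxz hyz hx hy hz
    by_contra hne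
    rcases hD.fix_le h hne x y z hx hy hz with h' | h' | h'
    · exact hxy h'
    · exact hxz h'
    · exact hyz h'
  have hinv : ∀ (x : X) (h : H), IsU x h → IsU x h⁻¹ := by
    intro x h hh
    rcases hh with rfl | hh
    · left; simp
    · right
      intro y
      rw [← hh y, inv_smul_eq_iff]
      exact eq_comm
  let U : X → Subgroup H := fun x =>
    { carrier := {h | IsU x h}
      mul_mem' := fun {a b} ha hb => hD.U_mul x a b ha hb
      one_mem' := Or.inl rfl
      inv_mem' := fun {a} ha => hinv x a ha }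
  have hU : ∀ x h, h ∈ U x ↔ h = 1 ∨ (∀ y, h • y = y ↔ y = x) := fun x h => Iff.rfl
  have hUp : ∀ x, IsPGroup p (U x) := by
    intro x g
    refine ⟨1, ?_⟩
    rw [pow_one]
    exact Subtype.ext (hD.U_pow x g.1 g.2)
  have hUc : ∀ x, Uc H x = Nat.card (U x) := fun x => rfl
  have hwild : ∀ x, 1 < Uc H x ↔ U x ≠ ⊥ := by
    intro x
    rw [hUc, Subgroup.one_lt_card_iff_ne_bot]
  have hset : {z : X | 1 < Uc H z} = {z | U z ≠ ⊥} := by
    ext z; exact hwild z
  rcases dix h1 h2 U hU hUp with h | ⟨x, z, hne, h⟩ | h | ⟨Q, k, hQ, hf, hst, hcard, hk⟩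
  · exact Or.inl h
  · by_cases hT : 1 < Tc H x z
    · exact Or.inr (Or.inl ⟨x, z, hne, hT, h⟩)
    · right; right; left
      classical
      have hT1 : ∀ g : H, g • x = x → g • z = z → g = 1 := by
        intro g hg hg'
        by_contra hne1
        apply hT
        have : Nontrivial {h : H // h • x = x ∧ h • z = z} :=
          ⟨⟨⟨g, hg, hg'⟩, ⟨1, one_smul _ _, one_smul _ _⟩,
            fun hc => hne1 (congrArg Subtype.val hc)⟩⟩
        exact Finite.one_lt_card
      have hinj : Function.Injective (fun g : H => decide (g • x = x)) := by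
        intro g g' hgg
        have hgg' : (g • x = x) ↔ (g' • x = x) := by simpa using hgg
        have h3 : (g⁻¹ * g') • x = x ∧ (g⁻¹ * g') • z = z := by
          rcases h g with ⟨ha, hb⟩ | ⟨ha, hb⟩
          · have hc := hgg'.1 ha
            rcases h g' with ⟨hd, he⟩ | ⟨hd, he⟩
            · constructor
              · rw [mul_smul, hd, inv_smul_eq_iff, ha]
              · rw [mul_smul, he, inv_smul_eq_iff, hb]
            · exact absurd (hc.symm.trans hd) hne
          · rcases h g' with ⟨hd, he⟩ | ⟨hd, he⟩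
            · exact absurd ((hgg'.2 hd).symm.trans ha) hne
            · constructor
              · rw [mul_smul, hd, inv_smul_eq_iff, ha]
              · rw [mul_smul, he, inv_smul_eq_iff, hb]
        have h4 := hT1 _ h3.1 h3.2
        exact (inv_mul_eq_one.1 h4)
      have h5 := Nat.card_le_card_of_injective _ hinj
      have h6 : Nat.card Bool = 2 := by simp
      omega
  · exact Or.inr (Or.inr (Or.inl h))
  · right; right; right
    have hfin := wild_finite hU
    have h3 : 1 < {x | U x ≠ ⊥}.ncard := by omega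
    obtain ⟨x, hx, y, hy, hxy⟩ := (Set.one_lt_ncard (hs := hfin)).1 h3
    have hUx : Nat.card (U x) = Q := (hst x hx).1
    have hSx : Nat.card (stabilizer H x) = Q * k := (hst x hx).2
    -- the torus
    have hsub : orbit (stabilizer H x) y ⊆ {z | U z ≠ ⊥} \ {x} := by
      rintro _ ⟨g, rfl⟩
      constructor
      · show U (g.1 • y) ≠ ⊥
        intro hb
        have h4 := card_conj hU g.1 y
        rw [hb, Subgroup.card_bot] at h4
        exact hy (Subgroup.card_eq_one.1 h4.symm)
      · intro hb
        apply hxy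
        have h5 : g.1 • y = g.1 • x := by
          rw [mem_stabilizer_iff.1 g.2]; exact hb
        exact (MulAction.injective g.1 h5).symm
    have hWx : ({z | U z ≠ ⊥} \ {x}).ncard = Q := by
      have := Set.ncard_sdiff_singleton_add_one (a := x) hx hfin
      omega
    have hUorb : (orbit (U x) y).ncard = Q := by
      have h4 := orbit_mul (H := U x) X y
      have h5 : stabilizer (U x) y = ⊥ := by
        rw [eq_bot_iff]
        intro u hu
        rw [Subgroup.mem_bot]
        exact U_free hU x u y hxy.symm (mem_stabilizer_iff.1 hu)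
      rw [h5, Subgroup.card_bot, mul_one, hUx] at h4
      exact h4
    have hsub2 : orbit (U x) y ⊆ orbit (stabilizer H x) y := by
      rintro _ ⟨u, rfl⟩
      exact ⟨⟨u.1, U_le_stab hU x u.2⟩, rfl⟩
    have horbfin : (orbit (stabilizer H x) y).Finite := Set.finite_range _
    have hle1 : Q ≤ (orbit (stabilizer H x) y).ncard := by
      rw [← hUorb]; exact Set.ncard_le_ncard hsub2 horbfin
    have hle2 : (orbit (stabilizer H x) y).ncard ≤ Q := by
      rw [← hWx]; exact Set.ncard_le_ncard hsub (hfin.subset Set.sdiff_subset)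
    have horbQ : (orbit (stabilizer H x) y).ncard = Q := le_antisymm hle2 hle1
    have hTc : Tc H x y = k := by
      have h4 := orbit_mul (H := stabilizer H x) X y
      have h5 : Nat.card (orbit (stabilizer H x) y) = Q := horbQ
      rw [h5, hSx] at h4
      have h6 : Nat.card (stabilizer (stabilizer H x) y) = k :=
        Nat.eq_of_mul_eq_mul_left (by omega) h4
      rw [← h6]
      refine Nat.card_congr ?_
      exact ⟨fun g => ⟨⟨g.1, g.2.1⟩, g.2.2⟩, fun g => ⟨g.1.1, g.1.2, g.2⟩,
        fun _ => rfl, fun _ => rfl⟩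
    have hUcx : Uc H x = Q := hUx
    rcases hk with hk | hk
    · refine ⟨x, y, 1, hxy, by omega, by rw [hset, hf, hUcx], Or.inl rfl, ?_, ?_⟩
      · rw [hTc, hUcx, hk, one_mul]
      · rw [hTc, hUcx, hcard]; ring
    · refine ⟨x, y, 2, hxy, by omega, by rw [hset, hf, hUcx], Or.inr rfl, ?_, ?_⟩
      · rw [hTc, hUcx, hk]
      · rw [hTc, hUcx, hcard]; ring

end SpreadPerm.PL
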