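import Pool.Agent.Lib.MP_e6ed9e_al.PL.Defs

/-!
# FULL: full unipotent groups at all rational points generate `SL(2,F)`
-/

namespace SpreadPerm.PL

open scoped LinearAlgebra.Projectivization MatrixGroups
open MulAction

noncomputable section

section
variable {F K : Type} [Field F] [Field K] [Algebra F K]

theorem smul_vec1 (g : GL (Fin 2) F) (v : Fin 2 → K) (i : Fin 2) :
    (Matrix.GeneralLinearGroup.map (algebraMap F K) g • v) i =
      algebraMap F K (g.1 i 0) * v 0 + algebraMap F K (g.1 i 1) * v 1 := by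
  rw [Units.smul_def, Matrix.smul_eq_mulVec, Matrix.mulVec, dotProduct, Fin.sum_univ_two]
  rfl

theorem psi_mk1 (g : GL (Fin 2) F) (v : Fin 2 → K) (hv : v ≠ 0) (w : Fin 2 → K) (hw : w ≠ 0) :
    psi F K g (Projectivization.mk K v hv) = Projectivization.mk K w hw ↔
      ∃ a : K, a * w 0 = algebraMap F K (g.1 0 0) * v 0 + algebraMap F K (g.1 0 1) * v 1 ∧
        a * w 1 = algebraMap F K (g.1 1 0) * v 0 + algebraMap F K (g.1 1 1) * v 1 := by
  have h1 : psi F K g (Projectivization.mk K v hv) =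
      Matrix.GeneralLinearGroup.map (algebraMap F K) g • Projectivization.mk K v hv := rfl
  rw [h1, Projectivization.smul_mk, Projectivization.mk_eq_mk_iff']
  constructor
  · rintro ⟨a, ha⟩
    refine ⟨a, ?_, ?_⟩
    · rw [← smul_vec1, ← ha, Pi.smul_apply, smul_eq_mul]
    · rw [← smul_vec1, ← ha, Pi.smul_apply, smul_eq_mul]
  · rintro ⟨a, h0, h1⟩
    refine ⟨a, ?_⟩
    funext i
    rw [smul_vec1, Pi.smul_apply, smul_eq_mul]
    fin_cases i
    · exact h0
    · exact h1

/-- Proportional matrices act in the same way. -/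
theorem psi_eq1 (g t : GL (Fin 2) F) (c : F) (h : ∀ i j, g.1 i j = c * t.1 i j) :
    psi F K g = psi F K t := by
  ext x
  induction x using Projectivization.ind with
  | h v hv =>
    have h2 : psi F K t (Projectivization.mk K v hv) =
      Projectivization.mk K (Matrix.GeneralLinearGroup.map (algebraMap F K) t • v)
        ((smul_ne_zero_iff_ne _).mpr hv) := rfl
    rw [h2, psi_mk1]
    refine ⟨algebraMap F K c, ?_, ?_⟩
    · rw [smul_vec1, h 0 0, h 0 1, map_mul, map_mul]
      ring
    · rw [smul_vec1, h 1 0, h 1 1, map_mul, map_mul]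
      ring

end

section
variable {F : Type} [Field F]

/-- Upper transvections. -/
def UU1 (a : F) : GL (Fin 2) F :=
  Matrix.GeneralLinearGroup.mkOfDetNeZero !![1, a; 0, 1] (by simp [Matrix.det_fin_two])

/-- Lower transvections. -/
def LL1 (a : F) : GL (Fin 2) F :=
  Matrix.GeneralLinearGroup.mkOfDetNeZero !![1, 0; a, 1] (by simp [Matrix.det_fin_two])

theorem UU1_val (a : F) : (UU1 a).1 = !![1, a; 0, 1] := rfl

theorem LL1_val (a : F) : (LL1 a).1 = !![1, 0; a, 1] := rfl

theorem gl_dec1 (g : GL (Fin 2) F) (hg : Matrix.det g.1 = 1) (hc : g.1 1 0 ≠ 0) :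
    g = UU1 ((g.1 0 0 - 1) / g.1 1 0) * LL1 (g.1 1 0) * UU1 ((g.1 1 1 - 1) / g.1 1 0) := by
  rw [Matrix.det_fin_two] at hg
  apply Units.ext
  rw [Units.val_mul, Units.val_mul, UU1_val, LL1_val, UU1_val, Matrix.mul_fin_two,
    Matrix.mul_fin_two]
  ext i j
  fin_cases i <;> fin_cases j
  · simp
    field_simp
    ring
  · simp
    field_simp
    linear_combination -hg
  · simp
  · simp
    field_simp
    ring

theorem gl_gen1 (P : GL (Fin 2) F → Prop) (hm : ∀ a b, P a → P b → P (a * b))
    (hU : ∀ a, P (UU1 a)) (hL : ∀ a, P (LL1 a)) (g : GL (Fin 2) F) (hg : Matrix.det g.1 = 1) :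
    P g := by
  by_cases hc : g.1 1 0 = 0
  · have h0 : g.1 0 0 ≠ 0 := by
      intro h
      rw [Matrix.det_fin_two, h, hc] at hg
      simp at hg
    have h1 : (LL1 1 * g).1 = !![g.1 0 0, g.1 0 1; g.1 0 0, g.1 0 1 + g.1 1 1] := by
      rw [Units.val_mul, LL1_val]
      ext i j
      fin_cases i <;> fin_cases j <;> simp [Matrix.mul_apply, Fin.sum_univ_two, hc]
    have h2 : Matrix.det (LL1 1 * g).1 = 1 := by
      rw [Units.val_mul, Matrix.det_mul, hg, LL1_val]
      simp [Matrix.det_fin_two]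
    have h3 : (LL1 1 * g).1 1 0 ≠ 0 := by
      rw [h1]
      simpa using h0
    have h4 := gl_dec1 (LL1 1 * g) h2 h3
    have h5 : P (LL1 1 * g) := by
      rw [h4]
      exact hm _ _ (hm _ _ (hU _) (hL _)) (hU _)
    have h6 : g = LL1 (-1) * (LL1 1 * g) := by
      rw [← mul_assoc]
      have h7 : LL1 (-1 : F) * LL1 1 = 1 := by
        apply Units.ext
        rw [Units.val_mul, LL1_val, LL1_val, Matrix.mul_fin_two, Units.val_one, Matrix.one_fin_two]
        simp
      rw [h7, one_mul]
    rw [h6]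
    exact hm _ _ (hL _) h5
  · rw [gl_dec1 g hg hc]
    exact hm _ _ (hm _ _ (hU _) (hL _)) (hU _)

end

section
variable {F K : Type} [Field F] [Field K] [Algebra F K]

theorem core_U1 (g : GL (Fin 2) F) (x : PX K) (v : Fin 2 → K) (hv : v ≠ 0)
    (h0 : v 0 = 1) (h1 : v 1 = 0) (hx : x = Projectivization.mk K v hv)
    (h : ∀ y : PX K, psi F K g y = y ↔ y = x) : ∃ a : F, psi F K g = psi F K (UU1 a) := by
  have hfix := (h x).2 rfl
  rw [hx, psi_mk1] at hfix
  obtain ⟨a, ha0, ha1⟩ := hfix
  rw [h0, h1] at ha0 ha1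
  simp only [mul_one, mul_zero, add_zero] at ha0 ha1
  have hr : g.1 1 0 = 0 := (map_eq_zero (algebraMap F K)).1 ha1.symm
  have hps : g.1 0 0 = g.1 1 1 := by
    by_contra hne
    have hne2 : algebraMap F K (g.1 1 1 - g.1 0 0) ≠ 0 := by
      rw [Ne, map_eq_zero]
      exact fun h => hne (sub_eq_zero.1 h).symm
    have hw : (![algebraMap F K (g.1 0 1), algebraMap F K (g.1 1 1 - g.1 0 0)] : Fin 2 → K) ≠ 0 := by
      intro h
      exact hne2 (by simpa using congrFun h 1)
    have h5 := (h (Projectivization.mk K _ hw)).1 (by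
      rw [psi_mk1]
      refine ⟨algebraMap F K (g.1 1 1), ?_, ?_⟩
      · simp only [Matrix.cons_val_zero, Matrix.cons_val_one, map_sub]
        ring
      · simp only [Matrix.cons_val_zero, Matrix.cons_val_one, hr, map_zero]
        ring)
    rw [hx, Projectivization.mk_eq_mk_iff'] at h5
    obtain ⟨b, hb⟩ := h5
    have h6 := congrFun hb 1
    rw [Pi.smul_apply, h1, smul_zero] at h6
    exact hne2 (by simpa using h6.symm)
  have hp : g.1 0 0 ≠ 0 := by
    intro h2
    have h3 : Matrix.det g.1 ≠ 0 := (g.isUnit.map Matrix.detMonoidHom).ne_zero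
    apply h3
    rw [Matrix.det_fin_two, h2, hr]
    simp
  refine ⟨g.1 0 1 / g.1 0 0, psi_eq1 _ _ (g.1 0 0) ?_⟩
  intro i j
  rw [UU1_val]
  fin_cases i <;> fin_cases j
  · simp
  · simp
    field_simp
  · simpa using hr
  · simpa using hps.symm

theorem core_L1 (g : GL (Fin 2) F) (x : PX K) (v : Fin 2 → K) (hv : v ≠ 0)
    (h0 : v 0 = 0) (h1 : v 1 = 1) (hx : x = Projectivization.mk K v hv)
    (h : ∀ y : PX K, psi F K g y = y ↔ y = x) : ∃ a : F, psi F K g = psi F K (LL1 a) := by
  have hfix := (h x).2 rfl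
  rw [hx, psi_mk1] at hfix
  obtain ⟨a, ha0, ha1⟩ := hfix
  rw [h0, h1] at ha0 ha1
  simp only [mul_one, mul_zero, zero_add] at ha0 ha1
  have hr : g.1 0 1 = 0 := (map_eq_zero (algebraMap F K)).1 ha0.symm
  have hps : g.1 0 0 = g.1 1 1 := by
    by_contra hne
    have hne2 : algebraMap F K (g.1 0 0 - g.1 1 1) ≠ 0 := by
      rw [Ne, map_eq_zero]
      exact fun h => hne (sub_eq_zero.1 h)
    have hw : (![algebraMap F K (g.1 0 0 - g.1 1 1), algebraMap F K (g.1 1 0)] : Fin 2 → K) ≠ 0 := by
      intro h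
      exact hne2 (by simpa using congrFun h 0)
    have h5 := (h (Projectivization.mk K _ hw)).1 (by
      rw [psi_mk1]
      refine ⟨algebraMap F K (g.1 0 0), ?_, ?_⟩
      · simp only [Matrix.cons_val_zero, Matrix.cons_val_one, hr, map_zero]
        ring
      · simp only [Matrix.cons_val_zero, Matrix.cons_val_one, map_sub]
        ring)
    rw [hx, Projectivization.mk_eq_mk_iff'] at h5
    obtain ⟨b, hb⟩ := h5
    have h6 := congrFun hb 0
    rw [Pi.smul_apply, h0, smul_zero] at h6
    exact hne2 (by simpa using h6.symm)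
  have hp : g.1 0 0 ≠ 0 := by
    intro h2
    have h3 : Matrix.det g.1 ≠ 0 := (g.isUnit.map Matrix.detMonoidHom).ne_zero
    apply h3
    rw [Matrix.det_fin_two, h2, hr]
    simp
  refine ⟨g.1 1 0 / g.1 0 0, psi_eq1 _ _ (g.1 0 0) ?_⟩
  intro i j
  rw [LL1_val]
  fin_cases i <;> fin_cases j
  · simp
  · simpa using hr
  · simp
    field_simp
  · simpa using hps.symm

/-- Counting. -/
theorem count1 [Finite F] (H : Subgroup (GL (Fin 2) F)) (x : PX K) (W : F → GL (Fin 2) F)
    (hW : W 0 = 1) (hc : Uc (H.map (psi F K)) x = Nat.card F)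
    (hcore : ∀ g : GL (Fin 2) F, (∀ y : PX K, psi F K g y = y ↔ y = x) →
      ∃ a : F, psi F K g = psi F K (W a)) (a : F) : psi F K (W a) ∈ H.map (psi F K) := by
  have h1 : ∀ h : {h : H.map (psi F K) // IsU x h}, ∃ a : F, h.1.1 = psi F K (W a) := by
    rintro ⟨⟨h, g, hg, rfl⟩, hU⟩
    rcases hU with hU | hU
    · refine ⟨0, ?_⟩
      rw [hW, map_one]
      exact congrArg Subtype.val hU
    · exact hcore g hU
  choose φ hφ using h1
  have h2 : Function.Injective φ := by
    intro h h' he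
    apply Subtype.ext
    apply Subtype.ext
    rw [hφ h, hφ h', he]
  have h3 : Function.Bijective φ := h2.bijective_of_nat_card_le (by
    rw [← hc]
    exact le_refl _)
  obtain ⟨h, hh⟩ := h3.2 a
  rw [← hh, ← hφ h]
  exact h.1.2

end

theorem full1 : StFull := by
  intro F K _ _ _ _ _ H hH g hg
  have e1 : up F K ![1, 0] ≠ 0 := by
    intro h
    have := congrFun h 0
    simp [up] at this
  have e2 : up F K ![0, 1] ≠ 0 := by
    intro h
    have := congrFun h 1
    simp [up] at this
  have hU : ∀ a : F, psi F K (UU1 a) ∈ H.map (psi F K) := by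
    apply count1 H (Projectivization.mk K _ e1) UU1
    · apply Units.ext
      rw [UU1_val, Units.val_one, Matrix.one_fin_two]
    · exact hH _ ⟨![1, 0], by intro h; simpa using congrFun h 0, e1, rfl⟩
    · intro g hg
      exact core_U1 g _ _ e1 (by simp [up]) (by simp [up]) rfl hg
  have hL : ∀ a : F, psi F K (LL1 a) ∈ H.map (psi F K) := by
    apply count1 H (Projectivization.mk K _ e2) LL1
    · apply Units.ext
      rw [LL1_val, Units.val_one, Matrix.one_fin_two]
    · exact hH _ ⟨![0, 1], by intro h; simpa using congrFun h 1, e2, rfl⟩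
    · intro g hg
      exact core_L1 g _ _ e2 (by simp [up]) (by simp [up]) rfl hg
  exact gl_gen1 (fun g => psi F K g ∈ H.map (psi F K)) (fun a b ha hb => by
    show psi F K (a * b) ∈ _
    rw [map_mul]
    exact Subgroup.mul_mem _ ha hb) hU hL g hg

end

end SpreadPerm.PL
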