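import Mathlib
import Pool.Agent.Lib.MP_e6ed9e_al.PL.Defs

/-! # Row MAIN: basic lemmas (helper47) -/

namespace SpreadPerm.PL

open scoped LinearAlgebra.Projectivization MatrixGroups
open MulAction

noncomputable section

section
variable {F K : Type} [Field F] [Field K] [Algebra F K]

theorem up_ne {v : Fin 2 → F} (hv : v ≠ 0) : up F K v ≠ 0 := by
  intro h
  apply hv
  funext i
  have := congrFun h i
  exact (map_eq_zero (algebraMap F K)).1 this

theorem gl_smul {R : Type} [Field R] (g : GL (Fin 2) R) (v : Fin 2 → R) : g • v = g.1.mulVec v :=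
  rfl

theorem map_smul_up (g : GL (Fin 2) F) (v : Fin 2 → F) :
    Matrix.GeneralLinearGroup.map (algebraMap F K) g • up F K v = up F K (g • v) := by
  rw [gl_smul, gl_smul]
  funext i
  simp [up, Matrix.mulVec, dotProduct]

theorem psi_apply (g : GL (Fin 2) F) (x : PX K) :
    psi F K g x = Matrix.GeneralLinearGroup.map (algebraMap F K) g • x := rfl

theorem psi_mk (g : GL (Fin 2) F) {u : Fin 2 → K} (hu : u ≠ 0) :
    psi F K g (Projectivization.mk K u hu) =
      Projectivization.mk K (Matrix.GeneralLinearGroup.map (algebraMap F K) g • u)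
        ((smul_ne_zero_iff_ne _).2 hu) := rfl

theorem psi_up (g : GL (Fin 2) F) {v : Fin 2 → F} (h : up F K v ≠ 0)
    (h' : up F K (g • v) ≠ 0) :
    psi F K g (Projectivization.mk K (up F K v) h) = Projectivization.mk K (up F K (g • v)) h' := by
  rw [psi_mk]
  congr 1
  exact map_smul_up g v

/-- Rational vectors which are proportional over the big field. -/
theorem mk_up_eq {v w : Fin 2 → F} (h : up F K v ≠ 0) (h' : up F K w ≠ 0)
    (he : Projectivization.mk K (up F K v) h = Projectivization.mk K (up F K w) h') :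
    ∃ c : F, v = c • w := by
  rw [Projectivization.mk_eq_mk_iff'] at he
  obtain ⟨a, ha⟩ := he
  have h0 : ∀ i, a * algebraMap F K (w i) = algebraMap F K (v i) := fun i => congrFun ha i
  have hw : ∃ i, w i ≠ 0 := by
    by_contra hcon
    push Not at hcon
    apply h'
    funext i
    show algebraMap F K (w i) = 0
    rw [hcon i, map_zero]
  obtain ⟨i, hi⟩ := hw
  refine ⟨v i / w i, ?_⟩
  have hai : a = algebraMap F K (v i / w i) := by
    rw [map_div₀, ← h0 i, mul_div_cancel_right₀]
    exact fun h => hi ((map_eq_zero (algebraMap F K)).1 h)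
  funext j
  have h1 := h0 j
  rw [hai, ← map_mul] at h1
  exact ((algebraMap F K).injective h1).symm

/-- The rational points. -/
def rp (F K : Type) [Field F] [Field K] [Algebra F K] : Option F → PX K
  | none => Projectivization.mk K (up F K ![1, 0]) (up_ne (by
      intro h
      exact one_ne_zero (congrFun h 0)))
  | some t => Projectivization.mk K (up F K ![t, 1]) (up_ne (by
      intro h
      exact one_ne_zero (congrFun h 1)))

theorem rp_rat (o : Option F) : Rat F K (rp F K o) := by
  cases o with
  | none => exact ⟨![1, 0], by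
      intro h
      exact one_ne_zero (congrFun h 0), _, rfl⟩
  | some t => exact ⟨![t, 1], by
      intro h
      exact one_ne_zero (congrFun h 1), _, rfl⟩

theorem rp_inj : Function.Injective (rp F K) := by
  intro o o' h
  cases o with
  | none =>
    cases o' with
    | none => rfl
    | some t =>
      obtain ⟨c, hc⟩ := mk_up_eq _ _ h
      have h0 : (0 : F) = c * 1 := congrFun hc 1
      have h1 : (1 : F) = c * t := congrFun hc 0
      rw [mul_one] at h0
      rw [← h0, zero_mul] at h1
      exact absurd h1 one_ne_zero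
  | some t =>
    cases o' with
    | none =>
      obtain ⟨c, hc⟩ := mk_up_eq _ _ h
      have h0 : (1 : F) = c * 0 := congrFun hc 1
      rw [mul_zero] at h0
      exact absurd h0 one_ne_zero
    | some s =>
      obtain ⟨c, hc⟩ := mk_up_eq _ _ h
      have h0 : (1 : F) = c * 1 := congrFun hc 1
      have h1 : t = c * s := congrFun hc 0
      rw [mul_one] at h0
      rw [← h0, one_mul] at h1
      rw [h1]

theorem rat_iff (x : PX K) : Rat F K x ↔ ∃ o, rp F K o = x := by
  constructor
  · rintro ⟨v, hv, h, rfl⟩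
    by_cases h1 : v 1 = 0
    · refine ⟨none, ?_⟩
      have h0 : v 0 ≠ 0 := by
        intro h0
        apply hv
        funext i
        fin_cases i
        · exact h0
        · exact h1
      show Projectivization.mk K (up F K ![1, 0]) _ = _
      rw [Projectivization.mk_eq_mk_iff']
      refine ⟨(algebraMap F K (v 0))⁻¹, ?_⟩
      funext i
      fin_cases i
      · show (algebraMap F K (v 0))⁻¹ * algebraMap F K (v 0) = algebraMap F K 1
        rw [map_one]
        exact inv_mul_cancel₀ (fun h => h0 ((map_eq_zero (algebraMap F K)).1 h))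
      · show (algebraMap F K (v 0))⁻¹ * algebraMap F K (v 1) = algebraMap F K 0
        rw [h1, map_zero, mul_zero]
    · refine ⟨some (v 0 / v 1), ?_⟩
      show Projectivization.mk K (up F K ![v 0 / v 1, 1]) _ = _
      rw [Projectivization.mk_eq_mk_iff']
      refine ⟨(algebraMap F K (v 1))⁻¹, ?_⟩
      have h1' : algebraMap F K (v 1) ≠ 0 := fun h => h1 ((map_eq_zero (algebraMap F K)).1 h)
      funext i
      fin_cases i
      · show (algebraMap F K (v 1))⁻¹ * algebraMap F K (v 0) = algebraMap F K (v 0 / v 1)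
        rw [map_div₀]
        field_simp
      · show (algebraMap F K (v 1))⁻¹ * algebraMap F K (v 1) = algebraMap F K 1
        rw [map_one]
        exact inv_mul_cancel₀ h1'
  · rintro ⟨o, rfl⟩
    exact rp_rat o

/-- The image of a rational point is rational. -/
theorem rat_psi {g : GL (Fin 2) F} {x : PX K} (hx : Rat F K x) : Rat F K (psi F K g x) := by
  obtain ⟨v, hv, h, rfl⟩ := hx
  have h1 : g • v ≠ 0 := (smul_ne_zero_iff_ne g).2 hv
  exact ⟨g • v, h1, up_ne h1, psi_up g h (up_ne h1)⟩

/-- The substitution of a matrix in a form. -/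
theorem bq_subst {R : Type} [CommRing R] (a b c α β γ δ : R) (v : Fin 2 → R) :
    bq a b c (fun i => if i = 0 then α * v 0 + β * v 1 else γ * v 0 + δ * v 1) =
      bq (a * α ^ 2 + b * (α * γ) + c * γ ^ 2)
        (2 * a * (α * β) + b * (α * δ + β * γ) + 2 * c * (γ * δ))
        (a * β ^ 2 + b * (β * δ) + c * δ ^ 2) v := by
  simp only [bq, if_true, Fin.isValue, one_ne_zero, if_false]
  ring

theorem bq_smul {R : Type} [CommRing R] (a b c l : R) (v : Fin 2 → R) :
    bq a b c (l • v) = l ^ 2 * bq a b c v := by
  simp only [bq, Pi.smul_apply, smul_eq_mul]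
  ring

theorem bq_gl {R : Type} [Field R] (a b c : R) (g : GL (Fin 2) R) (v : Fin 2 → R) :
    bq a b c (g • v) =
      bq (a * (g.1 0 0) ^ 2 + b * (g.1 0 0 * g.1 1 0) + c * (g.1 1 0) ^ 2)
        (2 * a * (g.1 0 0 * g.1 0 1) + b * (g.1 0 0 * g.1 1 1 + g.1 0 1 * g.1 1 0) +
          2 * c * (g.1 1 0 * g.1 1 1))
        (a * (g.1 0 1) ^ 2 + b * (g.1 0 1 * g.1 1 1) + c * (g.1 1 1) ^ 2) v := by
  rw [← bq_subst, gl_smul]
  congr 1
  funext i
  fin_cases i <;> simp [Matrix.mulVec, dotProduct, Fin.sum_univ_two]

/-- Two forms with a common zero, one of them anisotropic over `F`. -/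
theorem prop_of_zero {a b c a' b' c' : F} (h : ∀ v : Fin 2 → F, v ≠ 0 → bq a b c v ≠ 0)
    (u : Fin 2 → K) (hu : u ≠ 0)
    (h1 : bq (algebraMap F K a) (algebraMap F K b) (algebraMap F K c) u = 0)
    (h2 : bq (algebraMap F K a') (algebraMap F K b') (algebraMap F K c') u = 0) :
    ∃ l : F, a' = l * a ∧ b' = l * b ∧ c' = l * c := by
  have ha : a ≠ 0 := by
    intro ha
    apply h ![1, 0] (by
      intro h
      exact one_ne_zero (congrFun h 0))
    simp [bq, ha]
  have hu1 : u 1 ≠ 0 := by
    intro hu1
    apply hu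
    have h3 : algebraMap F K a * u 0 ^ 2 = 0 := by
      simpa [bq, hu1] using h1
    have h4 : u 0 = 0 := by
      rcases mul_eq_zero.1 h3 with h5 | h5
      · exact absurd ((map_eq_zero (algebraMap F K)).1 h5) ha
      · exact pow_eq_zero_iff (two_ne_zero) |>.1 h5
    funext i
    fin_cases i
    · exact h4
    · exact hu1
  set β := a * b' - a' * b with hβ
  set γ := a * c' - a' * c with hγ
  have h3 : algebraMap F K β * u 0 + algebraMap F K γ * u 1 = 0 := by
    have h4 : u 1 * (algebraMap F K β * u 0 + algebraMap F K γ * u 1) = 0 := by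
      simp only [bq] at h1 h2
      rw [hβ, hγ]
      simp only [map_sub, map_mul]
      linear_combination (algebraMap F K a) * h2 - (algebraMap F K a') * h1
    rcases mul_eq_zero.1 h4 with h5 | h5
    · exact absurd h5 hu1
    · exact h5
  have hβ0 : β = 0 := by
    by_contra hβ0
    have hβK : algebraMap F K β ≠ 0 := fun h => hβ0 ((map_eq_zero (algebraMap F K)).1 h)
    have h4 : u 0 = algebraMap F K (-γ / β) * u 1 := by
      rw [map_div₀, map_neg]
      field_simp
      linear_combination h3
    have h5 : algebraMap F K (bq a b c ![-γ / β, 1]) = 0 := by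
      have h6 : bq (algebraMap F K a) (algebraMap F K b) (algebraMap F K c) u =
          u 1 ^ 2 * algebraMap F K (bq a b c ![-γ / β, 1]) := by
        simp only [bq, h4, map_add, map_mul, map_pow, Matrix.cons_val_zero, Matrix.cons_val_one,
          Matrix.cons_val_fin_one, map_one]
        ring
      rw [h6] at h1
      rcases mul_eq_zero.1 h1 with h7 | h7
      · exact absurd (pow_eq_zero_iff (two_ne_zero) |>.1 h7) hu1
      · exact h7
    exact h ![-γ / β, 1] (by
      intro h
      exact one_ne_zero (congrFun h 1)) ((map_eq_zero (algebraMap F K)).1 h5)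
  have hγ0 : γ = 0 := by
    rw [hβ0, map_zero, zero_mul, zero_add] at h3
    rcases mul_eq_zero.1 h3 with h5 | h5
    · exact (map_eq_zero (algebraMap F K)).1 h5
    · exact absurd h5 hu1
  refine ⟨a' / a, ?_, ?_, ?_⟩
  · field_simp
  · field_simp
    linear_combination hβ0
  · field_simp
    linear_combination hγ0

theorem bq_map (a b c : F) (g : GL (Fin 2) F) (u : Fin 2 → K) :
    bq (algebraMap F K a) (algebraMap F K b) (algebraMap F K c)
      (Matrix.GeneralLinearGroup.map (algebraMap F K) g • u) =
    bq (algebraMap F K (a * (g.1 0 0) ^ 2 + b * (g.1 0 0 * g.1 1 0) + c * (g.1 1 0) ^ 2))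
      (algebraMap F K (2 * a * (g.1 0 0 * g.1 0 1) +
        b * (g.1 0 0 * g.1 1 1 + g.1 0 1 * g.1 1 0) + 2 * c * (g.1 1 0 * g.1 1 1)))
      (algebraMap F K (a * (g.1 0 1) ^ 2 + b * (g.1 0 1 * g.1 1 1) + c * (g.1 1 1) ^ 2)) u := by
  rw [bq_gl]
  have h2 : algebraMap F K 2 = 2 := map_ofNat _ 2
  simp [h2]

/-- A form which vanishes at a point and at its image is multiplied by a scalar. -/
theorem form_scal {a b c : F} (h : ∀ v : Fin 2 → F, v ≠ 0 → bq a b c v ≠ 0) (g : GL (Fin 2) F)
    (x : PX K)
    (h1 : bq (algebraMap F K a) (algebraMap F K b) (algebraMap F K c) x.rep = 0)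
    (h2 : bq (algebraMap F K a) (algebraMap F K b) (algebraMap F K c) (psi F K g x).rep = 0) :
    ∃ l : F, ∀ v : Fin 2 → F, bq a b c (g • v) = l * bq a b c v := by
  have h3 : bq (algebraMap F K a) (algebraMap F K b) (algebraMap F K c)
      (Matrix.GeneralLinearGroup.map (algebraMap F K) g • x.rep) = 0 := by
    have h4 : psi F K g x = Projectivization.mk K
        (Matrix.GeneralLinearGroup.map (algebraMap F K) g • x.rep)
        ((smul_ne_zero_iff_ne _).2 x.rep_nonzero) := by
      conv_lhs => rw [← x.mk_rep]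
      exact psi_mk g x.rep_nonzero
    have h5 : Projectivization.mk K (psi F K g x).rep (psi F K g x).rep_nonzero =
        Projectivization.mk K (Matrix.GeneralLinearGroup.map (algebraMap F K) g • x.rep)
        ((smul_ne_zero_iff_ne _).2 x.rep_nonzero) := by
      rw [(psi F K g x).mk_rep]
      exact h4
    rw [eq_comm, Projectivization.mk_eq_mk_iff'] at h5
    obtain ⟨l, hl⟩ := h5
    rw [← hl, bq_smul, h2, mul_zero]
  rw [bq_map] at h3
  obtain ⟨l, ha, hb, hc⟩ := prop_of_zero h x.rep x.rep_nonzero h1 h3
  refine ⟨l, fun v => ?_⟩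
  rw [bq_gl, ha, hb, hc]
  simp only [bq]
  ring

end

end

end SpreadPerm.PL
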