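import Mathlib
import Pool.Agent.Lib.MP_e6ed9e_al.PL.Defs
import Pool.Agent.Lib.MP_e6ed9e_al.PL.Base47

/-! # Row MAIN (helper47) -/

namespace SpreadPerm.PL

open scoped LinearAlgebra.Projectivization MatrixGroups
open MulAction

noncomputable section

/-- The elliptic case: the points are the anisotropic forms. -/
theorem ell47 (hCard : StCard) (hTra : StTra) (hCon : StCon)
    (F Ω : Type) [Field F] [Fintype F] [Fintype Ω]
    (Γ : Subgroup (GL (Fin 2) F)) [MulAction Γ Ω] [IsPretransitive Γ Ω] (A B C : Ω → F)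
    (hE : Ell F Γ Ω A B C) (hq : 10000 ≤ Fintype.card F) (hs : Spreading Γ Ω) :
    ringChar F = 2 ∧ (Fintype.card F - 1).Prime ∧
      2 * Fintype.card Ω = Fintype.card F * (Fintype.card F - 1) := by
  have hc := hCard F Ω Γ A B C hE
  by_cases h2 : ringChar F = 2
  · refine ⟨h2, ?_, hc⟩
    by_contra hnp
    have heven : Fintype.card F % 2 = 0 := FiniteField.even_card_of_char_two h2
    have hg : Nat.gcd 2 (Fintype.card F - 1) = 1 := by
      have : (Fintype.card F - 1) % 2 = 1 := by omega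
      rw [Nat.gcd_rec, this]
      rfl
    obtain ⟨d, hd1, hd2, hd3⟩ := (Nat.not_prime_iff_exists_dvd_lt (by omega)).1 hnp
    obtain ⟨e, he⟩ := hd1
    have he2 : 2 ≤ e := by
      by_contra hcon
      have : e = 0 ∨ e = 1 := by omega
      rcases this with rfl | rfl
      · omega
      · omega
    exact hs (hTra F Ω Γ A B C hE (Fintype.card F - 1) d e (by rw [hg, Nat.div_one]) he hd2 he2)
  · exfalso
    have hodd : Fintype.card F % 2 = 1 := FiniteField.odd_card_of_char_ne_two h2
    have h4 : Fintype.card F % 4 = 3 ∨ Fintype.card F % 4 = 1 := by omega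
    rcases h4 with h4 | h4
    · exact hs (hCon F Ω Γ A B C hE h4 (by omega))
    · have hg : Nat.gcd 2 (Fintype.card F - 1) = 2 := by
        apply Nat.gcd_eq_left
        omega
      exact hs (hTra F Ω Γ A B C hE ((Fintype.card F - 1) / 2) 2 ((Fintype.card F - 1) / 4)
        (by rw [hg]) (by omega) le_rfl (by omega))

section
variable {F K Ω : Type} [Field F] [Field K] [Algebra F K]
  {Γ : Subgroup (GL (Fin 2) F)} [MulAction Γ Ω]

/-- The group on the projective line over the big field. -/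
abbrev HB (F K : Type) [Field F] [Field K] [Algebra F K] {Ω : Type}
    (Γ : Subgroup (GL (Fin 2) F)) [MulAction Γ Ω] (ω : Ω) : Subgroup (Equiv.Perm (PX K)) :=
  ((stabilizer Γ ω).map Γ.subtype).map (psi F K)

theorem mem_HB {ω : Ω} (h : Equiv.Perm (PX K)) :
    h ∈ HB F K Γ ω ↔ ∃ g : Γ, g • ω = ω ∧ psi F K g.1 = h := by
  constructor
  · rintro ⟨g', ⟨g, hg, rfl⟩, rfl⟩
    exact ⟨g, hg, rfl⟩
  · rintro ⟨g, hg, rfl⟩
    exact ⟨g.1, ⟨g, hg, rfl⟩, rfl⟩

/-- A set which is not all rational points. -/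
theorem ex_rat [Fintype F] (S : Set (PX K)) (hS : S.Finite) (hc : S.ncard < Fintype.card F + 1) :
    ∃ y : PX K, Rat F K y ∧ y ∉ S := by
  by_contra hcon
  push Not at hcon
  have h1 : Set.range (rp F K) ⊆ S := by
    rintro _ ⟨o, rfl⟩
    exact hcon _ (rp_rat o)
  have h2 : (Set.range (rp F K)).ncard = Fintype.card F + 1 := by
    rw [← Set.image_univ, Set.ncard_image_of_injective _ rp_inj, Set.ncard_univ,
      Nat.card_eq_fintype_card, Fintype.card_option]
  have h3 := Set.ncard_le_ncard h1 hS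
  omega

/-- Conjugation invariance of the unipotent order. -/
theorem Uc_smul {H X : Type} [Group H] [MulAction H X] (g : H) (x : X) :
    Uc H (g • x) = Uc H x := by
  have key : ∀ (a : H) (z : X) (h : H), IsU z h → IsU (a • z) (a * h * a⁻¹) := by
    intro a z h hh
    rcases hh with rfl | hh
    · left
      group
    · right
      intro y
      rw [mul_smul, mul_smul]
      constructor
      · intro hy
        have h1 : h • a⁻¹ • y = a⁻¹ • y := by
          conv_rhs => rw [← hy]
          rw [inv_smul_smul]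
        rw [← (hh _).1 h1, smul_inv_smul]
      · rintro rfl
        rw [inv_smul_smul, (hh z).2 rfl]
  unfold Uc
  apply Nat.card_congr
  refine ⟨fun h => ⟨g⁻¹ * h.1 * g, ?_⟩, fun h => ⟨g * h.1 * g⁻¹, key g x h.1 h.2⟩, ?_, ?_⟩
  · have := key g⁻¹ (g • x) h.1 h.2
    rwa [inv_smul_smul, inv_inv] at this
  · intro h
    apply Subtype.ext
    show g * (g⁻¹ * h.1 * g) * g⁻¹ = h.1
    group
  · intro h
    apply Subtype.ext
    show g⁻¹ * (g * h.1 * g⁻¹) * g = h.1
    group

theorem one_lt_card_ex {α : Type} [Finite α] (h : 1 < Nat.card α) (a : α) : ∃ b : α, b ≠ a := by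
  by_contra hcon
  push Not at hcon
  have : Subsingleton α := ⟨fun x y => (hcon x).trans (hcon y).symm⟩
  have h1 : Nat.card α ≤ 1 := Finite.card_le_one_iff_subsingleton.2 this
  omega

end

/-- Few elements: non-spreading. -/
theorem small47 (hIntr : StIntr) (F K Ω : Type) [Field F] [Fintype F] [Field K] [IsAlgClosed K]
    [Algebra F K] [Fintype Ω] (Γ : Subgroup (GL (Fin 2) F)) [MulAction Γ Ω]
    [IsPretransitive Γ Ω] (hL : LAct F Γ Ω) (ω : Ω) (hq : 10000 ≤ Fintype.card F)
    [Finite (HB F K Γ ω)] (h60 : Nat.card (HB F K Γ ω) ≤ 60) : NonSpreading Γ Ω := by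
  refine hIntr F K Ω Γ hL ω hq ?_ ?_
  · calc Nat.card (HB F K Γ ω) ^ 2 ≤ 60 ^ 2 := Nat.pow_le_pow_left h60 2
      _ ≤ Fintype.card F ^ 1 := by
        rw [pow_one]
        omega
      _ ≤ Fintype.card F ^ 3 := Nat.pow_le_pow_right (by omega) (by norm_num)
  · have hfin : (Set.range (fun h : HB F K Γ ω => h.1 (rp F K none))).Finite :=
      Set.finite_range _
    have hcard : (Set.range (fun h : HB F K Γ ω => h.1 (rp F K none))).ncard ≤ 60 := by
      rw [← Set.image_univ]
      refine (Set.ncard_image_le (Set.finite_univ)).trans ?_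
      rwa [Set.ncard_univ]
    obtain ⟨y, hy1, hy2⟩ := ex_rat (F := F) _ hfin (by omega)
    refine ⟨rp F K none, y, rp_rat none, hy1, fun g hg h => hy2 ⟨⟨psi F K g.1, ?_⟩, h⟩⟩
    exact (mem_HB _).2 ⟨g, hg, rfl⟩

/-- MAIN -/
theorem main47 (hPrim : StPrim) (hBorel : StBorel) (hPair : StPair) (hLabel : StLabel)
    (hCard : StCard) (hTra : StTra) (hCon : StCon) (hIntr : StIntr) (hDick : StDick)
    (hSyl : StSyl) (hPgl : StPgl) (hRat : StRat) (hSub : StSub) (hFull : StFull)
    (hKer : StKer) : StMain := by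
  intro F Ω _ _ _ Γ _ _ hL hq hs
  obtain ⟨g0, hg0, ω, hω⟩ := hL.nt
  have hΩ : 1 < Fintype.card Ω := Fintype.one_lt_card_iff.2 ⟨_, _, hω⟩
  have hcoat := hPrim Γ Ω hs hΩ
  let K := AlgebraicClosure F
  let p := ringChar F
  have : CharP F p := ringChar.charP F
  have hp : p.Prime := CharP.char_is_prime F p
  have hD : DAct (HB F K Γ ω) (PX K) p := hPgl F K p hp _
  have : Finite (HB F K Γ ω) := by
    have h1 : ((HB F K Γ ω : Subgroup (Equiv.Perm (PX K))) : Set (Equiv.Perm (PX K))).Finite := by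
      have : ((((stabilizer Γ ω).map Γ.subtype) : Subgroup (GL (Fin 2) F)) :
        Set (GL (Fin 2) F)).Finite := Set.toFinite _
      exact this.image _
    exact h1.to_subtype
  -- the elliptic case
  have hell : ∀ (a b c : F) (x : PX K), (∀ v : Fin 2 → F, v ≠ 0 → bq a b c v ≠ 0) →
      bq (algebraMap F K a) (algebraMap F K b) (algebraMap F K c) x.rep = 0 →
      (∀ g : Γ, g • ω = ω → bq (algebraMap F K a) (algebraMap F K b) (algebraMap F K c)
        (psi F K g.1 x).rep = 0) →
      ringChar F = 2 ∧ (Fintype.card F - 1).Prime ∧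
      2 * Fintype.card Ω = Fintype.card F * (Fintype.card F - 1) := by
    intro a b c x han hx hgx
    obtain ⟨A, B, C, hE⟩ := hLabel F Ω Γ hL ω (hcoat ω) (by omega)
      ⟨a, b, c, han, fun g hg => form_scal han g.1 x hx (hgx g hg)⟩
    exact ell47 hCard hTra hCon F Ω Γ A B C hE hq hs
  rcases hDick (HB F K Γ ω) (PX K) p hp hD with hA | hB | hC | hE
  · obtain ⟨x, hx⟩ := hA
    have hx' : ∀ g : Γ, g • ω = ω → psi F K g.1 x = x := fun g hg =>
      hx ⟨psi F K g.1, (mem_HB _).2 ⟨g, hg, rfl⟩⟩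
    by_cases hr : Rat F K x
    · left
      obtain ⟨v, hv, hv1, rfl⟩ := hr
      refine hBorel F Ω Γ hL ω (hcoat ω) ⟨v, hv, fun g hg => ?_⟩
      have h1 := hx' g hg
      have h2 : g.1 • v ≠ 0 := (smul_ne_zero_iff_ne g.1).2 hv
      rw [psi_up g.1 hv1 (up_ne h2)] at h1
      exact mk_up_eq _ _ h1
    · by_cases hone : ∀ h : HB F K Γ ω, h = 1
      · exfalso
        refine hs (small47 hIntr F K Ω Γ hL ω hq ?_)
        have : Subsingleton (HB F K Γ ω) := ⟨fun x y => (hone x).trans (hone y).symm⟩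
        have h1 : Nat.card (HB F K Γ ω) ≤ 1 := Finite.card_le_one_iff_subsingleton.2 this
        omega
      · push Not at hone
        obtain ⟨h, hh⟩ := hone
        obtain ⟨g, hg, hgh⟩ := (mem_HB _).1 h.2
        have hg1 : psi F K g.1 ≠ 1 := by
          intro h1
          apply hh
          apply Subtype.ext
          rw [← hgh, h1]
          rfl
        obtain ⟨r1, r2⟩ := hRat F K g.1 hg1
        have h3 : ∃ y, psi F K g.1 y = y ∧ y ≠ x := by
          by_contra hcon
          push Not at hcon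
          exact hr (r1 x (fun y => ⟨hcon y, fun hy => by rw [hy]; exact hx' g hg⟩))
        obtain ⟨y, hy1, hy2⟩ := h3
        rcases r2 x y (Ne.symm hy2) (hx' g hg) hy1 with h4 | ⟨a, b, c, han, hz⟩
        · exact absurd h4.1 hr
        · right
          refine hell a b c x han ((hz x).2 (Or.inl rfl)) (fun g' hg' => ?_)
          rw [hx' g' hg']
          exact (hz x).2 (Or.inl rfl)
  · obtain ⟨x, y, hxy, hT, hst⟩ := hB
    have hst' : ∀ g : Γ, g • ω = ω → (psi F K g.1 x = x ∧ psi F K g.1 y = y) ∨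
        (psi F K g.1 x = y ∧ psi F K g.1 y = x) := fun g hg =>
      hst ⟨psi F K g.1, (mem_HB _).2 ⟨g, hg, rfl⟩⟩
    obtain ⟨⟨h, hh1, hh2⟩, hh3⟩ := one_lt_card_ex hT ⟨1, one_smul _ x, one_smul _ y⟩
    obtain ⟨g, hg, hgh⟩ := (mem_HB _).1 h.2
    have hg1 : psi F K g.1 ≠ 1 := by
      intro h1
      apply hh3
      apply Subtype.ext
      apply Subtype.ext
      rw [← hgh, h1]
      rfl
    have hgx : psi F K g.1 x = x := by rw [hgh]; exact hh1
    have hgy : psi F K g.1 y = y := by rw [hgh]; exact hh2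
    obtain ⟨r1, r2⟩ := hRat F K g.1 hg1
    rcases r2 x y hxy hgx hgy with ⟨⟨v, hv, hv1, rfl⟩, ⟨w, hw, hw1, rfl⟩⟩ | ⟨a, b, c, han, hz⟩
    · exfalso
      have hne : ∀ (u t : Fin 2 → F) (hu : up F K u ≠ 0) (ht : up F K t ≠ 0),
          Projectivization.mk K (up F K u) hu ≠ Projectivization.mk K (up F K t) ht →
          ∀ c : F, u ≠ c • t := by
        intro u t hu ht hne c hc
        apply hne
        rw [Projectivization.mk_eq_mk_iff']
        refine ⟨algebraMap F K c, ?_⟩
        rw [hc]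
        funext i
        simp [up]
      refine hs (hPair F Ω Γ hL ω (hcoat ω) (by omega) ⟨v, w, hne v w hv1 hw1 hxy,
        hne w v hw1 hv1 hxy.symm, fun g' hg' => ?_⟩)
      have h2 : g'.1 • v ≠ 0 := (smul_ne_zero_iff_ne g'.1).2 hv
      have h3 : g'.1 • w ≠ 0 := (smul_ne_zero_iff_ne g'.1).2 hw
      rcases hst' g' hg' with ⟨h4, h5⟩ | ⟨h4, h5⟩
      · left
        rw [psi_up g'.1 hv1 (up_ne h2)] at h4
        rw [psi_up g'.1 hw1 (up_ne h3)] at h5
        exact ⟨mk_up_eq _ _ h4, mk_up_eq _ _ h5⟩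
      · right
        rw [psi_up g'.1 hv1 (up_ne h2)] at h4
        rw [psi_up g'.1 hw1 (up_ne h3)] at h5
        exact ⟨mk_up_eq _ _ h4, mk_up_eq _ _ h5⟩
    · right
      refine hell a b c x han ((hz x).2 (Or.inl rfl)) (fun g' hg' => ?_)
      rcases hst' g' hg' with ⟨h4, -⟩ | ⟨h4, -⟩
      · rw [h4]
        exact (hz x).2 (Or.inl rfl)
      · rw [h4]
        exact (hz y).2 (Or.inr rfl)
  · exact absurd (small47 hIntr F K Ω Γ hL ω hq hC) hs
  · exfalso
    obtain ⟨x, y, d, hxy, hU, hcard, hd, hdT, hHB⟩ := hE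
    have hZrat : ∀ z : PX K, 1 < Uc (HB F K Γ ω) z → Rat F K z := by
      intro z hz
      obtain ⟨⟨h, hh⟩, hh3⟩ := one_lt_card_ex hz ⟨1, Or.inl rfl⟩
      have hne : h ≠ 1 := by
        intro h1
        apply hh3
        apply Subtype.ext
        exact h1
      obtain ⟨g, hg, hgh⟩ := (mem_HB _).1 h.2
      have hg1 : psi F K g.1 ≠ 1 := by
        intro h1
        apply hne
        apply Subtype.ext
        rw [← hgh, h1]
        rfl
      rcases hh with hh | hh
      · exact absurd hh hne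
      · refine (hRat F K g.1 hg1).1 z (fun y => ?_)
        rw [hgh]
        exact hh y
    obtain ⟨hs1, hs2, hs3⟩ := hSyl (HB F K Γ ω) (PX K) p hp hD x hU
    have hT0 : 0 < Tc (HB F K Γ ω) x y := by
      unfold Tc
      have : Nonempty {h : HB F K Γ ω // h • x = x ∧ h • y = y} :=
        ⟨⟨1, one_smul _ x, one_smul _ y⟩⟩
      exact Nat.card_pos
    have hZfin : {z : PX K | 1 < Uc (HB F K Γ ω) z}.Finite := by
      apply Set.finite_of_ncard_pos
      omega
    rcases hSub F K _ x y d hxy hU hd hdT with hQ | hQ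
    · -- the full group
      have hall : ∀ z : PX K, Rat F K z → 1 < Uc (HB F K Γ ω) z := by
        by_contra hcon
        push Not at hcon
        obtain ⟨z, hz1, hz2⟩ := hcon
        have h1 : insert z {z : PX K | 1 < Uc (HB F K Γ ω) z} ⊆ Set.range (rp F K) := by
          rintro w (rfl | hw)
          · exact (rat_iff _).1 hz1
          · exact (rat_iff _).1 (hZrat w hw)
        have h2 : (Set.range (rp F K)).ncard = Fintype.card F + 1 := by
          rw [← Set.image_univ, Set.ncard_image_of_injective _ rp_inj, Set.ncard_univ,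
            Nat.card_eq_fintype_card, Fintype.card_option]
        have h3 := Set.ncard_le_ncard h1 (Set.finite_range _)
        rw [Set.ncard_insert_of_notMem (by
          show ¬ (1 < Uc (HB F K Γ ω) z)
          omega) hZfin, hcard, hQ, Nat.card_eq_fintype_card] at h3
        omega
      have hUall : ∀ z : PX K, Rat F K z → Uc (HB F K Γ ω) z = Nat.card F := by
        intro z hz
        obtain ⟨h, rfl⟩ := (hs1 z).1 (hall z hz)
        rw [Uc_smul, hQ]
      obtain ⟨g1, hg1, hg1'⟩ := (mem_HB _).1 (hFull F K _ hUall g0.1 hg0)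
      have h1 : psi F K (g0 * g1⁻¹ : Γ).1 = 1 := by
        show psi F K (g0.1 * g1.1⁻¹) = 1
        rw [map_mul, map_inv, hg1', mul_inv_cancel]
      have h2 := hL.sc (g0 * g1⁻¹) ((hKer F K _).1 h1) ω
      rw [mul_smul, inv_smul_eq_iff.2 hg1.symm] at h2
      exact hω h2
    · -- a subfield group
      apply hs
      rw [Nat.card_eq_fintype_card] at hQ
      have hlt : Uc (HB F K Γ ω) x < Fintype.card F := by nlinarith
      have hTle : Tc (HB F K Γ ω) x y ≤ Uc (HB F K Γ ω) x - 1 := by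
        rw [← hdT]
        rcases hd with rfl | rfl
        · omega
        · omega
      refine hIntr F K Ω Γ hL ω hq ?_ ?_
      · have h1 : Nat.card (HB F K Γ ω) ≤ Uc (HB F K Γ ω) x ^ 3 := by
          rw [hHB]
          generalize Uc (HB F K Γ ω) x = Q at *
          generalize Tc (HB F K Γ ω) x y = T at *
          obtain ⟨r, rfl⟩ : ∃ r, Q = r + 1 := ⟨Q - 1, by omega⟩
          have h2 : T ≤ r := by omega
          calc (r + 1 + 1) * ((r + 1) * T) ≤ (r + 1 + 1) * ((r + 1) * r) := by gcongr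
            _ ≤ (r + 1) ^ 3 := by nlinarith
        calc Nat.card (HB F K Γ ω) ^ 2 ≤ (Uc (HB F K Γ ω) x ^ 3) ^ 2 := Nat.pow_le_pow_left h1 2
          _ = (Uc (HB F K Γ ω) x ^ 2) ^ 3 := by ring
          _ ≤ Fintype.card F ^ 3 := Nat.pow_le_pow_left hQ 3
      · obtain ⟨z, hz1, hz2⟩ := ex_rat (F := F) {z : PX K | 1 < Uc (HB F K Γ ω) z} hZfin (by omega)
        refine ⟨x, z, hZrat x hU, hz1, fun g hg h => hz2 ?_⟩
        exact (hs1 z).2 ⟨⟨psi F K g.1, (mem_HB _).2 ⟨g, hg, rfl⟩⟩, h⟩

end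

end SpreadPerm.PL
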