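import Mathlib
import Pool.Agent.Lib.MP_e6ed9e_al.PL.Defs

/-!
# Row PGL: finite subgroups of `GL(2,F)` act like finite subgroups of `PGL(2,K)`
-/

namespace SpreadPerm.PL.Pgl16

open scoped LinearAlgebra.Projectivization MatrixGroups
open MulAction Projectivization

variable {K : Type} [Field K]

theorem fix_iff (g : GL (Fin 2) K) (v : Fin 2 → K) (hv : v ≠ 0) :
    g • mk K v hv = mk K v hv ↔ ∃ c : K, g • v = c • v := by
  rw [smul_mk, mk_eq_mk_iff']
  constructor
  · rintro ⟨c, hc⟩; exact ⟨c, hc.symm⟩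
  · rintro ⟨c, hc⟩; exact ⟨c, hc.symm⟩

theorem fix_rep (g : GL (Fin 2) K) (x : ℙ K (Fin 2 → K)) :
    g • x = x ↔ ∃ c : K, g • x.rep = c • x.rep := by
  have := fix_iff g x.rep x.rep_nonzero
  rwa [mk_rep] at this

theorem smul_comb (g : GL (Fin 2) K) (a b : K) (v w : Fin 2 → K) :
    g • (a • v + b • w) = a • (g • v) + b • (g • w) := by
  rw [smul_add, smul_comm g a v, smul_comm g b w]

/-- two independent vectors span -/
theorem span_two {v w : Fin 2 → K} (h : ∀ c : K, w ≠ c • v) (hv : v ≠ 0) (u : Fin 2 → K) :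
    ∃ a b : K, u = a • v + b • w := by
  have hd : v 0 * w 1 - v 1 * w 0 ≠ 0 := by
    intro hd
    by_cases h0 : v 0 = 0
    · have h1 : v 1 ≠ 0 := by
        intro h1
        apply hv
        ext i
        fin_cases i
        · exact h0
        · exact h1
      have hw0 : w 0 = 0 := by
        rw [h0, zero_mul, zero_sub, neg_eq_zero] at hd
        exact (mul_eq_zero.1 hd).resolve_left h1
      apply h (w 1 / v 1)
      ext i
      fin_cases i
      · simp [h0, hw0]
      · simp [div_mul_cancel₀ _ h1]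
    · apply h (w 0 / v 0)
      ext i
      fin_cases i
      · simp [div_mul_cancel₀ _ h0]
      · simp only [Pi.smul_apply, smul_eq_mul, Fin.mk_one, Fin.isValue]
        field_simp
        linear_combination hd
  refine ⟨(u 0 * w 1 - u 1 * w 0) / (v 0 * w 1 - v 1 * w 0),
    (v 0 * u 1 - v 1 * u 0) / (v 0 * w 1 - v 1 * w 0), ?_⟩
  ext i
  fin_cases i
  · simp only [Pi.add_apply, Pi.smul_apply, smul_eq_mul, Fin.zero_eta, Fin.isValue]
    rw [div_mul_eq_mul_div, div_mul_eq_mul_div, ← add_div, eq_div_iff hd]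
    ring
  · simp only [Pi.add_apply, Pi.smul_apply, smul_eq_mul, Fin.mk_one, Fin.isValue]
    rw [div_mul_eq_mul_div, div_mul_eq_mul_div, ← add_div, eq_div_iff hd]
    ring

theorem exists_indep (v : Fin 2 → K) : ∃ w : Fin 2 → K, ∀ c : K, w ≠ c • v := by
  by_cases h0 : v 0 = 0
  · refine ⟨![1, 0], fun c hc => ?_⟩
    have := congrFun hc 0
    simp [h0] at this
  · refine ⟨![0, 1], fun c hc => ?_⟩
    have h1 := congrFun hc 0
    have h2 := congrFun hc 1
    simp only [Matrix.cons_val_zero, Pi.smul_apply, smul_eq_mul] at h1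
    have : c = 0 := by
      rcases mul_eq_zero.1 h1.symm with h | h
      · exact h
      · exact absurd h h0
    rw [this] at h2
    simp at h2

/-- independence, coefficientwise -/
theorem indep_coef {v w : Fin 2 → K} (h : ∀ c : K, w ≠ c • v) (hv : v ≠ 0) {a b a' b' : K}
    (he : a • v + b • w = a' • v + b' • w) : a = a' ∧ b = b' := by
  have hb : b = b' := by
    by_contra hb
    apply h ((a' - a) / (b - b'))
    have h1 : (b - b') • w = (a' - a) • v := by
      rw [sub_smul, sub_smul]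
      have := he
      rw [← sub_eq_zero] at this ⊢
      rw [← this]
      abel
    rw [div_eq_inv_mul, mul_smul, ← h1, smul_smul, inv_mul_cancel₀ (sub_ne_zero.2 hb), one_smul]
  subst hb
  refine ⟨?_, rfl⟩
  have h1 : (a - a') • v = 0 := by
    rw [sub_smul, sub_eq_zero]
    exact add_right_cancel he
  rcases smul_eq_zero.1 h1 with h2 | h2
  · exact sub_eq_zero.1 h2
  · exact absurd h2 hv

/-- `g` is `c` times a unipotent matrix fixing `v` -/
def PP (g : GL (Fin 2) K) (v : Fin 2 → K) (c : K) : Prop :=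
  g • v = c • v ∧ ∀ w : Fin 2 → K, ∃ k : K, g • w = c • w + k • v

/-- `g` is scalar -/
def SC (g : GL (Fin 2) K) : Prop := ∃ c : K, ∀ w : Fin 2 → K, g • w = c • w

theorem SC.triv {g : GL (Fin 2) K} (h : SC g) (x : ℙ K (Fin 2 → K)) : g • x = x := by
  obtain ⟨c, hc⟩ := h
  exact (fix_rep g x).2 ⟨c, hc _⟩

theorem sc_of_two {g : GL (Fin 2) K} {v w : Fin 2 → K} (h : ∀ c : K, w ≠ c • v) (hv : v ≠ 0)
    {c : K} (h1 : g • v = c • v) (h2 : g • w = c • w) : SC g := by
  refine ⟨c, fun u => ?_⟩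
  obtain ⟨a, b, rfl⟩ := span_two h hv u
  rw [smul_comb, h1, h2, smul_add, smul_comm a c v, smul_comm b c w]

theorem ne_iff {x y : ℙ K (Fin 2 → K)} (h : x ≠ y) : ∀ c : K, y.rep ≠ c • x.rep := by
  intro c hc
  apply h
  rw [← mk_rep x, ← mk_rep y, eq_comm, mk_eq_mk_iff']
  exact ⟨c, hc.symm⟩

theorem sc_of_three {g : GL (Fin 2) K} {x y z : ℙ K (Fin 2 → K)} (hxy : x ≠ y) (hxz : x ≠ z)
    (hyz : y ≠ z) (hx : g • x = x) (hy : g • y = y) (hz : g • z = z) : SC g := by
  obtain ⟨a, ha⟩ := (fix_rep g x).1 hx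
  obtain ⟨b, hb⟩ := (fix_rep g y).1 hy
  obtain ⟨d, hd⟩ := (fix_rep g z).1 hz
  obtain ⟨s, t, hst⟩ := span_two (ne_iff hxy) x.rep_nonzero z.rep
  have hs : s ≠ 0 := by
    rintro rfl
    rw [zero_smul, zero_add] at hst
    exact ne_iff hyz t hst
  have ht : t ≠ 0 := by
    rintro rfl
    rw [zero_smul, add_zero] at hst
    exact ne_iff hxz s hst
  rw [hst, smul_comb, ha, hb, smul_add, smul_smul, smul_smul, smul_smul, smul_smul] at hd
  obtain ⟨h1, h2⟩ := indep_coef (ne_iff hxy) x.rep_nonzero hd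
  have h3 : a = d := by
    have : s * a = s * d := by rw [h1]; ring
    exact mul_left_cancel₀ hs this
  have h4 : b = d := by
    have : t * b = t * d := by rw [h2]; ring
    exact mul_left_cancel₀ ht this
  rw [h3] at ha
  rw [h4] at hb
  exact sc_of_two (ne_iff hxy) x.rep_nonzero ha hb

theorem sc_of_triv {g : GL (Fin 2) K} (h : ∀ x : ℙ K (Fin 2 → K), g • x = x) : SC g := by
  have h0 : (![1, 0] : Fin 2 → K) ≠ 0 := fun h => by simpa using congrFun h 0
  have h1 : (![0, 1] : Fin 2 → K) ≠ 0 := fun h => by simpa using congrFun h 1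
  have h2 : (![1, 1] : Fin 2 → K) ≠ 0 := fun h => by simpa using congrFun h 1
  refine sc_of_three (x := mk K _ h0) (y := mk K _ h1) (z := mk K _ h2) ?_ ?_ ?_ (h _) (h _) (h _)
  · rw [Ne, mk_eq_mk_iff']
    rintro ⟨a, ha⟩
    simpa using congrFun ha 0
  · rw [Ne, mk_eq_mk_iff']
    rintro ⟨a, ha⟩
    have e0 := congrFun ha 0
    have e1 := congrFun ha 1
    simp at e0 e1
    rw [e0] at e1
    exact one_ne_zero e1
  · rw [Ne, mk_eq_mk_iff']
    rintro ⟨a, ha⟩
    have e0 := congrFun ha 0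
    have e1 := congrFun ha 1
    simp at e0 e1
    rw [e0] at e1
    exact zero_ne_one e1

theorem sc_pp {g : GL (Fin 2) K} (h : SC g) (v : Fin 2 → K) : ∃ c, PP g v c := by
  obtain ⟨c, hc⟩ := h
  exact ⟨c, hc v, fun w => ⟨0, by rw [hc w, zero_smul, add_zero]⟩⟩

theorem pp_of_unique {g : GL (Fin 2) K} {x : ℙ K (Fin 2 → K)} (h : ∀ y, g • y = y ↔ y = x) :
    ∃ c, PP g x.rep c := by
  obtain ⟨c, hc⟩ := (fix_rep g x).1 ((h x).2 rfl)
  obtain ⟨w, hw⟩ := exists_indep x.rep
  obtain ⟨b, a, hab⟩ := span_two hw x.rep_nonzero (g • w)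
  have hac : a = c := by
    by_contra hac
    have hac' : a - c ≠ 0 := sub_ne_zero.2 hac
    set t : K := b / (a - c) with ht
    have hu : w + t • x.rep ≠ 0 := by
      intro hu
      apply hw (-t)
      rw [neg_smul]
      exact eq_neg_of_add_eq_zero_left hu
    have h1 : g • (w + t • x.rep) = a • (w + t • x.rep) := by
      rw [smul_add, hab, smul_comm g t x.rep, hc, smul_add, smul_smul, smul_smul]
      have : b + t * c = a * t := by
        rw [ht]; field_simp; ring
      rw [← this, add_smul]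
      abel
    have h2 := (h _).1 ((fix_iff g _ hu).2 ⟨a, h1⟩)
    have h3 : mk K _ hu = mk K x.rep x.rep_nonzero := by rw [h2, mk_rep]
    rw [mk_eq_mk_iff'] at h3
    obtain ⟨e, he⟩ := h3
    apply hw (e - t)
    rw [sub_smul, he]
    abel
  subst hac
  refine ⟨a, hc, fun u => ?_⟩
  obtain ⟨s, t, rfl⟩ := span_two hw x.rep_nonzero u
  refine ⟨t * b, ?_⟩
  rw [smul_comb, hc, hab, smul_add, smul_add, smul_smul, smul_smul, smul_smul, smul_smul, smul_smul,
    mul_comm s a, mul_comm t a]
  abel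

theorem triv_or_unique {g : GL (Fin 2) K} {x : ℙ K (Fin 2 → K)} {c : K} (h : PP g x.rep c) :
    SC g ∨ ∀ y, g • y = y ↔ y = x := by
  by_cases hs : SC g
  · exact Or.inl hs
  right
  intro y
  constructor
  · intro hy
    by_contra hyx
    apply hs
    obtain ⟨d, hd⟩ := (fix_rep g y).1 hy
    obtain ⟨k, hk⟩ := h.2 y.rep
    rw [hd] at hk
    have hne : x ≠ y := fun h => hyx h.symm
    have h1 : (0 : K) • x.rep + d • y.rep = k • x.rep + c • y.rep := by
      rw [hk, zero_smul, zero_add, add_comm]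
    obtain ⟨-, h3⟩ := indep_coef (ne_iff hne) x.rep_nonzero h1
    rw [h3] at hd
    exact sc_of_two (ne_iff hne) x.rep_nonzero h.1 hd
  · rintro rfl
    exact (fix_rep g y).2 ⟨c, h.1⟩

theorem PP.mul {g g' : GL (Fin 2) K} {v : Fin 2 → K} {c c' : K} (h : PP g v c) (h' : PP g' v c') :
    PP (g * g') v (c * c') := by
  refine ⟨?_, fun w => ?_⟩
  · rw [mul_smul, h'.1, smul_comm g c' v, h.1, smul_smul, mul_comm]
  · obtain ⟨k', hk'⟩ := h'.2 w
    obtain ⟨k, hk⟩ := h.2 w
    refine ⟨c' * k + k' * c, ?_⟩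
    rw [mul_smul, hk', smul_comb, hk, h.1, smul_add, smul_smul, smul_smul, smul_smul, mul_comm c' c,
      add_smul]
    abel

theorem PP.pow {g : GL (Fin 2) K} {v w : Fin 2 → K} {c k : K} (h1 : g • v = c • v)
    (h2 : g • w = c • w + k • v) (n : ℕ) :
    g ^ n • w = c ^ n • w + ((n : K) * c ^ (n - 1) * k) • v := by
  induction n with
  | zero => simp
  | succ n ih =>
    rw [pow_succ', mul_smul, ih, smul_comb, h2, h1, smul_add, smul_smul, smul_smul, smul_smul,
      add_assoc, ← add_smul, pow_succ]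
    congr 2
    rcases n with _ | n
    · simp
    · simp only [Nat.add_sub_cancel, Nat.cast_add, Nat.cast_one, pow_succ]
      ring

theorem exists_fix [IsAlgClosed K] (g : GL (Fin 2) K) : ∃ x : ℙ K (Fin 2 → K), g • x = x := by
  obtain ⟨c, hc⟩ := Module.End.exists_eigenvalue (Matrix.toLin' g.1)
  obtain ⟨v, hv⟩ := hc.exists_hasEigenvector
  refine ⟨mk K v hv.2, (fix_iff g v hv.2).2 ⟨c, ?_⟩⟩
  have := hv.apply_eq_smul
  rw [Matrix.toLin'_apply] at this
  exact this

theorem psi_apply (F : Type) [Field F] [Algebra F K] (g : GL (Fin 2) F) (x : ℙ K (Fin 2 → K)) :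
    psi F K g x = Matrix.GeneralLinearGroup.map (algebraMap F K) g • x := rfl

/-- PGL -/
theorem pgl16 : StPgl := by
  intro F K _ _ _ _ _ p _ hp H
  have hKp : CharP K p := charP_of_injective_algebraMap (algebraMap F K).injective p
  -- every element comes from a matrix over `K`
  have hex : ∀ h : H.map (psi F K), ∃ g : GL (Fin 2) K,
      (∀ x : ℙ K (Fin 2 → K), h • x = g • x) ∧ (SC g ↔ h = 1) := by
    rintro ⟨h, hh⟩
    obtain ⟨g, -, rfl⟩ := Subgroup.mem_map.1 hh
    refine ⟨Matrix.GeneralLinearGroup.map (algebraMap F K) g, fun x => rfl, ?_⟩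
    constructor
    · intro hs
      apply Subtype.ext
      apply Equiv.ext
      intro x
      exact hs.triv x
    · intro h1
      apply sc_of_triv
      intro x
      have h2 : psi F K g = 1 := congrArg Subtype.val h1
      have h3 := congrArg (fun e : Equiv.Perm (ℙ K (Fin 2 → K)) => e x) h2
      exact h3
  have hU : ∀ (x : ℙ K (Fin 2 → K)) (h : H.map (psi F K)) (g : GL (Fin 2) K),
      (∀ x : ℙ K (Fin 2 → K), h • x = g • x) → (SC g ↔ h = 1) →
      (IsU x h ↔ ∃ c, PP g x.rep c) := by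
    intro x h g hg hs
    constructor
    · rintro (h1 | h1)
      · exact sc_pp (hs.2 h1) _
      · apply pp_of_unique
        intro y
        rw [← hg y]
        exact h1 y
    · rintro ⟨c, hc⟩
      rcases triv_or_unique hc with h1 | h1
      · exact Or.inl (hs.1 h1)
      · right
        intro y
        rw [hg y]
        exact h1 y
  refine ⟨?_, ?_, ?_, ?_, ?_⟩
  · intro h _
    obtain ⟨g, hg, -⟩ := hex h
    obtain ⟨x, hx⟩ := exists_fix g
    exact ⟨x, by rw [hg x, hx]⟩
  · intro h h1 x y z hx hy hz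
    obtain ⟨g, hg, hs⟩ := hex h
    by_contra hne
    push Not at hne
    rw [hg] at hx hy hz
    exact h1 (hs.1 (sc_of_three hne.1 hne.2.1 hne.2.2 hx hy hz))
  · intro x h h' hh hh'
    obtain ⟨g, hg, hs⟩ := hex h
    obtain ⟨g', hg', hs'⟩ := hex h'
    obtain ⟨c, hc⟩ := (hU x h g hg hs).1 hh
    obtain ⟨c', hc'⟩ := (hU x h' g' hg' hs').1 hh'
    have hm : ∀ y : ℙ K (Fin 2 → K), (h * h') • y = (g * g') • y := by
      intro y
      rw [mul_smul, mul_smul, hg' y, hg]
    rcases triv_or_unique (hc.mul hc') with h1 | h1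
    · left
      apply Subtype.ext
      apply Equiv.ext
      intro y
      have h2 : (h * h') • y = y := by rw [hm, h1.triv]
      exact h2
    · right
      intro y
      rw [hm y]
      exact h1 y
  · intro x h hh
    obtain ⟨g, hg, hs⟩ := hex h
    obtain ⟨c, hc⟩ := (hU x h g hg hs).1 hh
    have hpow : ∀ (n : ℕ) (y : ℙ K (Fin 2 → K)), (h ^ n) • y = (g ^ n) • y := by
      intro n
      induction n with
      | zero => intro y; simp
      | succ n ih => intro y; rw [pow_succ, pow_succ, mul_smul, mul_smul, hg y, ih]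
    have hsc : SC (g ^ p) := by
      refine ⟨c ^ p, fun w => ?_⟩
      obtain ⟨k, hk⟩ := hc.2 w
      rw [PP.pow hc.1 hk p, CharP.cast_eq_zero, zero_mul, zero_mul, zero_smul, add_zero]
    apply Subtype.ext
    apply Equiv.ext
    intro y
    have h2 : (h ^ p) • y = y := by rw [hpow, hsc.triv]
    exact h2
  · intro x y h hxy hx hy hhp
    obtain ⟨g, hg, hs⟩ := hex h
    have hpow : ∀ (n : ℕ) (y : ℙ K (Fin 2 → K)), (h ^ n) • y = (g ^ n) • y := by
      intro n
      induction n with
      | zero => intro y; simp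
      | succ n ih => intro y; rw [pow_succ, pow_succ, mul_smul, mul_smul, hg y, ih]
    rw [hg] at hx hy
    obtain ⟨a, ha⟩ := (fix_rep g x).1 hx
    obtain ⟨b, hb⟩ := (fix_rep g y).1 hy
    have hn : ∀ (n : ℕ) (v : Fin 2 → K) (a : K), g • v = a • v → g ^ n • v = a ^ n • v := by
      intro n v a ha
      induction n with
      | zero => simp
      | succ n ih => rw [pow_succ, mul_smul, ha, smul_comm, ih, smul_smul, pow_succ, mul_comm]
    have hsc : SC (g ^ p) := by
      apply sc_of_triv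
      intro z
      rw [← hpow, hhp, one_smul]
    obtain ⟨e, he⟩ := hsc
    have h1 : a ^ p = e := by
      have h3 := he x.rep
      rw [hn p _ a ha] at h3
      exact smul_left_injective K x.rep_nonzero h3
    have h2 : b ^ p = e := by
      have h3 := he y.rep
      rw [hn p _ b hb] at h3
      exact smul_left_injective K y.rep_nonzero h3
    have hab : a = b := by
      have hfp : Fact p.Prime := ⟨hp⟩
      have h3 : (a - b) ^ p = 0 := by
        rw [sub_pow_char a b, h1, h2, sub_self]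
      exact sub_eq_zero.1 (pow_eq_zero_iff (hp.ne_zero) |>.1 h3)
    subst hab
    exact hs.1 (sc_of_two (ne_iff hxy) x.rep_nonzero ha hb)

end SpreadPerm.PL.Pgl16

namespace SpreadPerm.PL

/-- row PGL -/
theorem pgl16 : StPgl := Pgl16.pgl16

end SpreadPerm.PL
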