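import Mathlib
import Pool.Agent.Lib.MP_e6ed9e_al.PL.Defs
import Pool.Agent.Lib.MP_e6ed9e_al.PL.Base47

/-! # Row SUB: the subfield argument (helper25) -/

namespace SpreadPerm.PL.Sub25

open scoped LinearAlgebra.Projectivization MatrixGroups
open MulAction

noncomputable section

/-! ## The algebraic core -/

section alg
variable {F : Type} [Field F] [Finite F]

/-- The multipliers of an additive subgroup of a finite field form a subfield. -/
def mulF (A : AddSubgroup F) : Subfield F where
  carrier := {e | ∀ b ∈ A, e * b ∈ A}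
  mul_mem' := by
    intro e f he hf b hb
    rw [mul_assoc]
    exact he _ (hf _ hb)
  one_mem' := by
    intro b hb
    rwa [one_mul]
  add_mem' := by
    intro e f he hf b hb
    rw [add_mul]
    exact A.add_mem (he _ hb) (hf _ hb)
  zero_mem' := by
    intro b _
    rw [zero_mul]
    exact A.zero_mem
  neg_mem' := by
    intro e he b hb
    rw [neg_mul]
    exact A.neg_mem (he _ hb)
  inv_mem' := by
    intro e he
    by_cases h0 : e = 0
    · subst h0
      intro b _
      rw [inv_zero, zero_mul]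
      exact A.zero_mem
    · have : Fintype F := Fintype.ofFinite F
      have hp : ∀ n : ℕ, ∀ b ∈ A, e ^ n * b ∈ A := by
        intro n
        induction n with
        | zero =>
          intro b hb
          rwa [pow_zero, one_mul]
        | succ n ih =>
          intro b hb
          rw [pow_succ, mul_assoc]
          exact ih _ (he _ hb)
      have h1 : e ^ (Fintype.card F - 1) = 1 := FiniteField.pow_card_sub_one_eq_one e h0
      have h2 : 2 ≤ Fintype.card F := Fintype.one_lt_card
      have h3 : e⁻¹ = e ^ (Fintype.card F - 2) := by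
        rw [inv_eq_iff_eq_inv]
        refine eq_inv_of_mul_eq_one_right ?_
        rw [← pow_succ, ← h1]
        congr 1
        omega
      intro b hb
      rw [h3]
      exact hp _ _ hb

/-- The additive subgroup as a vector space over its multipliers. -/
def subM (A : AddSubgroup F) : Submodule (mulF A) F where
  carrier := A
  add_mem' := fun h1 h2 => A.add_mem h1 h2
  zero_mem' := A.zero_mem
  smul_mem' := fun e b hb => e.2 b hb

theorem alg (A : AddSubgroup F) (C : Subgroup Fˣ) (d : ℕ)
    (hCA : ∀ r ∈ C, ∀ b ∈ A, (r : F) * b ∈ A) (hA : 1 < Nat.card A) (hd : d = 1 ∨ d = 2)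
    (h : d * Nat.card C = Nat.card A - 1) :
    Nat.card A = Nat.card F ∨ Nat.card A ^ 2 ≤ Nat.card F := by
  have hE2 : 2 ≤ Nat.card (mulF A) := Finite.one_lt_card
  have h1 : Nat.card (subM A) = Nat.card (mulF A) ^ Module.finrank (mulF A) (subM A) :=
    Module.natCard_eq_pow_finrank
  have h2 : Nat.card F = Nat.card (mulF A) ^ Module.finrank (mulF A) F :=
    Module.natCard_eq_pow_finrank
  have h3 : Nat.card (subM A) = Nat.card A := rfl
  rw [h3] at h1
  have h4 : Nat.card C + 1 ≤ Nat.card (mulF A) := by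
    have h5 : Function.Injective (fun o : Option C => (match o with
        | none => (0 : mulF A)
        | some r => ⟨(r.1 : F), fun b hb => hCA r.1 r.2 b hb⟩ : mulF A)) := by
      intro o o' ho
      match o, o', ho with
      | none, none, _ => rfl
      | none, some r, ho =>
        have := congrArg Subtype.val ho
        exact absurd this.symm r.1.ne_zero
      | some r, none, ho =>
        have := congrArg Subtype.val ho
        exact absurd this r.1.ne_zero
      | some r, some s, ho =>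
        have := congrArg Subtype.val ho
        exact congrArg some (Subtype.ext (Units.ext this))
    have h6 := Nat.card_le_card_of_injective _ h5
    have : Fintype C := Fintype.ofFinite C
    rwa [Nat.card_eq_fintype_card, Fintype.card_option, ← Nat.card_eq_fintype_card] at h6
  set q := Nat.card (mulF A) with hq
  set a := Module.finrank (mulF A) (subM A) with ha
  set f := Module.finrank (mulF A) F with hf
  have ha0 : a ≠ 0 := by
    intro h0
    rw [h0, pow_zero] at h1
    omega
  have ha1 : a = 1 := by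
    by_contra hne
    have h2a : 2 ≤ a := by omega
    have h7 : q ^ 2 ≤ Nat.card A := by
      rw [h1]
      exact Nat.pow_le_pow_right (by omega) h2a
    have h8 : Nat.card A - 1 ≤ 2 * (q - 1) := by
      rw [← h]
      have : d ≤ 2 := by omega
      calc d * Nat.card C ≤ 2 * Nat.card C := Nat.mul_le_mul_right _ this
        _ ≤ 2 * (q - 1) := Nat.mul_le_mul_left _ (by omega)
    have h9 : q ^ 2 ≤ 2 * q - 1 := by omega
    obtain ⟨k, hk⟩ : ∃ k, q = k + 2 := ⟨q - 2, by omega⟩
    rw [hk] at h9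
    have h10 : (k + 2) ^ 2 = k * k + 4 * k + 4 := by ring
    rw [h10] at h9
    have h11 : 0 ≤ k * k := Nat.zero_le _
    omega
  rw [ha1, pow_one] at h1
  rw [h1, h2]
  have hf0 : f ≠ 0 := by
    intro h0
    rw [h0, pow_zero] at h2
    have : 1 < Nat.card F := Finite.one_lt_card
    omega
  by_cases hf1 : f = 1
  · left
    rw [hf1, pow_one]
  · right
    exact Nat.pow_le_pow_right (by omega) (by omega)

end alg

/-! ## Fixed points -/

section fix
variable {F K : Type} [Field F] [Field K] [Algebra F K]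

theorem mk_cross {u v : Fin 2 → K} (hu : u ≠ 0) (hv : v ≠ 0) :
    Projectivization.mk K u hu = Projectivization.mk K v hv ↔ u 0 * v 1 = u 1 * v 0 := by
  rw [Projectivization.mk_eq_mk_iff']
  constructor
  · rintro ⟨a, rfl⟩
    show a * v 0 * v 1 = a * v 1 * v 0
    ring
  · intro h
    by_cases h0 : v 0 = 0
    · have h1 : v 1 ≠ 0 := by
        intro h1
        apply hv
        funext i
        fin_cases i
        · exact h0
        · exact h1
      refine ⟨u 1 / v 1, ?_⟩
      funext i
      fin_cases i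
      · show u 1 / v 1 * v 0 = u 0
        rw [h0, mul_zero] at h
        rw [h0, mul_zero]
        exact ((mul_eq_zero.1 h).resolve_right h1).symm
      · show u 1 / v 1 * v 1 = u 1
        field_simp
    · refine ⟨u 0 / v 0, ?_⟩
      funext i
      fin_cases i
      · show u 0 / v 0 * v 0 = u 0
        field_simp
      · show u 0 / v 0 * v 1 = u 1
        rw [div_mul_eq_mul_div, h]
        field_simp

theorem psi_fix (g : GL (Fin 2) F) {u : Fin 2 → K} (hu : u ≠ 0) :
    psi F K g (Projectivization.mk K u hu) = Projectivization.mk K u hu ↔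
      (algebraMap F K (g.1 0 0) * u 0 + algebraMap F K (g.1 0 1) * u 1) * u 1 =
        (algebraMap F K (g.1 1 0) * u 0 + algebraMap F K (g.1 1 1) * u 1) * u 0 := by
  rw [psi_mk, mk_cross, gl_smul]
  simp [Matrix.mulVec, dotProduct, Fin.sum_univ_two]

theorem inf_fix (g : GL (Fin 2) F) : psi F K g (rp F K none) = rp F K none ↔ g.1 1 0 = 0 := by
  show psi F K g (Projectivization.mk K _ _) = Projectivization.mk K _ _ ↔ _
  rw [psi_fix]
  have h : (0 : K) = algebraMap F K (g.1 1 0) ↔ g.1 1 0 = 0 := by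
    rw [eq_comm, map_eq_zero]
  simpa [up] using h

theorem zero_fix (g : GL (Fin 2) F) :
    psi F K g (rp F K (some 0)) = rp F K (some 0) ↔ g.1 0 1 = 0 := by
  show psi F K g (Projectivization.mk K _ _) = Projectivization.mk K _ _ ↔ _
  rw [psi_fix]
  simp [up]

theorem some_fix (g : GL (Fin 2) F) (t : F) :
    psi F K g (rp F K (some t)) = rp F K (some t) ↔
      g.1 0 0 * t + g.1 0 1 = (g.1 1 0 * t + g.1 1 1) * t := by
  show psi F K g (Projectivization.mk K _ _) = Projectivization.mk K _ _ ↔ _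
  rw [psi_fix]
  simp only [up]
  constructor
  · intro h
    apply (algebraMap F K).injective
    simpa using h
  · intro h
    have := congrArg (algebraMap F K) h
    simpa using this

theorem inf_ne_zero : rp F K none ≠ rp F K (some 0) := by
  intro h
  have := rp_inj h
  cases this

/-- A scalar matrix acts trivially. -/
theorem psi_scalar (g : GL (Fin 2) F) (h01 : g.1 0 1 = 0) (h10 : g.1 1 0 = 0)
    (hd : g.1 0 0 = g.1 1 1) : psi F K g = 1 := by
  refine Equiv.ext fun x => ?_
  obtain ⟨u, hu, rfl⟩ : ∃ u, ∃ hu : u ≠ 0, Projectivization.mk K u hu = x :=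
    ⟨x.rep, x.rep_nonzero, x.mk_rep⟩
  rw [Equiv.Perm.one_apply, psi_fix, h01, h10, hd, map_zero]
  ring

theorem psi_one_iff (g : GL (Fin 2) F) :
    psi F K g = 1 ↔ g.1 0 1 = 0 ∧ g.1 1 0 = 0 ∧ g.1 0 0 = g.1 1 1 := by
  constructor
  · intro h
    have h1 : psi F K g (rp F K none) = rp F K none := by rw [h]; rfl
    have h2 : psi F K g (rp F K (some 0)) = rp F K (some 0) := by rw [h]; rfl
    have h3 : psi F K g (rp F K (some 1)) = rp F K (some 1) := by rw [h]; rfl
    rw [inf_fix] at h1
    rw [zero_fix] at h2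
    rw [some_fix, h1, h2] at h3
    refine ⟨h2, h1, ?_⟩
    simpa using h3
  · rintro ⟨h1, h2, h3⟩
    exact psi_scalar g h1 h2 h3

/-- Uniqueness of the fixed point at infinity. -/
theorem inf_unique (g : GL (Fin 2) F) :
    (∀ y : PX K, psi F K g y = y ↔ y = rp F K none) ↔
      g.1 1 0 = 0 ∧ g.1 0 0 = g.1 1 1 ∧ g.1 0 1 ≠ 0 := by
  constructor
  · intro h
    have h1 := (inf_fix (K := K) g).1 ((h _).2 rfl)
    have h2 : g.1 0 0 = g.1 1 1 := by
      by_contra hne
      have hne' : g.1 1 1 - g.1 0 0 ≠ 0 := sub_ne_zero.2 (Ne.symm hne)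
      have h3 : psi F K g (rp F K (some (g.1 0 1 / (g.1 1 1 - g.1 0 0)))) =
          rp F K (some (g.1 0 1 / (g.1 1 1 - g.1 0 0))) := by
        rw [some_fix, h1]
        field_simp
        ring
      have h4 := rp_inj ((h _).1 h3)
      cases h4
    refine ⟨h1, h2, fun h3 => ?_⟩
    have h4 := psi_scalar (K := K) g h3 h1 h2
    have h5 : psi F K g (rp F K (some 0)) = rp F K (some 0) := by rw [h4]; rfl
    have h6 := rp_inj ((h _).1 h5)
    cases h6
  · rintro ⟨h1, h2, h3⟩ y
    obtain ⟨u, hu, rfl⟩ : ∃ u, ∃ hu : u ≠ 0, Projectivization.mk K u hu = y :=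
      ⟨y.rep, y.rep_nonzero, y.mk_rep⟩
    have h3' : algebraMap F K (g.1 0 1) ≠ 0 := fun h => h3 ((map_eq_zero (algebraMap F K)).1 h)
    rw [psi_fix, h1, h2]
    show _ ↔ _ = Projectivization.mk K _ _
    rw [mk_cross]
    have e0 : (up F K ![1, 0]) 0 = 1 := by simp [up]
    have e1 : (up F K ![1, 0]) 1 = 0 := by simp [up]
    rw [e0, e1, mul_zero, mul_one, map_zero, zero_mul, zero_add]
    constructor
    · intro h
      have h4 : algebraMap F K (g.1 0 1) * (u 1 * u 1) = 0 := by linear_combination h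
      have h5 := (mul_eq_zero.1 h4).resolve_left h3'
      rcases mul_eq_zero.1 h5 with h | h <;> exact h.symm
    · intro h
      rw [← h]
      ring

/-- A unique fixed point is rational. -/
theorem rat_of_unique [Finite F] (g : GL (Fin 2) F) (x : PX K)
    (h : ∀ y, psi F K g y = y ↔ y = x) : Rat F K x := by
  have : Fintype F := Fintype.ofFinite F
  obtain ⟨u, hu, rfl⟩ : ∃ u, ∃ hu : u ≠ 0, Projectivization.mk K u hu = x :=
    ⟨x.rep, x.rep_nonzero, x.mk_rep⟩
  obtain ⟨p, hp⟩ := CharP.exists F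
  have hpp : Fact p.Prime := ⟨CharP.char_is_prime F p⟩
  have : CharP K p := charP_of_injective_algebraMap (algebraMap F K).injective p
  obtain ⟨n, -, hn⟩ := FiniteField.card F p
  -- Frobenius
  have hadd : ∀ a b : K, (a + b) ^ Fintype.card F = a ^ Fintype.card F + b ^ Fintype.card F := by
    intro a b
    rw [hn]
    exact add_pow_char_pow a b p n
  have hfix : ∀ a : F, (algebraMap F K a) ^ Fintype.card F = algebraMap F K a := by
    intro a
    rw [← map_pow, FiniteField.pow_card]
  have hq0 : Fintype.card F ≠ 0 := Fintype.card_ne_zero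
  by_cases h1 : u 1 = 0
  · refine ⟨![1, 0], fun h => one_ne_zero (congrFun h 0), up_ne (fun h => one_ne_zero (congrFun h 0)), ?_⟩
    rw [mk_cross]
    simp [up, h1]
  · have h2 := (psi_fix g hu).1 ((h _).2 rfl)
    set t : K := u 0 / u 1 with ht
    have hut : u 0 = t * u 1 := by rw [ht]; field_simp
    have h3 : (algebraMap F K (g.1 0 0) * t + algebraMap F K (g.1 0 1)) =
        (algebraMap F K (g.1 1 0) * t + algebraMap F K (g.1 1 1)) * t := by
      rw [hut] at h2
      have h4 : u 1 * u 1 ≠ 0 := mul_ne_zero h1 h1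
      apply mul_right_cancel₀ h4
      linear_combination h2
    have h5 := congrArg (fun z => z ^ Fintype.card F) h3
    simp only [hadd, mul_pow, hfix] at h5
    have hv : (![t ^ Fintype.card F, 1] : Fin 2 → K) ≠ 0 := fun h => one_ne_zero (congrFun h 1)
    have h6 : psi F K g (Projectivization.mk K _ hv) = Projectivization.mk K _ hv := by
      rw [psi_fix]
      simpa using h5
    have h7 := (h _).1 h6
    rw [mk_cross] at h7
    have h8 : t ^ Fintype.card F = t := by
      have h9 : t ^ Fintype.card F * u 1 = t * u 1 := by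
        rw [← hut]
        simpa using h7
      exact mul_right_cancel₀ h1 h9
    -- roots
    have h9 : ∃ s : F, algebraMap F K s = t := by
      classical
      by_contra hcon
      push Not at hcon
      have hne : (Polynomial.X ^ Fintype.card F - Polynomial.X : Polynomial K) ≠ 0 :=
        FiniteField.X_pow_card_sub_X_ne_zero K Fintype.one_lt_card
      have hdeg : (Polynomial.X ^ Fintype.card F - Polynomial.X : Polynomial K).natDegree =
          Fintype.card F := FiniteField.X_pow_card_sub_X_natDegree_eq K Fintype.one_lt_card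
      have hsub : insert t ((Finset.univ : Finset F).image (algebraMap F K)) ⊆
          (Polynomial.X ^ Fintype.card F - Polynomial.X : Polynomial K).roots.toFinset := by
        intro z hz
        rw [Multiset.mem_toFinset, Polynomial.mem_roots hne]
        show Polynomial.eval _ _ = 0
        rw [Polynomial.eval_sub, Polynomial.eval_pow, Polynomial.eval_X, sub_eq_zero]
        rcases Finset.mem_insert.1 hz with rfl | hz
        · exact h8
        · obtain ⟨s, -, rfl⟩ := Finset.mem_image.1 hz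
          exact hfix s
      have hc := Finset.card_le_card hsub
      rw [Finset.card_insert_of_notMem (by
        intro hz
        obtain ⟨s, -, hs⟩ := Finset.mem_image.1 hz
        exact hcon s hs), Finset.card_image_of_injective _ (algebraMap F K).injective,
        Finset.card_univ] at hc
      have hc2 := Multiset.toFinset_card_le
        (Polynomial.X ^ Fintype.card F - Polynomial.X : Polynomial K).roots
      have hc3 := Polynomial.card_roots'
        (Polynomial.X ^ Fintype.card F - Polynomial.X : Polynomial K)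
      omega
    obtain ⟨s, hs⟩ := h9
    refine ⟨![s, 1], fun h => one_ne_zero (congrFun h 1), up_ne (fun h => one_ne_zero (congrFun h 1)), ?_⟩
    rw [mk_cross]
    simp only [up, Matrix.cons_val_zero, Matrix.cons_val_one, map_one, mul_one]
    rw [hs, hut]
    ring

end fix

/-! ## The groups -/

section grp
variable {F K : Type} [Field F] [Field K] [Algebra F K]

/-- Unipotent matrices. -/
def Um (b : F) : GL (Fin 2) F :=
  Matrix.GeneralLinearGroup.mkOfDetNeZero !![1, b; 0, 1] (by simp)

/-- Diagonal matrices. -/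
def Dm (r : Fˣ) : GL (Fin 2) F :=
  Matrix.GeneralLinearGroup.mkOfDetNeZero !![(r : F), 0; 0, 1] (by simp)

/-- A matrix with first column `(t, 1)`. -/
def Pm (t : F) : GL (Fin 2) F :=
  Matrix.GeneralLinearGroup.mkOfDetNeZero !![t, 1; 1, 0] (by simp)

theorem Um_val (b : F) : (Um b).1 = !![1, b; 0, 1] := rfl
theorem Dm_val (r : Fˣ) : (Dm r).1 = !![(r : F), 0; 0, 1] := rfl
theorem Pm_val (t : F) : (Pm t).1 = !![t, 1; 1, 0] := rfl

theorem Um_mul (a b : F) : Um a * Um b = Um (a + b) := by
  apply Units.ext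
  show (Um a).1 * (Um b).1 = (Um (a + b)).1
  rw [Um_val, Um_val, Um_val]
  ext i j
  fin_cases i <;> fin_cases j <;> simp [Matrix.mul_apply, Fin.sum_univ_two, add_comm]

theorem Um_zero : Um (0 : F) = 1 := by
  apply Units.ext
  show (Um (0 : F)).1 = 1
  rw [Um_val]
  ext i j
  fin_cases i <;> fin_cases j <;> simp

theorem Um_inv (b : F) : (Um b)⁻¹ = Um (-b) := by
  rw [inv_eq_iff_mul_eq_one, Um_mul, add_neg_cancel, Um_zero]

theorem Dm_mul (r s : Fˣ) : Dm r * Dm s = Dm (r * s) := by
  apply Units.ext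
  show (Dm r).1 * (Dm s).1 = (Dm (r * s)).1
  rw [Dm_val, Dm_val, Dm_val]
  ext i j
  fin_cases i <;> fin_cases j <;> simp [Matrix.mul_apply, Fin.sum_univ_two]

theorem Dm_one : Dm (1 : Fˣ) = 1 := by
  apply Units.ext
  show (Dm (1 : Fˣ)).1 = 1
  rw [Dm_val]
  ext i j
  fin_cases i <;> fin_cases j <;> simp

theorem Dm_inv (r : Fˣ) : (Dm r)⁻¹ = Dm r⁻¹ := by
  rw [inv_eq_iff_mul_eq_one, Dm_mul, mul_inv_cancel, Dm_one]

theorem Dm_Um (r : Fˣ) (b : F) : Dm r * Um b * (Dm r)⁻¹ = Um ((r : F) * b) := by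
  rw [mul_inv_eq_iff_eq_mul]
  apply Units.ext
  show (Dm r).1 * (Um b).1 = (Um ((r : F) * b)).1 * (Dm r).1
  rw [Dm_val, Um_val, Um_val]
  ext i j
  fin_cases i <;> fin_cases j <;> simp [Matrix.mul_apply, Fin.sum_univ_two]

theorem conj_fix (P m : GL (Fin 2) F) (y : PX K) :
    psi F K (P * m * P⁻¹) y = y ↔ psi F K m (psi F K P⁻¹ y) = psi F K P⁻¹ y := by
  have h1 : psi F K P (psi F K P⁻¹ y) = y := by
    rw [← Equiv.Perm.mul_apply, ← map_mul, mul_inv_cancel, map_one]
    rfl
  rw [map_mul, map_mul, Equiv.Perm.mul_apply, Equiv.Perm.mul_apply]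
  constructor
  · intro h
    apply (psi F K P).injective
    rw [h, h1]
  · intro h
    rw [h, h1]

theorem inv_psi (P : GL (Fin 2) F) (x y : PX K) : psi F K P⁻¹ y = x ↔ y = psi F K P x := by
  rw [map_inv, Equiv.Perm.inv_eq_iff_eq]

theorem rat_exists (x : PX K) (hx : Rat F K x) : ∃ P : GL (Fin 2) F, psi F K P (rp F K none) = x := by
  obtain ⟨o, rfl⟩ := (rat_iff x).1 hx
  cases o with
  | none => exact ⟨1, by rw [map_one]; rfl⟩
  | some t =>
    refine ⟨Pm t, ?_⟩
    show psi F K (Pm t) (Projectivization.mk K _ _) = Projectivization.mk K _ _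
    rw [psi_mk, mk_cross, gl_smul]
    simp [Pm_val, up, Matrix.mulVec, dotProduct, Fin.sum_univ_two]

theorem Um_none (c : F) : psi F K (Um c) (rp F K none) = rp F K none := by
  rw [inf_fix, Um_val]
  simp

theorem Um_some (c : F) : psi F K (Um c) (rp F K (some 0)) = rp F K (some c) := by
  show psi F K (Um c) (Projectivization.mk K _ _) = Projectivization.mk K _ _
  rw [psi_mk, mk_cross, gl_smul]
  simp [Um_val, up, Matrix.mulVec, dotProduct, Fin.sum_univ_two]

variable (H : Subgroup (GL (Fin 2) F)) (P : GL (Fin 2) F)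

/-- The additive group. -/
def AA (K : Type) [Field K] [Algebra F K] : AddSubgroup F where
  carrier := {b | psi F K (P * Um b * P⁻¹) ∈ H.map (psi F K)}
  add_mem' := by
    intro a b ha hb
    have h := (H.map (psi F K)).mul_mem ha hb
    rw [← map_mul] at h
    have h1 : P * Um a * P⁻¹ * (P * Um b * P⁻¹) = P * Um (a + b) * P⁻¹ := by
      rw [← Um_mul]
      group
    rw [h1] at h
    exact h
  zero_mem' := by
    show psi F K (P * Um 0 * P⁻¹) ∈ H.map (psi F K)
    rw [Um_zero, mul_one, mul_inv_cancel, map_one]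
    exact Subgroup.one_mem _
  neg_mem' := by
    intro a ha
    have h := (H.map (psi F K)).inv_mem ha
    rw [← map_inv] at h
    have h1 : (P * Um a * P⁻¹)⁻¹ = P * Um (-a) * P⁻¹ := by
      rw [← Um_inv]
      group
    rw [h1] at h
    exact h

/-- The multiplicative group. -/
def CC (K : Type) [Field K] [Algebra F K] : Subgroup Fˣ where
  carrier := {r | psi F K (P * Dm r * P⁻¹) ∈ H.map (psi F K)}
  mul_mem' := by
    intro a b ha hb
    have h := (H.map (psi F K)).mul_mem ha hb
    rw [← map_mul] at h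
    have h1 : P * Dm a * P⁻¹ * (P * Dm b * P⁻¹) = P * Dm (a * b) * P⁻¹ := by
      rw [← Dm_mul]
      group
    rw [h1] at h
    exact h
  one_mem' := by
    show psi F K (P * Dm 1 * P⁻¹) ∈ H.map (psi F K)
    rw [Dm_one, mul_one, mul_inv_cancel, map_one]
    exact Subgroup.one_mem _
  inv_mem' := by
    intro a ha
    have h := (H.map (psi F K)).inv_mem ha
    rw [← map_inv] at h
    have h1 : (P * Dm a * P⁻¹)⁻¹ = P * Dm a⁻¹ * P⁻¹ := by
      rw [← Dm_inv]
      group
    rw [h1] at h
    exact h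

theorem CC_AA (r : Fˣ) (hr : r ∈ CC H P K) (b : F) (hb : b ∈ AA H P K) :
    (r : F) * b ∈ AA H P K := by
  have h := (H.map (psi F K)).mul_mem ((H.map (psi F K)).mul_mem hr hb)
    ((H.map (psi F K)).inv_mem hr)
  rw [← map_inv, ← map_mul, ← map_mul] at h
  have h1 : P * Dm r * P⁻¹ * (P * Um b * P⁻¹) * (P * Dm r * P⁻¹)⁻¹ =
      P * Um ((r : F) * b) * P⁻¹ := by
    rw [← Dm_Um]
    group
  rw [h1] at h
  exact h

theorem psi_conj_one (m : GL (Fin 2) F) : psi F K (P * m * P⁻¹) = 1 ↔ psi F K m = 1 := by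
  rw [map_mul, map_mul, map_inv]
  constructor
  · intro h
    have := congrArg (fun z => (psi F K P)⁻¹ * z * psi F K P) h
    simpa [mul_assoc] using this
  · intro h
    rw [h, mul_one, mul_inv_cancel]

theorem isU_iff (m : GL (Fin 2) F) (hm : psi F K (P * m * P⁻¹) ∈ H.map (psi F K)) :
    IsU (H := H.map (psi F K)) (psi F K P (rp F K none)) ⟨psi F K (P * m * P⁻¹), hm⟩ ↔
      m.1 1 0 = 0 ∧ m.1 0 0 = m.1 1 1 := by
  have h0 : (⟨psi F K (P * m * P⁻¹), hm⟩ : H.map (psi F K)) = 1 ↔ psi F K m = 1 := by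
    rw [← psi_conj_one P m, Subtype.ext_iff]
    rfl
  have h1 : (∀ y : PX K, (⟨psi F K (P * m * P⁻¹), hm⟩ : H.map (psi F K)) • y = y ↔
      y = psi F K P (rp F K none)) ↔ ∀ y : PX K, psi F K m y = y ↔ y = rp F K none := by
    constructor
    · intro h y
      have h2 := h (psi F K P y)
      change psi F K (P * m * P⁻¹) (psi F K P y) = psi F K P y ↔ _ at h2
      rw [conj_fix, (inv_psi P y (psi F K P y)).2 rfl] at h2
      rw [h2]
      exact (psi F K P).injective.eq_iff
    · intro h y
      show psi F K (P * m * P⁻¹) y = y ↔ _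
      rw [conj_fix, h, inv_psi]
  unfold IsU
  rw [h0, h1, inf_unique, psi_one_iff]
  constructor
  · rintro (⟨h1, h2, h3⟩ | ⟨h1, h2, h3⟩)
    · exact ⟨h2, h3⟩
    · exact ⟨h1, h2⟩
  · rintro ⟨h1, h2⟩
    by_cases h3 : m.1 0 1 = 0
    · exact Or.inl ⟨h3, h1, h2⟩
    · exact Or.inr ⟨h1, h2, h3⟩

theorem unconj (g : GL (Fin 2) F) : P * (P⁻¹ * g * P) * P⁻¹ = g := by group

theorem psi_eq_of (m n : GL (Fin 2) F) (h : psi F K (m * n⁻¹) = 1) : psi F K m = psi F K n := by
  rw [map_mul, map_inv, mul_inv_eq_one] at h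
  exact h

theorem psi_conj_eq (m n : GL (Fin 2) F) (h : psi F K m = psi F K n) :
    psi F K (P * m * P⁻¹) = psi F K (P * n * P⁻¹) := by
  rw [map_mul, map_mul, map_mul, map_mul, h]

theorem diag_ne (m : GL (Fin 2) F) (h : m.1 1 0 = 0) : m.1 0 0 ≠ 0 ∧ m.1 1 1 ≠ 0 := by
  have h1 : m.1.det ≠ 0 := (Matrix.isUnits_det_units m).ne_zero
  rw [Matrix.det_fin_two, h, mul_zero, sub_zero] at h1
  exact ⟨left_ne_zero_of_mul h1, right_ne_zero_of_mul h1⟩

theorem cardU : Uc (H.map (psi F K)) (psi F K P (rp F K none)) = Nat.card (AA H P K) := by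
  symm
  refine Nat.card_eq_of_bijective (fun b : AA H P K =>
    (⟨⟨psi F K (P * Um b.1 * P⁻¹), b.2⟩, (isU_iff H P (Um b.1) b.2).2 (by
      rw [Um_val]
      simp)⟩ : {h : H.map (psi F K) // IsU (psi F K P (rp F K none)) h})) ⟨?_, ?_⟩
  · intro b c hbc
    have h1 : psi F K (P * Um b.1 * P⁻¹) = psi F K (P * Um c.1 * P⁻¹) :=
      congrArg (fun z => z.1.1) hbc
    have h2 : psi F K (P * Um (b.1 - c.1) * P⁻¹) = 1 := by
      have h3 : P * Um (b.1 - c.1) * P⁻¹ = P * Um b.1 * P⁻¹ * (P * Um c.1 * P⁻¹)⁻¹ := by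
        rw [sub_eq_add_neg, ← Um_mul, ← Um_inv]
        group
      rw [h3, map_mul, map_inv, h1, mul_inv_cancel]
    rw [psi_conj_one, psi_one_iff] at h2
    have h4 := h2.1
    rw [Um_val] at h4
    exact Subtype.ext (sub_eq_zero.1 (by simpa using h4))
  · rintro ⟨⟨h, g, hg, rfl⟩, hU⟩
    have h1 : psi F K (P * (P⁻¹ * g * P) * P⁻¹) ∈ H.map (psi F K) := by
      rw [unconj]
      exact ⟨g, hg, rfl⟩
    have h2 := isU_iff H P (P⁻¹ * g * P) h1
    have h3 : IsU (H := H.map (psi F K)) (psi F K P (rp F K none))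
        ⟨psi F K (P * (P⁻¹ * g * P) * P⁻¹), h1⟩ := by
      have h9 : (⟨psi F K (P * (P⁻¹ * g * P) * P⁻¹), h1⟩ : H.map (psi F K)) =
          ⟨psi F K g, g, hg, rfl⟩ := Subtype.ext (congrArg (psi F K) (unconj P g))
      rw [h9]
      exact hU
    obtain ⟨h4, h5⟩ := h2.1 h3
    obtain ⟨h6, h7⟩ := diag_ne _ h4
    set m := P⁻¹ * g * P with hm
    have h8 : psi F K m = psi F K (Um (m.1 0 1 / m.1 0 0)) := by
      apply psi_eq_of
      rw [psi_one_iff, Um_inv]
      have h9 : (m * Um (-(m.1 0 1 / m.1 0 0))).1 = m.1 * !![1, -(m.1 0 1 / m.1 0 0); 0, 1] := rfl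
      rw [h9]
      refine ⟨?_, ?_, ?_⟩
      · simp [Matrix.mul_apply, Fin.sum_univ_two]
        field_simp
        ring
      · simp [Matrix.mul_apply, Fin.sum_univ_two, h4]
      · simp [Matrix.mul_apply, Fin.sum_univ_two, h4, h5]
    have h9 := psi_conj_eq P _ _ h8
    have h10 : psi F K (P * m * P⁻¹) = psi F K g := by rw [hm, unconj]
    refine ⟨⟨m.1 0 1 / m.1 0 0, ?_⟩, ?_⟩
    · show psi F K (P * Um (m.1 0 1 / m.1 0 0) * P⁻¹) ∈ H.map (psi F K)
      rw [← h9, h10]
      exact ⟨g, hg, rfl⟩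
    · apply Subtype.ext
      apply Subtype.ext
      show psi F K (P * Um (m.1 0 1 / m.1 0 0) * P⁻¹) = psi F K g
      rw [← h9, h10]

theorem cardT : Tc (H.map (psi F K)) (psi F K P (rp F K none)) (psi F K P (rp F K (some 0))) =
    Nat.card (CC H P K) := by
  symm
  refine Nat.card_eq_of_bijective (fun r : CC H P K =>
    (⟨⟨psi F K (P * Dm r.1 * P⁻¹), r.2⟩, by
      show psi F K _ _ = _ ∧ psi F K _ _ = _
      rw [conj_fix, conj_fix, (inv_psi P (rp F K none) _).2 rfl,
        (inv_psi P (rp F K (some 0)) _).2 rfl, inf_fix, zero_fix, Dm_val]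
      simp⟩ : {h : H.map (psi F K) // h • (psi F K P (rp F K none)) = psi F K P (rp F K none) ∧
        h • (psi F K P (rp F K (some 0))) = psi F K P (rp F K (some 0))})) ⟨?_, ?_⟩
  · intro b c hbc
    have h1 : psi F K (P * Dm b.1 * P⁻¹) = psi F K (P * Dm c.1 * P⁻¹) :=
      congrArg (fun z => z.1.1) hbc
    have h2 : psi F K (P * Dm (b.1 * c.1⁻¹) * P⁻¹) = 1 := by
      have h3 : P * Dm (b.1 * c.1⁻¹) * P⁻¹ = P * Dm b.1 * P⁻¹ * (P * Dm c.1 * P⁻¹)⁻¹ := by
        rw [← Dm_mul, ← Dm_inv]
        group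
      rw [h3, map_mul, map_inv, h1, mul_inv_cancel]
    rw [psi_conj_one, psi_one_iff] at h2
    have h4 := h2.2.2
    rw [Dm_val] at h4
    have h5 : ((b.1 * c.1⁻¹ : Fˣ) : F) = 1 := by simpa using h4
    have h6 : b.1 * c.1⁻¹ = 1 := Units.ext h5
    exact Subtype.ext (mul_inv_eq_one.1 h6)
  · rintro ⟨⟨h, g, hg, rfl⟩, hU⟩
    have hU' : psi F K g (psi F K P (rp F K none)) = psi F K P (rp F K none) ∧
      psi F K g (psi F K P (rp F K (some 0))) = psi F K P (rp F K (some 0)) := hU
    set m := P⁻¹ * g * P with hm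
    have hg' : P * m * P⁻¹ = g := by rw [hm, unconj]
    rw [← hg', conj_fix, conj_fix, (inv_psi P (rp F K none) _).2 rfl,
        (inv_psi P (rp F K (some 0)) _).2 rfl, inf_fix, zero_fix] at hU'
    obtain ⟨h4, h5⟩ := hU'
    obtain ⟨h6, h7⟩ := diag_ne _ h4
    have h8 : psi F K m = psi F K (Dm (Units.mk0 (m.1 0 0 / m.1 1 1) (div_ne_zero h6 h7))) := by
      apply psi_eq_of
      rw [psi_one_iff, Dm_inv]
      have h9 : (m * Dm (Units.mk0 (m.1 0 0 / m.1 1 1) (div_ne_zero h6 h7))⁻¹).1 =
          m.1 * !![(((Units.mk0 (m.1 0 0 / m.1 1 1) (div_ne_zero h6 h7))⁻¹ : Fˣ) : F), 0; 0, 1] := rfl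
      rw [h9]
      refine ⟨?_, ?_, ?_⟩
      · simp [Matrix.mul_apply, Fin.sum_univ_two, h5]
      · simp [Matrix.mul_apply, Fin.sum_univ_two, h4]
      · simp [Matrix.mul_apply, Fin.sum_univ_two, h4, h5]
        field_simp
    have h9 := psi_conj_eq P _ _ h8
    have h10 : psi F K (P * m * P⁻¹) = psi F K g := by rw [hm, unconj]
    refine ⟨⟨Units.mk0 (m.1 0 0 / m.1 1 1) (div_ne_zero h6 h7), ?_⟩, ?_⟩
    · show psi F K (P * Dm (Units.mk0 (m.1 0 0 / m.1 1 1) (div_ne_zero h6 h7)) * P⁻¹) ∈
        H.map (psi F K)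
      rw [← h9, h10]
      exact ⟨g, hg, rfl⟩
    · apply Subtype.ext
      apply Subtype.ext
      show psi F K (P * Dm (Units.mk0 (m.1 0 0 / m.1 1 1) (div_ne_zero h6 h7)) * P⁻¹) = psi F K g
      rw [← h9, h10]

end grp

/-- Row SUB. -/
theorem sub25 : StSub := by
  intro F K _ _ _ _ _ H x y d hxy hU hd hT
  -- a nontrivial unipotent element
  have hx : Rat F K x := by
    have h1 : ∃ h : {h : H.map (psi F K) // IsU x h}, h.1 ≠ 1 := by
      by_contra hcon
      push Not at hcon
      have : Subsingleton {h : H.map (psi F K) // IsU x h} :=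
        ⟨fun a b => Subtype.ext ((hcon a).trans (hcon b).symm)⟩
      have h2 : Uc (H.map (psi F K)) x ≤ 1 := Finite.card_le_one_iff_subsingleton.2 this
      omega
    obtain ⟨⟨⟨h, g, hg, rfl⟩, hu⟩, hne⟩ := h1
    rcases hu with h1 | h1
    · exact absurd h1 hne
    · exact rat_of_unique g x h1
  obtain ⟨P, rfl⟩ := rat_exists x hx
  by_cases hT1 : Tc (H.map (psi F K)) (psi F K P (rp F K none)) y = 1
  · rw [cardU] at *
    rw [hT1] at hT
    refine alg (AA H P K) ⊥ d ?_ hU hd ?_
    · intro r hr b hb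
      rw [Subgroup.mem_bot] at hr
      rw [hr]
      simpa using hb
    · rw [Subgroup.card_bot]
      exact hT
  · -- a nontrivial torus element
    have h1 : ∃ h : {h : H.map (psi F K) // h • (psi F K P (rp F K none)) =
        psi F K P (rp F K none) ∧ h • y = y}, h.1 ≠ 1 := by
      by_contra hcon
      push Not at hcon
      apply hT1
      have : Unique {h : H.map (psi F K) // h • (psi F K P (rp F K none)) =
        psi F K P (rp F K none) ∧ h • y = y} :=
        ⟨⟨⟨1, one_smul _ _, one_smul _ _⟩⟩, fun a => Subtype.ext (hcon a)⟩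
      exact Nat.card_unique
    obtain ⟨⟨⟨h, g, hg, rfl⟩, hu1, hu2⟩, hne⟩ := h1
    have hne' : psi F K g ≠ 1 := fun h => hne (Subtype.ext h)
    set m := P⁻¹ * g * P with hm
    have hg' : P * m * P⁻¹ = g := by rw [hm, unconj]
    have hu1' : psi F K g (psi F K P (rp F K none)) = psi F K P (rp F K none) := hu1
    have hu2' : psi F K g y = y := hu2
    rw [← hg'] at hu1' hu2' hne'
    rw [conj_fix, (inv_psi P (rp F K none) _).2 rfl, inf_fix] at hu1'
    rw [conj_fix] at hu2'
    rw [Ne, psi_conj_one, psi_one_iff] at hne'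
    have hy : psi F K P⁻¹ y ≠ rp F K none := by
      intro h
      rw [inv_psi] at h
      exact hxy h.symm
    obtain ⟨u, hu, huy⟩ : ∃ u, ∃ hu : u ≠ 0, Projectivization.mk K u hu = psi F K P⁻¹ y :=
      ⟨_, (psi F K P⁻¹ y).rep_nonzero, (psi F K P⁻¹ y).mk_rep⟩
    rw [← huy] at hy hu2'
    have hu1n : u 1 ≠ 0 := by
      intro h
      apply hy
      show _ = Projectivization.mk K _ _
      rw [mk_cross]
      simp [up, h]
    rw [psi_fix, hu1', map_zero, zero_mul, zero_add] at hu2'
    have h3 : algebraMap F K (m.1 0 0) * u 0 + algebraMap F K (m.1 0 1) * u 1 =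
        algebraMap F K (m.1 1 1) * u 0 := by
      apply mul_right_cancel₀ hu1n
      linear_combination hu2'
    have h4 : m.1 1 1 - m.1 0 0 ≠ 0 := by
      intro h4
      have h5 : m.1 0 0 = m.1 1 1 := (sub_eq_zero.1 h4).symm
      apply hne'
      refine ⟨?_, hu1', h5⟩
      rw [h5] at h3
      have h6 : algebraMap F K (m.1 0 1) * u 1 = 0 := by linear_combination h3
      have h7 := (mul_eq_zero.1 h6).resolve_right hu1n
      exact (map_eq_zero (algebraMap F K)).1 h7
    set c : F := m.1 0 1 / (m.1 1 1 - m.1 0 0) with hc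
    have hyc : psi F K P⁻¹ y = rp F K (some c) := by
      rw [← huy]
      show _ = Projectivization.mk K _ _
      rw [mk_cross]
      have h4' : algebraMap F K (m.1 1 1 - m.1 0 0) ≠ 0 :=
        fun h => h4 ((map_eq_zero (algebraMap F K)).1 h)
      have hc' : algebraMap F K c * algebraMap F K (m.1 1 1 - m.1 0 0) =
          algebraMap F K (m.1 0 1) := by
        rw [← map_mul, hc, div_mul_cancel₀ _ h4]
      simp only [up, Matrix.cons_val_zero, Matrix.cons_val_one, map_one, mul_one]
      apply mul_right_cancel₀ h4'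
      rw [map_sub] at hc' ⊢
      linear_combination -h3 - u 1 * hc'
    have hy2 : y = psi F K (P * Um c) (rp F K (some 0)) := by
      rw [map_mul, Equiv.Perm.mul_apply, Um_some]
      exact (inv_psi P _ y).1 hyc
    have hx2 : psi F K P (rp F K none) = psi F K (P * Um c) (rp F K none) := by
      rw [map_mul, Equiv.Perm.mul_apply, Um_none]
    rw [hx2, hy2, cardU, cardT] at hT
    rw [hx2, cardU] at hU
    rw [hx2, cardU]
    exact alg _ (CC H (P * Um c) K) d (fun r hr b hb => CC_AA H (P * Um c) r hr b hb) hU hd hT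

end

end SpreadPerm.PL.Sub25
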