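import Pool.Agent.Lib.MP_e6ed9e_al.PL.Defs
import Pool.Agent.Lib.MP_e6ed9e_al.Dix88

/-! # Row SYL (helper88): the wild points -/

namespace SpreadPerm.PL

open MulAction Pool.Agent.Lib.MP_e6ed9e_al.DIX88

theorem syl88 : StSyl := by
  intro H X _ _ _ p hp hD x hx
  have hpF : Fact p.Prime := ⟨hp⟩
  have hinv : ∀ (x : X) (h : H), IsU x h → IsU x h⁻¹ := by
    intro x h hh
    rcases hh with rfl | hh
    · left; simp
    · right
      intro y
      rw [← hh y, inv_smul_eq_iff]
      exact eq_comm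
  let U : X → Subgroup H := fun x =>
    { carrier := {h | IsU x h}
      mul_mem' := fun {a b} ha hb => hD.U_mul x a b ha hb
      one_mem' := Or.inl rfl
      inv_mem' := fun {a} ha => hinv x a ha }
  have hU : ∀ x h, h ∈ U x ↔ h = 1 ∨ (∀ y, h • y = y ↔ y = x) := fun x h => Iff.rfl
  have hUp : ∀ x, IsPGroup p (U x) := by
    intro x g
    refine ⟨1, ?_⟩
    rw [pow_one]
    exact Subtype.ext (hD.U_pow x g.1 g.2)
  have hUc : ∀ x, Uc H x = Nat.card (U x) := fun x => rfl
  have hwild : ∀ x, 1 < Uc H x ↔ U x ≠ ⊥ := by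
    intro x
    rw [hUc, Subgroup.one_lt_card_iff_ne_bot]
  have hset : {z : X | 1 < Uc H z} = {z | U z ≠ ⊥} := by
    ext z; exact hwild z
  have hx' : U x ≠ ⊥ := (hwild x).1 hx
  have horb := wild_orbit hU hUp x hx'
  have hfin : (orbit H x).Finite := Set.finite_range _
  refine ⟨?_, ?_, ?_⟩
  · intro z
    rw [hwild z]
    have : U z ≠ ⊥ ↔ z ∈ orbit H x := by rw [← horb]; rfl
    rw [this]
    rfl
  · rw [hset, horb]
    exact orbit_mul (H := H) X x
  · rw [hset, horb]
    obtain ⟨s, hs⟩ := dvd_on hU x _ hfin (by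
      rintro g _ ⟨b, rfl⟩
      exact ⟨g * b, mul_smul g b x⟩)
    have h3 := Set.ncard_sdiff_singleton_add_one (mem_orbit_self (M := H) x) hfin
    rw [← h3, hs, ← hUc, Nat.add_comm, Nat.add_mul_mod_self_left]
    exact Nat.mod_eq_of_lt hx

end SpreadPerm.PL
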