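import Pool.Agent.Lib.MP_e6ed9e_al.PL.Defs

/-!
# Row BOREL
-/

namespace SpreadPerm.PL

open scoped LinearAlgebra.Projectivization MatrixGroups
open MulAction

theorem glsm30 {F : Type} [Field F] (g : GL (Fin 2) F) (v : Fin 2 → F) :
    g • v = g.1.mulVec v := rfl

theorem gl_ne30 {F : Type} [Field F] (g : GL (Fin 2) F) {v : Fin 2 → F} (hv : v ≠ 0) :
    g • v ≠ 0 := by
  intro h
  apply hv
  have h1 := inv_smul_smul g v
  rw [h, glsm30, Matrix.mulVec_zero] at h1
  exact h1.symm

/-- The determinant of two vectors. -/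
def dt30 {F : Type} [Field F] (u v : Fin 2 → F) : F := u 0 * v 1 - u 1 * v 0

theorem dt30_smul {F : Type} [Field F] (g : GL (Fin 2) F) (u v : Fin 2 → F) :
    dt30 (g • u) (g • v) = Matrix.det g.1 * dt30 u v := by
  rw [glsm30, glsm30, Matrix.det_fin_two]
  simp only [dt30, Matrix.mulVec, dotProduct, Fin.sum_univ_two]
  ring

/-- Two nonzero vectors with determinant zero are proportional. -/
theorem dt30_zero {F : Type} [Field F] {u v : Fin 2 → F} (hv : v ≠ 0) (h : dt30 u v = 0) :
    ∃ c : F, u = c • v := by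
  have hv' : v 0 ≠ 0 ∨ v 1 ≠ 0 := by
    by_contra hcon
    push Not at hcon
    apply hv
    ext i
    fin_cases i
    · exact hcon.1
    · exact hcon.2
  rw [dt30] at h
  rcases hv' with h0 | h1
  · refine ⟨u 0 / v 0, ?_⟩
    ext i
    fin_cases i
    · simp [h0]
    · simp only [Pi.smul_apply, smul_eq_mul, Fin.mk_one]
      field_simp
      linear_combination -h
  · refine ⟨u 1 / v 1, ?_⟩
    ext i
    fin_cases i
    · simp only [Pi.smul_apply, smul_eq_mul, Fin.zero_eta]
      field_simp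
      linear_combination h
    · simp [h1]

/-- `SL(2,F)` is transitive on pairs of independent vectors up to scalars. -/
theorem exists_sl30 {F : Type} [Field F] (u₁ u₂ u₃ u₄ : Fin 2 → F) (h12 : dt30 u₁ u₂ ≠ 0)
    (h34 : dt30 u₃ u₄ ≠ 0) : ∃ (g : GL (Fin 2) F) (l : F), Matrix.det g.1 = 1 ∧ l ≠ 0 ∧
      g • u₁ = u₃ ∧ g • u₂ = l • u₄ := by
  set l : F := dt30 u₁ u₂ / dt30 u₃ u₄ with hl
  set m : Matrix (Fin 2) (Fin 2) F :=
    !![(u₃ 0 * u₂ 1 - l * u₄ 0 * u₁ 1) / dt30 u₁ u₂, (l * u₄ 0 * u₁ 0 - u₃ 0 * u₂ 0) / dt30 u₁ u₂;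
      (u₃ 1 * u₂ 1 - l * u₄ 1 * u₁ 1) / dt30 u₁ u₂, (l * u₄ 1 * u₁ 0 - u₃ 1 * u₂ 0) / dt30 u₁ u₂]
    with hm
  have hdet : m.det = 1 := by
    rw [hm, Matrix.det_fin_two_of]
    rw [hl]
    field_simp
    simp only [dt30]
    ring
  refine ⟨Matrix.GeneralLinearGroup.mkOfDetNeZero m (by rw [hdet]; exact one_ne_zero), l, ?_, ?_,
    ?_, ?_⟩
  · exact hdet
  · rw [hl]
    exact div_ne_zero h12 h34
  · rw [glsm30]
    show m.mulVec u₁ = u₃
    ext i
    fin_cases i
    · simp [hm, Matrix.mulVec, dotProduct, Fin.sum_univ_two]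
      field_simp
      simp only [dt30]
      ring
    · simp [hm, Matrix.mulVec, dotProduct, Fin.sum_univ_two]
      field_simp
      simp only [dt30]
      ring
  · rw [glsm30]
    show m.mulVec u₂ = l • u₄
    ext i
    fin_cases i
    · simp [hm, Matrix.mulVec, dotProduct, Fin.sum_univ_two]
      field_simp
      simp only [dt30]
      ring
    · simp [hm, Matrix.mulVec, dotProduct, Fin.sum_univ_two]
      field_simp
      simp only [dt30]
      ring

theorem borel30 : StBorel := by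
  classical
  intro F Ω _ _ _ Γ _ _ hL ω hco ⟨v, hv, hstab⟩
  -- the stabilizer of the line
  have hsub : ∀ g : Γ, (∃ c : F, g.1 • v = c • v) → g • ω = ω := by
    let M : Subgroup Γ :=
      { carrier := {g | ∃ c : F, g.1 • v = c • v}
        one_mem' := ⟨1, by rw [Subgroup.coe_one, one_smul, one_smul]⟩
        mul_mem' := by
          rintro g h ⟨c, hc⟩ ⟨d, hd⟩
          refine ⟨d * c, ?_⟩
          rw [Subgroup.coe_mul, mul_smul, hd, glsm30, Matrix.mulVec_smul, ← glsm30, hc, smul_smul]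
        inv_mem' := by
          rintro g ⟨c, hc⟩
          have hc0 : c ≠ 0 := by
            rintro rfl
            rw [zero_smul] at hc
            exact gl_ne30 g.1 hv hc
          refine ⟨c⁻¹, ?_⟩
          rw [Subgroup.coe_inv, inv_smul_eq_iff, glsm30, Matrix.mulVec_smul, ← glsm30, hc, smul_smul,
            inv_mul_cancel₀ hc0, one_smul] }
    have hle : stabilizer Γ ω ≤ M := fun g hg => hstab g hg
    have hM : M ≠ ⊤ := by
      intro htop
      -- a vector independent of `v`
      obtain ⟨w, hw⟩ : ∃ w : Fin 2 → F, dt30 v w ≠ 0 := by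
        by_contra hcon
        push Not at hcon
        have e1 := hcon ![0, 1]
        have e2 := hcon ![1, 0]
        simp [dt30] at e1 e2
        apply hv
        ext i
        fin_cases i
        · exact e1
        · exact e2
      have hw' : dt30 w v ≠ 0 := by
        intro h
        apply hw
        simp only [dt30] at h ⊢
        linear_combination -h
      obtain ⟨g, l, hg, hl, h1, h2⟩ := exists_sl30 v w w v hw hw'
      have h3 : (⟨g, hL.sl g hg⟩ : Γ) ∈ M := by
        rw [htop]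
        exact Subgroup.mem_top _
      obtain ⟨c, hc⟩ := h3
      have hc' : g • v = c • v := hc
      rw [h1] at hc'
      apply hw
      rw [hc']
      simp only [dt30, Pi.smul_apply, smul_eq_mul]
      ring
    have hEq : stabilizer Γ ω = M := by
      rcases hco.le_iff.1 hle with h | h
      · exact absurd h hM
      · exact h.symm
    intro g hg
    have : g ∈ stabilizer Γ ω := by
      rw [hEq]
      exact hg
    exact this
  rw [is_two_pretransitive_iff]
  intro a b c d hab hcd
  obtain ⟨g₁, rfl⟩ := exists_smul_eq Γ ω a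
  obtain ⟨g₂, rfl⟩ := exists_smul_eq Γ ω b
  obtain ⟨g₃, rfl⟩ := exists_smul_eq Γ ω c
  obtain ⟨g₄, rfl⟩ := exists_smul_eq Γ ω d
  -- distinct points give independent vectors
  have hne0 : ∀ g : Γ, g.1 • v ≠ 0 := by
    intro g h
    exact gl_ne30 g.1 hv h
  have key : ∀ g h : Γ, (∃ c : F, g.1 • v = c • (h.1 • v)) → g • ω = h • ω := by
    rintro g h ⟨c, hc⟩
    have h1 := hsub (h⁻¹ * g) ⟨c, by
      rw [Subgroup.coe_mul, mul_smul, hc, Subgroup.coe_inv, glsm30 h.1⁻¹, Matrix.mulVec_smul,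
        ← glsm30, inv_smul_smul]⟩
    rw [mul_smul, inv_smul_eq_iff] at h1
    exact h1
  have ind : ∀ g h : Γ, g • ω ≠ h • ω → dt30 (g.1 • v) (h.1 • v) ≠ 0 := by
    intro g h hgh h0
    exact hgh (key g h (dt30_zero (hne0 h) h0))
  obtain ⟨g, l, hg, hl, e1, e2⟩ := exists_sl30 _ _ _ _ (ind g₁ g₂ hab) (ind g₃ g₄ hcd)
  refine ⟨⟨g, hL.sl g hg⟩, ?_, ?_⟩
  · rw [smul_smul]
    apply key
    refine ⟨1, ?_⟩
    rw [Subgroup.coe_mul, mul_smul, one_smul]
    exact e1
  · rw [smul_smul]
    apply key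
    refine ⟨l, ?_⟩
    rw [Subgroup.coe_mul, mul_smul]
    exact e2

end SpreadPerm.PL
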