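import Pool.Agent.Lib.MP_e6ed9e_al.PL.Defs

/-!
# All transitive actions of the groups between `PSL(2,q)` and `PΓL(2,q)`: statements of the modules
-/

namespace SpreadPerm.PL

open scoped LinearAlgebra.Projectivization MatrixGroups
open MulAction

noncomputable section

/-- The group `G` acts on `F²` by semilinear maps, among them all linear maps of determinant one,
and it acts on `Ω`, trivially for the elements that act on `F²` as scalars, not trivially for those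
that act on `F²` with determinant one. -/
structure SAct (F : Type) [Field F] (G Ω : Type) [Group G] [DistribMulAction G (Fin 2 → F)]
    [MulAction G Ω] : Prop where
  semi : ∀ g : G, ∃ σ : F ≃+* F, ∀ (c : F) (v : Fin 2 → F), g • (c • v) = σ c • (g • v)
  sl : ∀ m : GL (Fin 2) F, Matrix.det m.1 = 1 → ∃ g : G, ∀ v : Fin 2 → F, g • v = m • v
  sc : ∀ g : G, (∃ c : F, ∀ v : Fin 2 → F, g • v = c • v) → ∀ ω : Ω, g • ω = ω
  nt : ∃ (g : G) (m : GL (Fin 2) F), Matrix.det m.1 = 1 ∧ (∀ v : Fin 2 → F, g • v = m • v) ∧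
    ∃ ω : Ω, g • ω ≠ ω

/-- The linear part of the stabilizer of `ω`. -/
def LS (F : Type) [Field F] (G : Type) {Ω : Type} [Group G] [DistribMulAction G (Fin 2 → F)]
    [MulAction G Ω] (ω : Ω) : Subgroup (GL (Fin 2) F) where
  carrier := {m | ∃ g : G, g • ω = ω ∧ ∀ v : Fin 2 → F, g • v = m • v}
  one_mem' := ⟨1, one_smul _ _, fun v => by rw [one_smul, one_smul]⟩
  mul_mem' := by
    rintro m n ⟨g, hg, hg'⟩ ⟨h, hh, hh'⟩
    exact ⟨g * h, by rw [mul_smul, hh, hg], fun v => by rw [mul_smul, mul_smul, hh', hg']⟩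
  inv_mem' := by
    rintro m ⟨g, hg, hg'⟩
    exact ⟨g⁻¹, by rw [inv_smul_eq_iff, hg], fun v => by
      rw [inv_smul_eq_iff, hg', smul_inv_smul]⟩

/-- SBOREL -/
def StSBorel : Prop := ∀ (F G Ω : Type) [Field F] [Fintype F] [Group G] [Fintype Ω]
  [DistribMulAction G (Fin 2 → F)] [MulAction G Ω] [IsPretransitive G Ω], SAct F G Ω →
  ∀ ω : Ω, IsCoatom (stabilizer G ω) →
  (∃ v : Fin 2 → F, v ≠ 0 ∧ ∀ g : G, g • ω = ω → ∃ c : F, g • v = c • v) →
  IsMultiplyPretransitive G Ω 2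

/-- SPAIR -/
def StSPair : Prop := ∀ (F G Ω : Type) [Field F] [Fintype F] [Group G] [Fintype Ω]
  [DistribMulAction G (Fin 2 → F)] [MulAction G Ω] [IsPretransitive G Ω], SAct F G Ω →
  ∀ ω : Ω, IsCoatom (stabilizer G ω) → 3 ≤ Fintype.card F →
  (∃ v w : Fin 2 → F, (∀ c : F, v ≠ c • w) ∧ (∀ c : F, w ≠ c • v) ∧ ∀ g : G, g • ω = ω →
    ((∃ c : F, g • v = c • v) ∧ ∃ c : F, g • w = c • w) ∨
    ((∃ c : F, g • v = c • w) ∧ ∃ c : F, g • w = c • v)) → NonSpreading G Ω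

/-- A labelling of `Ω` by the anisotropic binary quadratic forms up to scalars. -/
structure SEll (F : Type) [Field F] (G Ω : Type) [Group G] [DistribMulAction G (Fin 2 → F)]
    [MulAction G Ω] (A B C : Ω → F) : Prop where
  aniso : ∀ (ω : Ω) (v : Fin 2 → F), v ≠ 0 → bq (A ω) (B ω) (C ω) v ≠ 0
  inj : ∀ ω ω' : Ω, ∀ l : F, A ω' = l * A ω → B ω' = l * B ω → C ω' = l * C ω → ω' = ω
  surj : ∀ a b c : F, (∀ v : Fin 2 → F, v ≠ 0 → bq a b c v ≠ 0) →
    ∃ (ω : Ω) (l : F), l ≠ 0 ∧ A ω = l * a ∧ B ω = l * b ∧ C ω = l * c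
  semi : ∀ g : G, ∃ σ : F ≃+* F, (∀ (c : F) (v : Fin 2 → F), g • (c • v) = σ c • (g • v)) ∧
    ∀ ω : Ω, ∃ l : F, l ≠ 0 ∧ ∀ v : Fin 2 → F,
      bq (A (g • ω)) (B (g • ω)) (C (g • ω)) (g • v) = l * σ (bq (A ω) (B ω) (C ω) v)

/-- SLABEL -/
def StSLabel : Prop := ∀ (F G Ω : Type) [Field F] [Fintype F] [Group G] [Fintype Ω]
  [DistribMulAction G (Fin 2 → F)] [MulAction G Ω] [IsPretransitive G Ω], SAct F G Ω →
  ∀ ω : Ω, IsCoatom (stabilizer G ω) → 3 ≤ Fintype.card F →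
  (∃ a b c : F, (∀ v : Fin 2 → F, v ≠ 0 → bq a b c v ≠ 0) ∧
    ∀ g : G, g • ω = ω → ∃ (l : F) (σ : F ≃+* F), ∀ v : Fin 2 → F,
      bq a b c (g • v) = l * σ (bq a b c v)) →
  ∃ A B C : Ω → F, SEll F G Ω A B C

/-- SCARD -/
def StSCard : Prop := ∀ (F G Ω : Type) [Field F] [Fintype F] [Group G] [Fintype Ω]
  [DistribMulAction G (Fin 2 → F)] [MulAction G Ω] (A B C : Ω → F), SEll F G Ω A B C →
  2 * Fintype.card Ω = Fintype.card F * (Fintype.card F - 1)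

/-- STRA -/
def StSTra : Prop := ∀ (F G Ω : Type) [Field F] [Fintype F] [Group G] [Fintype Ω]
  [DistribMulAction G (Fin 2 → F)] [MulAction G Ω] (A B C : Ω → F), SEll F G Ω A B C →
  ∀ m d e : ℕ, m = (Fintype.card F - 1) / Nat.gcd 2 (Fintype.card F - 1) →
  m = d * e → 2 ≤ d → 2 ≤ e → NonSpreading G Ω

/-- SCON -/
def StSCon : Prop := ∀ (F G Ω : Type) [Field F] [Fintype F] [Group G] [Fintype Ω]
  [DistribMulAction G (Fin 2 → F)] [MulAction G Ω] (A B C : Ω → F), SEll F G Ω A B C →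
  Fintype.card F % 4 = 3 → 3 < Fintype.card F → NonSpreading G Ω

/-- SNORM: conjugation of a linear element of the stabilizer by a semilinear one. -/
def StSNorm : Prop := ∀ (F G Ω : Type) [Field F] [Fintype F] [Group G]
  [DistribMulAction G (Fin 2 → F)] [MulAction G Ω], SAct F G Ω → ∀ (ω : Ω) (g : G), g • ω = ω →
  ∀ m ∈ LS F G ω, ∃ m' ∈ LS F G ω, ∀ v : Fin 2 → F, g • (m • v) = m' • (g • v)

/-- SCOUNT: `|Ω| |H ∩ SL(2,F)| = |SL(2,F)|`. -/
def StSCount : Prop := ∀ (F K G Ω : Type) [Field F] [Fintype F] [Field K] [IsAlgClosed K]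
  [Algebra F K] [Group G] [Fintype Ω]
  [DistribMulAction G (Fin 2 → F)] [MulAction G Ω] [IsPretransitive G Ω], SAct F G Ω →
  ∀ ω : Ω, IsCoatom (stabilizer G ω) →
  Fintype.card F * (Fintype.card F ^ 2 - 1) ≤
    2 * Fintype.card Ω * Nat.card ((LS F G ω).map (psi F K))

/-- SMDIM: an intransitive stabilizer of a point of the projective line (`ModuleDimension`). -/
def StSMdim : Prop := ∀ (F G Ω : Type) [Field F] [Fintype F] [Group G] [Finite G] [Fintype Ω]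
  [DistribMulAction G (Fin 2 → F)] [MulAction G Ω] [IsPretransitive G Ω], SAct F G Ω →
  ∀ ω : Ω, Fintype.card Ω ^ (Fintype.card F + 1) < 2 ^ Fintype.card Ω →
  (∃ x y : Fin 2 → F, x ≠ 0 ∧ y ≠ 0 ∧ ∀ g : G, g • ω = ω → ∀ c : F, g • x ≠ c • y) →
  NonSpreading G Ω

/-- SSMALL: a small linear part. -/
def StSSmall : Prop := ∀ (F K G Ω : Type) [Field F] [Fintype F] [Field K] [IsAlgClosed K]
  [Algebra F K] [Group G] [DistribMulAction G (Fin 2 → F)] [MulAction G Ω], SAct F G Ω →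
  ∀ ω : Ω, 10000 ≤ Fintype.card F → Nat.card ((LS F G ω).map (psi F K)) ≤ 60 →
  ∃ x y : Fin 2 → F, x ≠ 0 ∧ y ≠ 0 ∧ ∀ g : G, g • ω = ω → ∀ c : F, g • x ≠ c • y

/-- SUNI: the rational points with unipotent elements. -/
def StSUni : Prop := ∀ (F K G Ω : Type) [Field F] [Fintype F] [Field K] [IsAlgClosed K]
  [Algebra F K] [Group G] [DistribMulAction G (Fin 2 → F)] [MulAction G Ω], SAct F G Ω →
  ∀ ω : Ω, (∃ x : PX K, 1 < Uc ((LS F G ω).map (psi F K)) x) →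
  {z : PX K | 1 < Uc ((LS F G ω).map (psi F K)) z}.ncard < Fintype.card F + 1 →
  ∃ x y : Fin 2 → F, x ≠ 0 ∧ y ≠ 0 ∧ ∀ g : G, g • ω = ω → ∀ c : F, g • x ≠ c • y

/-- SRB: the linear part fixes a rational point. -/
def StSRb : Prop := ∀ (F K G Ω : Type) [Field F] [Fintype F] [Field K] [IsAlgClosed K]
  [Algebra F K] [Group G] [DistribMulAction G (Fin 2 → F)] [MulAction G Ω], SAct F G Ω →
  ∀ ω : Ω, 1 < Nat.card ((LS F G ω).map (psi F K)) →
  (∃ v : Fin 2 → F, v ≠ 0 ∧ ∀ m ∈ LS F G ω, ∃ c : F, m • v = c • v) →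
  (∃ v : Fin 2 → F, v ≠ 0 ∧ ∀ g : G, g • ω = ω → ∃ c : F, g • v = c • v) ∨
  (∃ v w : Fin 2 → F, (∀ c : F, v ≠ c • w) ∧ (∀ c : F, w ≠ c • v) ∧ ∀ g : G, g • ω = ω →
    ((∃ c : F, g • v = c • v) ∧ ∃ c : F, g • w = c • w) ∨
    ((∃ c : F, g • v = c • w) ∧ ∃ c : F, g • w = c • v))

/-- SRP: the linear part preserves a pair of rational points. -/
def StSRp : Prop := ∀ (F K G Ω : Type) [Field F] [Fintype F] [Field K] [IsAlgClosed K]
  [Algebra F K] [Group G] [DistribMulAction G (Fin 2 → F)] [MulAction G Ω], SAct F G Ω →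
  ∀ ω : Ω, 60 < Nat.card ((LS F G ω).map (psi F K)) → ∀ v w : Fin 2 → F,
  (∀ c : F, v ≠ c • w) → (∀ c : F, w ≠ c • v) →
  (∀ m ∈ LS F G ω, ((∃ c : F, m • v = c • v) ∧ ∃ c : F, m • w = c • w) ∨
    ((∃ c : F, m • v = c • w) ∧ ∃ c : F, m • w = c • v)) →
  ∀ g : G, g • ω = ω → ((∃ c : F, g • v = c • v) ∧ ∃ c : F, g • w = c • w) ∨
    ((∃ c : F, g • v = c • w) ∧ ∃ c : F, g • w = c • v)

/-- SRE: the linear part preserves an anisotropic form up to scalars. -/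
def StSRe : Prop := ∀ (F K G Ω : Type) [Field F] [Fintype F] [Field K] [IsAlgClosed K]
  [Algebra F K] [Group G] [DistribMulAction G (Fin 2 → F)] [MulAction G Ω], SAct F G Ω →
  ∀ ω : Ω, 60 < Nat.card ((LS F G ω).map (psi F K)) → ∀ a b c : F,
  (∀ v : Fin 2 → F, v ≠ 0 → bq a b c v ≠ 0) →
  (∀ m ∈ LS F G ω, ∃ l : F, ∀ v : Fin 2 → F, bq a b c (m • v) = l * bq a b c v) →
  ∀ g : G, g • ω = ω → ∃ (l : F) (σ : F ≃+* F), ∀ v : Fin 2 → F,
      bq a b c (g • v) = l * σ (bq a b c v)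

/-- SMAIN -/
def StSMain : Prop := ∀ (F G Ω : Type) [Field F] [Fintype F] [Group G] [Finite G] [Fintype Ω]
  [DistribMulAction G (Fin 2 → F)] [MulAction G Ω] [IsPretransitive G Ω], SAct F G Ω →
  10000 ≤ Fintype.card F → Spreading G Ω → IsMultiplyPretransitive G Ω 2 ∨
    (ringChar F = 2 ∧ (Fintype.card F - 1).Prime ∧
      2 * Fintype.card Ω = Fintype.card F * (Fintype.card F - 1))

end

end SpreadPerm.PL
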