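import Pool.Agent.Lib.MP_e6ed9e_al.PL.Defs
import Pool.Agent.Lib.MP_e6ed9e_al.PL.Semi30

/-! # Rows CARD, SURJ, SCARD (helper88) -/

namespace SpreadPerm.PL

open MulAction

section
variable {F : Type} [Field F]

/-- The monic quadratics `t^2 + b t + c` without a root. -/
def NoRoot (p : F × F) : Prop := ∀ t : F, t ^ 2 + p.1 * t + p.2 ≠ 0

/-- The monic quadratic with roots `r`, `s`. -/
def symQ : Sym2 F → F × F :=
  Sym2.lift ⟨fun r s => (-(r + s), r * s), fun r s => by
    show (-(r + s), r * s) = (-(s + r), s * r)
    rw [add_comm r s, mul_comm r s]⟩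

theorem symQ_mk (r s : F) : symQ s(r, s) = (-(r + s), r * s) := rfl

open Classical in
theorem card_noroot (F : Type) [Field F] [Fintype F] :
    2 * (Finset.univ.filter (fun p : F × F => NoRoot p)).card =
      Fintype.card F * (Fintype.card F - 1) := by
  have hinj : Function.Injective (symQ : Sym2 F → F × F) := by
    intro z w
    induction z with | _ r s
    induction w with | _ r' s'
    intro h
    rw [symQ_mk, symQ_mk, Prod.mk.injEq] at h
    obtain ⟨h1, h2⟩ := h
    have h1' : r + s = r' + s' := neg_injective h1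
    have h3 : (r - r') * (r - s') = 0 := by
      linear_combination r * h1' - h2
    rw [Sym2.eq_iff]
    rcases mul_eq_zero.1 h3 with h4 | h4
    · left
      have h5 : r = r' := sub_eq_zero.1 h4
      exact ⟨h5, by rw [h5] at h1'; exact add_left_cancel h1'⟩
    · right
      have h5 : r = s' := sub_eq_zero.1 h4
      refine ⟨h5, ?_⟩
      rw [h5, add_comm] at h1'
      exact add_right_cancel h1'
  have himg : (Finset.univ.filter (fun p : F × F => ¬ NoRoot p)) =
      Finset.univ.image (symQ : Sym2 F → F × F) := by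
    ext ⟨b, c⟩
    simp only [Finset.mem_filter, Finset.mem_univ, true_and, Finset.mem_image]
    constructor
    · intro h
      rw [NoRoot] at h
      push Not at h
      obtain ⟨t, ht⟩ := h
      refine ⟨s(t, -b - t), ?_⟩
      rw [symQ_mk, Prod.mk.injEq]
      constructor
      · ring
      · simp only at ht
        linear_combination -ht
    · rintro ⟨z, hz⟩
      induction z with | _ r s
      rw [symQ_mk, Prod.mk.injEq] at hz
      obtain ⟨rfl, rfl⟩ := hz
      intro h
      apply h r
      simp only
      ring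
  have h1 := Finset.card_filter_add_card_filter_not (s := (Finset.univ : Finset (F × F)))
    (fun p : F × F => NoRoot p)
  rw [himg, Finset.card_image_of_injective _ hinj, Finset.card_univ, Finset.card_univ,
    Sym2.card, Fintype.card_prod] at h1
  have h2 : (Fintype.card F + 1).choose 2 * 2 = (Fintype.card F + 1) * Fintype.card F := by
    rw [Nat.choose_two_right, Nat.add_sub_cancel]
    exact Nat.div_mul_cancel (Nat.even_mul_succ_self (Fintype.card F) |>.two_dvd |> (by
      rw [mul_comm]; exact ·))
  obtain ⟨n, hn⟩ : ∃ n, Fintype.card F = n + 1 := ⟨Fintype.card F - 1, by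
    have := Fintype.card_pos (α := F); omega⟩
  rw [hn] at h1 h2 ⊢
  rw [Nat.add_sub_cancel]
  have h3 : (n + 1) * (n + 1) * 2 = (n + 1 + 1) * (n + 1) + (n + 1) * n := by ring
  omega

theorem bq_monic (b c : F) (h : NoRoot (b, c)) (v : Fin 2 → F) (hv : v ≠ 0) :
    bq 1 b c v ≠ 0 := by
  intro h0
  rw [bq] at h0
  by_cases h1 : v 1 = 0
  · rw [h1] at h0
    have h2 : v 0 ^ 2 = 0 := by linear_combination h0
    have h3 : v 0 = 0 := by
      by_contra hne
      exact pow_ne_zero 2 hne h2
    apply hv
    ext i
    fin_cases i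
    · exact h3
    · exact h1
  · apply h (v 0 / v 1)
    simp only
    field_simp
    linear_combination h0

theorem monic_of_aniso {a b c : F} (h : ∀ v : Fin 2 → F, v ≠ 0 → bq a b c v ≠ 0) :
    a ≠ 0 ∧ NoRoot (b / a, c / a) := by
  have ha : a ≠ 0 := by
    intro ha
    apply h ![1, 0]
    · intro h0
      have := congrFun h0 0
      simp at this
    · simp [bq, ha]
  refine ⟨ha, ?_⟩
  intro t ht
  apply h ![t, 1]
  · intro h0
    have := congrFun h0 1
    simp at this
  · simp only at ht
    field_simp at ht
    simp only [bq, Matrix.cons_val_zero, Matrix.cons_val_one, Matrix.cons_val_fin_one]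
    linear_combination ht

/-- The count, without the group. -/
theorem card_label [Fintype F] {Ω : Type} [Fintype Ω] (A B C : Ω → F)
    (haniso : ∀ (ω : Ω) (v : Fin 2 → F), v ≠ 0 → bq (A ω) (B ω) (C ω) v ≠ 0)
    (hinj : ∀ ω ω' : Ω, ∀ l : F, A ω' = l * A ω → B ω' = l * B ω → C ω' = l * C ω → ω' = ω)
    (hsurj : ∀ a b c : F, (∀ v : Fin 2 → F, v ≠ 0 → bq a b c v ≠ 0) →
      ∃ (ω : Ω) (l : F), l ≠ 0 ∧ A ω = l * a ∧ B ω = l * b ∧ C ω = l * c) :
    2 * Fintype.card Ω = Fintype.card F * (Fintype.card F - 1) := by
  classical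
  rw [← card_noroot F]
  congr 1
  rw [← Finset.card_univ]
  refine Finset.card_bij (fun ω _ => (B ω / A ω, C ω / A ω)) ?_ ?_ ?_
  · intro ω _
    rw [Finset.mem_filter]
    exact ⟨Finset.mem_univ _, (monic_of_aniso (haniso ω)).2⟩
  · intro ω _ ω' _ h
    have h1 := (monic_of_aniso (haniso ω)).1
    have h2 := (monic_of_aniso (haniso ω')).1
    rw [Prod.mk.injEq, div_eq_div_iff h1 h2, div_eq_div_iff h1 h2] at h
    refine (hinj ω ω' (A ω' / A ω) ?_ ?_ ?_).symm
    · field_simp
    · field_simp
      linear_combination -h.1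
    · field_simp
      linear_combination -h.2
  · rintro ⟨b, c⟩ hbc
    rw [Finset.mem_filter] at hbc
    obtain ⟨ω, l, hl, hA, hB, hC⟩ := hsurj 1 b c (fun v hv => bq_monic b c hbc.2 v hv)
    refine ⟨ω, Finset.mem_univ _, ?_⟩
    rw [hA, hB, hC]
    simp only [Prod.mk.injEq]
    constructor <;> field_simp

end

/-- CARD -/
theorem card88 : StCard := by
  intro F Ω _ _ _ Γ _ A B C hE
  exact card_label A B C hE.aniso hE.inj hE.surj

/-- SCARD -/
theorem scard88 : StSCard := by
  intro F G Ω _ _ _ _ _ _ A B C hE
  exact card_label A B C hE.aniso hE.inj hE.surj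

section
variable {F : Type} [Field F]

open Classical in
/-- Every irreducible monic quadratic is a translate and dilate of a given one. -/
theorem exists_sub [Fintype F] {b c b' c' : F} (h : NoRoot (b, c)) (h' : NoRoot (b', c')) :
    ∃ α β : F, β ≠ 0 ∧ b' * β - 2 * α = b ∧ α ^ 2 - b' * α * β + c' * β ^ 2 = c := by
  set s : Finset (F × F) := Finset.univ.filter (fun p : F × F => p.2 ≠ 0) with hs
  set f : F × F → F × F := fun p => (b' * p.2 - 2 * p.1, p.1 ^ 2 - b' * p.1 * p.2 + c' * p.2 ^ 2)
    with hf
  have hscard : s.card = Fintype.card F * (Fintype.card F - 1) := by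
    have : s = (Finset.univ : Finset F) ×ˢ (Finset.univ.erase (0 : F)) := by
      ext ⟨x, y⟩
      simp [hs]
    rw [this, Finset.card_product, Finset.card_univ, Finset.card_erase_of_mem (Finset.mem_univ _),
      Finset.card_univ]
  have himg : s.image f ⊆ Finset.univ.filter (fun p : F × F => NoRoot p) := by
    intro p hp
    obtain ⟨⟨x, y⟩, hxy, rfl⟩ := Finset.mem_image.1 hp
    rw [hs, Finset.mem_filter] at hxy
    rw [Finset.mem_filter]
    refine ⟨Finset.mem_univ _, ?_⟩
    intro t ht
    have hy : y ≠ 0 := hxy.2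
    apply h' ((t - x) / y)
    simp only [hf] at ht ⊢
    field_simp
    linear_combination ht
  have hfib : ∀ a ∈ s.image f, (s.filter fun x => f x = a).card ≤ 2 := by
    intro a ha
    obtain ⟨⟨x, y⟩, hxy, rfl⟩ := Finset.mem_image.1 ha
    have hsub : (s.filter fun z => f z = f (x, y)) ⊆ {(x, y), (x - b' * y, -y)} := by
      rintro ⟨x1, y1⟩ hz
      rw [Finset.mem_filter] at hz
      obtain ⟨_, hz2⟩ := hz
      simp only [hf, Prod.mk.injEq] at hz2
      obtain ⟨e1, e2⟩ := hz2
      rw [Finset.mem_insert, Finset.mem_singleton, Prod.mk.injEq, Prod.mk.injEq]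
      by_cases hd : y1 = y
      · subst hd
        have h2 : 2 * (x1 - x) = 0 := by linear_combination -e1
        by_cases htwo : (2 : F) = 0
        · have h3 : (x1 - x) * (x1 + x - b' * y1) = 0 := by
            linear_combination e2
          rcases mul_eq_zero.1 h3 with h4 | h4
          · exact Or.inl ⟨sub_eq_zero.1 h4, rfl⟩
          · right
            constructor
            · linear_combination h4 + (b' * y1 - x) * htwo
            · linear_combination y1 * htwo
        · left
          exact ⟨sub_eq_zero.1 ((mul_eq_zero.1 h2).resolve_left htwo), rfl⟩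
      · right
        have hd' : y1 - y ≠ 0 := sub_ne_zero.2 hd
        obtain ⟨κ, hκ⟩ : ∃ κ, x1 = x + κ * (y1 - y) := ⟨(x1 - x) / (y1 - y), by
          field_simp; ring⟩
        have h2κ : b' = 2 * κ := by
          apply mul_right_cancel₀ hd'
          rw [hκ] at e1
          linear_combination e1
        have h3 : (y1 - y) * ((c' - κ ^ 2) * (y1 + y)) = 0 := by
          rw [hκ, h2κ] at e2
          linear_combination e2
        have h4 : (c' - κ ^ 2) * (y1 + y) = 0 := (mul_eq_zero.1 h3).resolve_left hd'
        have h5 : c' - κ ^ 2 ≠ 0 := by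
          intro h0
          apply h' (-κ)
          simp only
          rw [h2κ]
          linear_combination h0
        have h6 : y1 + y = 0 := (mul_eq_zero.1 h4).resolve_left h5
        constructor
        · rw [hκ, h2κ]
          linear_combination κ * h6
        · linear_combination h6
    exact (Finset.card_le_card hsub).trans Finset.card_le_two
  have h1 := Finset.card_le_mul_card_image s 2 hfib
  have h2 := card_noroot F
  rw [hscard, ← h2] at h1
  have h3 : (Finset.univ.filter (fun p : F × F => NoRoot p)).card ≤ (s.image f).card := by omega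
  have h4 := Finset.eq_of_subset_of_card_le himg h3
  have h5 : (b, c) ∈ s.image f := by
    rw [h4, Finset.mem_filter]
    exact ⟨Finset.mem_univ _, h⟩
  obtain ⟨⟨x, y⟩, hxy, he⟩ := Finset.mem_image.1 h5
  rw [hs, Finset.mem_filter] at hxy
  simp only [hf, Prod.mk.injEq] at he
  exact ⟨x, y, hxy.2, he.1, he.2⟩

end

end SpreadPerm.PL
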