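import Pool.Agent.Lib.MP_e6ed9e_al.PL.Defs
import Pool.Agent.Lib.MP_e6ed9e_al.Rad54c

/-! # Row CON: the explicit vector, `q = 3` modulo `4` (helper54) -/

set_option linter.unusedSectionVars false

namespace SpreadPerm.PL

open MulAction Rad54
open scoped MatrixGroups

section
variable {F : Type} [Field F] [Fintype F]

theorem gl0 (g : GL (Fin 2) F) (v : Fin 2 → F) :
    (g • v) 0 = g.1 0 0 * v 0 + g.1 0 1 * v 1 := by
  show (g.1.mulVec v) 0 = _
  simp [Matrix.mulVec, dotProduct, Fin.sum_univ_two]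

theorem gl1 (g : GL (Fin 2) F) (v : Fin 2 → F) :
    (g • v) 1 = g.1 1 0 * v 0 + g.1 1 1 * v 1 := by
  show (g.1.mulVec v) 1 = _
  simp [Matrix.mulVec, dotProduct, Fin.sum_univ_two]

theorem aniso_sym [DecidableEq F] (h : ¬ IsSquare (-1 : F)) (S : Sym1 F) (v : Fin 2 → F)
    (hv : v ≠ 0) : bq S.1.1 (2 * S.1.2.1) S.1.2.2 v ≠ 0 := by
  intro h0
  simp only [bq] at h0
  have hS := S.2
  have ha := fst_ne h S
  have e : (S.1.1 * v 0 + S.1.2.1 * v 1) ^ 2 + v 1 ^ 2 = 0 := by
    linear_combination S.1.1 * h0 - (v 1) ^ 2 * hS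
  have h1 : ¬ (S.1.1 * v 0 + S.1.2.1 * v 1 ≠ 0 ∨ v 1 ≠ 0) := fun hc => norm_ne h _ _ hc e
  push Not at h1
  apply hv
  have h2 : v 1 = 0 := h1.2
  have h3 : v 0 = 0 := by
    have := h1.1
    rw [h2, mul_zero, add_zero] at this
    exact (mul_eq_zero.1 this).resolve_left ha
  funext i
  fin_cases i
  · exact h3
  · exact h2

theorem ev_bq [DecidableEq F] (S : Sym1 F) (x y : F) :
    ev S x y = bq S.1.1 (2 * S.1.2.1) S.1.2.2 ![x, y] := by
  simp only [ev, bq, Matrix.cons_val_zero, Matrix.cons_val_one]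
  ring

end

theorem con54 : StCon := by
  intro F Ω _ _ _ Γ _ _ A B C hE h4 hq
  classical
  have h : ¬ IsSquare (-1 : F) := by
    rw [FiniteField.isSquare_neg_one_iff]
    simpa using h4
  have h2' : (2 : F) ≠ 0 := Ring.two_ne_zero (char_ne_two h)
  have hsj : ∀ S : Sym1 F, ∃ (ω : Ω) (l : F), l ≠ 0 ∧ A ω = l * S.1.1 ∧ B ω = l * (2 * S.1.2.1) ∧
      C ω = l * S.1.2.2 := fun S => hE.surj _ _ _ (aniso_sym h S)
  choose π l hl0 hlA hlB hlC using hsj
  have hπ : ∀ S T, π S = π T ↔ T = S ∨ T = ng S := by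
    intro S T
    constructor
    · intro e
      have e1 : l S * S.1.1 = l T * T.1.1 := by rw [← hlA, ← hlA, e]
      have e2 : l S * S.1.2.1 = l T * T.1.2.1 := by
        have : l S * (2 * S.1.2.1) = l T * (2 * T.1.2.1) := by rw [← hlB, ← hlB, e]
        apply mul_left_cancel₀ h2'
        linear_combination this
      have e3 : l S * S.1.2.2 = l T * T.1.2.2 := by rw [← hlC, ← hlC, e]
      have e4 : (l S) ^ 2 = (l T) ^ 2 := by
        have hS := S.2
        have hT := T.2
        linear_combination (l S * S.1.2.2) * e1 + (l T * T.1.1) * e3 -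
          (l S * S.1.2.1 + l T * T.1.2.1) * e2 - (l S) ^ 2 * hS + (l T) ^ 2 * hT
      rcases sq_eq_sq_iff_eq_or_eq_neg.1 e4 with e5 | e5
      · left
        rw [e5] at e1 e2 e3
        apply Subtype.ext
        refine Prod.ext ?_ (Prod.ext ?_ ?_)
        · exact (mul_left_cancel₀ (hl0 T) e1).symm
        · exact (mul_left_cancel₀ (hl0 T) e2).symm
        · exact (mul_left_cancel₀ (hl0 T) e3).symm
      · right
        rw [e5] at e1 e2 e3
        apply Subtype.ext
        refine Prod.ext ?_ (Prod.ext ?_ ?_)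
        · apply mul_left_cancel₀ (hl0 T)
          simp only [ng]
          linear_combination -e1
        · apply mul_left_cancel₀ (hl0 T)
          simp only [ng]
          linear_combination -e2
        · apply mul_left_cancel₀ (hl0 T)
          simp only [ng]
          linear_combination -e3
    · have aux : ∀ S T : Sym1 F, ∀ m : F, S.1.1 = m * T.1.1 → S.1.2.1 = m * T.1.2.1 →
          S.1.2.2 = m * T.1.2.2 → π S = π T := by
        intro S T m m1 m2 m3
        apply hE.inj (π T) (π S) (l S * m / l T)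
        · rw [hlA, hlA, m1]
          field_simp [hl0 T]
        · rw [hlB, hlB, m2]
          field_simp [hl0 T]
        · rw [hlC, hlC, m3]
          field_simp [hl0 T]
      rintro (e | e)
      · rw [e]
      · symm
        apply aux T S (-1)
        · rw [e]; simp only [ng]; ring
        · rw [e]; simp only [ng]; ring
        · rw [e]; simp only [ng]; ring
  have hs : Function.Surjective π := by
    intro ω
    have hA0 : A ω ≠ 0 := by
      have := hE.aniso ω ![1, 0] (by
        intro h0
        have := congrFun h0 0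
        simp at this)
      simpa [bq] using this
    have hns : ¬ IsSquare (-(A ω * C ω - (B ω / 2) ^ 2)) := by
      rintro ⟨e, he⟩
      apply hE.aniso ω ![-(B ω) / 2 + e, A ω]
      · intro h0
        have := congrFun h0 1
        simp at this
        exact hA0 this
      · simp only [bq, Matrix.cons_val_zero, Matrix.cons_val_one]
        field_simp
        field_simp at he
        linear_combination (-(A ω)) * he
    have hsq : IsSquare (A ω * C ω - (B ω / 2) ^ 2) := by
      have hne : (A ω * C ω - (B ω / 2) ^ 2) ≠ 0 := by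
        intro h0
        apply hns
        rw [h0]
        exact ⟨0, by simp⟩
      rw [← quadraticChar_one_iff_isSquare hne]
      have e1 : quadraticChar F (-(A ω * C ω - (B ω / 2) ^ 2)) = -1 := by
        rcases quadraticChar_dichotomy (neg_ne_zero.2 hne) with h1 | h1
        · exact absurd ((quadraticChar_one_iff_isSquare (neg_ne_zero.2 hne)).1 h1) hns
        · exact h1
      have e2 : A ω * C ω - (B ω / 2) ^ 2 = (-1) * (-(A ω * C ω - (B ω / 2) ^ 2)) := by ring
      rw [e2, map_mul, e1, chi_neg_one h]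
      norm_num
    obtain ⟨e, he⟩ := hsq
    have he0 : e ≠ 0 := by
      rintro rfl
      apply hns
      rw [he]
      exact ⟨0, by simp⟩
    refine ⟨⟨(A ω / e, B ω / 2 / e, C ω / e), ?_⟩, ?_⟩
    · simp only
      rw [div_mul_div_comm, div_pow, ← pow_two, ← sub_div, div_eq_iff (pow_ne_zero 2 he0), he]
      ring
    · apply hE.inj ω _ (l ⟨(A ω / e, B ω / 2 / e, C ω / e), _⟩ / e)
      · rw [hlA]
        simp only
        ring
      · rw [hlB]
        simp only
        field_simp
      · rw [hlC]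
        simp only
        ring
  refine nonSpreading_of_model h hq π hs hπ Γ ?_
  intro g
  have hdet : g.1.1 0 0 * g.1.1 1 1 - g.1.1 0 1 * g.1.1 1 0 ≠ 0 := by
    have h1 := (Matrix.isUnit_iff_isUnit_det g.1.1).1 g.1.isUnit
    have h3 := h1.ne_zero
    rwa [Matrix.det_fin_two] at h3
  refine ⟨g.1.1 0 0, g.1.1 1 0, g.1.1 0 0 * g.1.1 1 1 - g.1.1 0 1 * g.1.1 1 0, ?_, hdet, ?_⟩
  · by_contra hc
    push Not at hc
    apply hdet
    rw [hc.1, hc.2]
    ring
  · intro S T hST
    obtain ⟨m, hm0, hm⟩ := hE.act g (π S)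
    rw [← hST] at hm
    -- the factor between `T ∘ g` and `S`
    have key : ∀ v : Fin 2 → F, bq T.1.1 (2 * T.1.2.1) T.1.2.2 (g.1 • v) =
        (m * l S / l T) * bq S.1.1 (2 * S.1.2.1) S.1.2.2 v := by
      intro v
      have h1 := hm v
      rw [hlA, hlB, hlC, hlA, hlB, hlC] at h1
      simp only [bq] at h1 ⊢
      field_simp [hl0 T]
      linear_combination h1
    have k1 := key ![1, 0]
    have k2 := key ![0, 1]
    have k3 := key ![1, 1]
    simp only [bq, gl0, gl1, Matrix.cons_val_zero, Matrix.cons_val_one] at k1 k2 k3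
    set lam := m * l S / l T with hlam
    have hS := S.2
    have hT := T.2
    have p11 : T.1.1 * (g.1.1 0 0) ^ 2 + 2 * T.1.2.1 * (g.1.1 0 0 * g.1.1 1 0) +
        T.1.2.2 * (g.1.1 1 0) ^ 2 = lam * S.1.1 := by linear_combination k1
    have p22 : T.1.1 * (g.1.1 0 1) ^ 2 + 2 * T.1.2.1 * (g.1.1 0 1 * g.1.1 1 1) +
        T.1.2.2 * (g.1.1 1 1) ^ 2 = lam * S.1.2.2 := by linear_combination k2
    have p12 : T.1.1 * (g.1.1 0 0 * g.1.1 0 1) +
        T.1.2.1 * (g.1.1 0 0 * g.1.1 1 1 + g.1.1 0 1 * g.1.1 1 0) +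
        T.1.2.2 * (g.1.1 1 0 * g.1.1 1 1) = lam * S.1.2.1 := by
      apply mul_left_cancel₀ h2'
      linear_combination k3 - k1 - k2
    have hl2 : lam ^ 2 = (g.1.1 0 0 * g.1.1 1 1 - g.1.1 0 1 * g.1.1 1 0) ^ 2 := by
      have e1 : (g.1.1 0 0 * g.1.1 1 1 - g.1.1 0 1 * g.1.1 1 0) ^ 2 *
          (T.1.1 * T.1.2.2 - T.1.2.1 ^ 2) = lam ^ 2 * (S.1.1 * S.1.2.2 - S.1.2.1 ^ 2) := by
        have : lam ^ 2 * (S.1.1 * S.1.2.2 - S.1.2.1 ^ 2) =
            (lam * S.1.1) * (lam * S.1.2.2) - (lam * S.1.2.1) ^ 2 := by ring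
        rw [this, ← p11, ← p22, ← p12]
        ring
      rw [hS, hT, mul_one, mul_one] at e1
      exact e1.symm
    have hev : ev T (g.1.1 0 0) (g.1.1 1 0) = lam * S.1.1 := by
      simp only [ev]
      linear_combination p11
    rw [hev]
    have hd := hdet
    rcases sq_eq_sq_iff_eq_or_eq_neg.1 hl2 with e | e
    · rw [e]
      constructor
      · rintro (h1 | h1)
        · left; rw [h1, mul_one]
        · right; rw [h1, mul_neg, mul_one]
      · rintro (h1 | h1)
        · left
          exact mul_left_cancel₀ hd (by rw [h1, mul_one])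
        · right
          exact mul_left_cancel₀ hd (by rw [h1, mul_neg, mul_one])
    · rw [e]
      constructor
      · rintro (h1 | h1)
        · right; rw [h1, mul_one]
        · left; rw [h1, neg_mul_neg, mul_one]
      · rintro (h1 | h1)
        · right
          apply mul_left_cancel₀ hd
          linear_combination -h1
        · left
          apply mul_left_cancel₀ hd
          linear_combination -h1

end SpreadPerm.PL
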