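import Mathlib
import Pool.Agent.Lib.MP_e6ed9e_al.PL.Base47

/-! # Row LABEL (helper3) -/

namespace SpreadPerm.PL

open scoped LinearAlgebra.Projectivization MatrixGroups
open MulAction

noncomputable section

theorem bq_coef {F : Type} [Field F] {a b c a' b' c' l : F}
    (h : ∀ v : Fin 2 → F, bq a b c v = l * bq a' b' c' v) :
    a = l * a' ∧ b = l * b' ∧ c = l * c' := by
  have h1 : a = l * a' := by
    have := h ![1, 0]
    simpa [bq] using this
  have h2 : c = l * c' := by
    have := h ![0, 1]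
    simpa [bq] using this
  refine ⟨h1, ?_, h2⟩
  have h3 := h ![1, 1]
  simp only [bq, Matrix.cons_val_zero, Matrix.cons_val_one, Matrix.cons_val_fin_one] at h3
  linear_combination h3 - h1 - h2

/-- The elements which multiply the form by a scalar. -/
def formStab (F : Type) [Field F] (Γ : Subgroup (GL (Fin 2) F)) (a b c : F)
    (hf : ∀ v : Fin 2 → F, v ≠ 0 → bq a b c v ≠ 0) : Subgroup Γ where
  carrier := {g | ∃ l : F, ∀ v : Fin 2 → F, bq a b c (g.1 • v) = l * bq a b c v}
  one_mem' := ⟨1, fun v => by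
    show bq a b c ((1 : GL (Fin 2) F) • v) = 1 * bq a b c v
    rw [one_smul, one_mul]⟩
  mul_mem' := by
    rintro g h ⟨l, hl⟩ ⟨m, hm⟩
    refine ⟨l * m, fun v => ?_⟩
    show bq a b c ((g.1 * h.1) • v) = _
    rw [mul_smul, hl, hm, mul_assoc]
  inv_mem' := by
    rintro g ⟨l, hl⟩
    have hl0 : l ≠ 0 := by
      intro h0
      have h1 := hl ![1, 0]
      rw [h0, zero_mul] at h1
      refine hf _ ?_ h1
      refine (smul_ne_zero_iff_ne g.1).2 ?_
      intro h
      exact one_ne_zero (congrFun h 0)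
    refine ⟨l⁻¹, fun v => ?_⟩
    have h1 := hl (g.1⁻¹ • v)
    rw [smul_inv_smul] at h1
    show bq a b c (g.1⁻¹ • v) = _
    rw [h1, inv_mul_cancel_left₀ hl0]

theorem label3 (hSurj : StSurj) : StLabel := by
  intro F Ω _ _ _ Γ _ _ hL ω hco hq ⟨a, b, c, hf, hst⟩
  classical
  have ha : a ≠ 0 := by
    intro ha
    apply hf ![1, 0] (by
      intro h
      exact one_ne_zero (congrFun h 0))
    simp [bq, ha]
  -- the stabilizer of the form
  have hle : stabilizer Γ ω ≤ formStab F Γ a b c hf := fun g hg => hst g hg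
  have hne : formStab F Γ a b c hf ≠ ⊤ := by
    intro htop
    have key : ∀ t : F, t ≠ 0 → a * t + b = 0 := by
      intro t ht
      let M : Matrix (Fin 2) (Fin 2) F := !![1, t; 0, 1]
      have hM : M.det = 1 := by simp [M, Matrix.det_fin_two]
      let g : GL (Fin 2) F := Matrix.GeneralLinearGroup.mk'' M (by rw [hM]; exact isUnit_one)
      have hg : g.1 = M := rfl
      have hgΓ : g ∈ Γ := hL.sl g (by rw [hg, hM])
      have hmem : (⟨g, hgΓ⟩ : Γ) ∈ formStab F Γ a b c hf := by
        rw [htop]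
        trivial
      obtain ⟨l, hl⟩ := hmem
      have hg0 : g • (![1, 0] : Fin 2 → F) = ![1, 0] := by
        rw [gl_smul, hg]
        funext i
        fin_cases i <;> simp [M, Matrix.mulVec, dotProduct, Fin.sum_univ_two]
      have hg1 : g • (![0, 1] : Fin 2 → F) = ![t, 1] := by
        rw [gl_smul, hg]
        funext i
        fin_cases i <;> simp [M, Matrix.mulVec, dotProduct, Fin.sum_univ_two]
      have h1 := hl ![1, 0]
      have h2 := hl ![0, 1]
      change bq a b c (g • _) = _ at h1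
      change bq a b c (g • _) = _ at h2
      rw [hg0] at h1
      rw [hg1] at h2
      simp only [bq, Matrix.cons_val_zero, Matrix.cons_val_one, Matrix.cons_val_fin_one] at h1 h2
      have hl1 : l = 1 := by
        have : a * l = a * 1 := by linear_combination -h1
        exact mul_left_cancel₀ ha this
      rw [hl1] at h2
      have h3 : t * (a * t + b) = 0 := by linear_combination h2
      rcases mul_eq_zero.1 h3 with h4 | h4
      · exact absurd h4 ht
      · exact h4
    have h2 : ∃ t : F, t ≠ 0 ∧ t ≠ 1 := by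
      by_contra hcon
      push Not at hcon
      have hsub : (Finset.univ : Finset F) ⊆ {0, 1} := by
        intro t _
        rw [Finset.mem_insert, Finset.mem_singleton]
        by_cases h0 : t = 0
        · exact Or.inl h0
        · exact Or.inr (hcon t h0)
      have := Finset.card_le_card hsub
      have h4 : ({0, 1} : Finset F).card ≤ 2 := Finset.card_le_two
      rw [Finset.card_univ] at this
      omega
    obtain ⟨t, ht0, ht1⟩ := h2
    have e1 := key t ht0
    have e2 := key 1 one_ne_zero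
    have e3 : a * (t - 1) = 0 := by linear_combination e1 - e2
    rcases mul_eq_zero.1 e3 with h4 | h4
    · exact ha h4
    · exact ht1 (sub_eq_zero.1 h4)
  have heq : formStab F Γ a b c hf = stabilizer Γ ω := by
    by_contra hne2
    exact hne (hco.2 _ (lt_of_le_of_ne hle (fun h => hne2 h.symm)))
  have hstab : ∀ g : Γ, (∃ l : F, ∀ v : Fin 2 → F, bq a b c (g.1 • v) = l * bq a b c v) →
      g • ω = ω := by
    intro g hg
    have : g ∈ formStab F Γ a b c hf := hg
    rw [heq] at this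
    exact this
  -- transporters
  have htr : ∀ ω' : Ω, ∃ g : Γ, g • ω = ω' := fun ω' => exists_smul_eq Γ ω ω'
  choose t ht using htr
  have hform : ∀ ω' : Ω, ∃ x : F × F × F, ∀ v : Fin 2 → F,
      bq x.1 x.2.1 x.2.2 v = bq a b c ((t ω').1⁻¹ • v) := by
    intro ω'
    exact ⟨⟨_, _, _⟩, fun v => (bq_gl a b c (t ω').1⁻¹ v).symm⟩
  choose x hx using hform
  refine ⟨fun ω' => (x ω').1, fun ω' => (x ω').2.1, fun ω' => (x ω').2.2, ?_, ?_, ?_, ?_⟩
  · intro ω' v hv
    show bq (x ω').1 (x ω').2.1 (x ω').2.2 v ≠ 0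
    rw [hx]
    exact hf _ ((smul_ne_zero_iff_ne _).2 hv)
  · intro ω1 ω2 l h1 h2 h3
    have h4 : ∀ v : Fin 2 → F, bq a b c ((t ω2).1⁻¹ • v) = l * bq a b c ((t ω1).1⁻¹ • v) := by
      intro v
      rw [← hx ω2 v, ← hx ω1 v]
      have h1' : (x ω2).1 = l * (x ω1).1 := h1
      have h2' : (x ω2).2.1 = l * (x ω1).2.1 := h2
      have h3' : (x ω2).2.2 = l * (x ω1).2.2 := h3
      simp only [bq]
      rw [h1', h2', h3']
      ring
    have h5 : ((t ω2)⁻¹ * t ω1) • ω = ω := by
      apply hstab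
      refine ⟨l, fun v => ?_⟩
      have h6 := h4 ((t ω1).1 • v)
      rw [inv_smul_smul] at h6
      show bq a b c (((t ω2).1⁻¹ * (t ω1).1) • v) = _
      rw [mul_smul, h6]
    rw [mul_smul, inv_smul_eq_iff] at h5
    rw [← ht ω2, ← ht ω1, h5]
  · intro a' b' c' h'
    obtain ⟨g, l, hdet, hl, hg⟩ := hSurj F a b c a' b' c' hf h'
    have hgΓ : g ∈ Γ := hL.sl g hdet
    let γ : Γ := ⟨g, hgΓ⟩
    have h5 : ((t (γ • ω))⁻¹ * γ) • ω = ω := by
      rw [mul_smul, inv_smul_eq_iff, ht]
    obtain ⟨m, hm⟩ := hst _ h5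
    have hm0 : m ≠ 0 := by
      intro h0
      have h1 := hm ![1, 0]
      rw [h0, zero_mul] at h1
      refine hf _ ?_ h1
      refine (smul_ne_zero_iff_ne _).2 ?_
      intro h
      exact one_ne_zero (congrFun h 0)
    have h6 : ∀ v : Fin 2 → F, bq (x (γ • ω)).1 (x (γ • ω)).2.1 (x (γ • ω)).2.2 v =
        (m * l⁻¹) * bq a' b' c' v := by
      intro v
      rw [hx]
      have h7 := hm (g⁻¹ • v)
      have h8 := hg (g⁻¹ • v)
      rw [smul_inv_smul] at h8
      have h9 : ((t (γ • ω))⁻¹ * γ).1 • (g⁻¹ • v) = (t (γ • ω)).1⁻¹ • v := by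
        show ((t (γ • ω)).1⁻¹ * g) • (g⁻¹ • v) = _
        rw [mul_smul, smul_inv_smul]
      rw [h9] at h7
      rw [h7, h8, mul_assoc, inv_mul_cancel_left₀ hl]
    obtain ⟨e1, e2, e3⟩ := bq_coef h6
    exact ⟨γ • ω, m * l⁻¹, mul_ne_zero hm0 (inv_ne_zero hl), e1, e2, e3⟩
  · intro g ω'
    have h5 : ((t (g • ω'))⁻¹ * (g * t ω')) • ω = ω := by
      rw [mul_smul, inv_smul_eq_iff, ht, mul_smul, ht]
    obtain ⟨m, hm⟩ := hst _ h5
    have hm0 : m ≠ 0 := by
      intro h0
      have h1 := hm ![1, 0]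
      rw [h0, zero_mul] at h1
      refine hf _ ?_ h1
      refine (smul_ne_zero_iff_ne _).2 ?_
      intro h
      exact one_ne_zero (congrFun h 0)
    refine ⟨m, hm0, fun v => ?_⟩
    show bq (x (g • ω')).1 (x (g • ω')).2.1 (x (g • ω')).2.2 (g.1 • v) =
      m * bq (x ω').1 (x ω').2.1 (x ω').2.2 v
    rw [hx, hx]
    have h7 := hm ((t ω').1⁻¹ • v)
    have h9 : ((t (g • ω'))⁻¹ * (g * t ω')).1 • ((t ω').1⁻¹ • v) =
        (t (g • ω')).1⁻¹ • (g.1 • v) := by
      show ((t (g • ω')).1⁻¹ * (g.1 * (t ω').1)) • ((t ω').1⁻¹ • v) = _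
      rw [mul_smul, mul_smul, smul_inv_smul]
    rw [h9] at h7
    exact h7

end

end SpreadPerm.PL
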