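import Pool.Agent.Lib.MP_e6ed9e_al.PL.Defs
import Pool.Agent.Lib.MP_e6ed9e_al.NS.Edge47

/-!
# PAIR: the action on the pairs of rational points
-/

namespace SpreadPerm.PL

open scoped LinearAlgebra.Projectivization MatrixGroups
open MulAction Finset

theorem transfer96 {G Ω Ω' : Type*} [Group G] [Fintype Ω] [Fintype Ω'] [MulAction G Ω]
    [MulAction G Ω'] (e : Ω ≃ Ω') (he : ∀ (g : G) (ω : Ω), e (g • ω) = g • e ω)
    (h : NonSpreading G Ω') : NonSpreading G Ω := by
  obtain ⟨A, B, l, hl, hA, hB, hAB, hB01, hd⟩ := h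
  have hT : ∀ A : Ω' → ℕ, Triv (A ∘ e) → Triv A := by
    rintro A (⟨c, hc⟩ | ⟨i, hi⟩)
    · left
      refine ⟨c, fun j => ?_⟩
      have := hc (e.symm j)
      rwa [Function.comp, e.apply_symm_apply] at this
    · right
      refine ⟨e i, fun j => ?_⟩
      have := hi (e.symm j)
      rw [Function.comp, e.apply_symm_apply] at this
      rw [this, e.symm_apply_eq]
  refine ⟨A ∘ e, B ∘ e, l, hl, fun h => hA (hT A h), fun h => hB (hT B h), fun g => ?_,
    fun i => hB01 _, ?_⟩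
  · rw [← hAB g, ← Equiv.sum_comp e]
    refine Finset.sum_congr rfl fun i _ => ?_
    simp only [Function.comp, he]
  · rw [Fintype.card_congr e]
    have : ∑ i, (A ∘ e) i = ∑ i, A i := Equiv.sum_comp e A
    rw [this]
    exact hd

section
variable {F : Type} [Field F]

/-- the determinant of two vectors -/
def dt (v w : Fin 2 → F) : F := v 0 * w 1 - v 1 * w 0

theorem dt_ne {v w : Fin 2 → F} (h1 : ∀ c : F, v ≠ c • w) (h2 : ∀ c : F, w ≠ c • v) :
    dt v w ≠ 0 := by
  intro h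
  rw [dt] at h
  by_cases h0 : v 0 = 0
  · by_cases h3 : v 1 = 0
    · refine h1 0 ?_
      funext i
      fin_cases i
      · simp [h0]
      · simp [h3]
    · refine h2 (w 1 / v 1) ?_
      funext i
      fin_cases i
      · show w 0 = w 1 / v 1 * v 0
        field_simp
        linear_combination -h
      · show w 1 = w 1 / v 1 * v 1
        field_simp
  · refine h2 (w 0 / v 0) ?_
    funext i
    fin_cases i
    · show w 0 = w 0 / v 0 * v 0
      field_simp
    · show w 1 = w 0 / v 0 * v 1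
      field_simp
      linear_combination h

theorem ne_zero_left {v w : Fin 2 → F} (h : dt v w ≠ 0) : v ≠ 0 := by
  rintro rfl
  exact h (by simp [dt])

theorem ne_zero_right {v w : Fin 2 → F} (h : dt v w ≠ 0) : w ≠ 0 := by
  rintro rfl
  exact h (by simp [dt])

theorem mk_ne {v w : Fin 2 → F} (h : dt v w ≠ 0) (hv : v ≠ 0) (hw : w ≠ 0) :
    Projectivization.mk F v hv ≠ Projectivization.mk F w hw := by
  intro h1
  rw [Projectivization.mk_eq_mk_iff'] at h1
  obtain ⟨a, rfl⟩ := h1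
  refine h ?_
  show a * w 0 * w 1 - a * w 1 * w 0 = 0
  ring

theorem smul_eq (g : GL (Fin 2) F) (v : Fin 2 → F) : g • v = g.1.mulVec v := rfl

theorem exists_sl {v w v' w' : Fin 2 → F} (h : dt v w ≠ 0) (h' : dt v' w' ≠ 0) :
    ∃ g : GL (Fin 2) F, Matrix.det g.1 = 1 ∧ g • v = v' ∧ ∃ c : F, c ≠ 0 ∧ g • w = c • w' := by
  obtain ⟨c, hc, hcd⟩ : ∃ c : F, c ≠ 0 ∧ c * dt v' w' = dt v w :=
    ⟨dt v w / dt v' w', div_ne_zero h h', div_mul_cancel₀ _ h'⟩
  obtain ⟨D, hD, hDd⟩ : ∃ D : F, D ≠ 0 ∧ D = dt v w := ⟨_, h, rfl⟩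
  let M : Matrix (Fin 2) (Fin 2) F :=
    !![(v' 0 * w 1 - c * w' 0 * v 1) / D, (-v' 0 * w 0 + c * w' 0 * v 0) / D;
      (v' 1 * w 1 - c * w' 1 * v 1) / D, (-v' 1 * w 0 + c * w' 1 * v 0) / D]
  have hdet : M.det = 1 := by
    rw [Matrix.det_fin_two_of, div_mul_div_comm, div_mul_div_comm, ← sub_div, div_eq_one_iff_eq (mul_ne_zero hD hD)]
    have h1 : (v' 0 * w 1 - c * w' 0 * v 1) * (-v' 1 * w 0 + c * w' 1 * v 0) -
      (-v' 0 * w 0 + c * w' 0 * v 0) * (v' 1 * w 1 - c * w' 1 * v 1) =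
      c * dt v' w' * dt v w := by
      rw [dt, dt]
      ring
    rw [h1, hcd, ← hDd]
  refine ⟨Matrix.GeneralLinearGroup.mkOfDetNeZero M (by rw [hdet]; exact one_ne_zero), hdet, ?_, c,
    hc, ?_⟩
  · show M.mulVec v = v'
    funext i
    fin_cases i
    · show _ = v' 0
      simp only [M, Matrix.mulVec, dotProduct, Fin.sum_univ_two, Matrix.of_apply, Matrix.cons_val_zero, Matrix.cons_val_one, Fin.zero_eta]
      rw [div_mul_eq_mul_div, div_mul_eq_mul_div, ← add_div, div_eq_iff hD]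
      rw [hDd, dt]
      ring
    · show _ = v' 1
      simp only [M, Matrix.mulVec, dotProduct, Fin.sum_univ_two, Matrix.of_apply, Matrix.cons_val_zero, Matrix.cons_val_one, Fin.mk_one]
      rw [div_mul_eq_mul_div, div_mul_eq_mul_div, ← add_div, div_eq_iff hD]
      rw [hDd, dt]
      ring
  · show M.mulVec w = c • w'
    funext i
    fin_cases i
    · show _ = c * w' 0
      simp only [M, Matrix.mulVec, dotProduct, Fin.sum_univ_two, Matrix.of_apply, Matrix.cons_val_zero, Matrix.cons_val_one, Fin.zero_eta]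
      rw [div_mul_eq_mul_div, div_mul_eq_mul_div, ← add_div, div_eq_iff hD]
      rw [hDd, dt]
      ring
    · show _ = c * w' 1
      simp only [M, Matrix.mulVec, dotProduct, Fin.sum_univ_two, Matrix.of_apply, Matrix.cons_val_zero, Matrix.cons_val_one, Fin.mk_one]
      rw [div_mul_eq_mul_div, div_mul_eq_mul_div, ← add_div, div_eq_iff hD]
      rw [hDd, dt]
      ring

/-- the action on the pairs -/
def ac (g : GL (Fin 2) F) (z : Sym2 (ℙ F (Fin 2 → F))) : Sym2 (ℙ F (Fin 2 → F)) :=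
  Sym2.map (fun x => g • x) z

theorem ac_one (z : Sym2 (ℙ F (Fin 2 → F))) : ac 1 z = z := by
  rw [ac]
  simp

theorem ac_mul (g h : GL (Fin 2) F) (z : Sym2 (ℙ F (Fin 2 → F))) :
    ac (g * h) z = ac g (ac h z) := by
  rw [ac, ac, ac, Sym2.map_map]
  congr 1
  funext x
  exact mul_smul g h x

theorem ac_mk (g : GL (Fin 2) F) (v w : Fin 2 → F) (hv : v ≠ 0) (hw : w ≠ 0) (v' w' : Fin 2 → F)
    (hv' : v' ≠ 0) (hw' : w' ≠ 0) (h1 : ∃ c : F, g • v = c • v') (h2 : ∃ c : F, g • w = c • w') :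
    ac g s(Projectivization.mk F v hv, Projectivization.mk F w hw) =
      s(Projectivization.mk F v' hv', Projectivization.mk F w' hw') := by
  have key : ∀ (x y : Fin 2 → F) (hx : x ≠ 0) (hy : y ≠ 0), (∃ c : F, g • x = c • y) →
      g • Projectivization.mk F x hx = Projectivization.mk F y hy := by
    intro x y hx hy h
    rw [Projectivization.smul_mk, Projectivization.mk_eq_mk_iff']
    obtain ⟨c, hc⟩ := h
    exact ⟨c, hc.symm⟩
  rw [ac, Sym2.map_mk, key v v' hv hv' h1, key w w' hw hw' h2]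

end

theorem pair96 : StPair := by
  intro F Ω _ _ _ Γ _ _ hL ω hco hF ⟨v, w, hv, hw, hst⟩
  classical
  have hdt := dt_ne hv hw
  have hv0 := ne_zero_left hdt
  have hw0 := ne_zero_right hdt
  let P0 : Sym2 (ℙ F (Fin 2 → F)) := s(Projectivization.mk F v hv0, Projectivization.mk F w hw0)
  let S : Subgroup Γ :=
    { carrier := {g | ac g.1 P0 = P0}
      mul_mem' := by
        intro a b ha hb
        show ac (a.1 * b.1) P0 = P0
        rw [ac_mul, show ac b.1 P0 = P0 from hb, show ac a.1 P0 = P0 from ha]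
      one_mem' := ac_one P0
      inv_mem' := by
        intro a ha
        show ac (a.1)⁻¹ P0 = P0
        conv_lhs => rw [← show ac a.1 P0 = P0 from ha]
        rw [← ac_mul, inv_mul_cancel, ac_one] }
  have hle : stabilizer Γ ω ≤ S := by
    intro g hg
    show ac g.1 P0 = P0
    rcases hst g hg with ⟨h1, h2⟩ | ⟨h1, h2⟩
    · exact ac_mk g.1 v w hv0 hw0 v w hv0 hw0 h1 h2
    · refine (ac_mk g.1 v w hv0 hw0 w v hw0 hv0 h1 h2).trans ?_
      exact Sym2.eq_swap
  have hne : S ≠ ⊤ := by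
    intro htop
    have hd : dt v (w + v) ≠ 0 := by
      have : dt v (w + v) = dt v w := by
        show v 0 * (w 1 + v 1) - v 1 * (w 0 + v 0) = _
        rw [dt]
        ring
      rw [this]
      exact hdt
    have hd2 : dt (w + v) w ≠ 0 := by
      have : dt (w + v) w = dt v w := by
        show (w 0 + v 0) * w 1 - (w 1 + v 1) * w 0 = _
        rw [dt]
        ring
      rw [this]
      exact hdt
    obtain ⟨g, hg1, hg2, c, hc, hg3⟩ := exists_sl hdt hd
    have hgS : (⟨g, hL.sl g hg1⟩ : Γ) ∈ S := by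
      rw [htop]
      exact Subgroup.mem_top _
    have h1 : ac g P0 = P0 := hgS
    have h2 := ac_mk g v w hv0 hw0 v (w + v) hv0 (ne_zero_right hd)
      ⟨1, by rw [one_smul, hg2]⟩ ⟨c, hg3⟩
    rw [h1] at h2
    have h3 := (Sym2.eq_iff.1 h2)
    rcases h3 with ⟨_, h4⟩ | ⟨h4, _⟩
    · exact mk_ne hd2 _ _ h4.symm
    · exact mk_ne hd _ _ h4
  have hS : S = stabilizer Γ ω := by
    rcases (hco.le_iff).1 hle with h | h
    · exact absurd h hne
    · exact h
  choose γ hγ using fun ω' => exists_smul_eq Γ ω ω'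
  let L : Ω → Sym2 (ℙ F (Fin 2 → F)) := fun ω' => ac (γ ω').1 P0
  have hact : ∀ g h : Γ, g • ω = h • ω ↔ ac g.1 P0 = ac h.1 P0 := by
    intro g h
    have h1 : g • ω = h • ω ↔ (h⁻¹ * g) ∈ stabilizer Γ ω := by
      rw [mem_stabilizer_iff, mul_smul, inv_smul_eq_iff]
    rw [h1, ← hS]
    show ac (h.1⁻¹ * g.1) P0 = P0 ↔ _
    constructor
    · intro h2
      rw [ac_mul] at h2
      have h3 := congrArg (ac h.1) h2
      rwa [← ac_mul, mul_inv_cancel, ac_one] at h3
    · intro h2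
      rw [ac_mul, h2, ← ac_mul, inv_mul_cancel, ac_one]
  have hLg : ∀ g : Γ, L (g • ω) = ac g.1 P0 := fun g => (hact _ _).1 (hγ (g • ω))
  have hLinj : Function.Injective L := by
    intro ω1 ω2 h
    rw [← hγ ω1, ← hγ ω2]
    exact (hact _ _).2 h
  have hLeq : ∀ (g : Γ) (ω' : Ω), L (g • ω') = ac g.1 (L ω') := by
    intro g ω'
    have h1 : g • ω' = (g * γ ω') • ω := by rw [mul_smul, hγ]
    rw [h1, hLg]
    show ac (g.1 * (γ ω').1) P0 = _
    rw [ac_mul]
  have hrange : ∀ (u u' : Fin 2 → F) (hu : u ≠ 0) (hu' : u' ≠ 0), dt u u' ≠ 0 →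
      s(Projectivization.mk F u hu, Projectivization.mk F u' hu') ∈ Set.range L := by
    intro u u' hu hu' hd
    obtain ⟨g, hg1, hg2, c, hc, hg3⟩ := exists_sl hdt hd
    refine ⟨(⟨g, hL.sl g hg1⟩ : Γ) • ω, ?_⟩
    rw [hLg]
    exact ac_mk g v w hv0 hw0 u u' hu hu' ⟨1, by rw [one_smul, hg2]⟩ ⟨c, hg3⟩
  let e : Ω ≃ Set.range L := Equiv.ofInjective L hLinj
  let _ : MulAction Γ (Set.range L) := e.symm.mulAction Γ
  have hsm : ∀ (g : Γ) (x : Set.range L), g • x = e (g • e.symm x) := fun g x => rfl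
  have : IsPretransitive Γ (Set.range L) := by
    refine ⟨fun x y => ?_⟩
    obtain ⟨g, hg⟩ := exists_smul_eq Γ (e.symm x) (e.symm y)
    exact ⟨g, by rw [hsm, hg, e.apply_symm_apply]⟩
  refine transfer96 e (fun g ω' => by rw [hsm, e.symm_apply_apply]) ?_
  -- four points
  obtain ⟨t, ht0, ht1⟩ : ∃ t : F, t ≠ 0 ∧ t ≠ 1 := by
    have h1 : ({0, 1} : Finset F).card < (univ : Finset F).card := by
      have h2 : ({0, 1} : Finset F).card ≤ 2 := Finset.card_le_two
      rw [Finset.card_univ]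
      omega
    obtain ⟨t, _, ht⟩ := Finset.exists_mem_notMem_of_card_lt_card h1
    simp only [Finset.mem_insert, Finset.mem_singleton, not_or] at ht
    exact ⟨t, ht.1, ht.2⟩
  let a0 : Fin 2 → F := ![1, 0]
  let b0 : Fin 2 → F := ![0, 1]
  let a1 : Fin 2 → F := ![1, 1]
  let b1 : Fin 2 → F := ![1, t]
  have d1 : dt a0 b0 ≠ 0 := by simp [dt, a0, b0]
  have d2 : dt a0 a1 ≠ 0 := by simp [dt, a0, a1]
  have d3 : dt b0 a1 ≠ 0 := by simp [dt, b0, a1]
  have d4 : dt a0 b1 ≠ 0 := by simp [dt, a0, b1, ht0]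
  have d5 : dt b0 b1 ≠ 0 := by simp [dt, b0, b1]
  have d6 : dt a1 b1 ≠ 0 := by
    simp only [dt, a1, b1, Matrix.cons_val_zero, Matrix.cons_val_one, one_mul, mul_one]
    exact sub_ne_zero.2 ht1
  have d7 : dt b1 a0 ≠ 0 := by
    simp only [dt, a0, b1, Matrix.cons_val_zero, Matrix.cons_val_one, mul_zero, mul_one, zero_sub]
    exact neg_ne_zero.2 ht0
  have n1 := ne_zero_left d1
  have n2 := ne_zero_right d1
  have n3 := ne_zero_right d2
  have n4 := ne_zero_right d4
  have hz : ∀ i : ZMod 2, i = 0 ∨ i = 1 := by decide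
  have hz1 : (1 : ZMod 2) ≠ 0 := by decide
  have hz2 : (1 : ZMod 2) + 1 = 0 := by decide
  let a : ZMod 2 → ℙ F (Fin 2 → F) := fun i => if i = 0 then Projectivization.mk F a0 n1 else
    Projectivization.mk F a1 n3
  let b : ZMod 2 → ℙ F (Fin 2 → F) := fun i => if i = 0 then Projectivization.mk F b0 n2 else
    Projectivization.mk F b1 n4
  have ha0 : a 0 = Projectivization.mk F a0 n1 := if_pos rfl
  have ha1 : a 1 = Projectivization.mk F a1 n3 := if_neg hz1
  have hb0 : b 0 = Projectivization.mk F b0 n2 := if_pos rfl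
  have hb1 : b 1 = Projectivization.mk F b1 n4 := if_neg hz1
  refine NS.edge47 (ℙ F (Fin 2 → F)) (Set.range L) 2 le_rfl a b ?_ ?_ ?_ ?_ ?_ Γ ?_
  · intro i j h
    rcases hz i with rfl | rfl <;> rcases hz j with rfl | rfl
    · rfl
    · rw [ha0, ha1] at h
      exact absurd h (mk_ne d2 _ _)
    · rw [ha0, ha1] at h
      exact absurd h.symm (mk_ne d2 _ _)
    · rfl
  · intro i j h
    rcases hz i with rfl | rfl <;> rcases hz j with rfl | rfl
    · rfl
    · rw [hb0, hb1] at h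
      exact absurd h (mk_ne d5 _ _)
    · rw [hb0, hb1] at h
      exact absurd h.symm (mk_ne d5 _ _)
    · rfl
  · intro i j h
    rcases hz i with rfl | rfl <;> rcases hz j with rfl | rfl
    · rw [ha0, hb0] at h
      exact mk_ne d1 _ _ h
    · rw [ha0, hb1] at h
      exact mk_ne d4 _ _ h
    · rw [ha1, hb0] at h
      exact mk_ne d3 _ _ h.symm
    · rw [ha1, hb1] at h
      exact mk_ne d6 _ _ h
  · intro i
    rcases hz i with rfl | rfl
    · rw [ha0, hb0]
      exact hrange _ _ _ _ d1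
    · rw [ha1, hb1]
      exact hrange _ _ _ _ d6
  · intro i
    rcases hz i with rfl | rfl
    · rw [zero_add, hb0, ha1]
      exact hrange _ _ _ _ d3
    · rw [hz2, hb1, ha0]
      exact hrange _ _ _ _ d7
  · intro g x
    refine ⟨g.1 • x, fun z => ?_⟩
    have h1 : (g • z).1 = ac g.1 z.1 := by
      rw [hsm]
      show L (g • e.symm z) = ac g.1 z.1
      rw [hLeq]
      congr 1
      have := congrArg Subtype.val (e.apply_symm_apply z)
      exact this
    rw [h1, ac, Sym2.mem_map]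
    constructor
    · intro h
      exact ⟨x, h, rfl⟩
    · rintro ⟨y, hy, hyx⟩
      have : y = x := smul_left_cancel g.1 hyx
      exact this ▸ hy

end SpreadPerm.PL
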