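import Pool.Agent.Lib.MP_e6ed9e_al.PL.Card88

/-! # Row SURJ (helper88) -/

namespace SpreadPerm.PL

open MulAction

section
variable {F : Type} [Field F]

/-- A monic anisotropic binary form over a finite field takes every value. -/
theorem exists_value [Fintype F] (b c lam : F) (h : NoRoot (b, c)) :
    ∃ u w : F, u ^ 2 + b * u * w + c * w ^ 2 = lam := by
  by_cases h2 : ringChar F = 2
  · have hsq : IsSquare lam := FiniteField.isSquare_of_char_two h2 lam
    obtain ⟨r, hr⟩ := hsq
    exact ⟨r, 0, by rw [hr]; ring⟩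
  · have h2' : (2 : F) ≠ 0 := Ring.two_ne_zero h2
    have hodd : Fintype.card F % 2 = 1 := FiniteField.odd_card_of_char_ne_two h2
    set D : F := c - b ^ 2 / 4 with hD
    have h4 : (4 : F) ≠ 0 := by
      have : (4 : F) = 2 * 2 := by norm_num
      rw [this]
      exact mul_ne_zero h2' h2'
    have hD0 : D ≠ 0 := by
      intro h0
      apply h (-b / 2)
      simp only
      have h5 : c = b ^ 2 / 4 := by linear_combination h0
      rw [h5]
      field_simp
      ring
    obtain ⟨x, y, hxy⟩ := FiniteField.exists_root_sum_quadratic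
      (f := (Polynomial.X ^ 2 : Polynomial F))
      (g := Polynomial.C D * Polynomial.X ^ 2 - Polynomial.C lam)
      (Polynomial.degree_X_pow 2)
      (by
        rw [Polynomial.degree_sub_eq_left_of_degree_lt]
        · exact Polynomial.degree_C_mul_X_pow 2 hD0
        · rw [Polynomial.degree_C_mul_X_pow 2 hD0]
          exact lt_of_le_of_lt Polynomial.degree_C_le (by norm_num)) hodd
    simp only [Polynomial.eval_pow, Polynomial.eval_X, Polynomial.eval_sub, Polynomial.eval_mul,
      Polynomial.eval_C] at hxy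
    refine ⟨x - b / 2 * y, y, ?_⟩
    rw [hD] at hxy
    have h5 : lam = x ^ 2 + (c - b ^ 2 / 4) * y ^ 2 := by linear_combination -hxy
    rw [h5]
    field_simp
    ring

end

/-- SURJ -/
theorem surj88 : StSurj := by
  intro F _ _ a b c a' b' c' h h'
  obtain ⟨ha, hN⟩ := monic_of_aniso h
  obtain ⟨ha', hN'⟩ := monic_of_aniso h'
  obtain ⟨α, β, hβ, e1, e2⟩ := exists_sub hN hN'
  obtain ⟨u, w, huw⟩ := exists_value (b' / a') (c' / a') β⁻¹ hN'
  set B : F := b' / a' with hB
  set C : F := c' / a' with hC
  have hb' : b' = a' * B := by rw [hB]; field_simp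
  have hc' : c' = a' * C := by rw [hC]; field_simp
  have hb : b = a * (B * β - 2 * α) := by rw [e1]; field_simp
  have hc : c = a * (α ^ 2 - B * α * β + C * β ^ 2) := by rw [e2]; field_simp
  -- the matrix
  let M : Matrix (Fin 2) (Fin 2) F := !![u, -u * α - C * w * β; w, -w * α + (u + B * w) * β]
  have hdet : M.det = 1 := by
    rw [Matrix.det_fin_two_of]
    have : (u ^ 2 + B * u * w + C * w ^ 2) * β = 1 := by
      rw [huw]; exact inv_mul_cancel₀ hβ
    linear_combination this
  refine ⟨Matrix.GeneralLinearGroup.mkOfDetNeZero M (by rw [hdet]; exact one_ne_zero),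
    a' * β⁻¹ * a⁻¹, hdet, ?_, ?_⟩
  · exact mul_ne_zero (mul_ne_zero ha' (inv_ne_zero hβ)) (inv_ne_zero ha)
  · intro v
    have hgv : (Matrix.GeneralLinearGroup.mkOfDetNeZero M (by rw [hdet]; exact one_ne_zero)) • v =
        M.mulVec v := rfl
    rw [hgv]
    have h0 : M.mulVec v 0 = u * v 0 + (-u * α - C * w * β) * v 1 := by
      simp [M, Matrix.mulVec, dotProduct, Fin.sum_univ_two]
    have h1 : M.mulVec v 1 = w * v 0 + (-w * α + (u + B * w) * β) * v 1 := by
      simp [M, Matrix.mulVec, dotProduct, Fin.sum_univ_two]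
    simp only [bq]
    rw [h0, h1, hb, hc, hb', hc']
    have hβ' : β⁻¹ = u ^ 2 + B * u * w + C * w ^ 2 := huw.symm
    rw [hβ']
    field_simp
    ring

end SpreadPerm.PL
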