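import Pool.Agent.Lib.MP_e6ed9e_al.PL.Tra30

/-!
# The transversal trick for anisotropic binary quadratic forms up to scalars
-/

namespace SpreadPerm

open Finset

section
variable {F : Type*} [Field F]

/-- The value of the binary form `a x² + b x y + c y²`. -/
def bev (f : F × F × F) (x y : F) : F := f.1 * x ^ 2 + f.2.1 * (x * y) + f.2.2 * y ^ 2

/-- The discriminant. -/
def bdisc (f : F × F × F) : F := f.2.1 ^ 2 - 4 * f.1 * f.2.2

/-- The form `f (p x + q y, r x + s y)`. -/
def bsub (f : F × F × F) (p q r s : F) : F × F × F :=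
  (bev f p r, 2 * f.1 * p * q + f.2.1 * (p * s + q * r) + 2 * f.2.2 * r * s, bev f q s)

/-- The form `l f`. -/
def bsm (l : F) (f : F × F × F) : F × F × F := (l * f.1, l * f.2.1, l * f.2.2)

/-- The form is anisotropic. -/
def BAniso (f : F × F × F) : Prop := ∀ x y : F, bev f x y = 0 → x = 0 ∧ y = 0

theorem bev_bsub (f : F × F × F) (p q r s x y : F) :
    bev (bsub f p q r s) x y = bev f (p * x + q * y) (r * x + s * y) := by
  simp only [bev, bsub]
  ring

theorem bdisc_bsub (f : F × F × F) (p q r s : F) :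
    bdisc (bsub f p q r s) = (p * s - q * r) ^ 2 * bdisc f := by
  simp only [bev, bsub, bdisc]
  ring

theorem bev_bsm (l : F) (f : F × F × F) (x y : F) : bev (bsm l f) x y = l * bev f x y := by
  simp only [bev, bsm]
  ring

theorem bdisc_bsm (l : F) (f : F × F × F) : bdisc (bsm l f) = l ^ 2 * bdisc f := by
  simp only [bdisc, bsm]
  ring

theorem bev_smul (f : F × F × F) (t x y : F) : bev f (t * x) (t * y) = t ^ 2 * bev f x y := by
  simp only [bev]
  ring

theorem bsub_bsub (f : F × F × F) (p q r s p' q' r' s' : F) :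
    bsub (bsub f p q r s) p' q' r' s' =
      bsub f (p * p' + q * r') (p * q' + q * s') (r * p' + s * r') (r * q' + s * s') := by
  simp only [bsub, bev, Prod.mk.injEq]
  refine ⟨by ring, by ring, by ring⟩

theorem bsub_diag (f : F × F × F) (t : F) : bsub f t 0 0 t = bsm (t ^ 2) f := by
  simp only [bsub, bev, bsm, Prod.mk.injEq]
  refine ⟨by ring, by ring, by ring⟩

theorem bsub_bsm (l : F) (f : F × F × F) (p q r s : F) :
    bsub (bsm l f) p q r s = bsm l (bsub f p q r s) := by
  simp only [bsub, bev, bsm, Prod.mk.injEq]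
  refine ⟨by ring, by ring, by ring⟩

theorem bsm_bsm (l m : F) (f : F × F × F) : bsm l (bsm m f) = bsm (l * m) f := by
  simp only [bsm, Prod.mk.injEq]
  refine ⟨by ring, by ring, by ring⟩

theorem BAniso.bsm {f : F × F × F} (h : BAniso f) {l : F} (hl : l ≠ 0) : BAniso (bsm l f) := by
  intro x y hxy
  rw [bev_bsm, mul_eq_zero] at hxy
  rcases hxy with hxy | hxy
  · exact absurd hxy hl
  · exact h x y hxy

theorem BAniso.bsub {f : F × F × F} (h : BAniso f) {p q r s : F} (hd : p * s - q * r ≠ 0) :
    BAniso (bsub f p q r s) := by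
  intro x y hxy
  rw [bev_bsub] at hxy
  obtain ⟨h1, h2⟩ := h _ _ hxy
  have h3 : (p * s - q * r) * x = 0 := by linear_combination s * h1 - q * h2
  have h4 : (p * s - q * r) * y = 0 := by linear_combination p * h2 - r * h1
  exact ⟨(mul_eq_zero.1 h3).resolve_left hd, (mul_eq_zero.1 h4).resolve_left hd⟩

/-- The quotient of the discriminants of two anisotropic forms is a nonzero square. -/
theorem BAniso.disc_sq [Finite F] {f g : F × F × F} (hf : BAniso f) (hg : BAniso g) :
    ∃ s : F, s ≠ 0 ∧ bdisc f = bdisc g * s ^ 2 := by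
  have := Fintype.ofFinite F
  classical
  have ha : ∀ h : F × F × F, BAniso h → h.1 ≠ 0 := by
    intro h hh h0
    have := (hh 1 0 (by simp [bev, h0])).1
    exact one_ne_zero this
  by_cases h2 : ringChar F = 2
  · -- characteristic two: every element is a square
    have h20 : (2 : F) = 0 := by
      have := ringChar.Nat.cast_ringChar (R := F)
      rw [h2] at this
      exact_mod_cast this
    have h40 : (4 : F) = 0 := by
      have : (4 : F) = 2 * 2 := by norm_num
      rw [this, h20, mul_zero]
    have hd : ∀ h : F × F × F, BAniso h → bdisc h ≠ 0 := by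
      intro h hh h0
      have h3 : h.2.1 = 0 := by
        have : h.2.1 ^ 2 = 0 := by
          have h4 := h0
          rw [bdisc, h40] at h4
          linear_combination h4
        exact pow_eq_zero_iff (two_ne_zero) |>.1 this
      obtain ⟨u, hu⟩ := FiniteField.isSquare_of_char_two h2 (h.2.2 / h.1)
      have h5 : h.2.2 = h.1 * u ^ 2 := by
        rw [div_eq_iff (ha h hh)] at hu
        rw [hu]
        ring
      have h6 := (hh u 1 (by
        rw [bev, h3, h5]
        linear_combination (h.1 * u ^ 2) * h20)).2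
      exact one_ne_zero h6
    obtain ⟨u, hu⟩ := FiniteField.isSquare_of_char_two h2 (bdisc f / bdisc g)
    have h7 : bdisc f = bdisc g * u ^ 2 := by
      rw [div_eq_iff (hd g hg)] at hu
      rw [hu]
      ring
    refine ⟨u, ?_, h7⟩
    rintro rfl
    apply hd f hf
    rw [h7]
    ring
  · have h20 : (2 : F) ≠ 0 := Ring.two_ne_zero h2
    have hns : ∀ h : F × F × F, BAniso h → ¬ IsSquare (bdisc h) := by
      rintro h hh ⟨u, hu⟩
      have h3 := (hh (u - h.2.1) (2 * h.1) (by
        rw [bdisc] at hu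
        rw [bev]
        linear_combination (-h.1) * hu)).2
      exact mul_ne_zero h20 (ha h hh) h3
    have hd : ∀ h : F × F × F, BAniso h → bdisc h ≠ 0 := by
      intro h hh h0
      exact hns h hh ⟨0, by rw [h0, mul_zero]⟩
    have h3 : quadraticChar F (bdisc f) = -1 := quadraticChar_neg_one_iff_not_isSquare.2 (hns f hf)
    have h4 : quadraticChar F (bdisc g) = -1 := quadraticChar_neg_one_iff_not_isSquare.2 (hns g hg)
    have h5 : quadraticChar F (bdisc f * bdisc g) = 1 := by
      rw [map_mul, h3, h4]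
      norm_num
    obtain ⟨u, hu⟩ := (quadraticChar_one_iff_isSquare (mul_ne_zero (hd f hf) (hd g hg))).1 h5
    refine ⟨u / bdisc g, ?_, ?_⟩
    · intro h6
      rw [div_eq_zero_iff] at h6
      rcases h6 with h6 | h6
      · rw [h6, mul_zero, mul_eq_zero] at hu
        rcases hu with hu | hu
        · exact hd f hf hu
        · exact hd g hg hu
      · exact hd g hg h6
    · have h7 := hd g hg
      field_simp
      linear_combination hu

end

/-- The group of nonzero squares. -/
def SqE (F : Type*) [Field F] : Subgroup Fˣ := (powMonoidHom 2 : Fˣ →* Fˣ).range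

/-- The transversal trick for anisotropic binary forms up to scalars: `rep ω` is a form that
represents the point `ω`. -/
theorem tra_forms {F : Type*} [Field F] [Finite F] {G Ω : Type*} [Group G] [Fintype Ω]
    [Nonempty Ω] [MulAction G Ω] (rep : Ω → F × F × F) (han : ∀ w, BAniso (rep w))
    (hinj : ∀ w w' : Ω, (∃ l : F, l ≠ 0 ∧ rep w' = bsm l (rep w)) → w = w')
    (hsurj : ∀ f, BAniso f → ∃ w : Ω, ∃ l : F, l ≠ 0 ∧ rep w = bsm l f)
    (hG : ∀ g : G, ∃ p q r s : F, p * s - q * r ≠ 0 ∧ ∀ w : Ω, ∃ l : F, l ≠ 0 ∧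
      rep (g⁻¹ • w) = bsm l (bsub (rep w) p q r s))
    (H : Subgroup (SqE F)) (h1 : H ≠ ⊥) (h2 : H ≠ ⊤) : NonSpreading G Ω := by
  classical
  have := Fintype.ofFinite F
  have := Fintype.ofFinite (SqE F)
  obtain ⟨w0⟩ := (inferInstance : Nonempty Ω)
  have hev0 : ∀ (w : Ω) (x y : F), (x ≠ 0 ∨ y ≠ 0) → bev (rep w) x y ≠ 0 := by
    intro w x y hxy h
    obtain ⟨h3, h4⟩ := han w x y h
    rcases hxy with hx | hy
    · exact hx h3
    · exact hy h4
  have hnu0 : bdisc (rep w0) ≠ 0 := by
    obtain ⟨s, hs, hs'⟩ := (han w0).disc_sq (han w0)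
    intro h0
    -- the discriminant is not zero: compare with a shifted form
    have ha : (rep w0).1 ≠ 0 := by
      intro h
      exact one_ne_zero ((han w0) 1 0 (by simp [bev, h])).1
    by_cases h20 : (2 : F) = 0
    · have h40 : (4 : F) = 0 := by
        have : (4 : F) = 2 * 2 := by norm_num
        rw [this, h20, mul_zero]
      have h3 : (rep w0).2.1 = 0 := by
        have : (rep w0).2.1 ^ 2 = 0 := by
          have h4 := h0
          rw [bdisc, h40] at h4
          linear_combination h4
        exact pow_eq_zero_iff (two_ne_zero) |>.1 this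
      have hch : ringChar F = 2 := by
        have h5 : ((2 : ℕ) : F) = 0 := by exact_mod_cast h20
        have h6 := (ringChar.spec F 2).1 h5
        rcases (Nat.dvd_prime Nat.prime_two).1 h6 with h7 | h7
        · exact absurd h7 (CharP.ringChar_ne_one)
        · exact h7
      obtain ⟨u, hu⟩ := FiniteField.isSquare_of_char_two hch ((rep w0).2.2 / (rep w0).1)
      have h5 : (rep w0).2.2 = (rep w0).1 * u ^ 2 := by
        rw [div_eq_iff ha] at hu
        rw [hu]
        ring
      have h6 := ((han w0) u 1 (by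
        rw [bev, h3, h5]
        linear_combination ((rep w0).1 * u ^ 2) * h20)).2
      exact one_ne_zero h6
    · have h3 := ((han w0) (- (rep w0).2.1) (2 * (rep w0).1) (by
        rw [bdisc] at h0
        rw [bev]
        linear_combination (-(rep w0).1) * h0)).2
      exact mul_ne_zero h20 ha h3
  set nu := bdisc (rep w0) with hnu
  -- the values
  have hex : ∀ (w : Ω) (x y : F), ∃ e : SqE F, (x ≠ 0 ∨ y ≠ 0) →
      bdisc (rep w) = nu * ((e : Fˣ) : F) * bev (rep w) x y ^ 2 := by
    intro w x y
    by_cases hxy : x ≠ 0 ∨ y ≠ 0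
    · obtain ⟨s, hs, hs'⟩ := (han w).disc_sq (han w0)
      have h3 := hev0 w x y hxy
      refine ⟨⟨(Units.mk0 s hs / Units.mk0 _ h3) ^ 2, ⟨_, rfl⟩⟩, fun _ => ?_⟩
      rw [hs']
      push_cast
      rw [Units.val_mk0, Units.val_mk0]
      field_simp
      rw [hnu]
    · exact ⟨1, fun h => absurd h hxy⟩
  choose N hN using hex
  have huniq : ∀ (w : Ω) (x y : F), (x ≠ 0 ∨ y ≠ 0) → ∀ e : SqE F,
      bdisc (rep w) = nu * ((e : Fˣ) : F) * bev (rep w) x y ^ 2 → N w x y = e := by
    intro w x y hxy e he
    have h3 := hN w x y hxy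
    rw [he] at h3
    have h4 := hev0 w x y hxy
    have h5 : ((e : Fˣ) : F) = ((N w x y : Fˣ) : F) := by
      have h6 : nu * bev (rep w) x y ^ 2 ≠ 0 := mul_ne_zero hnu0 (pow_ne_zero 2 h4)
      apply mul_left_cancel₀ h6
      linear_combination h3
    apply Subtype.ext
    apply Units.ext
    exact h5.symm
  -- the square of a unit as an element of `SqE F`
  let sq : F → SqE F := fun t => if h : t = 0 then 1 else ⟨(Units.mk0 t h) ^ 2, ⟨_, rfl⟩⟩
  have hsq : ∀ t : F, t ≠ 0 → (((sq t : SqE F) : Fˣ) : F) = t ^ 2 := by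
    intro t ht
    simp only [sq, dif_neg ht]
    push_cast
    rfl
  -- the rule for a substitution
  have rule : ∀ (w w' : Ω) (l p q r s x y : F), l ≠ 0 → p * s - q * r ≠ 0 →
      rep w' = bsm l (bsub (rep w) p q r s) → (x ≠ 0 ∨ y ≠ 0) →
      N w' x y = sq (p * s - q * r) * N w (p * x + q * y) (r * x + s * y) := by
    intro w w' l p q r s x y hl hd hw hxy
    have hxy' : p * x + q * y ≠ 0 ∨ r * x + s * y ≠ 0 := by
      by_contra hcon
      push Not at hcon
      obtain ⟨h3, h4⟩ := hcon
      have h5 : (p * s - q * r) * x = 0 := by linear_combination s * h3 - q * h4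
      have h6 : (p * s - q * r) * y = 0 := by linear_combination p * h4 - r * h3
      rcases hxy with hx | hy
      · exact hx ((mul_eq_zero.1 h5).resolve_left hd)
      · exact hy ((mul_eq_zero.1 h6).resolve_left hd)
    apply huniq w' x y hxy
    rw [hw, bdisc_bsm, bdisc_bsub, bev_bsm, bev_bsub, hN w _ _ hxy']
    push_cast
    rw [hsq _ hd]
    ring
  -- the permutation of the points for a substitution
  have perm : ∀ p q r s : F, p * s - q * r ≠ 0 → ∃ φ : Ω ≃ Ω, ∀ w, ∃ l : F, l ≠ 0 ∧
      rep (φ w) = bsm l (bsub (rep w) p q r s) := by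
    intro p q r s hd
    have h3 : ∀ w : Ω, ∃ w' : Ω, ∃ l : F, l ≠ 0 ∧ rep w' = bsm l (bsub (rep w) p q r s) :=
      fun w => hsurj _ ((han w).bsub hd)
    choose φ hφ using h3
    have hinj' : Function.Injective φ := by
      intro w w' hww
      obtain ⟨l, hl, h4⟩ := hφ w
      obtain ⟨l', hl', h5⟩ := hφ w'
      rw [← hww, h4] at h5
      -- apply the inverse substitution
      have h6 := congrArg (fun f => bsub f s (-q) (-r) p) h5
      simp only [bsub_bsm, bsub_bsub] at h6
      have e1 : p * s + q * -r = p * s - q * r := by ring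
      have e2 : p * -q + q * p = 0 := by ring
      have e3 : r * s + s * -r = 0 := by ring
      have e4 : r * -q + s * p = p * s - q * r := by ring
      rw [e1, e2, e3, e4, bsub_diag, bsub_diag, bsm_bsm, bsm_bsm] at h6
      apply hinj
      refine ⟨l / l', div_ne_zero hl hl', ?_⟩
      have h7 := congrArg (bsm ((l' * (p * s - q * r) ^ 2)⁻¹)) h6
      rw [bsm_bsm, bsm_bsm] at h7
      have h8 : l' * (p * s - q * r) ^ 2 ≠ 0 := mul_ne_zero hl' (pow_ne_zero 2 hd)
      rw [inv_mul_cancel₀ h8] at h7
      have h9 : bsm (1 : F) (rep w') = rep w' := by simp [bsm]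
      rw [h9] at h7
      rw [← h7]
      congr 1
      have h10 := pow_ne_zero 2 hd
      field_simp
    exact ⟨Equiv.ofBijective φ (Finite.injective_iff_bijective.1 hinj'), hφ⟩
  -- the stretching of the first vector against `(p, r)` with `r ≠ 0`
  have stretch : ∀ p r : F, r ≠ 0 → ∀ e : SqE F, ∃ φ : Ω ≃ Ω, ∀ w,
      N (φ w) 1 0 = e⁻¹ * N w 1 0 ∧ N (φ w) p r = e * N w p r := by
    intro p r hr e
    obtain ⟨t, ht⟩ := e.2
    have ht' : ((e : Fˣ) : F) = (t : F) ^ 2 := by
      rw [← ht]
      rfl
    obtain ⟨φ, hφ⟩ := perm (t : F) (p / r * (1 - (t : F))) 0 1 (by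
      rw [mul_one, mul_zero, sub_zero]
      exact t.ne_zero)
    refine ⟨φ, fun w => ?_⟩
    obtain ⟨l, hl, h3⟩ := hφ w
    have hd : (t : F) * 1 - p / r * (1 - (t : F)) * 0 = (t : F) := by ring
    have hd0 : (t : F) * 1 - p / r * (1 - (t : F)) * 0 ≠ 0 := by
      rw [hd]
      exact t.ne_zero
    have hsqe : sq ((t : F) * 1 - p / r * (1 - (t : F)) * 0) = e := by
      apply Subtype.ext
      apply Units.ext
      rw [hsq _ hd0, hd, ht']
    constructor
    · rw [rule w (φ w) l _ _ _ _ 1 0 hl hd0 h3 (Or.inl one_ne_zero), hsqe]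
      have e1 : (t : F) * 1 + p / r * (1 - (t : F)) * 0 = (t : F) := by ring
      have e2 : (0 : F) * 1 + 1 * 0 = 0 := by ring
      rw [e1, e2]
      have h4 : N w (t : F) 0 = e⁻¹ * e⁻¹ * N w 1 0 := by
        apply huniq w _ _ (Or.inl t.ne_zero)
        rw [hN w 1 0 (Or.inl one_ne_zero)]
        have h5 : bev (rep w) (t : F) 0 = (t : F) ^ 2 * bev (rep w) 1 0 := by
          have := bev_smul (rep w) (t : F) 1 0
          rw [mul_one, mul_zero] at this
          exact this
        rw [h5]
        push_cast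
        rw [ht']
        have := t.ne_zero
        field_simp
      rw [h4]
      group
    · rw [rule w (φ w) l _ _ _ _ p r hl hd0 h3 (Or.inr hr), hsqe]
      have e1 : (t : F) * p + p / r * (1 - (t : F)) * r = p := by
        field_simp
        ring
      have e2 : (0 : F) * p + 1 * r = r := by ring
      rw [e1, e2]
  -- counting
  have cnt : ∀ p r : F, r ≠ 0 → ∀ e x y : SqE F,
      (univ.filter fun w => N w 1 0 = x ∧ N w p r = y).card =
        (univ.filter fun w => N w 1 0 = e * x ∧ N w p r = e⁻¹ * y).card := by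
    intro p r hr e x y
    obtain ⟨φ, hφ⟩ := stretch p r hr e⁻¹
    refine Finset.card_bij (fun w _ => φ w) ?_ ?_ ?_
    · intro w hw
      rw [Finset.mem_filter] at hw ⊢
      obtain ⟨-, h3, h4⟩ := hw
      obtain ⟨h5, h6⟩ := hφ w
      rw [inv_inv] at h5
      exact ⟨Finset.mem_univ _, by rw [h5, h3], by rw [h6, h4]⟩
    · intro w _ w' _ h
      exact φ.injective h
    · intro w hw
      rw [Finset.mem_filter] at hw
      obtain ⟨-, h3, h4⟩ := hw
      obtain ⟨h5, h6⟩ := hφ (φ.symm w)
      rw [inv_inv, φ.apply_symm_apply] at h5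
      rw [φ.apply_symm_apply] at h6
      refine ⟨φ.symm w, ?_, φ.apply_symm_apply w⟩
      rw [Finset.mem_filter]
      refine ⟨Finset.mem_univ _, ?_, ?_⟩
      · rw [h3] at h5
        exact (mul_left_cancel h5).symm
      · rw [h4] at h6
        exact (mul_left_cancel h6).symm
  have cnt1 : ∀ x : SqE F, (univ.filter fun w => N w 1 0 = x).card =
      (univ.filter fun w => N w 1 0 = 1).card := by
    intro x
    obtain ⟨φ, hφ⟩ := stretch 0 1 one_ne_zero x
    refine Finset.card_bij (fun w _ => φ w) ?_ ?_ ?_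
    · intro w hw
      rw [Finset.mem_filter] at hw ⊢
      refine ⟨Finset.mem_univ _, ?_⟩
      rw [(hφ w).1, hw.2, inv_mul_cancel]
    · intro w _ w' _ h
      exact φ.injective h
    · intro w hw
      rw [Finset.mem_filter] at hw
      refine ⟨φ.symm w, ?_, φ.apply_symm_apply w⟩
      rw [Finset.mem_filter]
      refine ⟨Finset.mem_univ _, ?_⟩
      have h3 := (hφ (φ.symm w)).1
      rw [φ.apply_symm_apply, hw.2] at h3
      rw [eq_comm, inv_mul_eq_one] at h3
      exact h3.symm
  refine tra0 (fun w => N w 1 0) (univ.filter fun w => N w 1 0 = 1).card ?_ cnt1 ?_ H h1 h2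
  · rw [← cnt1 (N w0 1 0), Finset.card_pos]
    exact ⟨w0, by simp⟩
  · intro g
    obtain ⟨p, q, r, s, hd, hw⟩ := hG g
    have h3 : ∀ w, N (g⁻¹ • w) 1 0 = sq (p * s - q * r) * N w p r := by
      intro w
      obtain ⟨l, hl, h4⟩ := hw w
      have h5 := rule w (g⁻¹ • w) l p q r s 1 0 hl hd h4 (Or.inl one_ne_zero)
      rw [mul_one, mul_zero, add_zero, mul_one, mul_zero, add_zero] at h5
      exact h5
    by_cases hr : r = 0
    · left
      subst hr
      have hp : p ≠ 0 := by
        rintro rfl
        apply hd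
        ring
      refine ⟨sq (p * s - q * 0) * (sq p)⁻¹ * (sq p)⁻¹, fun w => ?_⟩
      show N (g⁻¹ • w) 1 0 = _
      rw [h3 w]
      have h4 : N w p 0 = (sq p)⁻¹ * (sq p)⁻¹ * N w 1 0 := by
        apply huniq w _ _ (Or.inl hp)
        rw [hN w 1 0 (Or.inl one_ne_zero)]
        have h5 : bev (rep w) p 0 = p ^ 2 * bev (rep w) 1 0 := by
          have := bev_smul (rep w) p 1 0
          rw [mul_one, mul_zero] at this
          exact this
        rw [h5]
        push_cast
        rw [hsq p hp]
        field_simp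
      rw [h4]
      group
    · right
      refine ⟨fun z => (univ.filter fun w => N w 1 0 = 1 ∧
        N w p r = (sq (p * s - q * r))⁻¹ * z).card, fun x y => ?_⟩
      show (univ.filter fun w => N w 1 0 = x ∧ N (g⁻¹ • w) 1 0 = y).card = _
      have h4 : (univ.filter fun w => N w 1 0 = x ∧ N (g⁻¹ • w) 1 0 = y) =
          univ.filter fun w => N w 1 0 = x ∧ N w p r = (sq (p * s - q * r))⁻¹ * y := by
        ext w
        simp only [Finset.mem_filter, Finset.mem_univ, true_and]
        rw [h3 w, eq_inv_mul_iff_mul_eq]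
      rw [h4, cnt p r hr x⁻¹, inv_mul_cancel, inv_inv]
      congr 1
      ext w
      simp only [Finset.mem_filter, Finset.mem_univ, true_and]
      rw [mul_left_comm]

end SpreadPerm
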