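import Pool.Agent.Lib.MP_e6ed9e_al.PL.Defs
import Pool.Agent.Lib.MP_e6ed9e_al.PL.TraForm30

/-!
# Row TRA
-/

namespace SpreadPerm.PL

open scoped LinearAlgebra.Projectivization MatrixGroups
open MulAction

theorem gl_smul_eq30 {F : Type} [Field F] (g : GL (Fin 2) F) (v : Fin 2 → F) :
    g • v = g.1.mulVec v := rfl

theorem bev_eq_bq30 {F : Type} [Field F] (a b c : F) (x y : F) :
    bev (a, b, c) x y = bq a b c ![x, y] := by
  simp [bev, bq]

/-- There is an anisotropic binary form. -/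
theorem exists_aniso30 (F : Type) [Field F] [Finite F] : ∃ f : F × F × F, BAniso f := by
  classical
  -- `t ↦ t² + t` is not injective, so not surjective
  have h1 : ¬ Function.Surjective (fun t : F => t ^ 2 - t) := by
    intro hs
    have hi := Finite.injective_iff_surjective.2 hs
    have h2 : (fun t : F => t ^ 2 - t) 0 = (fun t : F => t ^ 2 - t) 1 := by
      simp
    exact zero_ne_one (hi h2)
  rw [Function.Surjective] at h1
  push Not at h1
  obtain ⟨c, hc⟩ := h1
  refine ⟨(1, -1, -c), ?_⟩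
  intro x y hxy
  rw [bev] at hxy
  by_cases hy : y = 0
  · refine ⟨?_, hy⟩
    rw [hy] at hxy
    have : x ^ 2 = 0 := by linear_combination hxy
    exact pow_eq_zero_iff (two_ne_zero) |>.1 this
  · exfalso
    apply hc (x / y)
    show (x / y) ^ 2 - x / y = c
    field_simp
    linear_combination hxy

theorem card_sqE30 (F : Type) [Field F] [Fintype F] :
    Nat.card (SqE F) = (Fintype.card F - 1) / Nat.gcd 2 (Fintype.card F - 1) := by
  have h1 := IsCyclic.card_powMonoidHom_range (G := Fˣ) 2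
  have h2 : Nat.card Fˣ = Fintype.card F - 1 := by
    rw [Nat.card_units, Nat.card_eq_fintype_card]
  rw [h2] at h1
  rw [Nat.gcd_comm]
  exact h1

theorem tra30 : StTra := by
  classical
  intro F Ω _ _ _ Γ _ _ A B C hE m d e hm hde hd he
  obtain ⟨f0, hf0⟩ := exists_aniso30 F
  have hcard := card_sqE30 F
  rw [← hm] at hcard
  -- a proper nontrivial subgroup
  obtain ⟨H, h1, h2⟩ : ∃ H : Subgroup (SqE F), H ≠ ⊥ ∧ H ≠ ⊤ := by
    obtain ⟨p, hp, hpd⟩ := Nat.exists_prime_and_dvd (show d ≠ 1 by omega)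
    have : Fact p.Prime := ⟨hp⟩
    obtain ⟨x, hx⟩ := exists_prime_orderOf_dvd_card' (G := SqE F) p (by
      rw [hcard, hde]
      exact Dvd.dvd.mul_right hpd e)
    refine ⟨Subgroup.zpowers x, ?_, ?_⟩
    · intro h
      rw [Subgroup.zpowers_eq_bot] at h
      rw [h, orderOf_one] at hx
      exact hp.one_lt.ne hx
    · intro h
      have h3 : Nat.card (Subgroup.zpowers x) = p := by
        rw [Nat.card_zpowers, hx]
      rw [h, Subgroup.card_top, hcard, hde] at h3
      have h4 : p ≤ d := Nat.le_of_dvd (by omega) hpd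
      nlinarith
  have hbq : ∀ f : F × F × F, BAniso f → ∀ v : Fin 2 → F, v ≠ 0 → bq f.1 f.2.1 f.2.2 v ≠ 0 := by
    intro f hf v hv h
    apply hv
    have h3 := hf (v 0) (v 1) (by
      rw [bev]
      exact h)
    ext i
    fin_cases i
    · exact h3.1
    · exact h3.2
  have hne : Nonempty Ω := by
    obtain ⟨w, -⟩ := hE.surj f0.1 f0.2.1 f0.2.2 (hbq f0 hf0)
    exact ⟨w⟩
  refine tra_forms (fun w => (A w, B w, C w)) ?_ ?_ ?_ ?_ H h1 h2
  · intro w x y hxy
    by_contra hcon
    rw [not_and_or] at hcon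
    refine hE.aniso w ![x, y] ?_ ?_
    · intro h
      have e0 := congrFun h 0
      have e1 := congrFun h 1
      simp at e0 e1
      rcases hcon with hc | hc
      · exact hc e0
      · exact hc e1
    · rw [← bev_eq_bq30]
      exact hxy
  · rintro w w' ⟨l, hl, hl'⟩
    simp only [bsm, Prod.mk.injEq] at hl'
    exact (hE.inj w w' l hl'.1 hl'.2.1 hl'.2.2).symm
  · intro f hf
    obtain ⟨w, l, hl, e1, e2, e3⟩ := hE.surj f.1 f.2.1 f.2.2 (hbq f hf)
    refine ⟨w, l, hl, ?_⟩
    simp only [bsm, Prod.mk.injEq]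
    exact ⟨e1, e2, e3⟩
  · intro g
    refine ⟨g.1.1 0 0, g.1.1 0 1, g.1.1 1 0, g.1.1 1 1, ?_, fun w => ?_⟩
    · have h3 : Matrix.det g.1.1 ≠ 0 := by
        have := (Matrix.isUnit_iff_isUnit_det _).1 g.1.isUnit
        exact this.ne_zero
      rw [Matrix.det_fin_two] at h3
      exact h3
    · obtain ⟨l, hl, h3⟩ := hE.act g⁻¹ w
      refine ⟨l, hl, ?_⟩
      have h4 : ∀ u : Fin 2 → F, bq (A (g⁻¹ • w)) (B (g⁻¹ • w)) (C (g⁻¹ • w)) u =
          l * bq (A w) (B w) (C w) (g.1.1.mulVec u) := by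
        intro u
        have h5 := h3 (g.1 • u)
        rw [← gl_smul_eq30, ← h5]
        congr 1
        show u = (g⁻¹ : Γ).1 • (g.1 • u)
        rw [smul_smul, ← Subgroup.coe_mul, inv_mul_cancel, Subgroup.coe_one, one_smul]
      have e1 := h4 ![1, 0]
      have e2 := h4 ![0, 1]
      have e3 := h4 ![1, 1]
      simp [bq, Matrix.mulVec, dotProduct, Fin.sum_univ_two] at e1 e2 e3
      simp only [bsm, bsub, bev, Prod.mk.injEq]
      refine ⟨?_, ?_, ?_⟩
      · linear_combination e1
      · linear_combination e3 - e1 - e2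
      · linear_combination e2

end SpreadPerm.PL
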