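import Pool.Agent.Lib.MP_e6ed9e_al.PL.Main47
import Pool.Agent.Lib.MP_e6ed9e_al.PL.Prim96
import Pool.Agent.Lib.MP_e6ed9e_al.PL.Borel30
import Pool.Agent.Lib.MP_e6ed9e_al.PL.Pair96
import Pool.Agent.Lib.MP_e6ed9e_al.PL.Label3
import Pool.Agent.Lib.MP_e6ed9e_al.PL.Surj88
import Pool.Agent.Lib.MP_e6ed9e_al.PL.Card88
import Pool.Agent.Lib.MP_e6ed9e_al.PL.TraRow30
import Pool.Agent.Lib.MP_e6ed9e_al.PL.Con54
import Pool.Agent.Lib.MP_e6ed9e_al.PL.Intr97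
import Pool.Agent.Lib.MP_e6ed9e_al.PL.Dick88
import Pool.Agent.Lib.MP_e6ed9e_al.PL.Syl88
import Pool.Agent.Lib.MP_e6ed9e_al.PL.Pgl16
import Pool.Agent.Lib.MP_e6ed9e_al.PL.KerRat51
import Pool.Agent.Lib.MP_e6ed9e_al.PL.Sub25
import Pool.Agent.Lib.MP_e6ed9e_al.PL.Full1

/-! # The linear theorem -/

namespace SpreadPerm.PL

theorem stMain47 : StMain :=
  main47 prim96 borel30 pair96 (label3 surj88) card88 tra30 con54 intr97 dick88 syl88 pgl16 rat51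
    Sub25.sub25 full1 ker51

end SpreadPerm.PL
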