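import Mathlib
import Pool.Agent.Lib.MP_e6ed9e_al.PL.Defs

/-! # Row NUM -/

namespace SpreadPerm.PL

theorem cube97 (L : ℕ) (hL : 16 ≤ L) : 5 * L ^ 3 ≤ 2 ^ (L - 1) := by
  induction L, hL using Nat.le_induction with
  | base => norm_num
  | succ m hm ih =>
    have h1 : 2 ^ (m + 1 - 1) = 2 * 2 ^ (m - 1) := by
      rw [Nat.add_sub_cancel, ← pow_succ']
      congr 1
      omega
    rw [h1]
    have h2 : 5 * (m + 1) ^ 3 ≤ 2 * (5 * m ^ 3) := by nlinarith [hm, mul_le_mul hm hm (by norm_num) (by omega)]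
    omega

theorem num97 : StNum := by
  intro q n s hq h1 h2
  have hq0 : 0 < q := by omega
  -- 4 n^2 q >= (q^2-1)^2
  have h3 : (q ^ 2 - 1) ^ 2 ≤ 4 * n ^ 2 * q := by
    have h4 : (q * (q ^ 2 - 1)) ^ 2 ≤ (2 * n * s) ^ 2 := Nat.pow_le_pow_left h1 2
    have h5 : (2 * n * s) ^ 2 ≤ 4 * n ^ 2 * q ^ 3 := by
      calc (2 * n * s) ^ 2 = 4 * n ^ 2 * s ^ 2 := by ring
        _ ≤ 4 * n ^ 2 * q ^ 3 := Nat.mul_le_mul_left _ h2
    have h6 : q ^ 2 * (q ^ 2 - 1) ^ 2 ≤ q ^ 2 * (4 * n ^ 2 * q) := by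
      calc q ^ 2 * (q ^ 2 - 1) ^ 2 = (q * (q ^ 2 - 1)) ^ 2 := by ring
        _ ≤ 4 * n ^ 2 * q ^ 3 := h4.trans h5
        _ = q ^ 2 * (4 * n ^ 2 * q) := by ring
    exact Nat.le_of_mul_le_mul_left h6 (by positivity)
  obtain ⟨t, ht⟩ : ∃ t, q ^ 2 = t + 1 := ⟨q ^ 2 - 1, by
    have : 0 < q ^ 2 := by positivity
    omega⟩
  rw [ht, Nat.add_sub_cancel] at h3
  have ht2 : 10 ^ 8 ≤ q ^ 2 := by
    calc 10 ^ 8 = 10000 ^ 2 := by norm_num
      _ ≤ q ^ 2 := Nat.pow_le_pow_left hq 2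
  -- 6 q^3 <= 25 n^2
  have h4 : 6 * q ^ 3 ≤ 25 * n ^ 2 := by
    have h5 : 24 * q ^ 4 ≤ 25 * t ^ 2 := by
      have : q ^ 4 = (t + 1) ^ 2 := by rw [← ht]; ring
      rw [this]
      nlinarith
    have h6 : 24 * q ^ 4 ≤ 25 * (4 * n ^ 2 * q) := h5.trans (Nat.mul_le_mul_left _ h3)
    have h7 : q * (24 * q ^ 3) ≤ q * (100 * n ^ 2) := by
      calc q * (24 * q ^ 3) = 24 * q ^ 4 := by ring
        _ ≤ 25 * (4 * n ^ 2 * q) := h6
        _ = q * (100 * n ^ 2) := by ring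
    have h8 := Nat.le_of_mul_le_mul_left h7 hq0
    omega
  have h5 : (q + 1) ^ 3 ≤ 5 * n ^ 2 := by
    have h6 : 6 * (q + 1) ^ 3 ≤ 7 * q ^ 3 := by
      nlinarith [mul_le_mul hq hq (by norm_num) (by omega), hq, Nat.mul_le_mul_left (q * q) hq]
    nlinarith
  -- n is big
  have hn0 : n ≠ 0 := by
    rintro rfl
    simp at h4
    omega
  set L := Nat.log 2 n + 1 with hL
  have hlt : n < 2 ^ L := Nat.lt_pow_succ_log_self (by norm_num) n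
  have hge : 2 ^ (L - 1) ≤ n := by
    rw [hL, Nat.add_sub_cancel]
    exact Nat.pow_log_le_self 2 hn0
  have hL16 : 16 ≤ L := by
    by_contra hcon
    push Not at hcon
    have h6 : n < 2 ^ 15 := lt_of_lt_of_le hlt (Nat.pow_le_pow_right (by norm_num) (by omega))
    have h7 : 10 ^ 12 ≤ q ^ 3 := by
      calc 10 ^ 12 = 10000 ^ 3 := by norm_num
        _ ≤ q ^ 3 := Nat.pow_le_pow_left hq 3
    have h8 : n ^ 2 < (2 ^ 15) ^ 2 := Nat.pow_lt_pow_left h6 (by norm_num)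
    norm_num at h8 h7
    omega
  have h6 : 5 * L ^ 3 ≤ n := (cube97 L hL16).trans hge
  have h7 : L * (q + 1) ≤ n := by
    have h8 : (L * (q + 1)) ^ 3 ≤ n ^ 3 := by
      calc (L * (q + 1)) ^ 3 = L ^ 3 * (q + 1) ^ 3 := by ring
        _ ≤ L ^ 3 * (5 * n ^ 2) := Nat.mul_le_mul_left _ h5
        _ = 5 * L ^ 3 * n ^ 2 := by ring
        _ ≤ n * n ^ 2 := Nat.mul_le_mul_right _ h6
        _ = n ^ 3 := by ring
    exact (Nat.pow_le_pow_iff_left (by norm_num)).1 h8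
  calc n ^ (q + 1) < (2 ^ L) ^ (q + 1) := Nat.pow_lt_pow_left hlt (by omega)
    _ = 2 ^ (L * (q + 1)) := by rw [← pow_mul]
    _ ≤ 2 ^ n := Nat.pow_le_pow_right (by norm_num) h7

end SpreadPerm.PL
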