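import Pool.Agent.Lib.MP_e6ed9e_al.PL.QDefs

/-!
# Row QI2: a 2-transitive group is QI
-/

namespace SpreadPerm.PL

open MulAction

theorem qi2_1 : StQI2 := by
  classical
  intro G Ω _ _ _ _ h2 W hW0 hWG
  have htr : ∀ (a b c d : Ω), a ≠ b → c ≠ d → ∃ g : G, g • a = c ∧ g • b = d :=
    fun a b c d h h' => (is_two_pretransitive_iff (G := G) (α := Ω)).1 h2 h h'
  by_cases hbot : W = ⊥
  · exact Or.inl hbot
  right
  obtain ⟨w, hw, hwne⟩ := (Submodule.ne_bot_iff W).1 hbot
  obtain ⟨a, ha⟩ : ∃ a, w a ≠ 0 := by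
    by_contra hcon
    push Not at hcon
    exact hwne (funext hcon)
  -- a second point
  obtain ⟨a', ha'⟩ : ∃ a', a' ≠ a := by
    by_contra hcon
    push Not at hcon
    have h := hW0 w hw
    rw [Fintype.sum_eq_single a (fun x hx => absurd (hcon x) hx)] at h
    exact ha h
  haveI : Fintype G := Fintype.ofFinite G
  let S : Finset G := Finset.univ.filter fun g : G => g • a = a
  have hS : ∀ g : G, g ∈ S ↔ g • a = a := fun g => by simp [S]
  let u : Ω → ℚ := fun i => ∑ g ∈ S, w (g⁻¹ • i)
  have hu : ∀ i, u i = ∑ g ∈ S, w (g⁻¹ • i) := fun i => rfl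
  have huW : u ∈ W := by
    have h : u = ∑ g ∈ S, fun i => w (g⁻¹ • i) := by
      funext i
      rw [hu, Finset.sum_apply]
    rw [h]
    exact Submodule.sum_mem _ fun g _ => hWG g w hw
  have huinv : ∀ h : G, h • a = a → ∀ i, u (h • i) = u i := by
    intro h hh i
    rw [hu, hu]
    refine Finset.sum_equiv (Equiv.mulLeft h⁻¹) ?_ ?_
    · intro g
      rw [hS, hS, Equiv.coe_mulLeft, mul_smul, inv_smul_eq_iff, hh]
    · intro g _
      rw [Equiv.coe_mulLeft, mul_inv_rev, inv_inv, mul_smul]
  have hua : u a ≠ 0 := by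
    have h : u a = S.card * w a := by
      rw [hu, ← nsmul_eq_mul, ← Finset.sum_const]
      refine Finset.sum_congr rfl fun g hg => ?_
      rw [inv_smul_eq_iff.2 ((hS g).1 hg).symm]
    rw [h]
    refine mul_ne_zero ?_ ha
    rw [Nat.cast_ne_zero]
    exact Finset.card_ne_zero_of_mem ((hS 1).2 (one_smul _ _))
  have huc : ∀ i, i ≠ a → u i = u a' := by
    intro i hi
    obtain ⟨g, hg1, hg2⟩ := htr a a' a i ha'.symm hi.symm
    rw [← hg2, huinv g hg1]
  have hne : u a - u a' ≠ 0 := by
    intro h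
    have h1 : ∀ i, u i = u a := by
      intro i
      by_cases hi : i = a
      · rw [hi]
      · rw [huc i hi]
        linarith
    have h3 := hW0 u huW
    rw [Finset.sum_congr rfl fun i _ => h1 i, Finset.sum_const, nsmul_eq_mul] at h3
    rcases mul_eq_zero.1 h3 with h4 | h4
    · rw [Nat.cast_eq_zero, Finset.card_eq_zero] at h4
      exact absurd (Finset.mem_univ a) (by rw [h4]; exact Finset.notMem_empty a)
    · exact hua h4
  have hg : ∀ b : Ω, ∃ g : G, g • a = b := by
    intro b
    by_cases hb : b = a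
    · exact ⟨1, by rw [one_smul, hb]⟩
    · obtain ⟨g, hg1, _⟩ := htr a a' b a ha'.symm hb
      exact ⟨g, hg1⟩
  choose γ hγ using hg
  intro f hf
  have hkey : ∑ b, f b • (fun i => u ((γ b)⁻¹ • i)) = (u a - u a') • f := by
    funext i
    rw [Finset.sum_apply, Pi.smul_apply, smul_eq_mul]
    have h1 : ∀ b, (f b • fun i => u ((γ b)⁻¹ • i)) i =
        u a' * f b + if b = i then (u a - u a') * f i else 0 := by
      intro b
      rw [Pi.smul_apply, smul_eq_mul]
      by_cases hb : b = i
      · subst hb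
        rw [if_pos rfl, inv_smul_eq_iff.2 (hγ b).symm]
        ring
      · rw [if_neg hb, huc]
        · ring
        · intro h
          rw [inv_smul_eq_iff, hγ] at h
          exact hb h.symm
    rw [Finset.sum_congr rfl fun b _ => h1 b, Finset.sum_add_distrib, ← Finset.mul_sum, hf,
      mul_zero, zero_add, Finset.sum_ite_eq' Finset.univ i, if_pos (Finset.mem_univ i)]
  have h5 : (u a - u a') • f ∈ W := by
    rw [← hkey]
    exact Submodule.sum_mem _ fun b _ => W.smul_mem _ (hWG _ u huW)
  have h6 := W.smul_mem (u a - u a')⁻¹ h5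
  rwa [smul_smul, inv_mul_cancel₀ hne, one_smul] at h6

end SpreadPerm.PL
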