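import Pool.Agent.Lib.MP_e6ed9e_al.PL.QDefs
import Pool.Agent.Lib.MP_e6ed9e_al.PL.Con54
import Pool.Agent.Lib.MP_e6ed9e_al.PL.Borel30

/-! # Row QIE: the action on the anisotropic forms is QI, `q = 2^n`, `q - 1` prime (helper54) -/

set_option linter.unusedSectionVars false

namespace SpreadPerm.PL.QIE54

open MulAction Finset
open scoped MatrixGroups

section
variable {F : Type} [Field F]

theorem count_line [Fintype F] [DecidableEq F] (s t : F) (h : s ≠ 0 ∨ t ≠ 0) :
    (univ.filter fun v : Fin 2 → F => s * v 0 + t * v 1 = 0).card = Fintype.card F := by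
  rw [← Finset.card_univ]
  symm
  refine Finset.card_bij (fun c _ => ![c * t, -(c * s)]) ?_ ?_ ?_
  · intro c _
    simp only [mem_filter, mem_univ, true_and, Matrix.cons_val_zero, Matrix.cons_val_one]
    ring
  · intro c _ c' _ e
    have e0 := congrFun e 0
    have e1 := congrFun e 1
    simp only [Matrix.cons_val_zero, Matrix.cons_val_one] at e0 e1
    rcases h with h | h
    · exact mul_right_cancel₀ h (neg_injective e1)
    · exact mul_right_cancel₀ h e0
  · intro v hv
    simp only [mem_filter, mem_univ, true_and] at hv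
    by_cases hs : s = 0
    · have ht : t ≠ 0 := h.resolve_left (fun h' => h' hs)
      have hv1 : v 1 = 0 := by
        rw [hs, zero_mul, zero_add] at hv
        exact (mul_eq_zero.1 hv).resolve_left ht
      refine ⟨v 0 / t, mem_univ _, ?_⟩
      funext i
      fin_cases i
      · simp [ht]
      · simp [hs, hv1]
    · refine ⟨-(v 1) / s, mem_univ _, ?_⟩
      funext i
      fin_cases i
      · simp only [Fin.zero_eta, Matrix.cons_val_zero]
        field_simp
        linear_combination -hv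
      · show -(-(v 1) / s * s) = v 1
        field_simp

theorem add_im [Fintype F] (h2 : (2 : F) = 0) (k : F) (hk : k ≠ 0) (x y : F)
    (hx : ∀ s : F, k * s ^ 2 + s ≠ x) (hy : ∀ s : F, k * s ^ 2 + s ≠ y) :
    ∃ s : F, k * s ^ 2 + s = x + y := by
  let L : F →+ F :=
    { toFun := fun s => k * s ^ 2 + s
      map_zero' := by simp
      map_add' := fun a b => by linear_combination (k * a * b) * h2 }
  have hL : ∀ s, L s = k * s ^ 2 + s := fun s => rfl
  have hker : Nat.card L.ker = 2 := by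
    rw [Nat.card_eq_two_iff' (0 : L.ker)]
    refine ⟨⟨-k⁻¹, ?_⟩, ?_, ?_⟩
    · rw [AddMonoidHom.mem_ker, hL]
      field_simp
      ring
    · intro h
      have := congrArg Subtype.val h
      simp at this
      exact hk this
    · rintro ⟨s, hs⟩ hs0
      rw [AddMonoidHom.mem_ker, hL] at hs
      have hs1 : s ≠ 0 := by
        intro h
        apply hs0
        exact Subtype.ext h
      apply Subtype.ext
      have h3 : k * s + 1 = 0 := by
        apply mul_left_cancel₀ hs1
        linear_combination hs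
      simp only
      field_simp
      linear_combination h3
  have hidx : L.range.index = 2 := by
    have h1 := AddSubgroup.index_ker L
    have h3 := AddSubgroup.card_mul_index L.ker
    have h4 := AddSubgroup.card_mul_index L.range
    rw [h1, hker] at h3
    rw [← h3, mul_comm 2] at h4
    have h5 : 0 < Nat.card L.range := Nat.card_pos
    exact Nat.eq_of_mul_eq_mul_left h5 h4
  have h3 := (AddSubgroup.add_mem_iff_of_index_two hidx (a := x) (b := y)).2
    ⟨fun ⟨s, hs⟩ => absurd hs (hx s), fun ⟨s, hs⟩ => absurd hs (hy s)⟩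
  obtain ⟨s, hs⟩ := h3
  exact ⟨s, hs⟩

/-- The value of the normalised form. -/
def bn {Ω : Type} (A B C : Ω → F) (v : Fin 2 → F) (ω : Ω) : F := bq (A ω) (B ω) (C ω) v / B ω

end

section
variable {F G Ω : Type} [Field F] [Fintype F] [Group G] [Fintype Ω]
  [DistribMulAction G (Fin 2 → F)] [MulAction G Ω] {A B C : Ω → F}

theorem A_ne (hE : SEll F G Ω A B C) (ω : Ω) : A ω ≠ 0 := by
  have := hE.aniso ω ![1, 0] (by
    intro h0
    have := congrFun h0 0
    simp at this)
  simpa [bq] using this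

theorem B_ne (hE : SEll F G Ω A B C) (hc : ringChar F = 2) (ω : Ω) : B ω ≠ 0 := by
  have h2 : (2 : F) = 0 := by
    have := ringChar.of_eq hc
    exact CharTwo.two_eq_zero
  intro h0
  obtain ⟨s, hs⟩ := FiniteField.isSquare_of_char_two hc (A ω)
  obtain ⟨t, ht⟩ := FiniteField.isSquare_of_char_two hc (C ω)
  have hs0 : s ≠ 0 := by
    rintro rfl
    exact A_ne hE ω (by rw [hs, mul_zero])
  refine hE.aniso ω ![t, s] ?_ ?_
  · intro h
    have := congrFun h 1
    simp at this
    exact hs0 this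
  · simp only [bq, Matrix.cons_val_zero, Matrix.cons_val_one]
    rw [h0, hs, ht]
    linear_combination (s ^ 2 * t ^ 2) * h2

theorem bn_ne (hE : SEll F G Ω A B C) (hc : ringChar F = 2) {v : Fin 2 → F} (hv : v ≠ 0) (ω : Ω) :
    bn A B C v ω ≠ 0 := div_ne_zero (hE.aniso ω v hv) (B_ne hE hc ω)

theorem bn_zero (ω : Ω) : bn A B C 0 ω = 0 := by simp [bn, bq]

theorem bn_smul (c : F) (v : Fin 2 → F) (ω : Ω) :
    bn A B C (c • v) ω = c ^ 2 * bn A B C v ω := by
  simp only [bn, bq, Pi.smul_apply, smul_eq_mul]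
  ring

theorem bn_eq (hE : SEll F G Ω A B C) (hc : ringChar F = 2) (v : Fin 2 → F) (ω : Ω) :
    bn A B C v ω = A ω / B ω * v 0 ^ 2 + v 0 * v 1 + C ω / B ω * v 1 ^ 2 := by
  have := B_ne hE hc ω
  simp only [bn, bq]
  field_simp

theorem bn_inj (hE : SEll F G Ω A B C) (hc : ringChar F = 2) {ω ω' : Ω}
    (h1 : A ω / B ω = A ω' / B ω') (h2 : C ω / B ω = C ω' / B ω') : ω' = ω := by
  have hB := B_ne hE hc ω
  have hB' := B_ne hE hc ω'
  apply hE.inj ω ω' (B ω' / B ω)
  · field_simp
    field_simp at h1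
    linear_combination -h1
  · field_simp
  · field_simp
    field_simp at h2
    linear_combination -h2

theorem bn_act (hE : SEll F G Ω A B C) (hc : ringChar F = 2) (g : G) (m : GL (Fin 2) F)
    (hm : Matrix.det m.1 = 1) (hg : ∀ v : Fin 2 → F, g • v = m • v) (v : Fin 2 → F) (ω : Ω) :
    bn A B C (m • v) (g • ω) = bn A B C v ω := by
  have h2 : (2 : F) = 0 := by
    have := ringChar.of_eq hc
    exact CharTwo.two_eq_zero
  obtain ⟨σ, hσ, hact⟩ := hE.semi g
  have hσ1 : ∀ c : F, σ c = c := by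
    intro c
    have h1 := hσ c ![1, 0]
    rw [hg, hg] at h1
    have hne : m • (![1, 0] : Fin 2 → F) ≠ 0 := gl_ne30 m (by
      intro h0
      have := congrFun h0 0
      simp at this)
    have h3 : m • (c • (![1, 0] : Fin 2 → F)) = c • (m • (![1, 0] : Fin 2 → F)) := by
      rw [glsm30, Matrix.mulVec_smul, ← glsm30]
    rw [h3] at h1
    exact (smul_left_injective F hne h1).symm
  obtain ⟨l, hl, h⟩ := hact ω
  have key : ∀ v : Fin 2 → F, bq (A (g • ω)) (B (g • ω)) (C (g • ω)) (m • v) =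
      l * bq (A ω) (B ω) (C ω) v := by
    intro v
    have := h v
    rw [hg, hσ1] at this
    exact this
  have hB : B (g • ω) = l * B ω := by
    have k1 := key ![1, 0]
    have k2 := key ![0, 1]
    have k3 := key ![1, 1]
    rw [Matrix.det_fin_two] at hm
    simp only [bq, gl0, gl1, Matrix.cons_val_zero, Matrix.cons_val_one] at k1 k2 k3
    linear_combination k3 - k1 - k2 - (B (g • ω)) * hm -
      (A (g • ω) * m.1 0 0 * m.1 0 1 + C (g • ω) * m.1 1 0 * m.1 1 1 +
        B (g • ω) * m.1 0 1 * m.1 1 0) * h2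
  have hB0 := B_ne hE hc ω
  rw [bn, bn, key, hB]
  field_simp

theorem count_bn (hE : SEll F G Ω A B C) (hc : ringChar F = 2) [DecidableEq F] {ω ω' : Ω}
    (hne : ω ≠ ω') :
    (univ.filter fun v : Fin 2 → F => bn A B C v ω' = bn A B C v ω).card = Fintype.card F := by
  have h2 : (2 : F) = 0 := by
    have := ringChar.of_eq hc
    exact CharTwo.two_eq_zero
  obtain ⟨s, hs⟩ := FiniteField.isSquare_of_char_two hc (A ω' / B ω' - A ω / B ω)
  obtain ⟨t, ht⟩ := FiniteField.isSquare_of_char_two hc (C ω' / B ω' - C ω / B ω)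
  rw [← count_line s t]
  · congr 1
    ext v
    simp only [mem_filter, mem_univ, true_and]
    rw [bn_eq hE hc, bn_eq hE hc]
    have e : (A ω' / B ω' * v 0 ^ 2 + v 0 * v 1 + C ω' / B ω' * v 1 ^ 2) -
        (A ω / B ω * v 0 ^ 2 + v 0 * v 1 + C ω / B ω * v 1 ^ 2) = (s * v 0 + t * v 1) ^ 2 := by
      linear_combination (v 0 ^ 2) * hs + (v 1 ^ 2) * ht - (s * v 0 * t * v 1) * h2
    rw [← sub_eq_zero, e]
    exact pow_eq_zero_iff two_ne_zero
  · by_contra hcon
    push Not at hcon
    apply hne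
    apply bn_inj hE hc (ω := ω') (ω' := ω)
    · have := hs
      rw [hcon.1, mul_zero] at this
      exact sub_eq_zero.1 this
    · have := ht
      rw [hcon.2, mul_zero] at this
      exact sub_eq_zero.1 this

/-- Sums over the horocycles. -/
noncomputable def hs (A B C : Ω → F) (f : Ω → ℚ) (v : Fin 2 → F) (k : F) : ℚ := by
  classical
  exact ∑ ω ∈ univ.filter (fun ω => bn A B C v ω = k), f ω

theorem hs_eq [DecidableEq F] (f : Ω → ℚ) (v : Fin 2 → F) (k : F) :
    hs A B C f v k = ∑ ω, if bn A B C v ω = k then f ω else 0 := by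
  classical
  rw [hs, sum_filter]
  refine sum_congr rfl fun ω _ => ?_
  congr

theorem inversion (hE : SEll F G Ω A B C) (hc : ringChar F = 2) (f : Ω → ℚ)
    (hf : ∑ ω, f ω = 0) (ω : Ω) :
    ∑ v : Fin 2 → F, hs A B C f v (bn A B C v ω) =
      ((Fintype.card F : ℚ) * ((Fintype.card F : ℚ) - 1)) * f ω := by
  classical
  have e1 : ∑ v : Fin 2 → F, hs A B C f v (bn A B C v ω) =
      ∑ ω', ((univ.filter fun v : Fin 2 → F => bn A B C v ω' = bn A B C v ω).card : ℚ) * f ω' := by
    simp only [hs_eq]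
    rw [sum_comm]
    refine sum_congr rfl fun ω' _ => ?_
    rw [← sum_filter, sum_const, nsmul_eq_mul]
  have e2 : ∀ ω', ((univ.filter fun v : Fin 2 → F => bn A B C v ω' = bn A B C v ω).card : ℚ) *
      f ω' = (Fintype.card F : ℚ) * f ω' + (if ω' = ω then
        ((Fintype.card F : ℚ) * ((Fintype.card F : ℚ) - 1)) * f ω' else 0) := by
    intro ω'
    by_cases h : ω' = ω
    · rw [if_pos h, h]
      have : (univ.filter fun v : Fin 2 → F => bn A B C v ω = bn A B C v ω).card =
          Fintype.card F ^ 2 := by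
        rw [filter_true_of_mem (fun _ _ => rfl), card_univ, Fintype.card_fun, Fintype.card_fin]
      rw [this]
      push_cast
      ring
    · rw [if_neg h, count_bn hE hc (Ne.symm h), add_zero]
  rw [e1, sum_congr rfl fun ω' _ => e2 ω', sum_add_distrib, ← mul_sum, hf, mul_zero, zero_add,
    sum_ite_eq' univ ω, if_pos (mem_univ _)]

/-- The element induces a linear map of determinant one. -/
def IsS (F : Type) [Field F] {G : Type} [Group G] [DistribMulAction G (Fin 2 → F)] (g : G) : Prop :=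
  ∃ m : GL (Fin 2) F, Matrix.det m.1 = 1 ∧ ∀ v : Fin 2 → F, g • v = m • v

theorem isS_act (hE : SEll F G Ω A B C) (hc : ringChar F = 2) {g : G} (hg : IsS F g)
    (v : Fin 2 → F) (ω : Ω) : bn A B C (g • v) (g • ω) = bn A B C v ω := by
  obtain ⟨m, hm, h⟩ := hg
  rw [h v]
  exact bn_act hE hc g m hm h v ω

theorem isS_act' (hE : SEll F G Ω A B C) (hc : ringChar F = 2) {g : G} (hg : IsS F g)
    (v : Fin 2 → F) (ω : Ω) : bn A B C (g • v) ω = bn A B C v (g⁻¹ • ω) := by
  rw [← isS_act hE hc hg v (g⁻¹ • ω), smul_inv_smul]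

theorem hs_trans (hE : SEll F G Ω A B C) (hc : ringChar F = 2) {g : G} (hg : IsS F g)
    (f : Ω → ℚ) (v : Fin 2 → F) (k : F) :
    hs A B C (fun i => f (g⁻¹ • i)) (g • v) k = hs A B C f v k := by
  classical
  rw [hs_eq, hs_eq, ← Equiv.sum_comp (MulAction.toPerm g)]
  refine sum_congr rfl fun ω _ => ?_
  simp only [MulAction.toPerm_apply]
  rw [isS_act hE hc hg, inv_smul_smul]

theorem same (hS : SAct F G Ω) {g h : G} (e : ∀ v : Fin 2 → F, g • v = h • v) (ω : Ω) :
    g • ω = h • ω := by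
  have h1 := hS.sc (h⁻¹ * g) ⟨1, fun v => by rw [mul_smul, e, inv_smul_smul, one_smul]⟩ ω
  rwa [mul_smul, inv_smul_eq_iff] at h1

theorem isS_exists (hS : SAct F G Ω) {v : Fin 2 → F} (hv : v ≠ 0) :
    ∃ g : G, IsS F g ∧ g • (![1, 0] : Fin 2 → F) = v := by
  obtain ⟨w, hw⟩ : ∃ w : Fin 2 → F, dt30 v w ≠ 0 := by
    by_contra hcon
    push Not at hcon
    have e1 := hcon ![0, 1]
    have e2 := hcon ![1, 0]
    simp [dt30] at e1 e2
    apply hv
    ext i
    fin_cases i
    · exact e1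
    · exact e2
  obtain ⟨m, l, hm, _, h1, _⟩ := exists_sl30 ![1, 0] ![0, 1] v w (by simp [dt30]) hw
  obtain ⟨g, hg⟩ := hS.sl m hm
  exact ⟨g, ⟨m, hm, hg⟩, by rw [hg, h1]⟩

/-- Transvections. -/
theorem trv (hS : SAct F G Ω) (s : F) : ∃ g : G, IsS F g ∧
    ∀ x y : F, g • (![x, y] : Fin 2 → F) = ![x + s * y, y] := by
  have hd : (!![1, s; 0, 1] : Matrix (Fin 2) (Fin 2) F).det = 1 := by simp
  have hd' : (!![1, s; 0, 1] : Matrix (Fin 2) (Fin 2) F).det ≠ 0 := by rw [hd]; exact one_ne_zero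
  obtain ⟨g, hg⟩ := hS.sl (Matrix.GeneralLinearGroup.mkOfDetNeZero _ hd') hd
  refine ⟨g, ⟨_, hd, hg⟩, fun x y => ?_⟩
  rw [hg, glsm30]
  show (!![1, s; 0, 1] : Matrix (Fin 2) (Fin 2) F).mulVec ![x, y] = _
  funext i
  fin_cases i <;> simp [Matrix.mulVec, dotProduct, Fin.sum_univ_two]

/-- The torus. -/
theorem tor (hS : SAct F G Ω) (t : F) (ht : t ≠ 0) : ∃ g : G, IsS F g ∧
    g • (![1, 0] : Fin 2 → F) = t • ![1, 0] := by
  have hd : (!![t, 0; 0, t⁻¹] : Matrix (Fin 2) (Fin 2) F).det = 1 := by simp [ht]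
  have hd' : (!![t, 0; 0, t⁻¹] : Matrix (Fin 2) (Fin 2) F).det ≠ 0 := by
    rw [hd]; exact one_ne_zero
  obtain ⟨g, hg⟩ := hS.sl (Matrix.GeneralLinearGroup.mkOfDetNeZero _ hd') hd
  refine ⟨g, ⟨_, hd, hg⟩, ?_⟩
  rw [hg, glsm30]
  show (!![t, 0; 0, t⁻¹] : Matrix (Fin 2) (Fin 2) F).mulVec ![1, 0] = _
  funext i
  fin_cases i <;> simp [Matrix.mulVec, dotProduct, Fin.sum_univ_two]

/-- The transvections with axis `(1, 0)` are transitive on each horocycle. -/
theorem fib (hE : SEll F G Ω A B C) (hc : ringChar F = 2) (ω ω' : Ω)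
    (h : bn A B C ![1, 0] ω = bn A B C ![1, 0] ω') : ∃ s : F, ∀ g : G, IsS F g →
      (∀ x y : F, g • (![x, y] : Fin 2 → F) = ![x + s * y, y]) → g • ω = ω' := by
  have h2 : (2 : F) = 0 := by
    have := ringChar.of_eq hc
    exact CharTwo.two_eq_zero
  have h1 : A ω / B ω = A ω' / B ω' := by
    rw [bn_eq hE hc, bn_eq hE hc] at h
    simpa using h
  have hk : A ω / B ω ≠ 0 := div_ne_zero (A_ne hE ω) (B_ne hE hc ω)
  have hno : ∀ ω : Ω, ∀ s : F, A ω / B ω * s ^ 2 + s ≠ C ω / B ω := by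
    intro ω s hs
    apply bn_ne hE hc (v := ![s, 1]) (by
      intro h0
      have := congrFun h0 1
      simp at this) ω
    rw [bn_eq hE hc]
    simp only [Matrix.cons_val_zero, Matrix.cons_val_one]
    linear_combination hs + (C ω / B ω) * h2
  obtain ⟨s, hs⟩ := add_im h2 (A ω / B ω) hk (C ω / B ω) (C ω' / B ω') (hno ω)
    (by rw [h1]; exact hno ω')
  refine ⟨s, fun g hg hgv => ?_⟩
  symm
  apply bn_inj hE hc
  · have e1 := isS_act hE hc hg ![1, 0] ω
    rw [hgv, bn_eq hE hc, bn_eq hE hc] at e1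
    simp only [Matrix.cons_val_zero, Matrix.cons_val_one] at e1
    rw [← h1]
    linear_combination e1
  · have e1 := isS_act hE hc hg ![-s, 1] ω
    rw [hgv, bn_eq hE hc, bn_eq hE hc] at e1
    simp only [Matrix.cons_val_zero, Matrix.cons_val_one] at e1
    linear_combination e1 + hs + (C ω / B ω - s) * h2

end

theorem qie54 (hP : StQIP) : StQIE := by
  intro F G Ω _ _ _ _ _ _ _ _ A B C hS hE hc hpr
  classical
  intro W hW0 hWG
  by_cases hbot : W = ⊥
  · exact Or.inl hbot
  right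
  have h2 : (2 : F) = 0 := by
    have := ringChar.of_eq hc
    exact CharTwo.two_eq_zero
  have hq1 : 1 < Fintype.card F := Fintype.one_lt_card
  have hqq : ((Fintype.card F : ℚ) * ((Fintype.card F : ℚ) - 1)) ≠ 0 := by
    have : (1 : ℚ) < Fintype.card F := by exact_mod_cast hq1
    have h3 : (0 : ℚ) < (Fintype.card F : ℚ) - 1 := by linarith
    positivity
  have he1 : (![1, 0] : Fin 2 → F) ≠ 0 := by
    intro h0
    have := congrFun h0 0
    simp at this
  -- a vector with a nonzero sum on a horocycle of `(1, 0)`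
  obtain ⟨w, hw, k, hk⟩ : ∃ w ∈ W, ∃ k : F, hs A B C w ![1, 0] k ≠ 0 := by
    obtain ⟨w, hw, hw0⟩ := (Submodule.ne_bot_iff W).1 hbot
    obtain ⟨ω, hω⟩ := Function.ne_iff.1 hw0
    have h3 : ∃ v : Fin 2 → F, hs A B C w v (bn A B C v ω) ≠ 0 := by
      by_contra hcon
      push Not at hcon
      have h4 := inversion hE hc w (hW0 w hw) ω
      rw [sum_eq_zero fun v _ => hcon v] at h4
      exact (mul_ne_zero hqq hω) h4.symm
    obtain ⟨v, hv⟩ := h3
    have hv0 : v ≠ 0 := by
      rintro rfl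
      apply hv
      rw [hs_eq]
      have : ∀ ω', (if bn A B C 0 ω' = bn A B C 0 ω then w ω' else 0) = w ω' := fun ω' => by
        rw [bn_zero, bn_zero, if_pos rfl]
      rw [sum_congr rfl fun ω' _ => this ω']
      exact hW0 w hw
    obtain ⟨g, hg, hgv⟩ := isS_exists hS hv0
    refine ⟨fun i => w ((g⁻¹)⁻¹ • i), hWG g⁻¹ w hw, bn A B C v ω, ?_⟩
    have h5 := hs_trans hE hc hg (fun i => w ((g⁻¹)⁻¹ • i)) ![1, 0] (bn A B C v ω)
    rw [← h5, hgv]
    have h6 : (fun i => (fun i => w ((g⁻¹)⁻¹ • i)) (g⁻¹ • i)) = w := by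
      funext i
      simp only
      rw [inv_inv, smul_inv_smul]
    rw [h6]
    exact hv
  -- the average over the transvections
  choose u hu huv using fun s : F => trv (Ω := Ω) hS s
  let ψ : Ω → ℚ := fun ω => ∑ s : F, w ((u s)⁻¹ • ω)
  have hψW : ψ ∈ W := by
    have : ψ = ∑ s : F, fun ω => w ((u s)⁻¹ • ω) := by
      funext ω
      rw [Finset.sum_apply]
    rw [this]
    exact Submodule.sum_mem _ fun s _ => hWG (u s) w hw
  have huv' : ∀ s x y : F, (u s)⁻¹ • (![x, y] : Fin 2 → F) = ![x - s * y, y] := by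
    intro s x y
    rw [inv_smul_eq_iff, huv]
    congr 1
    ring
  have hψc : ∀ ω ω', bn A B C ![1, 0] ω = bn A B C ![1, 0] ω' → ψ ω = ψ ω' := by
    intro ω ω' h
    obtain ⟨t, ht⟩ := fib hE hc ω ω' h
    have ht' := ht (u t) (hu t) (huv t)
    rw [← ht']
    simp only [ψ]
    rw [← Equiv.sum_comp (Equiv.subRight t)]
    refine sum_congr rfl fun s _ => ?_
    congr 1
    rw [← mul_smul]
    apply same hS
    intro v
    have hv : v = ![v 0, v 1] := by
      funext i
      fin_cases i <;> rfl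
    rw [mul_smul, hv, huv, huv', huv']
    simp only [Equiv.subRight_apply]
    congr 1
    ring
  have hψh : hs A B C ψ ![1, 0] k = (Fintype.card F : ℚ) * hs A B C w ![1, 0] k := by
    have e1 : ∀ s : F, hs A B C (fun i => w ((u s)⁻¹ • i)) ![1, 0] k = hs A B C w ![1, 0] k := by
      intro s
      have h3 := hs_trans hE hc (hu s) w ![1, 0] k
      have h4 : u s • (![1, 0] : Fin 2 → F) = ![1, 0] := by
        rw [huv, mul_zero, add_zero]
      rwa [h4] at h3
    have e2 : hs A B C ψ ![1, 0] k = ∑ s : F, hs A B C (fun i => w ((u s)⁻¹ • i)) ![1, 0] k := by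
      simp only [hs_eq]
      rw [sum_comm]
      refine sum_congr rfl fun ω _ => ?_
      by_cases h : bn A B C ![1, 0] ω = k
      · simp only [if_pos h, ψ]
      · simp only [if_neg h, sum_const_zero]
    rw [e2, sum_congr rfl fun s _ => e1 s, sum_const, card_univ, nsmul_eq_mul]
  have hψ0 : ∃ ω, ψ ω ≠ 0 := by
    by_contra hcon
    push Not at hcon
    have h3 : hs A B C ψ ![1, 0] k = 0 := by
      rw [hs_eq]
      exact sum_eq_zero fun ω _ => by rw [hcon]; simp
    rw [h3] at hψh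
    have h4 : (Fintype.card F : ℚ) ≠ 0 := by
      have : (0 : ℚ) < Fintype.card F := by exact_mod_cast (lt_trans zero_lt_one hq1)
      exact this.ne'
    exact (mul_ne_zero h4 hk) hψh.symm
  -- logarithms
  have hr : Nat.card Fˣ = Fintype.card F - 1 := by
    rw [Nat.card_eq_fintype_card, Fintype.card_units]
  have hfact : Fact (Nat.card Fˣ).Prime := ⟨by rw [hr]; exact hpr⟩
  let E : Multiplicative (ZMod (Nat.card Fˣ)) ≃* Fˣ := zmodCyclicMulEquiv inferInstance
  let lu : Ω → Fˣ := fun ω => Units.mk0 (bn A B C ![1, 0] ω) (bn_ne hE hc he1 ω)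
  let lg : Ω → ZMod (Nat.card Fˣ) := fun ω => Multiplicative.toAdd (E.symm (lu ω))
  have hlgE : ∀ ω, ((E (Multiplicative.ofAdd (lg ω)) : Fˣ) : F) = bn A B C ![1, 0] ω := by
    intro ω
    simp only [lg, ofAdd_toAdd, MulEquiv.apply_symm_apply]
    rfl
  have hlgc : ∀ ω ω', lg ω = lg ω' → bn A B C ![1, 0] ω = bn A B C ![1, 0] ω' := by
    intro ω ω' h
    rw [← hlgE, ← hlgE, h]
  obtain ⟨t, ht⟩ := FiniteField.isSquare_of_char_two hc
    ((E (Multiplicative.ofAdd (1 : ZMod (Nat.card Fˣ))) : Fˣ) : F)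
  have ht0 : t ≠ 0 := by
    rintro rfl
    rw [mul_zero] at ht
    exact Units.ne_zero _ ht
  obtain ⟨τ, hτ, hτ1⟩ := tor (Ω := Ω) hS t ht0
  have hτb : ∀ ω, bn A B C ![1, 0] (τ⁻¹ • ω) = t * t * bn A B C ![1, 0] ω := by
    intro ω
    rw [← isS_act' hE hc hτ, hτ1, bn_smul]
    ring
  have hτl : ∀ ω, lg (τ⁻¹ • ω) = lg ω + 1 := by
    intro ω
    have h3 : lu (τ⁻¹ • ω) = E (Multiplicative.ofAdd (1 : ZMod (Nat.card Fˣ))) * lu ω := by
      apply Units.ext
      rw [Units.val_mul, ht]
      exact hτb ω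
    simp only [lg]
    rw [h3, map_mul, MulEquiv.symm_apply_apply, toAdd_mul, toAdd_ofAdd, add_comm]
  let W' : Submodule ℚ (ZMod (Nat.card Fˣ) → ℚ) := W.comap (LinearMap.funLeft ℚ ℚ lg)
  have hW' : ∀ φ, φ ∈ W' ↔ (fun ω => φ (lg ω)) ∈ W := fun φ => Iff.rfl
  -- all fibres have the same size
  have hN : ∃ N : ℕ, 0 < N ∧ ∀ φ : ZMod (Nat.card Fˣ) → ℚ,
      ∑ ω, φ (lg ω) = (N : ℚ) * ∑ i, φ i := by
    let N : ZMod (Nat.card Fˣ) → ℕ := fun i => (univ.filter fun ω => lg ω = i).card
    have hN1 : ∀ i, N (i + 1) = N i := by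
      intro i
      symm
      refine Finset.card_bij (fun ω _ => τ⁻¹ • ω) ?_ ?_ ?_
      · intro ω hω
        simp only [mem_filter, mem_univ, true_and] at hω ⊢
        rw [hτl, hω]
      · intro ω _ ω' _ h
        exact smul_left_cancel _ h
      · intro ω hω
        simp only [mem_filter, mem_univ, true_and] at hω
        refine ⟨τ • ω, ?_, inv_smul_smul _ _⟩
        simp only [mem_filter, mem_univ, true_and]
        have h3 := hτl (τ • ω)
        rw [inv_smul_smul, hω] at h3
        exact (add_right_cancel h3).symm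
    have hN2 : ∀ n : ℕ, N (n : ZMod (Nat.card Fˣ)) = N 0 := by
      intro n
      induction n with
      | zero => rw [Nat.cast_zero]
      | succ n ih => rw [Nat.cast_succ, hN1, ih]
    have hN3 : ∀ i, N i = N 0 := by
      intro i
      have := hN2 i.val
      rwa [ZMod.natCast_zmod_val] at this
    obtain ⟨ω₀, _⟩ := hψ0
    refine ⟨N 0, ?_, fun φ => ?_⟩
    · rw [← hN3 (lg ω₀)]
      exact card_pos.2 ⟨ω₀, by simp⟩
    · rw [← sum_fiberwise univ lg (fun ω => φ (lg ω)), mul_sum]
      refine sum_congr rfl fun i _ => ?_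
      rw [sum_congr rfl (g := fun _ => φ i) (fun ω hω => by
        rw [(mem_filter.1 hω).2]), sum_const, nsmul_eq_mul, ← hN3 i]
  obtain ⟨N, hNpos, hNsum⟩ := hN
  have hall : ∀ φ : ZMod (Nat.card Fˣ) → ℚ, ∑ i, φ i = 0 → (fun ω => φ (lg ω)) ∈ W := by
    let φ₀ : ZMod (Nat.card Fˣ) → ℚ := fun i => if h : ∃ ω, lg ω = i then ψ h.choose else 0
    have hφ : ∀ ω, φ₀ (lg ω) = ψ ω := by
      intro ω
      have h : ∃ ω', lg ω' = lg ω := ⟨ω, rfl⟩
      simp only [φ₀]
      rw [dif_pos h]
      exact hψc _ _ (hlgc _ _ h.choose_spec)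
    have hφW : (fun ω => φ₀ (lg ω)) ∈ W := by
      rw [show (fun ω => φ₀ (lg ω)) = ψ from funext hφ]
      exact hψW
    refine hP (Nat.card Fˣ) W' ?_ ⟨φ₀, hφW, ?_, ?_⟩
    · intro φ hφ'
      have h3 := hWG τ _ hφ'
      have h4 : (fun ω => φ (lg ω + 1)) ∈ W := by
        have h5 : (fun i => (LinearMap.funLeft ℚ ℚ lg) φ (τ⁻¹ • i)) = fun ω => φ (lg ω + 1) := by
          funext ω
          rw [LinearMap.funLeft_apply, hτl]
        rwa [h5] at h3
      exact h4
    · obtain ⟨ω, hω⟩ := hψ0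
      intro h0
      apply hω
      rw [← hφ, h0]
      rfl
    · have h3 := hW0 _ hφW
      rw [hNsum] at h3
      have h4 : (N : ℚ) ≠ 0 := by exact_mod_cast hNpos.ne'
      exact (mul_eq_zero.1 h3).resolve_left h4
  -- the conclusion
  intro f hf
  have hterm : ∀ v : Fin 2 → F, (fun ω => hs A B C f v (bn A B C v ω)) ∈ W := by
    intro v
    by_cases hv : v = 0
    · have : (fun ω => hs A B C f v (bn A B C v ω)) = 0 := by
        funext ω
        rw [hv, hs_eq]
        have h3 : ∀ ω', (if bn A B C 0 ω' = bn A B C 0 ω then f ω' else 0) = f ω' := fun ω' => by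
          rw [bn_zero, bn_zero, if_pos rfl]
        rw [sum_congr rfl fun ω' _ => h3 ω']
        exact hf
      rw [this]
      exact W.zero_mem
    · obtain ⟨g, hg, hgv⟩ := isS_exists hS hv
      let φ : ZMod (Nat.card Fˣ) → ℚ := fun i =>
        hs A B C f v ((E (Multiplicative.ofAdd i) : Fˣ) : F)
      have hφ : ∑ i, φ i = 0 := by
        have e1 : ∑ i, φ i = ∑ x : Fˣ, hs A B C f v (x : F) :=
          Equiv.sum_comp (Multiplicative.ofAdd.trans E.toEquiv) (fun x : Fˣ => hs A B C f v (x : F))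
        rw [e1]
        simp only [hs_eq]
        rw [sum_comm]
        refine Eq.trans (sum_congr rfl fun ω _ => ?_) hf
        rw [sum_eq_single (Units.mk0 (bn A B C v ω) (bn_ne hE hc hv ω))]
        · rw [Units.val_mk0, if_pos rfl]
        · intro x _ hx
          rw [if_neg]
          intro h
          exact hx (Units.ext h.symm)
        · intro h
          exact absurd (mem_univ _) h
      have h3 := hWG g _ (hall φ hφ)
      have h4 : (fun ω => hs A B C f v (bn A B C v ω)) = fun i => φ (lg (g⁻¹ • i)) := by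
        funext ω
        simp only [φ]
        rw [hlgE, ← isS_act' hE hc hg, hgv]
      rw [h4]
      exact h3
  have hfin : f = (((Fintype.card F : ℚ) * ((Fintype.card F : ℚ) - 1))⁻¹) •
      ∑ v : Fin 2 → F, (fun ω => hs A B C f v (bn A B C v ω)) := by
    funext ω
    rw [Pi.smul_apply, Finset.sum_apply, inversion hE hc f hf, smul_eq_mul,
      inv_mul_cancel_left₀ hqq]
  rw [hfin]
  exact W.smul_mem _ (Submodule.sum_mem _ fun v _ => hterm v)

end SpreadPerm.PL.QIE54
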