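import Pool.Agent.Lib.MP_e6ed9e_al.PL.QDefs

/-! # Row QIP: the functions with sum zero on a cyclic group of prime order (helper54) -/

namespace SpreadPerm.PL.QIP54

open Finset Polynomial

variable {r : ℕ} [Fact r.Prime]

/-- the shift -/
def S (r : ℕ) : (ZMod r → ℚ) →ₗ[ℚ] (ZMod r → ℚ) := LinearMap.funLeft ℚ ℚ (fun i => i + 1)

theorem S_pow (n : ℕ) (w : ZMod r → ℚ) (i : ZMod r) : (S r ^ n) w i = w (i + n) := by
  induction n generalizing i with
  | zero => simp
  | succ n ih =>
    rw [pow_succ', Module.End.mul_apply]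
    show (S r ^ n) w (i + 1) = _
    rw [ih]
    congr 1
    push_cast
    ring

theorem S_card : S r ^ r = 1 := by
  apply LinearMap.ext
  intro w
  funext i
  rw [S_pow, CharP.cast_eq_zero, add_zero]
  rfl

theorem aeval_mem {W : Submodule ℚ (ZMod r → ℚ)} (hW : ∀ w ∈ W, (fun i => w (i + 1)) ∈ W)
    (p : ℚ[X]) {w : ZMod r → ℚ} (hw : w ∈ W) : aeval (S r) p w ∈ W := by
  have h1 : ∀ n : ℕ, (S r ^ n) w ∈ W := by
    intro n
    induction n with
    | zero => simpa using hw
    | succ n ih =>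
      rw [pow_succ', Module.End.mul_apply]
      exact hW _ ih
  rw [aeval_eq_sum_range, LinearMap.sum_apply]
  exact Submodule.sum_mem _ fun i _ => W.smul_mem _ (h1 i)

/-- the polynomial of a function -/
noncomputable def P (w : ZMod r → ℚ) : ℚ[X] := ∑ i : ZMod r, C (w (-i)) * X ^ i.val

theorem aeval_P (w : ZMod r → ℚ) : aeval (S r) (P w) (Pi.single 0 1) = w := by
  classical
  funext j
  rw [P, map_sum, LinearMap.sum_apply, Finset.sum_apply]
  rw [sum_eq_single (-j)]
  · rw [map_mul, aeval_C, map_pow, aeval_X, Module.End.mul_apply, Module.algebraMap_end_apply,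
      Pi.smul_apply, S_pow, ZMod.natCast_zmod_val, add_neg_cancel, Pi.single_eq_same, smul_eq_mul,
      mul_one, neg_neg]
  · intro i _ hi
    rw [map_mul, aeval_C, map_pow, aeval_X, Module.End.mul_apply, Module.algebraMap_end_apply,
      Pi.smul_apply, S_pow, ZMod.natCast_zmod_val, Pi.single_eq_of_ne, smul_zero]
    intro h
    apply hi
    linear_combination h
  · intro h
    exact absurd (mem_univ _) h

theorem eval_P (w : ZMod r → ℚ) : eval 1 (P w) = ∑ i, w i := by
  rw [P, eval_finsetSum]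
  rw [← Equiv.sum_comp (Equiv.neg (ZMod r)) w]
  refine sum_congr rfl fun i _ => ?_
  simp

theorem aeval_cyc : aeval (S r) (cyclotomic r ℚ * (X - 1)) = 0 := by
  rw [cyclotomic_prime_mul_X_sub_one, map_sub, map_pow, aeval_X, map_one, S_card, sub_self]



end SpreadPerm.PL.QIP54

namespace SpreadPerm.PL

open Finset Polynomial

theorem qip54 : StQIP := by
  intro r _ W hW ⟨w, hw, hw0, hws⟩ φ hφ
  have hr : r.Prime := Fact.out
  have hirr : Irreducible (cyclotomic r ℚ) := cyclotomic.irreducible_rat hr.pos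
  have hdvd : ∀ f : ZMod r → ℚ, ∑ i, f i = 0 → (X - 1 : ℚ[X]) ∣ QIP54.P f := by
    intro f hf
    have h1 := Polynomial.dvd_iff_isRoot (p := QIP54.P f) (a := 1)
    rw [map_one] at h1
    rw [h1, IsRoot.def, QIP54.eval_P]
    exact hf
  have hcop : IsCoprime (X - 1 : ℚ[X]) (cyclotomic r ℚ) := by
    have h1 : Irreducible (X - 1 : ℚ[X]) := by
      have := irreducible_X_sub_C (1 : ℚ)
      rwa [map_one] at this
    rw [h1.coprime_iff_not_dvd]
    intro h
    have h2 := Polynomial.dvd_iff_isRoot (p := cyclotomic r ℚ) (a := 1)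
    rw [map_one] at h2
    rw [h2, IsRoot.def, eval_one_cyclotomic_prime] at h
    exact hr.ne_zero (by exact_mod_cast h)
  have hc : IsCoprime (cyclotomic r ℚ) (QIP54.P w) := by
    rw [hirr.coprime_iff_not_dvd]
    intro h
    have h2 : (X - 1 : ℚ[X]) * cyclotomic r ℚ ∣ QIP54.P w := hcop.mul_dvd (hdvd w hws) h
    obtain ⟨t, ht⟩ := h2
    apply hw0
    rw [← QIP54.aeval_P w, ht, mul_comm (X - 1 : ℚ[X]), map_mul, QIP54.aeval_cyc, zero_mul]
    rfl
  obtain ⟨a, b, hab⟩ := hc
  obtain ⟨t, ht⟩ := hdvd φ hφ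
  have e : QIP54.P φ = (a * t) * (cyclotomic r ℚ * (X - 1)) + (b * QIP54.P φ) * QIP54.P w := by
    linear_combination (-(QIP54.P φ)) * hab + (a * cyclotomic r ℚ) * ht
  rw [← QIP54.aeval_P φ, e, map_add, map_mul, QIP54.aeval_cyc, mul_zero, zero_add, map_mul,
    Module.End.mul_apply, QIP54.aeval_P]
  exact QIP54.aeval_mem hW _ hw

end SpreadPerm.PL
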