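import Mathlib
import Pool.Agent.Lib.MP_e6ed9e_al.PL.Defs
import Pool.Agent.Lib.MP_e6ed9e_al.PL.Base47
import Pool.Agent.Lib.MP_e6ed9e_al.PL.Num97
import Pool.Agent.Lib.MP_e6ed9e_al.Index

/-! # Row INTR -/

namespace SpreadPerm.PL

open scoped LinearAlgebra.Projectivization MatrixGroups
open MulAction

noncomputable section

/-- The number of matrices of determinant 1. -/
theorem sl_card97 (F : Type) [Field F] [Fintype F] :
    Fintype.card F * (Fintype.card F ^ 2 - 1) ≤
      Nat.card (MonoidHom.ker (Matrix.GeneralLinearGroup.det (n := Fin 2) (R := F))) := by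
  classical
  set q := Fintype.card F with hq
  have hq2 : 2 ≤ q := Fintype.one_lt_card
  set D := Matrix.GeneralLinearGroup.det (n := Fin 2) (R := F) with hD
  have h1 : Nat.card D.ker * Nat.card D.range = Nat.card (GL (Fin 2) F) := by
    rw [← Subgroup.index_ker]
    exact Subgroup.card_mul_index _
  have h2 : Nat.card D.range ≤ q - 1 := by
    calc Nat.card D.range ≤ Nat.card Fˣ := Subgroup.card_le_card_group _
      _ = q - 1 := by rw [Nat.card_eq_fintype_card, Fintype.card_units]
  have h3 : Nat.card (GL (Fin 2) F) = (q ^ 2 - 1) * (q ^ 2 - q) := by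
    rw [Matrix.card_GL_field, Fin.prod_univ_two]
    simp [hq]
  have h4 : (q ^ 2 - 1) * (q ^ 2 - q) ≤ Nat.card D.ker * (q - 1) := by
    rw [← h3, ← h1]
    exact Nat.mul_le_mul_left _ h2
  have h5 : q ^ 2 - q = q * (q - 1) := by
    rw [Nat.mul_sub, mul_one, sq]
  rw [h5] at h4
  have h6 : (q * (q ^ 2 - 1)) * (q - 1) ≤ Nat.card D.ker * (q - 1) := by
    calc (q * (q ^ 2 - 1)) * (q - 1) = (q ^ 2 - 1) * (q * (q - 1)) := by ring
      _ ≤ _ := h4
  exact Nat.le_of_mul_le_mul_right h6 (by omega)

theorem scal97 {F K : Type} [Field F] [Field K] [Algebra F K] (g : GL (Fin 2) F)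
    (h : psi F K g = 1) : g.1 0 1 = 0 ∧ g.1 1 0 = 0 ∧ g.1 0 0 = g.1 1 1 := by
  have h1 : ∀ v : Fin 2 → F, v ≠ 0 → ∃ c : F, g.1.mulVec v = c • v := by
    intro v hv
    have h2 := psi_up (K := K) g (up_ne hv) (up_ne ((smul_ne_zero_iff_ne g).2 hv))
    rw [h] at h2
    obtain ⟨c, hc⟩ := mk_up_eq _ _ h2.symm
    exact ⟨c, hc⟩
  obtain ⟨a, ha⟩ := h1 ![1, 0] (fun h => one_ne_zero (congrFun h 0))
  obtain ⟨b, hb⟩ := h1 ![0, 1] (fun h => one_ne_zero (congrFun h 1))
  obtain ⟨c, hc⟩ := h1 ![1, 1] (fun h => one_ne_zero (congrFun h 1))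
  have ha1 := congrFun ha 1
  have hb0 := congrFun hb 0
  have hc0 := congrFun hc 0
  have hc1 := congrFun hc 1
  simp [Matrix.mulVec, dotProduct, Fin.sum_univ_two] at ha1 hb0 hc0 hc1
  refine ⟨hb0, ha1, ?_⟩
  rw [hb0, add_zero] at hc0
  rw [ha1, zero_add] at hc1
  rw [hc0, hc1]

/-- A matrix of determinant one with a given first column. -/
theorem trans97 {F : Type} [Field F] (v : Fin 2 → F) (hv : v ≠ 0) :
    ∃ g : GL (Fin 2) F, g.1.det = 1 ∧ g • (![1, 0] : Fin 2 → F) = v := by
  by_cases h0 : v 0 = 0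
  · have h1 : v 1 ≠ 0 := by
      intro h1
      apply hv
      funext i
      fin_cases i
      · exact h0
      · exact h1
    have hdet : (!![0, -(v 1)⁻¹; v 1, 0] : Matrix (Fin 2) (Fin 2) F).det = 1 := by
      rw [Matrix.det_fin_two_of]
      field_simp
      ring
    refine ⟨Matrix.GeneralLinearGroup.mkOfDetNeZero _ (by rw [hdet]; exact one_ne_zero), hdet, ?_⟩
    rw [gl_smul]
    funext i
    fin_cases i
    · simp [Matrix.GeneralLinearGroup.mkOfDetNeZero, Matrix.mulVec, dotProduct,
        Fin.sum_univ_two, h0]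
    · simp [Matrix.GeneralLinearGroup.mkOfDetNeZero, Matrix.mulVec, dotProduct,
        Fin.sum_univ_two]
  · have hdet : (!![v 0, 0; v 1, (v 0)⁻¹] : Matrix (Fin 2) (Fin 2) F).det = 1 := by
      rw [Matrix.det_fin_two_of]
      field_simp
      ring
    refine ⟨Matrix.GeneralLinearGroup.mkOfDetNeZero _ (by rw [hdet]; exact one_ne_zero), hdet, ?_⟩
    rw [gl_smul]
    funext i
    fin_cases i
    · simp [Matrix.GeneralLinearGroup.mkOfDetNeZero, Matrix.mulVec, dotProduct,
        Fin.sum_univ_two]
    · simp [Matrix.GeneralLinearGroup.mkOfDetNeZero, Matrix.mulVec, dotProduct,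
        Fin.sum_univ_two]

/-- Transitivity on the rational points. -/
theorem trans_rat97 {F K : Type} [Field F] [Field K] [Algebra F K] {x y : PX K}
    (hx : Rat F K x) (hy : Rat F K y) : ∃ g : GL (Fin 2) F, g.1.det = 1 ∧ psi F K g x = y := by
  obtain ⟨v, hv, h, rfl⟩ := hx
  obtain ⟨w, hw, h', rfl⟩ := hy
  obtain ⟨g, hg, hgv⟩ := trans97 v hv
  obtain ⟨k, hk, hkw⟩ := trans97 w hw
  have h1 : (k * g⁻¹) • v = w := by
    rw [mul_smul, ← hgv, inv_smul_smul, hkw]
  refine ⟨k * g⁻¹, ?_, ?_⟩
  · have h2 : Matrix.GeneralLinearGroup.det (k * g⁻¹) = 1 := by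
      have hk' : Matrix.GeneralLinearGroup.det k = 1 := Units.ext hk
      have hg' : Matrix.GeneralLinearGroup.det g = 1 := Units.ext hg
      rw [map_mul, map_inv, hk', hg', inv_one, mul_one]
    exact congrArg Units.val h2
  · have h2 : up F K ((k * g⁻¹) • v) ≠ 0 := up_ne ((smul_ne_zero_iff_ne _).2 hv)
    rw [psi_up _ h h2]
    congr 1
    rw [h1]

theorem intr97 : StIntr := by
  intro F K Ω _ _ _ _ _ _ Γ _ _ hL ω hq hs hxy
  classical
  obtain ⟨x, y, hx, hy, hno⟩ := hxy
  by_contra hsp
  have hG : Spreading Γ Ω := hsp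
  let P : Γ →* Equiv.Perm (PX K) := (psi F K).comp Γ.subtype
  let _ : MulAction Γ (PX K) := MulAction.compHom (PX K) P
  have hact : ∀ (g : Γ) (z : PX K), g • z = psi F K g.1 z := fun _ _ => rfl
  -- the index of the stabilizer of a rational point
  have hidx : (stabilizer Γ x).index ≤ Fintype.card F + 1 := by
    rw [index_stabilizer]
    have h1 : orbit Γ x ⊆ Set.range (rp F K) := by
      rintro _ ⟨g, rfl⟩
      exact (rat_iff _).1 (rat_psi hx)
    calc (orbit Γ x).ncard ≤ (Set.range (rp F K)).ncard :=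
          Set.ncard_le_ncard h1 (Set.finite_range _)
      _ ≤ (Set.univ : Set (Option F)).ncard := by
          rw [← Set.image_univ]
          exact Set.ncard_image_le (Set.finite_univ)
      _ = Fintype.card F + 1 := by
          rw [Set.ncard_univ, Nat.card_eq_fintype_card, Fintype.card_option]
  -- it is intransitive
  have hK : ¬ IsPretransitive (stabilizer Γ x) Ω := by
    intro hK
    obtain ⟨t, ht, htx⟩ := trans_rat97 (K := K) hx hy
    set t' : Γ := ⟨t, hL.sl t ht⟩ with ht'
    obtain ⟨k, hk⟩ := hK.exists_smul_eq (t'⁻¹ • ω) ω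
    have hk' : k.1 • t'⁻¹ • ω = ω := hk
    have h1 : (t' * k.1⁻¹) • ω = ω := by
      rw [mul_smul, inv_smul_eq_iff.2 hk'.symm, smul_inv_smul]
    have h2 : k.1 • x = x := k.2
    have h3 : (t' * k.1⁻¹) • x = y := by
      rw [mul_smul, inv_smul_eq_iff.2 h2.symm, hact]
      exact htx
    exact hno _ h1 h3
  have hb := index_bound hG (stabilizer Γ x) hK
  -- the bound for the degree
  set s := Nat.card (((stabilizer Γ ω).map Γ.subtype).map (psi F K)) with hsdef
  have hn : Fintype.card F * (Fintype.card F ^ 2 - 1) ≤ 2 * Fintype.card Ω * s := by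
    refine (sl_card97 F).trans ?_
    set D := Matrix.GeneralLinearGroup.det (n := Fin 2) (R := F) with hD
    have hle : D.ker ≤ Γ := by
      intro g hg
      exact hL.sl g (congrArg Units.val hg)
    set S : Subgroup Γ := D.ker.subgroupOf Γ with hS
    have hcS : Nat.card S = Nat.card D.ker :=
      Nat.card_congr (Subgroup.subgroupOfEquivOfLe hle).toEquiv
    rw [← hcS, ← Subgroup.card_mul_index (stabilizer S ω), index_stabilizer]
    have h1 : (orbit S ω).ncard ≤ Fintype.card Ω := by
      rw [← Nat.card_eq_fintype_card, ← Set.ncard_univ]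
      exact Set.ncard_le_ncard (Set.subset_univ _) (Set.toFinite _)
    let φ : stabilizer S ω →* Equiv.Perm (PX K) := P.comp (S.subtype.comp (stabilizer S ω).subtype)
    have h2 : Nat.card (stabilizer S ω) ≤ 2 * s := by
      have h3 : Nat.card φ.ker * Nat.card φ.range = Nat.card (stabilizer S ω) := by
        rw [← Subgroup.index_ker]
        exact Subgroup.card_mul_index _
      rw [← h3]
      refine Nat.mul_le_mul ?_ ?_
      · -- the kernel
        have hinj : Function.Injective
            (fun g : φ.ker => decide (g.1.1.1.1.1 0 0 = (1 : F))) := by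
          have key : ∀ g : φ.ker, g.1.1.1.1.1 0 1 = (0 : F) ∧ g.1.1.1.1.1 1 0 = (0 : F) ∧
              g.1.1.1.1.1 0 0 = g.1.1.1.1.1 1 1 ∧
              (g.1.1.1.1.1 0 0 = (1 : F) ∨ g.1.1.1.1.1 0 0 = (-1 : F)) := by
            intro g
            have h4 : psi F K g.1.1.1.1 = 1 := g.2
            obtain ⟨h5, h6, h7⟩ := scal97 _ h4
            have h8 : (g.1.1.1.1.1 : Matrix (Fin 2) (Fin 2) F).det = 1 :=
              congrArg Units.val (Subgroup.mem_subgroupOf.1 g.1.1.2)
            refine ⟨h5, h6, h7, ?_⟩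
            rw [Matrix.det_fin_two, h5, zero_mul, sub_zero, ← h7] at h8
            exact mul_self_eq_one_iff.1 h8
          intro g g' hgg
          obtain ⟨a1, a2, a3, a4⟩ := key g
          obtain ⟨b1, b2, b3, b4⟩ := key g'
          have hgg' : (g.1.1.1.1.1 0 0 = (1 : F)) ↔ (g'.1.1.1.1.1 0 0 = (1 : F)) := by
            simpa using hgg
          have h00 : g.1.1.1.1.1 0 0 = g'.1.1.1.1.1 0 0 := by
            by_cases h9 : g.1.1.1.1.1 0 0 = (1 : F)
            · rw [h9, hgg'.1 h9]
            · rw [a4.resolve_left h9, b4.resolve_left (fun h => h9 (hgg'.2 h))]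
          apply Subtype.ext
          apply Subtype.ext
          apply Subtype.ext
          apply Subtype.ext
          apply Units.ext
          ext i j
          fin_cases i <;> fin_cases j
          · exact h00
          · exact a1.trans b1.symm
          · exact a2.trans b2.symm
          · exact a3.symm.trans (h00.trans b3)
        have h4 := Nat.card_le_card_of_injective _ hinj
        rw [Nat.card_eq_fintype_card (α := Bool), Fintype.card_bool] at h4
        exact h4
      · -- the range
        have h4 : φ.range ≤ ((stabilizer Γ ω).map Γ.subtype).map (psi F K) := by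
          rintro _ ⟨g, rfl⟩
          refine ⟨g.1.1.1, ⟨g.1.1, ?_, rfl⟩, rfl⟩
          exact g.2
        have h5 : ((((stabilizer Γ ω).map Γ.subtype).map (psi F K) :
            Subgroup (Equiv.Perm (PX K))) : Set (Equiv.Perm (PX K))).Finite :=
          Set.Finite.image (psi F K) (Set.toFinite _)
        have h6 : Finite (((stabilizer Γ ω).map Γ.subtype).map (psi F K)) := h5.to_subtype
        exact Nat.card_le_card_of_injective _ (Subgroup.inclusion_injective h4)
    calc Nat.card (stabilizer S ω) * (orbit S ω).ncard ≤ (2 * s) * Fintype.card Ω :=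
          Nat.mul_le_mul h2 h1
      _ = 2 * Fintype.card Ω * s := by ring
  have h3 := num97 _ _ _ hq hn hs
  have hn0 : 0 < Fintype.card Ω := Fintype.card_pos_iff.2 ⟨ω⟩
  have h4 : Fintype.card Ω ^ (stabilizer Γ x).index ≤ Fintype.card Ω ^ (Fintype.card F + 1) :=
    Nat.pow_le_pow_right hn0 hidx
  omega

end

end SpreadPerm.PL
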