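import Pool.Agent.Lib.MP_e6ed9e_al.PL.Semi30
import Pool.Agent.Lib.MP_e6ed9e_al.PL.Base47
import Pool.Agent.Lib.MP_e6ed9e_al.PL.Borel30
import Pool.Agent.Lib.MP_e6ed9e_al.PL.Intr97

/-!
# Rows SNORM, SCOUNT, SBOREL
-/

namespace SpreadPerm.PL

open scoped LinearAlgebra.Projectivization MatrixGroups
open MulAction

/-- A group element that acts linearly is given by a matrix. -/
theorem exists_gl30 {F G : Type} [Field F] [Group G] [DistribMulAction G (Fin 2 → F)] (k : G)
    (hk : ∀ (c : F) (v : Fin 2 → F), k • (c • v) = c • (k • v)) :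
    ∃ m : GL (Fin 2) F, ∀ v : Fin 2 → F, k • v = m • v := by
  classical
  let L : (Fin 2 → F) →ₗ[F] (Fin 2 → F) :=
    { toFun := fun v => k • v
      map_add' := fun v w => smul_add k v w
      map_smul' := hk }
  have h1 : ∀ v, (LinearMap.toMatrix' L).mulVec v = k • v := fun v => by
    rw [← Matrix.toLin'_apply, Matrix.toLin'_toMatrix']
    rfl
  have h2 : (LinearMap.toMatrix' L).det ≠ 0 := by
    intro h
    obtain ⟨v, hv, hv0⟩ := Matrix.exists_mulVec_eq_zero_iff.2 h
    rw [h1] at hv0
    exact hv ((smul_eq_zero_iff_eq k).1 hv0)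
  refine ⟨Matrix.GeneralLinearGroup.mkOfDetNeZero _ h2, fun v => ?_⟩
  rw [glsm30]
  exact (h1 v).symm

theorem conj_semi30 {F G Ω : Type} [Field F] [Group G] [DistribMulAction G (Fin 2 → F)]
    [MulAction G Ω] (hL : SAct F G Ω) (g h : G)
    (hh : ∀ (c : F) (v : Fin 2 → F), h • (c • v) = c • (h • v)) :
    ∀ (c : F) (v : Fin 2 → F), (g * h * g⁻¹) • (c • v) = c • ((g * h * g⁻¹) • v) := by
  intro c v
  obtain ⟨σ, hσ⟩ := hL.semi g
  have e1 : g⁻¹ • (c • v) = σ.symm c • (g⁻¹ • v) := by
    rw [inv_smul_eq_iff, hσ, smul_inv_smul, RingEquiv.apply_symm_apply]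
  rw [mul_smul, mul_smul, e1, hh, hσ, RingEquiv.apply_symm_apply, mul_smul, mul_smul]

theorem snorm30 : StSNorm := by
  intro F G Ω _ _ _ _ _ hL ω g hg m ⟨h, hh, hm⟩
  have hlin : ∀ (c : F) (v : Fin 2 → F), h • (c • v) = c • (h • v) := by
    intro c v
    rw [hm, hm, glsm30, glsm30, Matrix.mulVec_smul]
  obtain ⟨m', hm'⟩ := exists_gl30 _ (conj_semi30 hL g h hlin)
  refine ⟨m', ⟨g * h * g⁻¹, ?_, hm'⟩, fun v => ?_⟩
  · rw [mul_smul, mul_smul, inv_smul_eq_iff.2 hg.symm, hh, hg]
  · rw [← hm' (g • v), mul_smul, mul_smul, inv_smul_smul, hm]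

/-- The determinant-one matrices whose image under `psi` is the identity: at most two. -/
theorem scount30 : StSCount := by
  classical
  intro F K G Ω _ _ _ _ _ _ _ _ _ _ hL ω _
  set S := LS F G ω with hS
  set D := Matrix.GeneralLinearGroup.det (n := Fin 2) (R := F) with hD
  refine (sl_card97 F).trans ?_
  -- the fibres of the orbit map on `SL(2,F)`
  have hsl : ∀ m : D.ker, ∃ g : G, ∀ v : Fin 2 → F, g • v = m.1 • v :=
    fun m => hL.sl m.1 (congrArg Units.val m.2)
  choose γ hγ using hsl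
  have key : ∀ m m' : D.ker, γ m • ω = γ m' • ω → (m'⁻¹ * m).1 ∈ S := by
    intro m m' hmm
    refine ⟨(γ m')⁻¹ * γ m, ?_, fun v => ?_⟩
    · rw [mul_smul, hmm, inv_smul_smul]
    · rw [mul_smul, inv_smul_eq_iff, hγ m, hγ m', smul_smul]
      congr 1
      show m.1 = m'.1 * (m'⁻¹ * m).1
      simp
  -- the number of matrices of determinant one in `S`
  let T : Subgroup D.ker := S.subgroupOf D.ker
  have h2 : Nat.card T ≤ 2 * Nat.card (S.map (psi F K)) := by
    let φ : T →* Equiv.Perm (PX K) := (psi F K).comp (D.ker.subtype.comp T.subtype)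
    have h3 : Nat.card φ.ker * Nat.card φ.range = Nat.card T := by
      rw [← Subgroup.index_ker]
      exact Subgroup.card_mul_index _
    rw [← h3]
    refine Nat.mul_le_mul ?_ ?_
    · have hkey : ∀ g : φ.ker, g.1.1.1.1 0 1 = (0 : F) ∧ g.1.1.1.1 1 0 = (0 : F) ∧
          g.1.1.1.1 0 0 = g.1.1.1.1 1 1 ∧
          (g.1.1.1.1 0 0 = (1 : F) ∨ g.1.1.1.1 0 0 = (-1 : F)) := by
        intro g
        have h4 : psi F K g.1.1.1 = 1 := g.2
        obtain ⟨h5, h6, h7⟩ := scal97 _ h4
        have h8 : (g.1.1.1.1 : Matrix (Fin 2) (Fin 2) F).det = 1 :=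
          congrArg Units.val g.1.1.2
        refine ⟨h5, h6, h7, ?_⟩
        rw [Matrix.det_fin_two, h5, zero_mul, sub_zero, ← h7] at h8
        exact mul_self_eq_one_iff.1 h8
      have hinj : Function.Injective (fun g : φ.ker => decide (g.1.1.1.1 0 0 = (1 : F))) := by
        intro g g' hgg
        obtain ⟨a1, a2, a3, a4⟩ := hkey g
        obtain ⟨b1, b2, b3, b4⟩ := hkey g'
        have hgg' : (g.1.1.1.1 0 0 = (1 : F)) ↔ (g'.1.1.1.1 0 0 = (1 : F)) := by
          simpa using hgg
        have h00 : g.1.1.1.1 0 0 = g'.1.1.1.1 0 0 := by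
          by_cases h9 : g.1.1.1.1 0 0 = (1 : F)
          · rw [h9, hgg'.1 h9]
          · rw [a4.resolve_left h9, b4.resolve_left (fun h => h9 (hgg'.2 h))]
        apply Subtype.ext
        apply Subtype.ext
        apply Subtype.ext
        apply Units.ext
        ext i j
        fin_cases i <;> fin_cases j
        · exact h00
        · exact a1.trans b1.symm
        · exact a2.trans b2.symm
        · exact a3.symm.trans (h00.trans b3)
      have h4 := Nat.card_le_card_of_injective _ hinj
      rw [Nat.card_eq_fintype_card (α := Bool), Fintype.card_bool] at h4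
      exact h4
    · have h4 : φ.range ≤ S.map (psi F K) := by
        rintro _ ⟨g, rfl⟩
        exact ⟨g.1.1, g.2, rfl⟩
      have h5 : (((S.map (psi F K)) : Subgroup (Equiv.Perm (PX K))) :
          Set (Equiv.Perm (PX K))).Finite := Set.Finite.image (psi F K) (Set.toFinite _)
      have h6 : Finite (S.map (psi F K)) := h5.to_subtype
      exact Nat.card_le_card_of_injective _ (Subgroup.inclusion_injective h4)
  -- count
  have h3 : Nat.card D.ker ≤ Fintype.card Ω * Nat.card T := by
    have e1 : Nat.card D.ker = ∑ w : Ω, Nat.card {m : D.ker // γ m • ω = w} := by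
      rw [Nat.card_eq_fintype_card]
      have := Fintype.card_congr (Equiv.sigmaFiberEquiv (fun m : D.ker => γ m • ω))
      rw [← this, Fintype.card_sigma]
      refine Finset.sum_congr rfl fun w _ => ?_
      rw [Nat.card_eq_fintype_card]
    rw [e1]
    calc ∑ w : Ω, Nat.card {m : D.ker // γ m • ω = w} ≤ ∑ _w : Ω, Nat.card T := by
          refine Finset.sum_le_sum fun w _ => ?_
          by_cases hne : Nonempty {m : D.ker // γ m • ω = w}
          · obtain ⟨m0⟩ := hne
            refine Nat.card_le_card_of_injective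
              (fun m : {m : D.ker // γ m • ω = w} =>
                (⟨m0.1⁻¹ * m.1, key m.1 m0.1 (m.2.trans m0.2.symm)⟩ : T)) ?_
            intro m m' hmm
            have h7 : m0.1⁻¹ * m.1 = m0.1⁻¹ * m'.1 := congrArg Subtype.val hmm
            exact Subtype.ext (mul_left_cancel h7)
          · have : IsEmpty {m : D.ker // γ m • ω = w} := not_nonempty_iff.1 hne
            simp
      _ = Fintype.card Ω * Nat.card T := by simp
  calc Nat.card D.ker ≤ Fintype.card Ω * Nat.card T := h3
    _ ≤ Fintype.card Ω * (2 * Nat.card (S.map (psi F K))) := Nat.mul_le_mul_left _ h2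
    _ = 2 * Fintype.card Ω * Nat.card (S.map (psi F K)) := by ring

theorem sbase_ne30 {F G : Type} [Field F] [Group G] [DistribMulAction G (Fin 2 → F)] (g : G)
    {v : Fin 2 → F} (hv : v ≠ 0) : g • v ≠ 0 := by
  intro h
  exact hv ((smul_eq_zero_iff_eq g).1 h)

theorem sborel30 : StSBorel := by
  classical
  intro F G Ω _ _ _ _ _ _ _ hL ω hco ⟨v, hv, hstab⟩
  have hsc : ∀ (g : G) (c : F) (w u : Fin 2 → F), w = c • u → ∃ d : F, g • w = d • (g • u) := by
    intro g c w u hw
    obtain ⟨σ, hσ⟩ := hL.semi g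
    exact ⟨σ c, by rw [hw, hσ]⟩
  -- the stabilizer of the line
  have hsub : ∀ g : G, (∃ c : F, g • v = c • v) → g • ω = ω := by
    let M : Subgroup G :=
      { carrier := {g | ∃ c : F, g • v = c • v}
        one_mem' := ⟨1, by rw [one_smul, one_smul]⟩
        mul_mem' := by
          rintro g h ⟨c, hc⟩ ⟨d, hd⟩
          obtain ⟨e, he⟩ := hsc g d _ _ hd
          exact ⟨e * c, by rw [mul_smul, he, hc, smul_smul]⟩
        inv_mem' := by
          rintro g ⟨c, hc⟩
          have hc0 : c ≠ 0 := by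
            rintro rfl
            rw [zero_smul] at hc
            exact sbase_ne30 g hv hc
          obtain ⟨e, he⟩ := hsc g⁻¹ c⁻¹ v (g • v) (by rw [hc, smul_smul, inv_mul_cancel₀ hc0,
            one_smul])
          exact ⟨e, by rw [he, inv_smul_smul]⟩ }
    have hle : stabilizer G ω ≤ M := fun g hg => hstab g hg
    have hM : M ≠ ⊤ := by
      intro htop
      obtain ⟨w, hw⟩ : ∃ w : Fin 2 → F, dt30 v w ≠ 0 := by
        by_contra hcon
        push Not at hcon
        have e1 := hcon ![0, 1]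
        have e2 := hcon ![1, 0]
        simp [dt30] at e1 e2
        apply hv
        ext i
        fin_cases i
        · exact e1
        · exact e2
      have hw' : dt30 w v ≠ 0 := by
        intro h
        apply hw
        simp only [dt30] at h ⊢
        linear_combination -h
      obtain ⟨m, l, hm, hl, h1, h2⟩ := exists_sl30 v w w v hw hw'
      obtain ⟨g, hg⟩ := hL.sl m hm
      have h3 : g ∈ M := by
        rw [htop]
        exact Subgroup.mem_top _
      obtain ⟨c, hc⟩ := h3
      rw [hg, h1] at hc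
      apply hw
      rw [hc]
      simp only [dt30, Pi.smul_apply, smul_eq_mul]
      ring
    have hEq : stabilizer G ω = M := by
      rcases hco.le_iff.1 hle with h | h
      · exact absurd h hM
      · exact h.symm
    intro g hg
    have : g ∈ stabilizer G ω := by
      rw [hEq]
      exact hg
    exact this
  rw [is_two_pretransitive_iff]
  intro a b c d hab hcd
  obtain ⟨g₁, rfl⟩ := exists_smul_eq G ω a
  obtain ⟨g₂, rfl⟩ := exists_smul_eq G ω b
  obtain ⟨g₃, rfl⟩ := exists_smul_eq G ω c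
  obtain ⟨g₄, rfl⟩ := exists_smul_eq G ω d
  have key : ∀ g h : G, (∃ c : F, g • v = c • (h • v)) → g • ω = h • ω := by
    rintro g h ⟨c, hc⟩
    obtain ⟨e, he⟩ := hsc h⁻¹ c _ _ hc
    have h1 := hsub (h⁻¹ * g) ⟨e, by rw [mul_smul, he, inv_smul_smul]⟩
    rw [mul_smul, inv_smul_eq_iff] at h1
    exact h1
  have ind : ∀ g h : G, g • ω ≠ h • ω → dt30 (g • v) (h • v) ≠ 0 := by
    intro g h hgh h0
    exact hgh (key g h (dt30_zero (sbase_ne30 h hv) h0))
  obtain ⟨m, l, hm, hl, e1, e2⟩ := exists_sl30 _ _ _ _ (ind g₁ g₂ hab) (ind g₃ g₄ hcd)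
  obtain ⟨g, hg⟩ := hL.sl m hm
  refine ⟨g, ?_, ?_⟩
  · rw [smul_smul]
    apply key
    refine ⟨1, ?_⟩
    rw [mul_smul, one_smul, hg]
    exact e1
  · rw [smul_smul]
    apply key
    refine ⟨l, ?_⟩
    rw [mul_smul, hg]
    exact e2

end SpreadPerm.PL
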