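import Pool.Agent.Lib.MP_e6ed9e_al.PL.Semi30
import Pool.Agent.Lib.MP_e6ed9e_al.PL.Con54

/-! # Row SCON: the explicit vector for the semilinear groups, `q = 3` modulo `4` (helper54) -/

set_option linter.unusedSectionVars false

namespace SpreadPerm.PL

open MulAction Rad54
open scoped MatrixGroups

/-- The labelled set is a model of the symmetric matrices of determinant one up to sign. -/
theorem model54 {F Ω : Type} [Field F] [Fintype F] [DecidableEq F] [Fintype Ω] {A B C : Ω → F}
    (haniso : ∀ (ω : Ω) (v : Fin 2 → F), v ≠ 0 → bq (A ω) (B ω) (C ω) v ≠ 0)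
    (hinj : ∀ ω ω' : Ω, ∀ l : F, A ω' = l * A ω → B ω' = l * B ω → C ω' = l * C ω → ω' = ω)
    (hsurj : ∀ a b c : F, (∀ v : Fin 2 → F, v ≠ 0 → bq a b c v ≠ 0) →
      ∃ (ω : Ω) (l : F), l ≠ 0 ∧ A ω = l * a ∧ B ω = l * b ∧ C ω = l * c)
    (h4 : Fintype.card F % 4 = 3) :
    ∃ (π : Sym1 F → Ω) (l : Sym1 F → F), (∀ S, l S ≠ 0) ∧ (∀ S, A (π S) = l S * S.1.1) ∧
      (∀ S, B (π S) = l S * (2 * S.1.2.1)) ∧ (∀ S, C (π S) = l S * S.1.2.2) ∧
      Function.Surjective π ∧ ∀ S T, π S = π T ↔ T = S ∨ T = ng S := by
  have h : ¬ IsSquare (-1 : F) := by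
    rw [FiniteField.isSquare_neg_one_iff]
    simpa using h4
  have h2' : (2 : F) ≠ 0 := Ring.two_ne_zero (char_ne_two h)
  have hsj : ∀ S : Sym1 F, ∃ (ω : Ω) (l : F), l ≠ 0 ∧ A ω = l * S.1.1 ∧ B ω = l * (2 * S.1.2.1) ∧
      C ω = l * S.1.2.2 := fun S => hsurj _ _ _ (aniso_sym h S)
  choose π l hl0 hlA hlB hlC using hsj
  have hπ : ∀ S T, π S = π T ↔ T = S ∨ T = ng S := by
    intro S T
    constructor
    · intro e
      have e1 : l S * S.1.1 = l T * T.1.1 := by rw [← hlA, ← hlA, e]
      have e2 : l S * S.1.2.1 = l T * T.1.2.1 := by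
        have : l S * (2 * S.1.2.1) = l T * (2 * T.1.2.1) := by rw [← hlB, ← hlB, e]
        apply mul_left_cancel₀ h2'
        linear_combination this
      have e3 : l S * S.1.2.2 = l T * T.1.2.2 := by rw [← hlC, ← hlC, e]
      have e4 : (l S) ^ 2 = (l T) ^ 2 := by
        have hS := S.2
        have hT := T.2
        linear_combination (l S * S.1.2.2) * e1 + (l T * T.1.1) * e3 -
          (l S * S.1.2.1 + l T * T.1.2.1) * e2 - (l S) ^ 2 * hS + (l T) ^ 2 * hT
      rcases sq_eq_sq_iff_eq_or_eq_neg.1 e4 with e5 | e5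
      · left
        rw [e5] at e1 e2 e3
        apply Subtype.ext
        refine Prod.ext ?_ (Prod.ext ?_ ?_)
        · exact (mul_left_cancel₀ (hl0 T) e1).symm
        · exact (mul_left_cancel₀ (hl0 T) e2).symm
        · exact (mul_left_cancel₀ (hl0 T) e3).symm
      · right
        rw [e5] at e1 e2 e3
        apply Subtype.ext
        refine Prod.ext ?_ (Prod.ext ?_ ?_)
        · apply mul_left_cancel₀ (hl0 T)
          simp only [ng]
          linear_combination -e1
        · apply mul_left_cancel₀ (hl0 T)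
          simp only [ng]
          linear_combination -e2
        · apply mul_left_cancel₀ (hl0 T)
          simp only [ng]
          linear_combination -e3
    · have aux : ∀ S T : Sym1 F, ∀ m : F, S.1.1 = m * T.1.1 → S.1.2.1 = m * T.1.2.1 →
          S.1.2.2 = m * T.1.2.2 → π S = π T := by
        intro S T m m1 m2 m3
        apply hinj (π T) (π S) (l S * m / l T)
        · rw [hlA, hlA, m1]
          field_simp [hl0 T]
        · rw [hlB, hlB, m2]
          field_simp [hl0 T]
        · rw [hlC, hlC, m3]
          field_simp [hl0 T]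
      rintro (e | e)
      · rw [e]
      · symm
        apply aux T S (-1)
        · rw [e]; simp only [ng]; ring
        · rw [e]; simp only [ng]; ring
        · rw [e]; simp only [ng]; ring
  have hs : Function.Surjective π := by
    intro ω
    have hA0 : A ω ≠ 0 := by
      have := haniso ω ![1, 0] (by
        intro h0
        have := congrFun h0 0
        simp at this)
      simpa [bq] using this
    have hns : ¬ IsSquare (-(A ω * C ω - (B ω / 2) ^ 2)) := by
      rintro ⟨e, he⟩
      apply haniso ω ![-(B ω) / 2 + e, A ω]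
      · intro h0
        have := congrFun h0 1
        simp at this
        exact hA0 this
      · simp only [bq, Matrix.cons_val_zero, Matrix.cons_val_one]
        field_simp
        field_simp at he
        linear_combination (-(A ω)) * he
    have hsq : IsSquare (A ω * C ω - (B ω / 2) ^ 2) := by
      have hne : (A ω * C ω - (B ω / 2) ^ 2) ≠ 0 := by
        intro h0
        apply hns
        rw [h0]
        exact ⟨0, by simp⟩
      rw [← quadraticChar_one_iff_isSquare hne]
      have e1 : quadraticChar F (-(A ω * C ω - (B ω / 2) ^ 2)) = -1 := by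
        rcases quadraticChar_dichotomy (neg_ne_zero.2 hne) with h1 | h1
        · exact absurd ((quadraticChar_one_iff_isSquare (neg_ne_zero.2 hne)).1 h1) hns
        · exact h1
      have e2 : A ω * C ω - (B ω / 2) ^ 2 = (-1) * (-(A ω * C ω - (B ω / 2) ^ 2)) := by ring
      rw [e2, map_mul, e1, chi_neg_one h]
      norm_num
    obtain ⟨e, he⟩ := hsq
    have he0 : e ≠ 0 := by
      rintro rfl
      apply hns
      rw [he]
      exact ⟨0, by simp⟩
    refine ⟨⟨(A ω / e, B ω / 2 / e, C ω / e), ?_⟩, ?_⟩
    · simp only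
      rw [div_mul_div_comm, div_pow, ← pow_two, ← sub_div, div_eq_iff (pow_ne_zero 2 he0), he]
      ring
    · apply hinj ω _ (l ⟨(A ω / e, B ω / 2 / e, C ω / e), _⟩ / e)
      · rw [hlA]
        simp only
        ring
      · rw [hlB]
        simp only
        field_simp
      · rw [hlC]
        simp only
        ring
  exact ⟨π, l, hl0, hlA, hlB, hlC, hs, hπ⟩

theorem vec_split54 {F : Type} [Field F] (v : Fin 2 → F) :
    v = v 0 • (![1, 0] : Fin 2 → F) + v 1 • (![0, 1] : Fin 2 → F) := by
  funext i
  fin_cases i <;> simp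

theorem scon54 : StSCon := by
  intro F G Ω _ _ _ _ _ _ A B C hE h4 hq
  classical
  have h : ¬ IsSquare (-1 : F) := by
    rw [FiniteField.isSquare_neg_one_iff]
    simpa using h4
  have h2' : (2 : F) ≠ 0 := Ring.two_ne_zero (char_ne_two h)
  obtain ⟨π, l, hl0, hlA, hlB, hlC, hs, hπ⟩ := model54 hE.aniso hE.inj hE.surj h4
  refine nonSpreading_of_model h hq π hs hπ G ?_
  intro g
  obtain ⟨σ, hσ, hact⟩ := hE.semi g
  set x : F := (g • (![1, 0] : Fin 2 → F)) 0 with hx
  set y : F := (g • (![1, 0] : Fin 2 → F)) 1 with hy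
  set z : F := (g • (![0, 1] : Fin 2 → F)) 0 with hz
  set w : F := (g • (![0, 1] : Fin 2 → F)) 1 with hw
  have hg : ∀ a b : F, g • (![a, b] : Fin 2 → F) = ![σ a * x + σ b * z, σ a * y + σ b * w] := by
    intro a b
    have e := vec_split54 (![a, b] : Fin 2 → F)
    simp only [Matrix.cons_val_zero, Matrix.cons_val_one] at e
    rw [e, smul_add, hσ, hσ]
    funext i
    fin_cases i
    · simp [hx, hz]
    · simp [hy, hw]
  -- the key relation
  have main : ∀ S T : Sym1 F, π T = g • π S → ∃ lam : F, ev T x y = lam * σ S.1.1 ∧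
      lam ^ 2 = (x * w - z * y) ^ 2 ∧ lam ≠ 0 := by
    intro S T hST
    obtain ⟨m, hm0, hm⟩ := hact (π S)
    rw [← hST] at hm
    have key : ∀ a b : F, bq T.1.1 (2 * T.1.2.1) T.1.2.2
        ![σ a * x + σ b * z, σ a * y + σ b * w] =
        (m * σ (l S) / l T) * σ (bq S.1.1 (2 * S.1.2.1) S.1.2.2 ![a, b]) := by
      intro a b
      have h1 := hm ![a, b]
      rw [hg] at h1
      rw [hlA, hlB, hlC, hlA, hlB, hlC] at h1
      simp only [bq, Matrix.cons_val_zero, Matrix.cons_val_one, map_add, map_mul, map_pow] at h1 ⊢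
      field_simp [hl0 T]
      linear_combination h1
    have k1 := key 1 0
    have k2 := key 0 1
    have k3 := key 1 1
    simp only [bq, Matrix.cons_val_zero, Matrix.cons_val_one, map_one, map_zero, one_mul, zero_mul,
      add_zero, zero_add, one_pow, mul_one, mul_zero, map_add, map_mul, map_pow] at k1 k2 k3
    set lam := m * σ (l S) / l T with hlam
    have hS : σ S.1.1 * σ S.1.2.2 - σ S.1.2.1 ^ 2 = 1 := by
      have := congrArg σ S.2
      simpa only [map_sub, map_mul, map_pow, map_one] using this
    have hT := T.2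
    have p11 : T.1.1 * x ^ 2 + 2 * T.1.2.1 * (x * y) + T.1.2.2 * y ^ 2 = lam * σ S.1.1 := by
      linear_combination k1
    have p22 : T.1.1 * z ^ 2 + 2 * T.1.2.1 * (z * w) + T.1.2.2 * w ^ 2 = lam * σ S.1.2.2 := by
      linear_combination k2
    have p12 : T.1.1 * (x * z) + T.1.2.1 * (x * w + z * y) + T.1.2.2 * (y * w) =
        lam * σ S.1.2.1 := by
      apply mul_left_cancel₀ h2'
      have h2s : σ 2 = 2 := map_ofNat σ 2
      rw [h2s] at k3
      linear_combination k3 - k1 - k2
    refine ⟨lam, ?_, ?_, ?_⟩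
    · simp only [ev]
      linear_combination p11
    · have e1 : (x * w - z * y) ^ 2 * (T.1.1 * T.1.2.2 - T.1.2.1 ^ 2) =
          lam ^ 2 * (σ S.1.1 * σ S.1.2.2 - σ S.1.2.1 ^ 2) := by
        have : lam ^ 2 * (σ S.1.1 * σ S.1.2.2 - σ S.1.2.1 ^ 2) =
            (lam * σ S.1.1) * (lam * σ S.1.2.2) - (lam * σ S.1.2.1) ^ 2 := by ring
        rw [this, ← p11, ← p22, ← p12]
        ring
      rw [hS, hT, mul_one, mul_one] at e1
      exact e1.symm
    · rw [hlam]
      have : σ (l S) ≠ 0 := by
        rw [Ne, map_eq_zero_iff σ σ.injective]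
        exact hl0 S
      exact div_ne_zero (mul_ne_zero hm0 this) (hl0 T)
  -- a pair of points related by `g`
  have hd : x * w - z * y ≠ 0 := by
    obtain ⟨T, hT⟩ := hs (g • π one)
    obtain ⟨lam, _, h1, h3⟩ := main one T hT
    intro h0
    rw [h0] at h1
    apply h3
    exact pow_eq_zero_iff (two_ne_zero) |>.1 (by rw [h1]; ring)
  refine ⟨x, y, x * w - z * y, ?_, hd, ?_⟩
  · by_contra hc
    push Not at hc
    apply hd
    rw [hc.1, hc.2]
    ring
  · intro S T hST
    obtain ⟨lam, hev, hl2, _⟩ := main S T hST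
    have s1 : σ S.1.1 = 1 ↔ S.1.1 = 1 := map_eq_one_iff σ σ.injective
    have s2 : σ S.1.1 = -1 ↔ S.1.1 = -1 := by
      constructor
      · intro h1
        apply σ.injective
        rw [h1, map_neg, map_one]
      · intro h1
        rw [h1, map_neg, map_one]
    rw [hev, ← s1, ← s2]
    rcases sq_eq_sq_iff_eq_or_eq_neg.1 hl2 with e | e
    · rw [e]
      constructor
      · rintro (h1 | h1)
        · left; rw [h1, mul_one]
        · right; rw [h1, mul_neg, mul_one]
      · rintro (h1 | h1)
        · left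
          exact mul_left_cancel₀ hd (by rw [h1, mul_one])
        · right
          exact mul_left_cancel₀ hd (by rw [h1, mul_neg, mul_one])
    · rw [e]
      constructor
      · rintro (h1 | h1)
        · right; rw [h1, mul_one]
        · left; rw [h1, neg_mul_neg, mul_one]
      · rintro (h1 | h1)
        · right
          apply mul_left_cancel₀ hd
          linear_combination -h1
        · left
          apply mul_left_cancel₀ hd
          linear_combination -h1

end SpreadPerm.PL
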