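import Mathlib
import Pool.Agent.Lib.MP_e6ed9e_al.PL.Semi30
import Pool.Agent.Lib.MP_e6ed9e_al.PL.Label3

/-! # Row SLABEL (helper2) -/

namespace SpreadPerm.PL

open scoped LinearAlgebra.Projectivization MatrixGroups
open MulAction

noncomputable section

section
variable {F G : Type} [Field F] [Group G] [DistribMulAction G (Fin 2 → F)]

theorem e1_ne2 : (![1, 0] : Fin 2 → F) ≠ 0 := by
  intro h
  exact one_ne_zero (congrFun h 0)

theorem smul_ne2 (g : G) {v : Fin 2 → F} (hv : v ≠ 0) : g • v ≠ 0 := by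
  intro h
  exact hv ((smul_eq_zero_iff_eq g).1 h)

/-- The automorphism of a semilinear map is unique. -/
theorem semi_uniq2 (g : G) {σ τ : F ≃+* F}
    (hσ : ∀ (c : F) (v : Fin 2 → F), g • (c • v) = σ c • (g • v))
    (hτ : ∀ (c : F) (v : Fin 2 → F), g • (c • v) = τ c • (g • v)) (c : F) : σ c = τ c := by
  have h := (hσ c ![1, 0]).symm.trans (hτ c ![1, 0])
  exact smul_left_injective F (smul_ne2 g e1_ne2) h

/-- Two automorphisms with the same squares are equal. -/
theorem aut_sq2 {σ τ : F ≃+* F} (h : ∀ c, σ c ^ 2 = τ c ^ 2) (c : F) : σ c = τ c := by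
  have h1 := h c
  have h2 := h (c + 1)
  rw [map_add, map_one, map_add, map_one] at h2
  have h3 : 2 * (σ c - τ c) = 0 := by linear_combination h2 - h1
  rcases mul_eq_zero.1 h3 with h4 | h4
  · have h5 : (σ c - τ c) ^ 2 = 0 := by
      linear_combination h1 + (τ c ^ 2 - σ c * τ c) * h4
    exact sub_eq_zero.1 ((pow_eq_zero_iff two_ne_zero).1 h5)
  · exact sub_eq_zero.1 h4

theorem bq_smul2 (a b c x : F) (v : Fin 2 → F) : bq a b c (x • v) = x ^ 2 * bq a b c v := by
  simp only [bq, Pi.smul_apply, smul_eq_mul]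
  ring

theorem form_aut2 (g : G) {σ τ : F ≃+* F} {a b c l : F}
    (hf : ∀ v : Fin 2 → F, v ≠ 0 → bq a b c v ≠ 0)
    (hτ : ∀ (c : F) (v : Fin 2 → F), g • (c • v) = τ c • (g • v))
    (hl : ∀ v : Fin 2 → F, bq a b c (g • v) = l * σ (bq a b c v)) :
    l ≠ 0 ∧ ∀ x, σ x = τ x := by
  have h0 := hl ![1, 0]
  have h1 : bq a b c (g • ![1, 0]) ≠ 0 := hf _ (smul_ne2 g e1_ne2)
  rw [h0] at h1
  refine ⟨left_ne_zero_of_mul h1, aut_sq2 fun x => ?_⟩
  have h2 := hl (x • ![1, 0])
  rw [hτ, bq_smul2, bq_smul2, h0, map_mul, map_pow] at h2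
  have h3 : σ x ^ 2 * (l * σ (bq a b c ![1, 0])) = τ x ^ 2 * (l * σ (bq a b c ![1, 0])) := by
    linear_combination -h2
  exact mul_right_cancel₀ h1 h3

theorem form_semi2 (g : G) {τ : F ≃+* F}
    (hτ : ∀ (c : F) (v : Fin 2 → F), g • (c • v) = τ c • (g • v)) (a b c : F) :
    ∃ x : F × F × F, ∀ v : Fin 2 → F, bq x.1 x.2.1 x.2.2 v = τ.symm (bq a b c (g • v)) := by
  set u : Fin 2 → F := g • ![1, 0] with hu
  set w : Fin 2 → F := g • ![0, 1] with hw
  refine ⟨⟨τ.symm (bq a b c u), τ.symm (2 * a * (u 0 * w 0) + b * (u 0 * w 1 + u 1 * w 0) +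
    2 * c * (u 1 * w 1)), τ.symm (bq a b c w)⟩, fun v => ?_⟩
  have hv : v = v 0 • ![1, 0] + v 1 • ![0, 1] := by
    funext i
    fin_cases i <;> simp
  have hg : g • v = τ (v 0) • u + τ (v 1) • w := by
    conv_lhs => rw [hv]
    rw [smul_add, hτ, hτ]
  apply τ.injective
  rw [RingEquiv.apply_symm_apply, hg]
  simp only [bq, map_add, map_mul, map_pow, RingEquiv.apply_symm_apply, Pi.add_apply,
    Pi.smul_apply, smul_eq_mul]
  ring

end

/-- The elements which multiply the form by a scalar, up to an automorphism. -/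
def sformStab2 (F G : Type) [Field F] [Group G] [DistribMulAction G (Fin 2 → F)] (a b c : F)
    (hf : ∀ v : Fin 2 → F, v ≠ 0 → bq a b c v ≠ 0) : Subgroup G where
  carrier := {g | ∃ (l : F) (σ : F ≃+* F), ∀ v : Fin 2 → F,
    bq a b c (g • v) = l * σ (bq a b c v)}
  one_mem' := ⟨1, RingEquiv.refl F, fun v => by
    rw [one_smul, one_mul]
    rfl⟩
  mul_mem' := by
    rintro g h ⟨l, σ, hl⟩ ⟨m, τ, hm⟩
    refine ⟨l * σ m, τ.trans σ, fun v => ?_⟩
    rw [mul_smul, hl, hm, map_mul, mul_assoc]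
    rfl
  inv_mem' := by
    rintro g ⟨l, σ, hl⟩
    have hl0 : l ≠ 0 := by
      intro h0
      have h1 := hl ![1, 0]
      rw [h0, zero_mul] at h1
      exact hf _ (smul_ne2 g e1_ne2) h1
    refine ⟨σ.symm l⁻¹, σ.symm, fun v => ?_⟩
    have h1 := hl (g⁻¹ • v)
    rw [smul_inv_smul] at h1
    rw [← map_mul, h1, inv_mul_cancel_left₀ hl0, RingEquiv.symm_apply_apply]

theorem slabel2 (hSurj : StSurj) : StSLabel := by
  intro F G Ω _ _ _ _ _ _ _ hL ω hco hq ⟨a, b, c, hf, hst⟩
  classical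
  have ha : a ≠ 0 := by
    intro ha
    apply hf ![1, 0] e1_ne2
    simp [bq, ha]
  -- the automorphism of a group element
  have hsemi := hL.semi
  choose S hS using hsemi
  have Smul : ∀ g h : G, ∀ x, S (g * h) x = S g (S h x) := by
    intro g h x
    refine semi_uniq2 (g * h) (τ := (S h).trans (S g)) (hS (g * h)) ?_ x
    intro y v
    rw [mul_smul, mul_smul, hS, hS]
    rfl
  have Slin : ∀ g : G, ∀ m : GL (Fin 2) F, (∀ v : Fin 2 → F, g • v = m • v) → ∀ x, S g x = x := by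
    intro g m hm x
    refine semi_uniq2 g (τ := RingEquiv.refl F) (hS g) ?_ x
    intro y v
    rw [hm, hm, gl_smul, gl_smul, Matrix.mulVec_smul]
    rfl
  have Sone : ∀ x, S 1 x = x := fun x => Slin 1 1 (fun v => by rw [one_smul, one_smul]) x
  have Sinv : ∀ g : G, ∀ x, S g (S g⁻¹ x) = x := by
    intro g x
    rw [← Smul, mul_inv_cancel, Sone]
  -- the stabilizer of the form
  have hle : stabilizer G ω ≤ sformStab2 F G a b c hf := fun g hg => hst g hg
  have hne : sformStab2 F G a b c hf ≠ ⊤ := by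
    intro htop
    have key : ∀ t : F, t ≠ 0 → a * t + b = 0 := by
      intro t ht
      let M : Matrix (Fin 2) (Fin 2) F := !![1, t; 0, 1]
      have hM : M.det = 1 := by simp [M, Matrix.det_fin_two]
      let g : GL (Fin 2) F := Matrix.GeneralLinearGroup.mk'' M (by rw [hM]; exact isUnit_one)
      have hg : g.1 = M := rfl
      obtain ⟨γ, hγ⟩ := hL.sl g (by rw [hg, hM])
      have hmem : γ ∈ sformStab2 F G a b c hf := by
        rw [htop]
        trivial
      obtain ⟨l, σ, hl⟩ := hmem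
      obtain ⟨hl0, hσ⟩ := form_aut2 γ hf (hS γ) hl
      have hσ1 : ∀ x, σ x = x := fun x => (hσ x).trans (Slin γ g hγ x)
      have hg0 : g • (![1, 0] : Fin 2 → F) = ![1, 0] := by
        rw [gl_smul, hg]
        funext i
        fin_cases i <;> simp [M, Matrix.mulVec, dotProduct, Fin.sum_univ_two]
      have hg1 : g • (![0, 1] : Fin 2 → F) = ![t, 1] := by
        rw [gl_smul, hg]
        funext i
        fin_cases i <;> simp [M, Matrix.mulVec, dotProduct, Fin.sum_univ_two]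
      have h1 := hl ![1, 0]
      have h2 := hl ![0, 1]
      rw [hσ1, hγ, hg0] at h1
      rw [hσ1, hγ, hg1] at h2
      simp only [bq, Matrix.cons_val_zero, Matrix.cons_val_one, Matrix.cons_val_fin_one] at h1 h2
      have hl1 : l = 1 := by
        have : a * l = a * 1 := by linear_combination -h1
        exact mul_left_cancel₀ ha this
      rw [hl1] at h2
      have h3 : t * (a * t + b) = 0 := by linear_combination h2
      rcases mul_eq_zero.1 h3 with h4 | h4
      · exact absurd h4 ht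
      · exact h4
    have h2 : ∃ t : F, t ≠ 0 ∧ t ≠ 1 := by
      by_contra hcon
      push Not at hcon
      have hsub : (Finset.univ : Finset F) ⊆ {0, 1} := by
        intro t _
        rw [Finset.mem_insert, Finset.mem_singleton]
        by_cases h0 : t = 0
        · exact Or.inl h0
        · exact Or.inr (hcon t h0)
      have := Finset.card_le_card hsub
      have h4 : ({0, 1} : Finset F).card ≤ 2 := Finset.card_le_two
      rw [Finset.card_univ] at this
      omega
    obtain ⟨t, ht0, ht1⟩ := h2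
    have e1 := key t ht0
    have e2 := key 1 one_ne_zero
    have e3 : a * (t - 1) = 0 := by linear_combination e1 - e2
    rcases mul_eq_zero.1 e3 with h4 | h4
    · exact ha h4
    · exact ht1 (sub_eq_zero.1 h4)
  have heq : sformStab2 F G a b c hf = stabilizer G ω := by
    by_contra hne2
    exact hne (hco.2 _ (lt_of_le_of_ne hle (fun h => hne2 h.symm)))
  have hstab : ∀ g : G, (∃ (l : F) (σ : F ≃+* F), ∀ v : Fin 2 → F,
      bq a b c (g • v) = l * σ (bq a b c v)) → g • ω = ω := by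
    intro g hg
    have : g ∈ sformStab2 F G a b c hf := hg
    rw [heq] at this
    exact this
  have hst' : ∀ g : G, g • ω = ω → ∃ l : F, l ≠ 0 ∧ ∀ v : Fin 2 → F,
      bq a b c (g • v) = l * S g (bq a b c v) := by
    intro g hg
    obtain ⟨l, σ, hl⟩ := hst g hg
    obtain ⟨hl0, hσ⟩ := form_aut2 g hf (hS g) hl
    exact ⟨l, hl0, fun v => by rw [hl, hσ]⟩
  -- transporters
  have htr : ∀ ω' : Ω, ∃ g : G, g • ω = ω' := fun ω' => exists_smul_eq G ω ω'
  choose t ht using htr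
  have hform : ∀ ω' : Ω, ∃ x : F × F × F, ∀ v : Fin 2 → F,
      bq x.1 x.2.1 x.2.2 v = S (t ω') (bq a b c ((t ω')⁻¹ • v)) := by
    intro ω'
    obtain ⟨x, hx⟩ := form_semi2 (t ω')⁻¹ (hS (t ω')⁻¹) a b c
    refine ⟨x, fun v => ?_⟩
    rw [hx, RingEquiv.symm_apply_eq]
    have := Sinv (t ω')⁻¹ (bq a b c ((t ω')⁻¹ • v))
    rw [inv_inv] at this
    exact this.symm
  choose x hx using hform
  refine ⟨fun ω' => (x ω').1, fun ω' => (x ω').2.1, fun ω' => (x ω').2.2, ?_, ?_, ?_, ?_⟩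
  · intro ω' v hv
    show bq (x ω').1 (x ω').2.1 (x ω').2.2 v ≠ 0
    rw [hx]
    exact (map_ne_zero_iff _ (S (t ω')).injective).2 (hf _ (smul_ne2 _ hv))
  · intro ω1 ω2 l h1 h2 h3
    have h4 : ∀ v : Fin 2 → F, S (t ω2) (bq a b c ((t ω2)⁻¹ • v)) =
        l * S (t ω1) (bq a b c ((t ω1)⁻¹ • v)) := by
      intro v
      rw [← hx ω2 v, ← hx ω1 v]
      have h1' : (x ω2).1 = l * (x ω1).1 := h1
      have h2' : (x ω2).2.1 = l * (x ω1).2.1 := h2
      have h3' : (x ω2).2.2 = l * (x ω1).2.2 := h3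
      simp only [bq]
      rw [h1', h2', h3']
      ring
    have h5 : ((t ω2)⁻¹ * t ω1) • ω = ω := by
      apply hstab
      refine ⟨(S (t ω2)).symm l, (S (t ω1)).trans (S (t ω2)).symm, fun v => ?_⟩
      have h6 := h4 (t ω1 • v)
      rw [inv_smul_smul] at h6
      apply (S (t ω2)).injective
      rw [mul_smul, h6, map_mul, RingEquiv.apply_symm_apply, RingEquiv.trans_apply,
        RingEquiv.apply_symm_apply]
    rw [mul_smul, inv_smul_eq_iff] at h5
    rw [← ht ω2, ← ht ω1, h5]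
  · intro a' b' c' h'
    obtain ⟨g, l, hdet, hl, hg⟩ := hSurj F a b c a' b' c' hf h'
    obtain ⟨γ, hγ⟩ := hL.sl g hdet
    have h5 : ((t (γ • ω))⁻¹ * γ) • ω = ω := by
      rw [mul_smul, inv_smul_eq_iff, ht]
    obtain ⟨m, hm0, hm⟩ := hst' _ h5
    have h6 : ∀ v : Fin 2 → F, bq (x (γ • ω)).1 (x (γ • ω)).2.1 (x (γ • ω)).2.2 v =
        (S (t (γ • ω)) m * l⁻¹) * bq a' b' c' v := by
      intro v
      rw [hx]
      have h7 := hm (γ⁻¹ • v)
      have h8 := hg (γ⁻¹ • v)
      rw [← hγ, smul_inv_smul] at h8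
      rw [mul_smul, smul_inv_smul] at h7
      rw [h7, map_mul, Smul, Sinv, Slin γ g hγ, h8, mul_assoc, inv_mul_cancel_left₀ hl]
    obtain ⟨e1, e2, e3⟩ := bq_coef h6
    exact ⟨γ • ω, S (t (γ • ω)) m * l⁻¹,
      mul_ne_zero ((map_ne_zero_iff _ (S (t (γ • ω))).injective).2 hm0) (inv_ne_zero hl),
      e1, e2, e3⟩
  · intro g
    refine ⟨S g, hS g, fun ω' => ?_⟩
    have h5 : ((t (g • ω'))⁻¹ * (g * t ω')) • ω = ω := by
      rw [mul_smul, inv_smul_eq_iff, ht, mul_smul, ht]
    obtain ⟨m, hm0, hm⟩ := hst' _ h5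
    refine ⟨S (t (g • ω')) m, (map_ne_zero_iff _ (S (t (g • ω'))).injective).2 hm0, fun v => ?_⟩
    show bq (x (g • ω')).1 (x (g • ω')).2.1 (x (g • ω')).2.2 (g • v) =
      S (t (g • ω')) m * S g (bq (x ω').1 (x ω').2.1 (x ω').2.2 v)
    rw [hx, hx]
    have h7 := hm ((t ω')⁻¹ • v)
    rw [mul_smul, mul_smul, smul_inv_smul] at h7
    rw [h7, map_mul, Smul, Sinv, Smul]

end

end SpreadPerm.PL
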