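import Pool.Agent.Lib.MP_e6ed9e_al.PL.Semi30
import Pool.Agent.Lib.MP_e6ed9e_al.PL.Pair96

/-!
# SPAIR: the action on the pairs of rational points, semilinear groups
-/

namespace SpreadPerm.PL

open scoped LinearAlgebra.Projectivization MatrixGroups
open MulAction Finset

noncomputable section

section
variable {F G : Type} [Field F] [Group G] [DistribMulAction G (Fin 2 → F)]

/-- the action on the points of the projective line -/
def pm30 (g : G) (x : ℙ F (Fin 2 → F)) : ℙ F (Fin 2 → F) :=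
  Projectivization.mk F (g • x.rep) ((smul_ne_zero_iff_ne g).2 x.rep_nonzero)

theorem pm30_mk (hs : ∀ g : G, ∃ σ : F ≃+* F, ∀ (c : F) (v : Fin 2 → F),
    g • (c • v) = σ c • (g • v)) (g : G) (v : Fin 2 → F) (hv : v ≠ 0) :
    pm30 g (Projectivization.mk F v hv) =
      Projectivization.mk F (g • v) ((smul_ne_zero_iff_ne g).2 hv) := by
  obtain ⟨σ, hσ⟩ := hs g
  obtain ⟨a, ha⟩ := Projectivization.exists_smul_eq_mk_rep F v hv
  rw [pm30, Projectivization.mk_eq_mk_iff']
  refine ⟨σ (a : F), ?_⟩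
  rw [← ha, Units.smul_def, hσ]

theorem pm30_one (x : ℙ F (Fin 2 → F)) : pm30 (1 : G) x = x := by
  rw [pm30]
  simp only [one_smul]
  exact x.mk_rep

theorem pm30_mul (hs : ∀ g : G, ∃ σ : F ≃+* F, ∀ (c : F) (v : Fin 2 → F),
    g • (c • v) = σ c • (g • v)) (g h : G) (x : ℙ F (Fin 2 → F)) :
    pm30 (g * h) x = pm30 g (pm30 h x) := by
  conv_rhs => rw [pm30.eq_1 h x, pm30_mk hs]
  rw [pm30]
  simp only [mul_smul]

/-- the action on the pairs -/
def sac (g : G) (z : Sym2 (ℙ F (Fin 2 → F))) : Sym2 (ℙ F (Fin 2 → F)) :=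
  Sym2.map (fun x => pm30 g x) z

theorem sac_one (z : Sym2 (ℙ F (Fin 2 → F))) : sac (1 : G) z = z := by
  rw [sac]
  simp [pm30_one]

theorem sac_mul (hs : ∀ g : G, ∃ σ : F ≃+* F, ∀ (c : F) (v : Fin 2 → F),
    g • (c • v) = σ c • (g • v)) (g h : G) (z : Sym2 (ℙ F (Fin 2 → F))) :
    sac (g * h) z = sac g (sac h z) := by
  rw [sac, sac, sac, Sym2.map_map]
  congr 1
  funext x
  exact pm30_mul hs g h x

theorem sac_mk (hs : ∀ g : G, ∃ σ : F ≃+* F, ∀ (c : F) (v : Fin 2 → F),
    g • (c • v) = σ c • (g • v)) (g : G) (v w : Fin 2 → F) (hv : v ≠ 0) (hw : w ≠ 0)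
    (v' w' : Fin 2 → F)
    (hv' : v' ≠ 0) (hw' : w' ≠ 0) (h1 : ∃ c : F, g • v = c • v') (h2 : ∃ c : F, g • w = c • w') :
    sac g s(Projectivization.mk F v hv, Projectivization.mk F w hw) =
      s(Projectivization.mk F v' hv', Projectivization.mk F w' hw') := by
  have key : ∀ (x y : Fin 2 → F) (hx : x ≠ 0) (hy : y ≠ 0), (∃ c : F, g • x = c • y) →
      pm30 g (Projectivization.mk F x hx) = Projectivization.mk F y hy := by
    intro x y hx hy h
    rw [pm30_mk hs, Projectivization.mk_eq_mk_iff']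
    obtain ⟨c, hc⟩ := h
    exact ⟨c, hc.symm⟩
  rw [sac, Sym2.map_mk, key v v' hv hv' h1, key w w' hw hw' h2]

end

theorem spair30 : StSPair := by
  intro F G Ω _ _ _ _ _ _ _ hL ω hco hF ⟨v, w, hv, hw, hst⟩
  have hs := hL.semi
  classical
  have hdt := dt_ne hv hw
  have hv0 := ne_zero_left hdt
  have hw0 := ne_zero_right hdt
  let P0 : Sym2 (ℙ F (Fin 2 → F)) := s(Projectivization.mk F v hv0, Projectivization.mk F w hw0)
  let S : Subgroup G :=
    { carrier := {g | sac g P0 = P0}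
      mul_mem' := by
        intro a b ha hb
        show sac (a * b) P0 = P0
        rw [sac_mul hs, show sac b P0 = P0 from hb, show sac a P0 = P0 from ha]
      one_mem' := sac_one P0
      inv_mem' := by
        intro a ha
        show sac a⁻¹ P0 = P0
        conv_lhs => rw [← show sac a P0 = P0 from ha]
        rw [← sac_mul hs, inv_mul_cancel, sac_one] }
  have hle : stabilizer G ω ≤ S := by
    intro g hg
    show sac g P0 = P0
    rcases hst g hg with ⟨h1, h2⟩ | ⟨h1, h2⟩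
    · exact sac_mk hs g v w hv0 hw0 v w hv0 hw0 h1 h2
    · refine (sac_mk hs g v w hv0 hw0 w v hw0 hv0 h1 h2).trans ?_
      exact Sym2.eq_swap
  have hne : S ≠ ⊤ := by
    intro htop
    have hd : dt v (w + v) ≠ 0 := by
      have : dt v (w + v) = dt v w := by
        show v 0 * (w 1 + v 1) - v 1 * (w 0 + v 0) = _
        rw [dt]
        ring
      rw [this]
      exact hdt
    have hd2 : dt (w + v) w ≠ 0 := by
      have : dt (w + v) w = dt v w := by
        show (w 0 + v 0) * w 1 - (w 1 + v 1) * w 0 = _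
        rw [dt]
        ring
      rw [this]
      exact hdt
    obtain ⟨m, hg1, hg2, c, hc, hg3⟩ := exists_sl hdt hd
    obtain ⟨g, hgm⟩ := hL.sl m hg1
    rw [← hgm] at hg2 hg3
    have hgS : g ∈ S := by
      rw [htop]
      exact Subgroup.mem_top _
    have h1 : sac g P0 = P0 := hgS
    have h2 := sac_mk hs g v w hv0 hw0 v (w + v) hv0 (ne_zero_right hd)
      ⟨1, by rw [one_smul, hg2]⟩ ⟨c, hg3⟩
    rw [h1] at h2
    have h3 := (Sym2.eq_iff.1 h2)
    rcases h3 with ⟨_, h4⟩ | ⟨h4, _⟩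
    · exact mk_ne hd2 _ _ h4.symm
    · exact mk_ne hd _ _ h4
  have hS : S = stabilizer G ω := by
    rcases (hco.le_iff).1 hle with h | h
    · exact absurd h hne
    · exact h
  choose γ hγ using fun ω' => exists_smul_eq G ω ω'
  let L : Ω → Sym2 (ℙ F (Fin 2 → F)) := fun ω' => sac (γ ω') P0
  have hact : ∀ g h : G, g • ω = h • ω ↔ sac g P0 = sac h P0 := by
    intro g h
    have h1 : g • ω = h • ω ↔ (h⁻¹ * g) ∈ stabilizer G ω := by
      rw [mem_stabilizer_iff, mul_smul, inv_smul_eq_iff]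
    rw [h1, ← hS]
    show sac (h⁻¹ * g) P0 = P0 ↔ _
    constructor
    · intro h2
      rw [sac_mul hs] at h2
      have h3 := congrArg (sac h) h2
      rwa [← sac_mul hs, mul_inv_cancel, sac_one] at h3
    · intro h2
      rw [sac_mul hs, h2, ← sac_mul hs, inv_mul_cancel, sac_one]
  have hLg : ∀ g : G, L (g • ω) = sac g P0 := fun g => (hact _ _).1 (hγ (g • ω))
  have hLinj : Function.Injective L := by
    intro ω1 ω2 h
    rw [← hγ ω1, ← hγ ω2]
    exact (hact _ _).2 h
  have hLeq : ∀ (g : G) (ω' : Ω), L (g • ω') = sac g (L ω') := by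
    intro g ω'
    have h1 : g • ω' = (g * γ ω') • ω := by rw [mul_smul, hγ]
    rw [h1, hLg]
    show sac (g * γ ω') P0 = _
    rw [sac_mul hs]
  have hrange : ∀ (u u' : Fin 2 → F) (hu : u ≠ 0) (hu' : u' ≠ 0), dt u u' ≠ 0 →
      s(Projectivization.mk F u hu, Projectivization.mk F u' hu') ∈ Set.range L := by
    intro u u' hu hu' hd
    obtain ⟨m, hg1, hg2, c, hc, hg3⟩ := exists_sl hdt hd
    obtain ⟨g, hgm⟩ := hL.sl m hg1
    rw [← hgm] at hg2 hg3
    refine ⟨g • ω, ?_⟩
    rw [hLg]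
    exact sac_mk hs g v w hv0 hw0 u u' hu hu' ⟨1, by rw [one_smul, hg2]⟩ ⟨c, hg3⟩
  let e : Ω ≃ Set.range L := Equiv.ofInjective L hLinj
  let _ : MulAction G (Set.range L) := e.symm.mulAction G
  have hsm : ∀ (g : G) (x : Set.range L), g • x = e (g • e.symm x) := fun g x => rfl
  have : IsPretransitive G (Set.range L) := by
    refine ⟨fun x y => ?_⟩
    obtain ⟨g, hg⟩ := exists_smul_eq G (e.symm x) (e.symm y)
    exact ⟨g, by rw [hsm, hg, e.apply_symm_apply]⟩
  refine transfer96 e (fun g ω' => by rw [hsm, e.symm_apply_apply]) ?_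
  -- four points
  obtain ⟨t, ht0, ht1⟩ : ∃ t : F, t ≠ 0 ∧ t ≠ 1 := by
    have h1 : ({0, 1} : Finset F).card < (univ : Finset F).card := by
      have h2 : ({0, 1} : Finset F).card ≤ 2 := Finset.card_le_two
      rw [Finset.card_univ]
      omega
    obtain ⟨t, _, ht⟩ := Finset.exists_mem_notMem_of_card_lt_card h1
    simp only [Finset.mem_insert, Finset.mem_singleton, not_or] at ht
    exact ⟨t, ht.1, ht.2⟩
  let a0 : Fin 2 → F := ![1, 0]
  let b0 : Fin 2 → F := ![0, 1]
  let a1 : Fin 2 → F := ![1, 1]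
  let b1 : Fin 2 → F := ![1, t]
  have d1 : dt a0 b0 ≠ 0 := by simp [dt, a0, b0]
  have d2 : dt a0 a1 ≠ 0 := by simp [dt, a0, a1]
  have d3 : dt b0 a1 ≠ 0 := by simp [dt, b0, a1]
  have d4 : dt a0 b1 ≠ 0 := by simp [dt, a0, b1, ht0]
  have d5 : dt b0 b1 ≠ 0 := by simp [dt, b0, b1]
  have d6 : dt a1 b1 ≠ 0 := by
    simp only [dt, a1, b1, Matrix.cons_val_zero, Matrix.cons_val_one, one_mul, mul_one]
    exact sub_ne_zero.2 ht1
  have d7 : dt b1 a0 ≠ 0 := by
    simp only [dt, a0, b1, Matrix.cons_val_zero, Matrix.cons_val_one, mul_zero, mul_one, zero_sub]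
    exact neg_ne_zero.2 ht0
  have n1 := ne_zero_left d1
  have n2 := ne_zero_right d1
  have n3 := ne_zero_right d2
  have n4 := ne_zero_right d4
  have hz : ∀ i : ZMod 2, i = 0 ∨ i = 1 := by decide
  have hz1 : (1 : ZMod 2) ≠ 0 := by decide
  have hz2 : (1 : ZMod 2) + 1 = 0 := by decide
  let a : ZMod 2 → ℙ F (Fin 2 → F) := fun i => if i = 0 then Projectivization.mk F a0 n1 else
    Projectivization.mk F a1 n3
  let b : ZMod 2 → ℙ F (Fin 2 → F) := fun i => if i = 0 then Projectivization.mk F b0 n2 else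
    Projectivization.mk F b1 n4
  have ha0 : a 0 = Projectivization.mk F a0 n1 := if_pos rfl
  have ha1 : a 1 = Projectivization.mk F a1 n3 := if_neg hz1
  have hb0 : b 0 = Projectivization.mk F b0 n2 := if_pos rfl
  have hb1 : b 1 = Projectivization.mk F b1 n4 := if_neg hz1
  refine NS.edge47 (ℙ F (Fin 2 → F)) (Set.range L) 2 le_rfl a b ?_ ?_ ?_ ?_ ?_ G ?_
  · intro i j h
    rcases hz i with rfl | rfl <;> rcases hz j with rfl | rfl
    · rfl
    · rw [ha0, ha1] at h
      exact absurd h (mk_ne d2 _ _)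
    · rw [ha0, ha1] at h
      exact absurd h.symm (mk_ne d2 _ _)
    · rfl
  · intro i j h
    rcases hz i with rfl | rfl <;> rcases hz j with rfl | rfl
    · rfl
    · rw [hb0, hb1] at h
      exact absurd h (mk_ne d5 _ _)
    · rw [hb0, hb1] at h
      exact absurd h.symm (mk_ne d5 _ _)
    · rfl
  · intro i j h
    rcases hz i with rfl | rfl <;> rcases hz j with rfl | rfl
    · rw [ha0, hb0] at h
      exact mk_ne d1 _ _ h
    · rw [ha0, hb1] at h
      exact mk_ne d4 _ _ h
    · rw [ha1, hb0] at h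
      exact mk_ne d3 _ _ h.symm
    · rw [ha1, hb1] at h
      exact mk_ne d6 _ _ h
  · intro i
    rcases hz i with rfl | rfl
    · rw [ha0, hb0]
      exact hrange _ _ _ _ d1
    · rw [ha1, hb1]
      exact hrange _ _ _ _ d6
  · intro i
    rcases hz i with rfl | rfl
    · rw [zero_add, hb0, ha1]
      exact hrange _ _ _ _ d3
    · rw [hz2, hb1, ha0]
      exact hrange _ _ _ _ d7
  · intro g x
    refine ⟨pm30 g x, fun z => ?_⟩
    have h1 : (g • z).1 = sac g z.1 := by
      rw [hsm]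
      show L (g • e.symm z) = sac g z.1
      rw [hLeq]
      congr 1
      have := congrArg Subtype.val (e.apply_symm_apply z)
      exact this
    rw [h1, sac, Sym2.mem_map]
    constructor
    · intro h
      exact ⟨x, h, rfl⟩
    · rintro ⟨y, hy, hyx⟩
      have h3 : pm30 g⁻¹ (pm30 g y) = pm30 g⁻¹ (pm30 g x) := congrArg _ hyx
      rw [← pm30_mul hs, ← pm30_mul hs, inv_mul_cancel, pm30_one, pm30_one] at h3
      exact h3 ▸ hy

end

end SpreadPerm.PL
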