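import Mathlib
import Pool.Agent.Lib.MP_e6ed9e_al.PL.Semi30
import Pool.Agent.Lib.MP_e6ed9e_al.PL.Base47
import Pool.Agent.Lib.MP_e6ed9e_al.PL.KerRat51
import Pool.Agent.Lib.MP_e6ed9e_al.PL.Pgl16

/-!
# Row SRE: the linear part preserves an anisotropic form up to scalars
-/

namespace SpreadPerm.PL.SRE84

open scoped LinearAlgebra.Projectivization MatrixGroups
open MulAction

noncomputable section

section
variable {F K : Type} [Field F] [Field K] [Algebra F K]

theorem e0_ne {L : Type} [Field L] : (![1, 0] : Fin 2 → L) ≠ 0 := fun h =>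
  one_ne_zero (congrFun h 0)

theorem e1_ne {L : Type} [Field L] (t : L) : (![t, 1] : Fin 2 → L) ≠ 0 := fun h =>
  one_ne_zero (congrFun h 1)

/-- coefficients of a form -/
theorem coef {L : Type} [Field L] {a b c a' b' c' : L}
    (h : ∀ v : Fin 2 → L, bq a b c v = bq a' b' c' v) : a = a' ∧ b = b' ∧ c = c' := by
  have h0 := h ![1, 0]
  have h1 := h ![0, 1]
  have h2 := h ![1, 1]
  simp [bq] at h0 h1 h2
  refine ⟨h0, ?_, h1⟩
  rw [h0, h1] at h2
  linear_combination h2

/-- The two roots of an anisotropic form over a finite field are different. -/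
theorem two_roots [Finite F] [IsAlgClosed K] {a b c : F}
    (h : ∀ v : Fin 2 → F, v ≠ 0 → bq a b c v ≠ 0) : ∃ s t : K, s ≠ t ∧
      ∀ u : Fin 2 → K, bq (algebraMap F K a) (algebraMap F K b) (algebraMap F K c) u =
        algebraMap F K a * ((u 0 - s * u 1) * (u 0 - t * u 1)) := by
  have ha : a ≠ 0 := by
    intro ha
    apply h ![1, 0] e0_ne
    simp [bq, ha]
  have haK : algebraMap F K a ≠ 0 := fun h => ha ((map_eq_zero _).mp h)
  obtain ⟨t, ht⟩ : ∃ t : K, algebraMap F K a * t ^ 2 + algebraMap F K b * t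
      + algebraMap F K c = 0 := by
    have hd : (Polynomial.C (algebraMap F K a) * Polynomial.X ^ 2 +
        Polynomial.C (algebraMap F K b) * Polynomial.X +
        Polynomial.C (algebraMap F K c)).degree ≠ 0 := by
      rw [Polynomial.degree_quadratic haK]
      decide
    obtain ⟨t, ht⟩ := IsAlgClosed.exists_root _ hd
    refine ⟨t, ?_⟩
    simpa [Polynomial.IsRoot] using ht
  set s : K := -(algebraMap F K b) / algebraMap F K a - t with hs
  have hsum : algebraMap F K a * (s + t) = -(algebraMap F K b) := by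
    rw [hs]; field_simp; ring
  refine ⟨s, t, ?_, ?_⟩
  · intro hst
    rw [hst] at hsum
    by_cases h2 : (2 : F) = 0
    · have h2K : (2 : K) = 0 := by
        rw [← map_ofNat (algebraMap F K) 2, h2, map_zero]
      have hb0 : algebraMap F K b = 0 := by linear_combination hsum - algebraMap F K a * t * h2K
      have hb1 : b = 0 := (map_eq_zero _).mp hb0
      have hch : ringChar F = 2 := by
        have : (ringChar F) ∣ 2 := (ringChar.spec F 2).mp (by exact_mod_cast h2)
        rcases (Nat.dvd_prime Nat.prime_two).mp this with h | h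
        · have h1 := (ringChar.spec F 1).mpr (by rw [h])
          simp at h1
        · exact h
      obtain ⟨r, hr⟩ := FiniteField.isSquare_of_char_two hch (-c / a)
      apply h ![r, 1] (e1_ne r)
      simp only [bq, Matrix.cons_val_zero, Matrix.cons_val_one, mul_one, one_pow, hb1,
        zero_mul, add_zero]
      have : a * (r * r) = -c := by
        rw [← hr]; field_simp
      linear_combination this
    · have hbt : algebraMap F K (2 * a) * t = - algebraMap F K b := by
        rw [map_mul, map_ofNat]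
        linear_combination hsum
      have h2a : (2 * a) ≠ 0 := mul_ne_zero h2 ha
      have h2aK : algebraMap F K (2 * a) ≠ 0 := fun h => h2a ((map_eq_zero _).mp h)
      have htF : t = algebraMap F K (-b / (2 * a)) := by
        rw [map_div₀, map_neg, eq_div_iff h2aK]
        linear_combination hbt
      apply h ![-b / (2 * a), 1] (e1_ne _)
      apply (algebraMap F K).injective
      rw [map_zero, ← ht, htF]
      simp only [bq, Matrix.cons_val_zero, Matrix.cons_val_one, mul_one, one_pow, map_add,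
        map_mul, map_pow]
  · intro u
    simp only [bq]
    have hprod : algebraMap F K a * (s * t) = algebraMap F K c := by
      linear_combination t * hsum - ht
    linear_combination (u 1 ^ 2) * (-hprod) + (u 0 * u 1) * hsum

/-- The two zeros of an anisotropic form over a finite field. -/
theorem two_zeros [Finite F] [IsAlgClosed K] {a b c : F}
    (h : ∀ v : Fin 2 → F, v ≠ 0 → bq a b c v ≠ 0) : ∃ x y : PX K, x ≠ y ∧ ∀ z : PX K,
      bq (algebraMap F K a) (algebraMap F K b) (algebraMap F K c) z.rep = 0 ↔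
        z = x ∨ z = y := by
  have ha : a ≠ 0 := by
    intro ha
    apply h ![1, 0] e0_ne
    simp [bq, ha]
  have haK : algebraMap F K a ≠ 0 := fun h => ha ((map_eq_zero _).mp h)
  obtain ⟨s, t, hst, hf⟩ := two_roots (K := K) h
  have hz : ∀ (z : PX K) (r : K), z = Projectivization.mk K ![r, 1] (e1_ne r) ↔
      z.rep 0 - r * z.rep 1 = 0 := by
    intro z r
    have := mk_eq51 (Projectivization.rep_nonzero z) (e1_ne r)
    rw [Projectivization.mk_rep] at this
    rw [this]
    simp only [Matrix.cons_val_zero, Matrix.cons_val_one, mul_one]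
    rw [mul_comm r]
  refine ⟨Projectivization.mk K ![s, 1] (e1_ne s), Projectivization.mk K ![t, 1] (e1_ne t), ?_, ?_⟩
  · intro he
    have := (mk_eq51 (e1_ne s) (e1_ne t)).mp he
    simp only [Matrix.cons_val_zero, Matrix.cons_val_one, mul_one, one_mul] at this
    exact hst (sub_eq_zero.mp this)
  · intro z
    rw [hz, hz, hf, mul_eq_zero, mul_eq_zero]
    constructor
    · rintro (h | h)
      · exact absurd h haK
      · exact h
    · exact fun h => Or.inr h

/-- A semi-invariant form over the big field. -/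
theorem semi_big {a b c : F} {g : GL (Fin 2) F} {l : F}
    (hl : ∀ v : Fin 2 → F, bq a b c (g • v) = l * bq a b c v) (u : Fin 2 → K) :
    bq (algebraMap F K a) (algebraMap F K b) (algebraMap F K c)
      (Matrix.GeneralLinearGroup.map (algebraMap F K) g • u) =
    algebraMap F K l * bq (algebraMap F K a) (algebraMap F K b) (algebraMap F K c) u := by
  have h := coef (a' := l * a) (b' := l * b) (c' := l * c) (fun v => by
    rw [← bq_gl a b c g v, hl]
    simp only [bq]
    ring)
  rw [bq_map, h.1, h.2.1, h.2.2]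
  simp only [bq, map_mul]
  ring

theorem zero_map {a b c : F} {g : GL (Fin 2) F} {l : F}
    (hl : ∀ v : Fin 2 → F, bq a b c (g • v) = l * bq a b c v) (x : PX K)
    (h1 : bq (algebraMap F K a) (algebraMap F K b) (algebraMap F K c) x.rep = 0) :
    bq (algebraMap F K a) (algebraMap F K b) (algebraMap F K c) (psi F K g x).rep = 0 := by
  have h4 : psi F K g x = Projectivization.mk K
      (Matrix.GeneralLinearGroup.map (algebraMap F K) g • x.rep)
      ((smul_ne_zero_iff_ne _).2 x.rep_nonzero) := by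
    conv_lhs => rw [← x.mk_rep]
    exact psi_mk g x.rep_nonzero
  have h5 : Projectivization.mk K (psi F K g x).rep (psi F K g x).rep_nonzero =
      Projectivization.mk K (Matrix.GeneralLinearGroup.map (algebraMap F K) g • x.rep)
      ((smul_ne_zero_iff_ne _).2 x.rep_nonzero) := by
    rw [(psi F K g x).mk_rep]
    exact h4
  rw [Projectivization.mk_eq_mk_iff'] at h5
  obtain ⟨r, hr⟩ := h5
  rw [← hr, bq_smul, semi_big hl, h1, mul_zero, mul_zero]

/-- An element preserving a pair of points is determined on it by one bit. -/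
theorem two_eq {X : Type} {x y : X} (hxy : x ≠ y) (h k : Equiv.Perm X)
    (h1 : h x = x ∨ h x = y) (h2 : h y = x ∨ h y = y) (k1 : k x = x ∨ k x = y)
    (k2 : k y = x ∨ k y = y) (e : h x = x ↔ k x = x) : h x = k x ∧ h y = k y := by
  have hx : h x ≠ h y := fun he => hxy (h.injective he)
  have kx : k x ≠ k y := fun he => hxy (k.injective he)
  rcases h1 with a1 | a1 <;> rcases h2 with a2 | a2 <;> rcases k1 with b1 | b1 <;>
    rcases k2 with b2 | b2 <;> rw [a1, a2] at hx <;> rw [b1, b2] at kx <;>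
    first
    | exact absurd rfl hx
    | exact absurd rfl kx
    | exact ⟨a1.trans b1.symm, a2.trans b2.symm⟩
    | exact absurd (e.1 a1) (fun hh => hxy (hh.symm.trans b1))
    | exact absurd (e.2 b1) (fun hh => hxy (hh.symm.trans a1))

/-- Two anisotropic forms that are semi-invariant under a large linear group are proportional. -/
theorem prop_of_large [Finite F] [IsAlgClosed K] (M : Subgroup (GL (Fin 2) F))
    (hM : 4 < Nat.card (M.map (psi F K))) {a b c a' b' c' : F}
    (h : ∀ v : Fin 2 → F, v ≠ 0 → bq a b c v ≠ 0)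
    (h' : ∀ v : Fin 2 → F, v ≠ 0 → bq a' b' c' v ≠ 0)
    (hs : ∀ m ∈ M, ∃ l : F, ∀ v : Fin 2 → F, bq a b c (m • v) = l * bq a b c v)
    (hs' : ∀ m ∈ M, ∃ l : F, ∀ v : Fin 2 → F, bq a' b' c' (m • v) = l * bq a' b' c' v) :
    ∃ l : F, a' = l * a ∧ b' = l * b ∧ c' = l * c := by
  classical
  by_cases hc : ∃ z : PX K,
      bq (algebraMap F K a) (algebraMap F K b) (algebraMap F K c) z.rep = 0 ∧
      bq (algebraMap F K a') (algebraMap F K b') (algebraMap F K c') z.rep = 0
  · obtain ⟨z, h1, h2⟩ := hc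
    exact prop_of_zero h z.rep z.rep_nonzero h1 h2
  exfalso
  obtain ⟨x, y, hxy, hz⟩ := two_zeros (K := K) h
  obtain ⟨x', y', hxy', hz'⟩ := two_zeros (K := K) h'
  have hxx : x ≠ x' := fun he => hc ⟨x, (hz x).2 (Or.inl rfl), (hz' x).2 (Or.inl he)⟩
  have hyx : y ≠ x' := fun he => hc ⟨y, (hz y).2 (Or.inr rfl), (hz' y).2 (Or.inl he)⟩
  have key : ∀ k : (M.map (psi F K)),
      ((k.1 x = x ∨ k.1 x = y) ∧ (k.1 y = x ∨ k.1 y = y)) ∧
      ((k.1 x' = x' ∨ k.1 x' = y') ∧ (k.1 y' = x' ∨ k.1 y' = y')) := by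
    rintro ⟨k, m, hm, rfl⟩
    obtain ⟨l, hl⟩ := hs m hm
    obtain ⟨l', hl'⟩ := hs' m hm
    exact ⟨⟨(hz _).1 (zero_map hl x ((hz x).2 (Or.inl rfl))),
      (hz _).1 (zero_map hl y ((hz y).2 (Or.inr rfl)))⟩,
      ⟨(hz' _).1 (zero_map hl' x' ((hz' x').2 (Or.inl rfl))),
      (hz' _).1 (zero_map hl' y' ((hz' y').2 (Or.inr rfl)))⟩⟩
  obtain ⟨p, hp⟩ := CharP.exists F
  have hpp : p.Prime := by
    have := hp
    rcases CharP.char_is_prime_or_zero F p with h0 | h0
    · exact h0
    · subst h0
      have : CharZero F := CharP.charP_to_charZero F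
      exact absurd ‹Finite F› (not_finite_iff_infinite.2 inferInstance)
  have hD := pgl16 F K p hpp M
  have hinj : Function.Injective (fun k : (M.map (psi F K)) =>
      (decide (k.1 x = x), decide (k.1 x' = x'))) := by
    intro k k' hk
    simp only [Prod.mk.injEq, decide_eq_decide] at hk
    obtain ⟨⟨p1, p2⟩, ⟨p3, p4⟩⟩ := key k
    obtain ⟨⟨q1, q2⟩, ⟨q3, q4⟩⟩ := key k'
    obtain ⟨e1, e2⟩ := two_eq hxy k.1 k'.1 p1 p2 q1 q2 hk.1
    obtain ⟨e3, e4⟩ := two_eq hxy' k.1 k'.1 p3 p4 q3 q4 hk.2
    by_contra hne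
    have hne' : k'⁻¹ * k ≠ 1 := fun he => hne (inv_mul_eq_one.1 he).symm
    have hfix : ∀ z : PX K, k.1 z = k'.1 z → (k'⁻¹ * k) • z = z := by
      intro z he
      rw [mul_smul, inv_smul_eq_iff]
      exact he
    rcases hD.fix_le _ hne' x y x' (hfix x e1) (hfix y e2) (hfix x' e3) with h0 | h0 | h0
    · exact hxy h0
    · exact hxx h0
    · exact hyx h0
  have hle := Nat.card_le_card_of_injective _ hinj
  have h4 : Nat.card (Bool × Bool) = 4 := by
    rw [Nat.card_prod, Nat.card_eq_fintype_card, Fintype.card_bool]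
  rw [h4] at hle
  omega

end

/-- Row SRE. -/
theorem sre84 (hN : StSNorm) : StSRe := by
  intro F K G Ω _ _ _ _ _ _ _ _ hS ω hcard a b c han hsemi g hg
  obtain ⟨σ, hσ⟩ := hS.semi g
  -- the image of a vector
  have himg : ∀ v : Fin 2 → F, g • v = fun i => if i = 0 then
      (g • (![1, 0] : Fin 2 → F)) 0 * σ (v 0) + (g • (![0, 1] : Fin 2 → F)) 0 * σ (v 1) else
      (g • (![1, 0] : Fin 2 → F)) 1 * σ (v 0) + (g • (![0, 1] : Fin 2 → F)) 1 * σ (v 1) := by
    intro v
    have hv : v = v 0 • (![1, 0] : Fin 2 → F) + v 1 • (![0, 1] : Fin 2 → F) := by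
      funext i
      fin_cases i <;> simp
    conv_lhs => rw [hv, smul_add, hσ, hσ]
    funext i
    fin_cases i
    · simp [mul_comm]
    · simp [mul_comm]
  set α := (g • (![1, 0] : Fin 2 → F)) 0 with hα
  set β := (g • (![0, 1] : Fin 2 → F)) 0 with hβ
  set γ := (g • (![1, 0] : Fin 2 → F)) 1 with hγ
  set δ := (g • (![0, 1] : Fin 2 → F)) 1 with hδ
  set A := a * α ^ 2 + b * (α * γ) + c * γ ^ 2 with hA
  set B := 2 * a * (α * β) + b * (α * δ + β * γ) + 2 * c * (γ * δ) with hB
  set C := a * β ^ 2 + b * (β * δ) + c * δ ^ 2 with hC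
  have hf : ∀ v : Fin 2 → F, bq a b c (g • v) = bq A B C (fun i => σ (v i)) := by
    intro v
    rw [himg v]
    exact bq_subst a b c α β γ δ (fun i => σ (v i))
  -- the twisted form
  have hf' : ∀ v : Fin 2 → F, bq (σ.symm A) (σ.symm B) (σ.symm C) v =
      σ.symm (bq a b c (g • v)) := by
    intro v
    rw [hf]
    simp [bq]
  obtain ⟨l, h1, h2, h3⟩ := prop_of_large (K := K) (LS F G ω) (by omega) han
    (a' := σ.symm A) (b' := σ.symm B) (c' := σ.symm C) (by
      intro v hv
      rw [hf']
      intro h0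
      have h1 : bq a b c (g • v) = 0 := by
        have := congrArg σ h0
        simpa using this
      exact han _ ((smul_ne_zero_iff_ne g).2 hv) h1) hsemi (by
      intro m hm
      obtain ⟨m', hm', hmm⟩ := hN F G Ω hS ω g hg m hm
      obtain ⟨l, hl⟩ := hsemi m' hm'
      refine ⟨σ.symm l, fun v => ?_⟩
      rw [hf', hf', hmm, hl, map_mul])
  refine ⟨σ l, σ, fun v => ?_⟩
  have h4 := hf' v
  rw [h1, h2, h3] at h4
  have h5 : bq a b c (g • v) = σ (bq (l * a) (l * b) (l * c) v) := by
    rw [h4]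
    simp
  rw [h5, ← map_mul]
  congr 1
  simp only [bq]
  ring

end

end SpreadPerm.PL.SRE84

/-- Row SRE. -/
theorem SpreadPerm.PL.sre84 (hN : SpreadPerm.PL.StSNorm) : SpreadPerm.PL.StSRe :=
  SpreadPerm.PL.SRE84.sre84 hN
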