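import Mathlib
import Pool.Agent.Lib.MP_e6ed9e_al.PL.Semi30
import Pool.Agent.Lib.MP_e6ed9e_al.PL.Base47
import Pool.Agent.Lib.MP_e6ed9e_al.PL.Sub25

/-! # Row SRB: the linear part fixes a rational point (helper25) -/

namespace SpreadPerm.PL.SRb25

open scoped LinearAlgebra.Projectivization MatrixGroups
open MulAction

noncomputable section

section lin
variable {F : Type} [Field F]

/-- Independent vectors have a nonzero determinant. -/
theorem det_ne {v w : Fin 2 → F} (hv : v ≠ 0) (h : ∀ c : F, w ≠ c • v) :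
    v 0 * w 1 - v 1 * w 0 ≠ 0 := by
  intro h0
  by_cases hv0 : v 0 = 0
  · have hv1 : v 1 ≠ 0 := by
      intro h1
      apply hv
      funext i
      fin_cases i
      · exact hv0
      · exact h1
    apply h (w 1 / v 1)
    rw [hv0, zero_mul, zero_sub, neg_eq_zero] at h0
    have hw0 := (mul_eq_zero.1 h0).resolve_left hv1
    funext i
    fin_cases i
    · show w 0 = w 1 / v 1 * v 0
      rw [hw0, hv0, mul_zero]
    · show w 1 = w 1 / v 1 * v 1
      rw [div_mul_cancel₀ _ hv1]
  · apply h (w 0 / v 0)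
    funext i
    fin_cases i
    · show w 0 = w 0 / v 0 * v 0
      rw [div_mul_cancel₀ _ hv0]
    · show w 1 = w 0 / v 0 * v 1
      field_simp
      linear_combination h0

theorem smul_apply0 (m : GL (Fin 2) F) (v : Fin 2 → F) :
    (m • v) 0 = m.1 0 0 * v 0 + m.1 0 1 * v 1 := by
  rw [gl_smul]
  simp [Matrix.mulVec, dotProduct, Fin.sum_univ_two]

theorem smul_apply1 (m : GL (Fin 2) F) (v : Fin 2 → F) :
    (m • v) 1 = m.1 1 0 * v 0 + m.1 1 1 * v 1 := by
  rw [gl_smul]
  simp [Matrix.mulVec, dotProduct, Fin.sum_univ_two]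

/-- A linear map with three eigenlines is scalar. -/
theorem scalar_of_three {K : Type} [Field K] [Algebra F K] (m : GL (Fin 2) F)
    {v w u : Fin 2 → F} (hv : v ≠ 0) (hw : w ≠ 0)
    (hvw : ∀ c : F, w ≠ c • v) (huv : ∀ c : F, u ≠ c • v) (huw : ∀ c : F, u ≠ c • w)
    (h1 : ∃ c : F, m • v = c • v) (h2 : ∃ c : F, m • w = c • w) (h3 : ∃ c : F, m • u = c • u) :
    psi F K m = 1 := by
  obtain ⟨a, ha⟩ := h1
  obtain ⟨b, hb⟩ := h2
  obtain ⟨c, hc⟩ := h3
  have hD := det_ne hv hvw
  have hE := det_ne hv huv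
  have hG := det_ne hw huw
  have a0 : m.1 0 0 * v 0 + m.1 0 1 * v 1 = a * v 0 := by
    rw [← smul_apply0, ha]; rfl
  have a1 : m.1 1 0 * v 0 + m.1 1 1 * v 1 = a * v 1 := by
    rw [← smul_apply1, ha]; rfl
  have b0 : m.1 0 0 * w 0 + m.1 0 1 * w 1 = b * w 0 := by
    rw [← smul_apply0, hb]; rfl
  have b1 : m.1 1 0 * w 0 + m.1 1 1 * w 1 = b * w 1 := by
    rw [← smul_apply1, hb]; rfl
  have c0 : m.1 0 0 * u 0 + m.1 0 1 * u 1 = c * u 0 := by
    rw [← smul_apply0, hc]; rfl
  have c1 : m.1 1 0 * u 0 + m.1 1 1 * u 1 = c * u 1 := by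
    rw [← smul_apply1, hc]; rfl
  -- u = x v + y w
  set D := v 0 * w 1 - v 1 * w 0 with hDdef
  set x := (u 0 * w 1 - u 1 * w 0) / D with hx
  set y := (v 0 * u 1 - v 1 * u 0) / D with hy
  have hxD : x * D = u 0 * w 1 - u 1 * w 0 := div_mul_cancel₀ _ hD
  have hyD : y * D = v 0 * u 1 - v 1 * u 0 := div_mul_cancel₀ _ hD
  have hx0 : x ≠ 0 := by
    intro h
    rw [h, zero_mul] at hxD
    apply hG
    linear_combination hxD
  have hy0 : y ≠ 0 := by
    intro h
    rw [h, zero_mul] at hyD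
    apply hE
    linear_combination -hyD
  have u0 : u 0 = x * v 0 + y * w 0 := by
    apply mul_right_cancel₀ hD
    rw [add_mul]
    have e1 : x * v 0 * D = (u 0 * w 1 - u 1 * w 0) * v 0 := by rw [← hxD]; ring
    have e2 : y * w 0 * D = (v 0 * u 1 - v 1 * u 0) * w 0 := by rw [← hyD]; ring
    rw [e1, e2, hDdef]
    ring
  have u1 : u 1 = x * v 1 + y * w 1 := by
    apply mul_right_cancel₀ hD
    rw [add_mul]
    have e1 : x * v 1 * D = (u 0 * w 1 - u 1 * w 0) * v 1 := by rw [← hxD]; ring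
    have e2 : y * w 1 * D = (v 0 * u 1 - v 1 * u 0) * w 1 := by rw [← hyD]; ring
    rw [e1, e2, hDdef]
    ring
  -- (a - c) x v + (b - c) y w = 0
  have s0 : (a - c) * x * v 0 + (b - c) * y * w 0 = 0 := by
    rw [u0, u1] at c0
    linear_combination c0 - x * a0 - y * b0
  have s1 : (a - c) * x * v 1 + (b - c) * y * w 1 = 0 := by
    rw [u0, u1] at c1
    linear_combination c1 - x * a1 - y * b1
  have hac : a = c := by
    have : (a - c) * x * D = 0 := by
      rw [hDdef]
      linear_combination w 1 * s0 - w 0 * s1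
    have h4 := (mul_eq_zero.1 this).resolve_right hD
    exact sub_eq_zero.1 ((mul_eq_zero.1 h4).resolve_right hx0)
  have hbc : b = c := by
    have : (b - c) * y * D = 0 := by
      rw [hDdef]
      linear_combination v 0 * s1 - v 1 * s0
    have h4 := (mul_eq_zero.1 this).resolve_right hD
    exact sub_eq_zero.1 ((mul_eq_zero.1 h4).resolve_right hy0)
  subst hac
  subst hbc
  rw [Sub25.psi_one_iff]
  have m00 : m.1 0 0 = b := by
    have : (m.1 0 0 - b) * D = 0 := by
      rw [hDdef]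
      linear_combination w 1 * a0 - v 1 * b0
    exact sub_eq_zero.1 ((mul_eq_zero.1 this).resolve_right hD)
  have m11 : m.1 1 1 = b := by
    have : (m.1 1 1 - b) * D = 0 := by
      rw [hDdef]
      linear_combination v 0 * b1 - w 0 * a1
    exact sub_eq_zero.1 ((mul_eq_zero.1 this).resolve_right hD)
  have m01 : m.1 0 1 = 0 := by
    have : m.1 0 1 * D = 0 := by
      rw [hDdef]
      linear_combination v 0 * b0 - w 0 * a0
    exact (mul_eq_zero.1 this).resolve_right hD
  have m10 : m.1 1 0 = 0 := by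
    have : m.1 1 0 * D = 0 := by
      rw [hDdef]
      linear_combination w 1 * a1 - v 1 * b1
    exact (mul_eq_zero.1 this).resolve_right hD
  exact ⟨m01, m10, m00.trans m11.symm⟩

end lin

/-- Row SRB. -/
theorem srb25 (hN : StSNorm) : StSRb := by
  intro F K G Ω _ _ _ _ _ _ _ _ hS ω hcard hfix
  obtain ⟨v, hv, hvf⟩ := hfix
  -- a non-scalar element
  obtain ⟨m0, hm0, hm0'⟩ : ∃ m ∈ LS F G ω, psi F K m ≠ 1 := by
    by_contra hcon
    push Not at hcon
    have : (LS F G ω).map (psi F K) = ⊥ := by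
      rw [eq_bot_iff]
      rintro _ ⟨m, hm, rfl⟩
      exact hcon m hm
    rw [this, Subgroup.card_bot] at hcard
    exact absurd hcard (lt_irrefl _)
  -- the fixed lines are permuted
  have perm : ∀ g : G, g • ω = ω → ∀ u : Fin 2 → F, (∀ m ∈ LS F G ω, ∃ c : F, m • u = c • u) →
      ∀ m ∈ LS F G ω, ∃ c : F, m • (g • u) = c • (g • u) := by
    intro g hg u hu m hm
    have hg' : g⁻¹ • ω = ω := by rw [inv_smul_eq_iff, hg]
    obtain ⟨m', hm', h⟩ := hN F G Ω hS ω g⁻¹ hg' m hm
    obtain ⟨c, hc⟩ := hu m' hm'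
    obtain ⟨σ, hσ⟩ := hS.semi g
    refine ⟨σ c, ?_⟩
    have h1 := h (g • u)
    rw [inv_smul_smul, hc, inv_smul_eq_iff, hσ] at h1
    exact h1
  have gne : ∀ g : G, ∀ u : Fin 2 → F, u ≠ 0 → g • u ≠ 0 := by
    intro g u hu
    exact (smul_ne_zero_iff_ne g).2 hu
  by_cases hw : ∃ w : Fin 2 → F, w ≠ 0 ∧ (∀ m ∈ LS F G ω, ∃ c : F, m • w = c • w) ∧
      ∀ c : F, w ≠ c • v
  · right
    obtain ⟨w, hw0, hwf, hwv⟩ := hw
    have hvw : ∀ c : F, v ≠ c • w := by
      intro c hc
      by_cases hc0 : c = 0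
      · rw [hc0, zero_smul] at hc
        exact hv hc
      · apply hwv c⁻¹
        rw [hc, smul_smul, inv_mul_cancel₀ hc0, one_smul]
    have key : ∀ u : Fin 2 → F, (∀ m ∈ LS F G ω, ∃ c : F, m • u = c • u) →
        (∃ c : F, u = c • v) ∨ ∃ c : F, u = c • w := by
      intro u huf
      by_contra hcon
      push Not at hcon
      exact hm0' (scalar_of_three (K := K) m0 hv hw0 hwv hcon.1 hcon.2 (hvf m0 hm0) (hwf m0 hm0)
        (huf m0 hm0))
    refine ⟨v, w, hvw, hwv, ?_⟩
    intro g hg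
    obtain ⟨σ, hσ⟩ := hS.semi g
    -- two independent vectors do not go to the same line
    have two : ∀ z : Fin 2 → F, (∃ c : F, g • v = c • z) → (∃ c : F, g • w = c • z) → False := by
      rintro z ⟨c, hc⟩ ⟨c', hc'⟩
      have hc0 : c ≠ 0 := by
        rintro rfl
        rw [zero_smul] at hc
        exact gne g v hv hc
      apply hwv (σ.symm (c' * c⁻¹))
      apply smul_left_cancel g
      rw [hσ, RingEquiv.apply_symm_apply, hc, hc', smul_smul, mul_assoc, inv_mul_cancel₀ hc0,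
        mul_one]
    rcases key _ (perm g hg v hvf) with h1 | h1
    · rcases key _ (perm g hg w hwf) with h2 | h2
      · exact absurd h2 (fun h => two v h1 h)
      · exact Or.inl ⟨h1, h2⟩
    · rcases key _ (perm g hg w hwf) with h2 | h2
      · exact Or.inr ⟨h1, h2⟩
      · exact absurd h2 (fun h => two w h1 h)
  · left
    push Not at hw
    refine ⟨v, hv, ?_⟩
    intro g hg
    exact hw (g • v) (gne g v hv) (perm g hg v hvf)

end

end SpreadPerm.PL.SRb25
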