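import Pool.Agent.Lib.MP_e6ed9e_al.PL.Semi30
import Pool.Agent.Lib.MP_e6ed9e_al.PL.KerRat51

/-!
# SSMALL: a small linear part
-/

set_option autoImplicit false

namespace SpreadPerm.PL

open scoped LinearAlgebra.Projectivization MatrixGroups
open MulAction

noncomputable section

/-- a finite field has at most `log₂ q` automorphisms -/
theorem card_aut62 (F : Type) [Field F] [Fintype F] :
    2 ^ Nat.card (F ≃+* F) ≤ Fintype.card F := by
  obtain ⟨p, hp⟩ := CharP.exists F
  have : Fact p.Prime := ⟨CharP.char_is_prime F p⟩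
  let _ := ZMod.algebra F p
  have h1 : Nat.card (F ≃+* F) ≤ Nat.card (F ≃ₐ[ZMod p] F) := by
    have hc : ∀ σ : F ≃+* F, ∀ r : ZMod p, σ (algebraMap (ZMod p) F r) = algebraMap (ZMod p) F r := by
      intro σ r
      have : (σ.toRingHom.comp (algebraMap (ZMod p) F)) = algebraMap (ZMod p) F :=
        Subsingleton.elim _ _
      exact RingHom.congr_fun this r
    refine Nat.card_le_card_of_injective
      (fun σ : F ≃+* F => AlgEquiv.ofRingEquiv (f := σ) (hc σ)) ?_
    intro σ τ h
    ext v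
    exact congrArg (fun e : F ≃ₐ[ZMod p] F => e v) h
  have h2 : Nat.card (F ≃ₐ[ZMod p] F) = Module.finrank (ZMod p) F :=
    IsGalois.card_aut_eq_finrank (ZMod p) F
  rw [h2] at h1
  rw [← FiniteField.pow_finrank_eq_card p F]
  exact (Nat.pow_le_pow_right (by norm_num) h1).trans
    (Nat.pow_le_pow_left (CharP.char_is_prime F p).two_le _)

theorem lin62 {F G : Type} [Field F] [Group G] [DistribMulAction G (Fin 2 → F)] (h : G)
    (hl : ∀ (c : F) (v : Fin 2 → F), h • (c • v) = c • (h • v)) :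
    ∃ m : GL (Fin 2) F, ∀ v : Fin 2 → F, h • v = m • v := by
  have hl' : ∀ (c : F) (v : Fin 2 → F), h⁻¹ • (c • v) = c • (h⁻¹ • v) := by
    intro c v
    rw [inv_smul_eq_iff, hl, smul_inv_smul]
  let L : (Fin 2 → F) →ₗ[F] (Fin 2 → F) :=
    { toFun := fun v => h • v, map_add' := smul_add h, map_smul' := hl }
  let L' : (Fin 2 → F) →ₗ[F] (Fin 2 → F) :=
    { toFun := fun v => h⁻¹ • v, map_add' := smul_add h⁻¹, map_smul' := hl' }
  have e1 : L ∘ₗ L' = LinearMap.id := LinearMap.ext fun v => smul_inv_smul h v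
  have e2 : L' ∘ₗ L = LinearMap.id := LinearMap.ext fun v => inv_smul_smul h v
  refine ⟨⟨LinearMap.toMatrix' L, LinearMap.toMatrix' L', ?_, ?_⟩, ?_⟩
  · rw [← LinearMap.toMatrix'_comp, e1, LinearMap.toMatrix'_id]
  · rw [← LinearMap.toMatrix'_comp, e2, LinearMap.toMatrix'_id]
  · intro v
    change _ = (LinearMap.toMatrix' L).mulVec v
    rw [LinearMap.toMatrix'_mulVec]
    rfl

theorem num62 (f q : ℕ) (hq : 10000 ≤ q) (h : 2 ^ f ≤ q) : 60 * f < q := by
  by_cases h1 : f ≤ 166
  · omega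
  · push Not at h1
    obtain ⟨k, rfl⟩ : ∃ k, f = 160 + k := ⟨f - 160, by omega⟩
    have h2 : k < 2 ^ k := Nat.lt_two_pow_self
    have h3 : 2 ^ (160 + k) = 2 ^ 160 * 2 ^ k := pow_add _ _ _
    have h4 : 10000 * 2 ^ k ≤ 2 ^ 160 * 2 ^ k := Nat.mul_le_mul_right _ (by norm_num)
    omega

theorem ssmall62 : StSSmall := by
  intro F K G Ω _ _ _ _ _ _ _ _ hS ω hq hsmall
  classical
  by_contra hcon
  push Not at hcon
  let x : Fin 2 → F := ![1, 0]
  have hx : x ≠ 0 := fun h => one_ne_zero (congrFun h 0)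
  let y : F → (Fin 2 → F) := fun c => ![c, 1]
  have hy : ∀ c, y c ≠ 0 := fun c h => one_ne_zero (congrFun h 1)
  have h1 : ∀ c, ∃ g : G, g • ω = ω ∧ ∃ l : F, g • x = l • y c := fun c => hcon x (y c) hx (hy c)
  choose g hg l hl using h1
  choose σ hσ using hS.semi
  have hr : ∀ τ : F ≃+* F, ∃ r : G, (∃ g : G, g • ω = ω ∧ σ g = τ) → r • ω = ω ∧ σ r = τ := by
    intro τ
    by_cases h : ∃ g : G, g • ω = ω ∧ σ g = τ
    · obtain ⟨g, h1⟩ := h
      exact ⟨g, fun _ => h1⟩
    · exact ⟨1, fun h' => absurd h' h⟩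
  choose r hr using hr
  have hm : ∀ c, ∃ m ∈ LS F G ω, ∀ v : Fin 2 → F, g c • v = r (σ (g c)) • (m • v) := by
    intro c
    obtain ⟨hrω, hrσ⟩ := hr (σ (g c)) ⟨g c, hg c, rfl⟩
    have hlin : ∀ (a : F) (v : Fin 2 → F),
        ((r (σ (g c)))⁻¹ * g c) • (a • v) = a • (((r (σ (g c)))⁻¹ * g c) • v) := by
      intro a v
      rw [mul_smul, mul_smul, hσ (g c), inv_smul_eq_iff, hσ (r (σ (g c))), hrσ, smul_inv_smul]
    obtain ⟨m, hm⟩ := lin62 _ hlin
    refine ⟨m, ⟨(r (σ (g c)))⁻¹ * g c, ?_, hm⟩, ?_⟩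
    · rw [mul_smul, hg c, inv_smul_eq_iff, hrω]
    · intro v
      rw [← hm v, mul_smul, smul_inv_smul]
  choose m hmL hm using hm
  have hfin : Finite ((LS F G ω).map (psi F K)) := by
    have : Finite (GL (Fin 2) F) := inferInstance
    have : ((LS F G ω).map (psi F K) : Set (Equiv.Perm (PX K))) = psi F K '' (LS F G ω) := by
      rfl
    have h2 : ((LS F G ω).map (psi F K) : Set (Equiv.Perm (PX K))).Finite := by
      rw [this]
      exact Set.toFinite _
    exact h2.to_subtype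
  have hfin2 : Finite (F ≃+* F) :=
    Finite.of_injective (fun e : F ≃+* F => (e : F → F)) DFunLike.coe_injective
  let Φ : F → (F ≃+* F) × ((LS F G ω).map (psi F K)) :=
    fun c => (σ (g c), ⟨psi F K (m c), Subgroup.mem_map_of_mem _ (hmL c)⟩)
  have hinj : Function.Injective Φ := by
    intro c c' h
    have hs : σ (g c) = σ (g c') := congrArg Prod.fst h
    have hp : psi F K (m c) = psi F K (m c') := congrArg Subtype.val (congrArg Prod.snd h)
    have hp1 := congrArg (fun e : Equiv.Perm (PX K) => e (Projectivization.mk K (up F K x)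
      (up_ne51 hx))) hp
    simp only [psi_mk51] at hp1
    rw [mk_eq51, smul0_51, smul1_51, smul0_51, smul1_51] at hp1
    have hx0 : up F K x 0 = 1 := by simp [up, x]
    have hx1 : up F K x 1 = 0 := by simp [up, x]
    rw [hx0, hx1] at hp1
    simp only [mul_one, mul_zero, add_zero] at hp1
    rw [← map_mul, ← map_mul, ← map_sub, map_eq_zero_iff _ (algebraMap F K).injective] at hp1
    have e0 : ∀ n : GL (Fin 2) F, (n • x) 0 = n.1 0 0 := by
      intro n
      change (n.1.mulVec x) 0 = _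
      simp [Matrix.mulVec, dotProduct, Fin.sum_univ_two, x]
    have e1 : ∀ n : GL (Fin 2) F, (n • x) 1 = n.1 1 0 := by
      intro n
      change (n.1.mulVec x) 1 = _
      simp [Matrix.mulVec, dotProduct, Fin.sum_univ_two, x]
    have hne : ∀ n : GL (Fin 2) F, n • x ≠ 0 := fun n => (smul_ne_zero_iff_ne _).mpr hx
    have hmk : Projectivization.mk F (m c • x) (hne _) = Projectivization.mk F (m c' • x) (hne _) := by
      rw [mk_eq51, e0, e1, e0, e1]
      exact hp1
    rw [Projectivization.mk_eq_mk_iff'] at hmk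
    obtain ⟨a, ha⟩ := hmk
    -- a • (m c' • x) = m c • x
    have h3 : g c • x = (σ (r (σ (g c')))) a • (g c' • x) := by
      rw [hm c x, hm c' x, ← ha, hs, hσ]
    rw [hl, hl] at h3
    have h4 := congrFun h3 0
    have h5 := congrFun h3 1
    simp only [y, Pi.smul_apply, smul_eq_mul, Matrix.cons_val_zero, Matrix.cons_val_one,
      mul_one] at h4 h5
    have hl0 : l c ≠ 0 := by
      intro h0
      have h6 := hl c
      rw [h0, zero_smul] at h6
      exact (smul_ne_zero_iff_ne (g c)).mpr hx h6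
    rw [← mul_assoc, ← h5] at h4
    exact mul_left_cancel₀ hl0 h4
  have hcard := Nat.card_le_card_of_injective Φ hinj
  rw [Nat.card_prod, Nat.card_eq_fintype_card] at hcard
  have h7 := num62 _ _ hq (card_aut62 F)
  have h8 : Nat.card (F ≃+* F) * Nat.card ((LS F G ω).map (psi F K)) ≤
      Nat.card (F ≃+* F) * 60 := Nat.mul_le_mul_left _ hsmall
  omega

end

end SpreadPerm.PL
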