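import Pool.Agent.Lib.MP_e6ed9e_al.PL.TraForm30

/-!
# The transversal trick for groups with field automorphisms
-/

namespace SpreadPerm

open Finset

/-- The transversal trick, with automorphisms of `E`. -/
theorem tra0s {G Ω E : Type*} [Group G] [Fintype Ω] [MulAction G Ω] [CommGroup E] [Fintype E]
    [DecidableEq E] (N : Ω → E) (K : ℕ) (hK : 0 < K)
    (hN : ∀ x, (univ.filter fun w => N w = x).card = K)
    (hg : ∀ g : G, (∃ e, ∃ σ : E ≃* E, ∀ w, N (g⁻¹ • w) = e * σ (N w)) ∨
      ∃ σ : E ≃* E, ∃ ν : E → ℕ, ∀ x y,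
        (univ.filter fun w => N w = x ∧ N (g⁻¹ • w) = y).card = ν (x * σ y))
    (H : Subgroup E) (h1 : H ≠ ⊥) (h2 : H ≠ ⊤) (hH : ∀ (σ : E ≃* E) (x : E), σ x ∈ H ↔ x ∈ H) :
    NonSpreading G Ω := by
  classical
  let R : E → Prop := fun x => ((x : E ⧸ H)).out = x
  have hR : ∀ x, R x ↔ ((x : E ⧸ H)).out = x := fun x => Iff.rfl
  -- counting by fibres
  have fib : ∀ (P : E → Prop) [DecidablePred P],
      (univ.filter fun w => P (N w)).card = K * (univ.filter fun x : E => P x).card := by
    intro P _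
    rw [Finset.card_eq_sum_card_fiberwise (f := N) (t := univ.filter fun x : E => P x)
      (fun w hw => by
        simp only [Finset.coe_filter, Finset.mem_univ, true_and, Set.mem_ofPred_eq] at hw ⊢
        exact hw)]
    rw [Finset.sum_congr rfl (g := fun _ => K)]
    · rw [Finset.sum_const, smul_eq_mul, mul_comm]
    · intro x hx
      rw [← hN x]
      congr 1
      ext w
      simp only [Finset.mem_filter, Finset.mem_univ, true_and] at hx ⊢
      constructor
      · exact fun h => h.2
      · exact fun h => ⟨h ▸ hx, h⟩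
  have hex : ∀ x, ∃ w, N w = x := by
    intro x
    have h3 : 0 < (univ.filter fun w => N w = x).card := by rw [hN x]; exact hK
    obtain ⟨w, hw⟩ := Finset.card_pos.1 h3
    exact ⟨w, (Finset.mem_filter.1 hw).2⟩
  have hout : ∀ z : E, R ((z : E ⧸ H)).out := by
    intro z
    rw [hR]
    have h3 : ((((z : E ⧸ H)).out : E) : E ⧸ H) = (z : E ⧸ H) := Quotient.out_eq _
    rw [h3]
  obtain ⟨h0, hh0, hh1⟩ : ∃ h0 ∈ H, h0 ≠ 1 := by
    by_contra hcon
    push Not at hcon
    exact h1 ((Subgroup.eq_bot_iff_forall H).2 hcon)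
  obtain ⟨x0, hx0⟩ : ∃ x0, x0 ∉ H := by
    by_contra hcon
    push Not at hcon
    exact h2 ((Subgroup.eq_top_iff' H).2 hcon)
  have hnR : ∃ x, ¬ R x := by
    by_contra hcon
    push Not at hcon
    have h3 := hcon h0
    have h4 := hcon 1
    have h5 : (h0 : E ⧸ H) = ((1 : E) : E ⧸ H) := by
      rw [QuotientGroup.eq, mul_one]
      exact H.inv_mem hh0
    rw [hR, h5] at h3
    rw [hR] at h4
    exact hh1 (h3.symm.trans h4)
  refine ⟨fun w => if R (N w) then 1 else 0, fun w => if N w ∈ H then 1 else 0, K, hK, ?_, ?_,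
    ?_, ?_, ?_⟩
  · rintro (⟨c, hc⟩ | ⟨i, hi⟩)
    · obtain ⟨x, hx⟩ := hnR
      obtain ⟨w, hw⟩ := hex x
      obtain ⟨w', hw'⟩ := hex ((x0 : E ⧸ H)).out
      have e1 := hc w
      have e2 := hc w'
      simp only [hw, hw', if_neg hx, if_pos (hout x0)] at e1 e2
      omega
    · obtain ⟨w, hw⟩ := hex ((x0 : E ⧸ H)).out
      obtain ⟨w', hw'⟩ := hex (((1 : E) : E ⧸ H)).out
      have e1 : w = i := (hi w).1 (by simp only [hw, if_pos (hout x0)]; exact one_ne_zero)
      have e2 : w' = i := (hi w').1 (by simp only [hw', if_pos (hout 1)]; exact one_ne_zero)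
      have e3 : ((x0 : E ⧸ H)).out = (((1 : E) : E ⧸ H)).out := by
        rw [← hw, ← hw', e1, e2]
      have e4 : (x0 : E ⧸ H) = ((1 : E) : E ⧸ H) := by
        have := congrArg (fun y : E => (y : E ⧸ H)) e3
        simpa using this
      rw [eq_comm, QuotientGroup.eq, inv_one, one_mul] at e4
      exact hx0 e4
  · rintro (⟨c, hc⟩ | ⟨i, hi⟩)
    · obtain ⟨w, hw⟩ := hex x0
      obtain ⟨w', hw'⟩ := hex 1
      have e1 := hc w
      have e2 := hc w'
      simp only [hw, hw', if_neg hx0, if_pos H.one_mem] at e1 e2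
      omega
    · obtain ⟨w, hw⟩ := hex h0
      obtain ⟨w', hw'⟩ := hex 1
      have e1 : w = i := (hi w).1 (by simp only [hw, if_pos hh0]; exact one_ne_zero)
      have e2 : w' = i := (hi w').1 (by simp only [hw', if_pos H.one_mem]; exact one_ne_zero)
      apply hh1
      rw [← hw, ← hw', e1, e2]
  · intro g
    have e0 : ∑ i, (if R (N i) then 1 else 0) * (if N (g⁻¹ • i) ∈ H then 1 else 0) =
        (univ.filter fun w => R (N w) ∧ N (g⁻¹ • w) ∈ H).card := by
      rw [Finset.card_filter]
      refine Finset.sum_congr rfl fun w _ => ?_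
      by_cases ha : R (N w) <;> by_cases hb : N (g⁻¹ • w) ∈ H <;> simp [ha, hb]
    show ∑ i, (if R (N i) then 1 else 0) * (if N (g⁻¹ • i) ∈ H then 1 else 0) = K
    rw [e0]
    rcases hg g with ⟨e, σ, he⟩ | ⟨σ, ν, hν⟩
    · have e1 : (univ.filter fun w => R (N w) ∧ N (g⁻¹ • w) ∈ H) =
          univ.filter fun w => (fun x : E => ((x : E ⧸ H)).out = x ∧ x⁻¹ * (σ.symm e)⁻¹ ∈ H)
            (N w) := by
        ext w
        simp only [Finset.mem_filter, Finset.mem_univ, true_and]
        have e9 : e * σ (N w) = σ (σ.symm e * N w) := by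
          rw [map_mul, MulEquiv.apply_symm_apply]
        rw [he, hR, e9, hH, ← mul_inv_rev, H.inv_mem_iff]
      rw [e1]
      exact (fib (fun x : E => ((x : E ⧸ H)).out = x ∧ x⁻¹ * (σ.symm e)⁻¹ ∈ H)).trans
        (by rw [card_out30, mul_one])
    · have e1 : (univ.filter fun w => R (N w) ∧ N (g⁻¹ • w) ∈ H).card =
          ∑ x : E, ∑ y : E, if R x ∧ y ∈ H then ν (x * σ y) else 0 := by
        have e2 : ∀ x y : E, (if R x ∧ y ∈ H then ν (x * σ y) else 0) =
            ∑ w : Ω, if (R (N w) ∧ N (g⁻¹ • w) ∈ H) ∧ N w = x ∧ N (g⁻¹ • w) = y then 1 else 0 := by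
          intro x y
          rw [← hν x y, Finset.card_filter]
          by_cases hxy : R x ∧ y ∈ H
          · rw [if_pos hxy]
            refine Finset.sum_congr rfl fun w _ => ?_
            by_cases hw : N w = x ∧ N (g⁻¹ • w) = y
            · rw [if_pos hw, if_pos]
              rw [hw.1, hw.2]
              exact ⟨hxy, rfl, rfl⟩
            · rw [if_neg hw, if_neg]
              exact fun h => hw h.2
          · rw [if_neg hxy]
            symm
            refine Finset.sum_eq_zero fun w _ => ?_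
            rw [if_neg]
            rintro ⟨h3, h4, h5⟩
            rw [h4, h5] at h3
            exact hxy h3
        simp_rw [e2]
        rw [Finset.card_filter]
        have e3 : ∀ w : Ω, (∑ x : E, ∑ y : E,
            if (R (N w) ∧ N (g⁻¹ • w) ∈ H) ∧ N w = x ∧ N (g⁻¹ • w) = y then 1 else 0) =
            if R (N w) ∧ N (g⁻¹ • w) ∈ H then 1 else 0 := by
          intro w
          by_cases hw : R (N w) ∧ N (g⁻¹ • w) ∈ H
          · simp [hw, Finset.sum_ite_eq, ite_and]
          · simp [hw]
        rw [← Finset.sum_congr rfl (fun w _ => e3 w)]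
        rw [Finset.sum_comm]
        refine Finset.sum_congr rfl fun x _ => ?_
        rw [Finset.sum_comm]
      rw [e1]
      -- substitute `σ y = x⁻¹ z`
      have e4 : ∀ x : E, (∑ y : E, if R x ∧ y ∈ H then ν (x * σ y) else 0) =
          ∑ z : E, if R x ∧ x⁻¹ * z ∈ H then ν z else 0 := by
        intro x
        refine (Fintype.sum_equiv ((Equiv.mulLeft x⁻¹).trans σ.symm.toEquiv) _ _ fun z => ?_).symm
        have e8 : σ (((Equiv.mulLeft x⁻¹).trans σ.symm.toEquiv) z) = x⁻¹ * z := by
          show σ (σ.symm (x⁻¹ * z)) = x⁻¹ * z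
          rw [MulEquiv.apply_symm_apply]
        rw [e8, mul_inv_cancel_left]
        have e9 : (((Equiv.mulLeft x⁻¹).trans σ.symm.toEquiv) z) ∈ H ↔ x⁻¹ * z ∈ H := by
          rw [← hH σ, e8]
        simp only [e9]
      simp_rw [e4]
      rw [Finset.sum_comm]
      have e5 : ∀ z : E, (∑ x : E, if R x ∧ x⁻¹ * z ∈ H then ν z else 0) = ν z := by
        intro z
        rw [← Finset.sum_filter, Finset.sum_const, card_out30, one_smul]
      simp_rw [e5]
      rw [← Equiv.sum_comp σ.toEquiv (fun z => ν z)]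
      rw [← hN 1, Finset.card_eq_sum_card_fiberwise (f := fun w => N (g⁻¹ • w)) (t := univ)
        (fun w _ => Finset.mem_coe.2 (Finset.mem_univ _))]
      refine Finset.sum_congr rfl fun z _ => ?_
      have h3 := hν 1 z
      rw [one_mul] at h3
      show ν (σ z) = _
      rw [← h3, Finset.filter_filter]
  · intro i
    by_cases h : N i ∈ H
    · right; simp [h]
    · left; simp [h]
  · have e1 : ∑ i, (if R (N i) then 1 else 0) = K * (univ.filter fun x : E => R x).card := by
      rw [← fib R, Finset.card_filter]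
    have e2 : Fintype.card Ω = K * Fintype.card E := by
      have := fib (fun _ => True)
      simpa using this
    have e3 : Fintype.card E = (univ.filter fun x : E => R x).card * Nat.card H := by
      have e4 : (univ.filter fun x : E => R x).card = Nat.card (E ⧸ H) := by
        rw [Nat.card_eq_fintype_card, ← Finset.card_univ]
        refine (Finset.card_bij (fun (q : E ⧸ H) _ => q.out) ?_ ?_ ?_).symm
        · intro q _
          rw [Finset.mem_filter]
          refine ⟨Finset.mem_univ _, ?_⟩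
          rw [hR]
          congr 1
          exact Quotient.out_eq q
        · intro q _ q' _ hqq
          rw [← Quotient.out_eq q, ← Quotient.out_eq q', hqq]
        · intro x hx
          exact ⟨(x : E ⧸ H), Finset.mem_univ _, (Finset.mem_filter.1 hx).2⟩
      rw [e4, ← Nat.card_eq_fintype_card, H.card_eq_card_quotient_mul_card_subgroup]
    show (∑ i, (if R (N i) then 1 else 0)) ∣ Fintype.card Ω
    rw [e1, e2, e3, ← mul_assoc]
    exact Dvd.intro _ rfl

section
variable {F : Type*} [Field F]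

/-- The form with the coefficients moved by an automorphism of the field. -/
def bmp (τ : F ≃+* F) (f : F × F × F) : F × F × F := (τ f.1, τ f.2.1, τ f.2.2)

theorem bev_bmp (τ : F ≃+* F) (f : F × F × F) (x y : F) :
    τ (bev f x y) = bev (bmp τ f) (τ x) (τ y) := by
  simp only [bev, bmp, map_add, map_mul, map_pow]

theorem bdisc_bmp (τ : F ≃+* F) (f : F × F × F) : bdisc (bmp τ f) = τ (bdisc f) := by
  simp only [bdisc, bmp, map_sub, map_mul, map_pow, map_ofNat]

theorem BAniso.bmp {f : F × F × F} (h : BAniso f) (τ : F ≃+* F) : BAniso (bmp τ f) := by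
  intro x y hxy
  have h1 : τ (bev f (τ.symm x) (τ.symm y)) = 0 := by
    rw [bev_bmp, RingEquiv.apply_symm_apply, RingEquiv.apply_symm_apply]
    exact hxy
  obtain ⟨h2, h3⟩ := h _ _ ((map_eq_zero τ).1 h1)
  exact ⟨(map_eq_zero τ.symm).1 h2, (map_eq_zero τ.symm).1 h3⟩

/-- The action of a field automorphism on the nonzero squares. -/
def sqMap (τ : F ≃+* F) : SqE F ≃* SqE F where
  toFun e := ⟨Units.map τ.toMonoidHom e.1, by
    obtain ⟨t, ht⟩ := e.2
    refine ⟨Units.map τ.toMonoidHom t, ?_⟩
    rw [← ht]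
    simp⟩
  invFun e := ⟨Units.map τ.symm.toMonoidHom e.1, by
    obtain ⟨t, ht⟩ := e.2
    refine ⟨Units.map τ.symm.toMonoidHom t, ?_⟩
    rw [← ht]
    simp⟩
  left_inv e := by
    apply Subtype.ext
    apply Units.ext
    simp
  right_inv e := by
    apply Subtype.ext
    apply Units.ext
    simp
  map_mul' a b := by
    apply Subtype.ext
    simp

theorem sqMap_coe (τ : F ≃+* F) (e : SqE F) :
    (((sqMap τ e : SqE F) : Fˣ) : F) = τ ((e : Fˣ) : F) := rfl

end

/-- The transversal trick for anisotropic binary forms up to scalars and semilinear maps: `rep ω` is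
a form that represents the point `ω`. -/
theorem tra_formsS {F : Type*} [Field F] [Finite F] {G Ω : Type*} [Group G] [Fintype Ω]
    [Nonempty Ω] [MulAction G Ω] (rep : Ω → F × F × F) (han : ∀ w, BAniso (rep w))
    (hinj : ∀ w w' : Ω, (∃ l : F, l ≠ 0 ∧ rep w' = bsm l (rep w)) → w = w')
    (hsurj : ∀ f, BAniso f → ∃ w : Ω, ∃ l : F, l ≠ 0 ∧ rep w = bsm l f)
    (hG : ∀ g : G, ∃ τ : F ≃+* F, ∃ p q r s : F, p * s - q * r ≠ 0 ∧ ∀ w : Ω, ∃ l : F, l ≠ 0 ∧
      rep (g⁻¹ • w) = bsm l (bsub (bmp τ (rep w)) p q r s))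
    (H : Subgroup (SqE F)) (h1 : H ≠ ⊥) (h2 : H ≠ ⊤)
    (hH : ∀ (σ : SqE F ≃* SqE F) (x : SqE F), σ x ∈ H ↔ x ∈ H) : NonSpreading G Ω := by
  classical
  have := Fintype.ofFinite F
  have := Fintype.ofFinite (SqE F)
  obtain ⟨w0⟩ := (inferInstance : Nonempty Ω)
  have hev0 : ∀ (w : Ω) (x y : F), (x ≠ 0 ∨ y ≠ 0) → bev (rep w) x y ≠ 0 := by
    intro w x y hxy h
    obtain ⟨h3, h4⟩ := han w x y h
    rcases hxy with hx | hy
    · exact hx h3
    · exact hy h4
  have hnu0 : bdisc (rep w0) ≠ 0 := by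
    obtain ⟨s, hs, hs'⟩ := (han w0).disc_sq (han w0)
    intro h0
    -- the discriminant is not zero: compare with a shifted form
    have ha : (rep w0).1 ≠ 0 := by
      intro h
      exact one_ne_zero ((han w0) 1 0 (by simp [bev, h])).1
    by_cases h20 : (2 : F) = 0
    · have h40 : (4 : F) = 0 := by
        have : (4 : F) = 2 * 2 := by norm_num
        rw [this, h20, mul_zero]
      have h3 : (rep w0).2.1 = 0 := by
        have : (rep w0).2.1 ^ 2 = 0 := by
          have h4 := h0
          rw [bdisc, h40] at h4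
          linear_combination h4
        exact pow_eq_zero_iff (two_ne_zero) |>.1 this
      have hch : ringChar F = 2 := by
        have h5 : ((2 : ℕ) : F) = 0 := by exact_mod_cast h20
        have h6 := (ringChar.spec F 2).1 h5
        rcases (Nat.dvd_prime Nat.prime_two).1 h6 with h7 | h7
        · exact absurd h7 (CharP.ringChar_ne_one)
        · exact h7
      obtain ⟨u, hu⟩ := FiniteField.isSquare_of_char_two hch ((rep w0).2.2 / (rep w0).1)
      have h5 : (rep w0).2.2 = (rep w0).1 * u ^ 2 := by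
        rw [div_eq_iff ha] at hu
        rw [hu]
        ring
      have h6 := ((han w0) u 1 (by
        rw [bev, h3, h5]
        linear_combination ((rep w0).1 * u ^ 2) * h20)).2
      exact one_ne_zero h6
    · have h3 := ((han w0) (- (rep w0).2.1) (2 * (rep w0).1) (by
        rw [bdisc] at h0
        rw [bev]
        linear_combination (-(rep w0).1) * h0)).2
      exact mul_ne_zero h20 ha h3
  set nu := bdisc (rep w0) with hnu
  -- the values
  have hex : ∀ (w : Ω) (x y : F), ∃ e : SqE F, (x ≠ 0 ∨ y ≠ 0) →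
      bdisc (rep w) = nu * ((e : Fˣ) : F) * bev (rep w) x y ^ 2 := by
    intro w x y
    by_cases hxy : x ≠ 0 ∨ y ≠ 0
    · obtain ⟨s, hs, hs'⟩ := (han w).disc_sq (han w0)
      have h3 := hev0 w x y hxy
      refine ⟨⟨(Units.mk0 s hs / Units.mk0 _ h3) ^ 2, ⟨_, rfl⟩⟩, fun _ => ?_⟩
      rw [hs']
      push_cast
      rw [Units.val_mk0, Units.val_mk0]
      field_simp
      rw [hnu]
    · exact ⟨1, fun h => absurd h hxy⟩
  choose N hN using hex
  have huniq : ∀ (w : Ω) (x y : F), (x ≠ 0 ∨ y ≠ 0) → ∀ e : SqE F,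
      bdisc (rep w) = nu * ((e : Fˣ) : F) * bev (rep w) x y ^ 2 → N w x y = e := by
    intro w x y hxy e he
    have h3 := hN w x y hxy
    rw [he] at h3
    have h4 := hev0 w x y hxy
    have h5 : ((e : Fˣ) : F) = ((N w x y : Fˣ) : F) := by
      have h6 : nu * bev (rep w) x y ^ 2 ≠ 0 := mul_ne_zero hnu0 (pow_ne_zero 2 h4)
      apply mul_left_cancel₀ h6
      linear_combination h3
    apply Subtype.ext
    apply Units.ext
    exact h5.symm
  -- the square of a unit as an element of `SqE F`
  let sq : F → SqE F := fun t => if h : t = 0 then 1 else ⟨(Units.mk0 t h) ^ 2, ⟨_, rfl⟩⟩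
  have hsq : ∀ t : F, t ≠ 0 → (((sq t : SqE F) : Fˣ) : F) = t ^ 2 := by
    intro t ht
    simp only [sq, dif_neg ht]
    push_cast
    rfl
  -- the rule for a substitution
  have rule : ∀ (w w' : Ω) (l p q r s x y : F), l ≠ 0 → p * s - q * r ≠ 0 →
      rep w' = bsm l (bsub (rep w) p q r s) → (x ≠ 0 ∨ y ≠ 0) →
      N w' x y = sq (p * s - q * r) * N w (p * x + q * y) (r * x + s * y) := by
    intro w w' l p q r s x y hl hd hw hxy
    have hxy' : p * x + q * y ≠ 0 ∨ r * x + s * y ≠ 0 := by
      by_contra hcon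
      push Not at hcon
      obtain ⟨h3, h4⟩ := hcon
      have h5 : (p * s - q * r) * x = 0 := by linear_combination s * h3 - q * h4
      have h6 : (p * s - q * r) * y = 0 := by linear_combination p * h4 - r * h3
      rcases hxy with hx | hy
      · exact hx ((mul_eq_zero.1 h5).resolve_left hd)
      · exact hy ((mul_eq_zero.1 h6).resolve_left hd)
    apply huniq w' x y hxy
    rw [hw, bdisc_bsm, bdisc_bsub, bev_bsm, bev_bsub, hN w _ _ hxy']
    push_cast
    rw [hsq _ hd]
    ring
  -- the permutation of the points for a substitution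
  have perm : ∀ p q r s : F, p * s - q * r ≠ 0 → ∃ φ : Ω ≃ Ω, ∀ w, ∃ l : F, l ≠ 0 ∧
      rep (φ w) = bsm l (bsub (rep w) p q r s) := by
    intro p q r s hd
    have h3 : ∀ w : Ω, ∃ w' : Ω, ∃ l : F, l ≠ 0 ∧ rep w' = bsm l (bsub (rep w) p q r s) :=
      fun w => hsurj _ ((han w).bsub hd)
    choose φ hφ using h3
    have hinj' : Function.Injective φ := by
      intro w w' hww
      obtain ⟨l, hl, h4⟩ := hφ w
      obtain ⟨l', hl', h5⟩ := hφ w'
      rw [← hww, h4] at h5
      -- apply the inverse substitution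
      have h6 := congrArg (fun f => bsub f s (-q) (-r) p) h5
      simp only [bsub_bsm, bsub_bsub] at h6
      have e1 : p * s + q * -r = p * s - q * r := by ring
      have e2 : p * -q + q * p = 0 := by ring
      have e3 : r * s + s * -r = 0 := by ring
      have e4 : r * -q + s * p = p * s - q * r := by ring
      rw [e1, e2, e3, e4, bsub_diag, bsub_diag, bsm_bsm, bsm_bsm] at h6
      apply hinj
      refine ⟨l / l', div_ne_zero hl hl', ?_⟩
      have h7 := congrArg (bsm ((l' * (p * s - q * r) ^ 2)⁻¹)) h6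
      rw [bsm_bsm, bsm_bsm] at h7
      have h8 : l' * (p * s - q * r) ^ 2 ≠ 0 := mul_ne_zero hl' (pow_ne_zero 2 hd)
      rw [inv_mul_cancel₀ h8] at h7
      have h9 : bsm (1 : F) (rep w') = rep w' := by simp [bsm]
      rw [h9] at h7
      rw [← h7]
      congr 1
      have h10 := pow_ne_zero 2 hd
      field_simp
    exact ⟨Equiv.ofBijective φ (Finite.injective_iff_bijective.1 hinj'), hφ⟩
  -- the stretching of the first vector against `(p, r)` with `r ≠ 0`
  have stretch : ∀ p r : F, r ≠ 0 → ∀ e : SqE F, ∃ φ : Ω ≃ Ω, ∀ w,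
      N (φ w) 1 0 = e⁻¹ * N w 1 0 ∧ N (φ w) p r = e * N w p r := by
    intro p r hr e
    obtain ⟨t, ht⟩ := e.2
    have ht' : ((e : Fˣ) : F) = (t : F) ^ 2 := by
      rw [← ht]
      rfl
    obtain ⟨φ, hφ⟩ := perm (t : F) (p / r * (1 - (t : F))) 0 1 (by
      rw [mul_one, mul_zero, sub_zero]
      exact t.ne_zero)
    refine ⟨φ, fun w => ?_⟩
    obtain ⟨l, hl, h3⟩ := hφ w
    have hd : (t : F) * 1 - p / r * (1 - (t : F)) * 0 = (t : F) := by ring
    have hd0 : (t : F) * 1 - p / r * (1 - (t : F)) * 0 ≠ 0 := by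
      rw [hd]
      exact t.ne_zero
    have hsqe : sq ((t : F) * 1 - p / r * (1 - (t : F)) * 0) = e := by
      apply Subtype.ext
      apply Units.ext
      rw [hsq _ hd0, hd, ht']
    constructor
    · rw [rule w (φ w) l _ _ _ _ 1 0 hl hd0 h3 (Or.inl one_ne_zero), hsqe]
      have e1 : (t : F) * 1 + p / r * (1 - (t : F)) * 0 = (t : F) := by ring
      have e2 : (0 : F) * 1 + 1 * 0 = 0 := by ring
      rw [e1, e2]
      have h4 : N w (t : F) 0 = e⁻¹ * e⁻¹ * N w 1 0 := by
        apply huniq w _ _ (Or.inl t.ne_zero)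
        rw [hN w 1 0 (Or.inl one_ne_zero)]
        have h5 : bev (rep w) (t : F) 0 = (t : F) ^ 2 * bev (rep w) 1 0 := by
          have := bev_smul (rep w) (t : F) 1 0
          rw [mul_one, mul_zero] at this
          exact this
        rw [h5]
        push_cast
        rw [ht']
        have := t.ne_zero
        field_simp
      rw [h4]
      group
    · rw [rule w (φ w) l _ _ _ _ p r hl hd0 h3 (Or.inr hr), hsqe]
      have e1 : (t : F) * p + p / r * (1 - (t : F)) * r = p := by
        field_simp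
        ring
      have e2 : (0 : F) * p + 1 * r = r := by ring
      rw [e1, e2]
  -- counting
  have cnt : ∀ p r : F, r ≠ 0 → ∀ e x y : SqE F,
      (univ.filter fun w => N w 1 0 = x ∧ N w p r = y).card =
        (univ.filter fun w => N w 1 0 = e * x ∧ N w p r = e⁻¹ * y).card := by
    intro p r hr e x y
    obtain ⟨φ, hφ⟩ := stretch p r hr e⁻¹
    refine Finset.card_bij (fun w _ => φ w) ?_ ?_ ?_
    · intro w hw
      rw [Finset.mem_filter] at hw ⊢
      obtain ⟨-, h3, h4⟩ := hw
      obtain ⟨h5, h6⟩ := hφ w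
      rw [inv_inv] at h5
      exact ⟨Finset.mem_univ _, by rw [h5, h3], by rw [h6, h4]⟩
    · intro w _ w' _ h
      exact φ.injective h
    · intro w hw
      rw [Finset.mem_filter] at hw
      obtain ⟨-, h3, h4⟩ := hw
      obtain ⟨h5, h6⟩ := hφ (φ.symm w)
      rw [inv_inv, φ.apply_symm_apply] at h5
      rw [φ.apply_symm_apply] at h6
      refine ⟨φ.symm w, ?_, φ.apply_symm_apply w⟩
      rw [Finset.mem_filter]
      refine ⟨Finset.mem_univ _, ?_, ?_⟩
      · rw [h3] at h5
        exact (mul_left_cancel h5).symm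
      · rw [h4] at h6
        exact (mul_left_cancel h6).symm
  have cnt1 : ∀ x : SqE F, (univ.filter fun w => N w 1 0 = x).card =
      (univ.filter fun w => N w 1 0 = 1).card := by
    intro x
    obtain ⟨φ, hφ⟩ := stretch 0 1 one_ne_zero x
    refine Finset.card_bij (fun w _ => φ w) ?_ ?_ ?_
    · intro w hw
      rw [Finset.mem_filter] at hw ⊢
      refine ⟨Finset.mem_univ _, ?_⟩
      rw [(hφ w).1, hw.2, inv_mul_cancel]
    · intro w _ w' _ h
      exact φ.injective h
    · intro w hw
      rw [Finset.mem_filter] at hw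
      refine ⟨φ.symm w, ?_, φ.apply_symm_apply w⟩
      rw [Finset.mem_filter]
      refine ⟨Finset.mem_univ _, ?_⟩
      have h3 := (hφ (φ.symm w)).1
      rw [φ.apply_symm_apply, hw.2] at h3
      rw [eq_comm, inv_mul_eq_one] at h3
      exact h3.symm
  refine tra0s (fun w => N w 1 0) (univ.filter fun w => N w 1 0 = 1).card ?_ cnt1 ?_ H h1 h2 hH
  · rw [← cnt1 (N w0 1 0), Finset.card_pos]
    exact ⟨w0, by simp⟩
  · intro g
    obtain ⟨τ, p, q, r, s, hd, hw⟩ := hG g
    -- the constant of the automorphism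
    obtain ⟨k, hk0, hk⟩ := (BAniso.bmp (han w0) τ).disc_sq (han w0)
    rw [bdisc_bmp, ← hnu] at hk
    have h3 : ∀ w, N (g⁻¹ • w) 1 0 =
        sq (p * s - q * r) * sq k * sqMap τ (N w (τ.symm p) (τ.symm r)) := by
      intro w
      obtain ⟨l, hl, h4⟩ := hw w
      have hpr : p ≠ 0 ∨ r ≠ 0 := by
        by_contra hcon
        push Not at hcon
        apply hd
        rw [hcon.1, hcon.2]
        ring
      have hpr' : τ.symm p ≠ 0 ∨ τ.symm r ≠ 0 := by
        rcases hpr with h | h
        · exact Or.inl (fun h0 => h ((map_eq_zero τ.symm).1 h0))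
        · exact Or.inr (fun h0 => h ((map_eq_zero τ.symm).1 h0))
      apply huniq _ _ _ (Or.inl one_ne_zero)
      have h5 := congrArg τ (hN w _ _ hpr')
      rw [h4, bdisc_bsm, bdisc_bsub, bev_bsm, bev_bsub, bdisc_bmp, h5]
      have e1 : p * 1 + q * 0 = p := by ring
      have e2 : r * 1 + s * 0 = r := by ring
      rw [e1, e2]
      have e3 : bev (bmp τ (rep w)) p r = τ (bev (rep w) (τ.symm p) (τ.symm r)) := by
        rw [bev_bmp, RingEquiv.apply_symm_apply, RingEquiv.apply_symm_apply]
      rw [e3, map_mul, map_mul, map_pow, hk]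
      push_cast
      rw [hsq _ hd, hsq _ hk0, sqMap_coe]
      ring
    by_cases hr : r = 0
    · left
      subst hr
      have hp : p ≠ 0 := by
        rintro rfl
        apply hd
        ring
      have hp' : τ.symm p ≠ 0 := fun h0 => hp ((map_eq_zero τ.symm).1 h0)
      refine ⟨sq (p * s - q * 0) * sq k * sqMap τ ((sq (τ.symm p))⁻¹ * (sq (τ.symm p))⁻¹),
        sqMap τ, fun w => ?_⟩
      show N (g⁻¹ • w) 1 0 = _
      rw [h3 w, map_zero]
      have h4 : N w (τ.symm p) 0 = (sq (τ.symm p))⁻¹ * (sq (τ.symm p))⁻¹ * N w 1 0 := by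
        apply huniq w _ _ (Or.inl hp')
        rw [hN w 1 0 (Or.inl one_ne_zero)]
        have h5 : bev (rep w) (τ.symm p) 0 = (τ.symm p) ^ 2 * bev (rep w) 1 0 := by
          have := bev_smul (rep w) (τ.symm p) 1 0
          rw [mul_one, mul_zero] at this
          exact this
        rw [h5]
        push_cast
        rw [hsq _ hp']
        field_simp
      rw [h4, map_mul]
      group
    · right
      have hr' : τ.symm r ≠ 0 := fun h0 => hr ((map_eq_zero τ.symm).1 h0)
      refine ⟨(sqMap τ).symm, fun z => (univ.filter fun w => N w 1 0 = 1 ∧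
        N w (τ.symm p) (τ.symm r) =
          (sqMap τ).symm (sq (p * s - q * r) * sq k)⁻¹ * z).card, fun x y => ?_⟩
      show (univ.filter fun w => N w 1 0 = x ∧ N (g⁻¹ • w) 1 0 = y).card = _
      have h4 : (univ.filter fun w => N w 1 0 = x ∧ N (g⁻¹ • w) 1 0 = y) =
          univ.filter fun w => N w 1 0 = x ∧ N w (τ.symm p) (τ.symm r) =
            (sqMap τ).symm ((sq (p * s - q * r) * sq k)⁻¹ * y) := by
        ext w
        simp only [Finset.mem_filter, Finset.mem_univ, true_and]
        rw [h3 w, MulEquiv.eq_symm_apply, eq_inv_mul_iff_mul_eq]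
      rw [h4, cnt _ _ hr' x⁻¹, inv_mul_cancel, inv_inv, map_mul]
      congr 1
      ext w
      simp only [Finset.mem_filter, Finset.mem_univ, true_and]
      rw [mul_left_comm]

end SpreadPerm
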