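import Pool.Agent.Lib.MP_e6ed9e_al.PL.Semi30
import Pool.Agent.Lib.MP_e6ed9e_al.PL.TraRow30
import Pool.Agent.Lib.MP_e6ed9e_al.PL.TraS30
import Pool.Agent.Lib.MP_e6ed9e_al.PL.SBase30

/-!
# Row STRA
-/

namespace SpreadPerm.PL

open scoped LinearAlgebra.Projectivization MatrixGroups
open MulAction

/-- The elements of order dividing `p` in the group of the nonzero squares. -/
theorem exists_char30 (F : Type) [Field F] [Finite F] (d e : ℕ)
    (hcard : Nat.card (SqE F) = d * e) (hd : 2 ≤ d) (he : 2 ≤ e) :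
    ∃ H : Subgroup (SqE F), H ≠ ⊥ ∧ H ≠ ⊤ ∧
      ∀ (σ : SqE F ≃* SqE F) (x : SqE F), σ x ∈ H ↔ x ∈ H := by
  obtain ⟨p, hp, hpd⟩ := Nat.exists_prime_and_dvd (show d ≠ 1 by omega)
  have : Fact p.Prime := ⟨hp⟩
  obtain ⟨x, hx⟩ := exists_prime_orderOf_dvd_card' (G := SqE F) p (by
    rw [hcard]
    exact Dvd.dvd.mul_right hpd e)
  refine ⟨(powMonoidHom p : SqE F →* SqE F).ker, ?_, ?_, ?_⟩
  · intro h
    have h1 : x ∈ (powMonoidHom p : SqE F →* SqE F).ker := by
      rw [MonoidHom.mem_ker, powMonoidHom_apply, ← hx, pow_orderOf_eq_one]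
    rw [h, Subgroup.mem_bot] at h1
    rw [h1, orderOf_one] at hx
    exact hp.one_lt.ne hx
  · intro h
    obtain ⟨g, hg⟩ := IsCyclic.exists_generator (α := SqE F)
    have h1 : g ∈ (powMonoidHom p : SqE F →* SqE F).ker := by
      rw [h]
      exact Subgroup.mem_top g
    rw [MonoidHom.mem_ker, powMonoidHom_apply] at h1
    have h2 : orderOf g = Nat.card (SqE F) := orderOf_eq_card_of_forall_mem_zpowers hg
    have h3 : orderOf g ∣ p := orderOf_dvd_of_pow_eq_one h1
    rw [h2, hcard] at h3
    have h4 : p ≤ d := Nat.le_of_dvd (by omega) hpd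
    have h5 : d * e ≤ p := Nat.le_of_dvd hp.pos h3
    nlinarith
  · intro σ y
    rw [MonoidHom.mem_ker, MonoidHom.mem_ker, powMonoidHom_apply, powMonoidHom_apply, ← map_pow]
    constructor
    · intro h
      exact σ.injective (h.trans (map_one σ).symm)
    · intro h
      rw [h, map_one]

theorem stra30 : StSTra := by
  classical
  intro F G Ω _ _ _ _ _ _ A B C hE m d e hm hde hd he
  obtain ⟨f0, hf0⟩ := exists_aniso30 F
  have hcard := card_sqE30 F
  rw [← hm] at hcard
  obtain ⟨H, h1, h2, hH⟩ := exists_char30 F d e (hcard.trans hde) hd he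
  have hbq : ∀ f : F × F × F, BAniso f → ∀ v : Fin 2 → F, v ≠ 0 → bq f.1 f.2.1 f.2.2 v ≠ 0 := by
    intro f hf v hv h
    apply hv
    have h3 := hf (v 0) (v 1) (by
      rw [bev]
      exact h)
    ext i
    fin_cases i
    · exact h3.1
    · exact h3.2
  have hne : Nonempty Ω := by
    obtain ⟨w, -⟩ := hE.surj f0.1 f0.2.1 f0.2.2 (hbq f0 hf0)
    exact ⟨w⟩
  refine tra_formsS (fun w => (A w, B w, C w)) ?_ ?_ ?_ ?_ H h1 h2 hH
  · intro w x y hxy
    by_contra hcon
    rw [not_and_or] at hcon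
    refine hE.aniso w ![x, y] ?_ ?_
    · intro h
      have e0 := congrFun h 0
      have e1 := congrFun h 1
      simp at e0 e1
      rcases hcon with hc | hc
      · exact hc e0
      · exact hc e1
    · rw [← bev_eq_bq30]
      exact hxy
  · rintro w w' ⟨l, hl, hl'⟩
    simp only [bsm, Prod.mk.injEq] at hl'
    exact (hE.inj w w' l hl'.1 hl'.2.1 hl'.2.2).symm
  · intro f hf
    obtain ⟨w, l, hl, e1, e2, e3⟩ := hE.surj f.1 f.2.1 f.2.2 (hbq f hf)
    refine ⟨w, l, hl, ?_⟩
    simp only [bsm, Prod.mk.injEq]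
    exact ⟨e1, e2, e3⟩
  · intro g
    obtain ⟨σ, hσ, hact⟩ := hE.semi g⁻¹
    -- `g` is semilinear with the inverse automorphism
    have hg : ∀ (c : F) (v : Fin 2 → F), g • (c • v) = σ.symm c • (g • v) := by
      intro c v
      have h3 := hσ (σ.symm c) (g • v)
      rw [RingEquiv.apply_symm_apply, inv_smul_smul] at h3
      rw [← h3, smul_inv_smul]
    refine ⟨σ, σ ((g • (![1, 0] : Fin 2 → F)) 0), σ ((g • (![0, 1] : Fin 2 → F)) 0),
      σ ((g • (![1, 0] : Fin 2 → F)) 1), σ ((g • (![0, 1] : Fin 2 → F)) 1), ?_, fun w => ?_⟩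
    · -- the images of the basis are independent
      rw [← map_mul, ← map_mul, ← map_sub]
      intro h3
      have h4 := (map_eq_zero σ).1 h3
      have h5 : dt30 (g • (![1, 0] : Fin 2 → F)) (g • (![0, 1] : Fin 2 → F)) = 0 := by
        rw [dt30]
        linear_combination h4
      have h6 : (![0, 1] : Fin 2 → F) ≠ 0 := by
        intro h
        exact one_ne_zero (congrFun h 1)
      obtain ⟨c, hc⟩ := dt30_zero (sbase_ne30 g h6) h5
      have h7 : (![1, 0] : Fin 2 → F) = σ c • (![0, 1] : Fin 2 → F) := by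
        have h8 := congrArg (fun v => g⁻¹ • v) hc
        simp only [inv_smul_smul, hσ] at h8
        exact h8
      have h9 := congrFun h7 0
      simp at h9
    · obtain ⟨l, hl, h3⟩ := hact w
      refine ⟨l, hl, ?_⟩
      have h4 : ∀ x y : F, bq (A (g⁻¹ • w)) (B (g⁻¹ • w)) (C (g⁻¹ • w)) ![x, y] =
          l * bev (bmp σ (A w, B w, C w))
            (σ ((g • (![1, 0] : Fin 2 → F)) 0) * x + σ ((g • (![0, 1] : Fin 2 → F)) 0) * y)
            (σ ((g • (![1, 0] : Fin 2 → F)) 1) * x + σ ((g • (![0, 1] : Fin 2 → F)) 1) * y) := by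
        intro x y
        have h5 := h3 (g • (![x, y] : Fin 2 → F))
        rw [inv_smul_smul] at h5
        rw [h5]
        congr 1
        have h6 : (![x, y] : Fin 2 → F) = x • (![1, 0] : Fin 2 → F) + y • (![0, 1] : Fin 2 → F) := by
          ext i
          fin_cases i <;> simp
        have h7 : g • (![x, y] : Fin 2 → F) =
            σ.symm x • (g • (![1, 0] : Fin 2 → F)) + σ.symm y • (g • (![0, 1] : Fin 2 → F)) := by
          rw [h6, smul_add, hg, hg]
        have h8 : bq (A w) (B w) (C w) (g • (![x, y] : Fin 2 → F)) =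
            bev (A w, B w, C w) ((g • (![x, y] : Fin 2 → F)) 0) ((g • (![x, y] : Fin 2 → F)) 1) := by
          simp only [bq, bev]
        rw [h8, bev_bmp, h7]
        congr 1
        · simp only [Pi.add_apply, Pi.smul_apply, smul_eq_mul, map_add, map_mul,
            RingEquiv.apply_symm_apply]
          ring
        · simp only [Pi.add_apply, Pi.smul_apply, smul_eq_mul, map_add, map_mul,
            RingEquiv.apply_symm_apply]
          ring
      have e1 := h4 1 0
      have e2 := h4 0 1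
      have e3 := h4 1 1
      simp only [bq, bev, Matrix.cons_val_zero, Matrix.cons_val_one] at e1 e2 e3
      simp only [bsm, bsub, bev, Prod.mk.injEq]
      refine ⟨?_, ?_, ?_⟩
      · linear_combination e1
      · linear_combination e3 - e1 - e2
      · linear_combination e2

end SpreadPerm.PL
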