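import Pool.Agent.Lib.MP_e6ed9e_al.PL.SBase30
import Pool.Agent.Lib.MP_e6ed9e_al.PL.KerRat51
import Pool.Agent.Lib.MP_e6ed9e_al.PL.Main47

/-! # Row SUNI -/

namespace SpreadPerm.PL

open scoped LinearAlgebra.Projectivization MatrixGroups
open MulAction

noncomputable section

section
variable {F K : Type} [Field F] [Fintype F] [Field K] [IsAlgClosed K] [Algebra F K]

theorem fin_map30 (S : Subgroup (GL (Fin 2) F)) : Finite (S.map (psi F K)) := by
  classical
  have h1 : ((S.map (psi F K) : Subgroup (Equiv.Perm (PX K))) : Set (Equiv.Perm (PX K))).Finite := by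
    have : ((S : Subgroup (GL (Fin 2) F)) : Set (GL (Fin 2) F)).Finite := Set.toFinite _
    exact this.image _
  exact h1.to_subtype

theorem uc_ex30 (S : Subgroup (GL (Fin 2) F)) (x : PX K) (h : 1 < Uc (S.map (psi F K)) x) :
    ∃ m ∈ S, psi F K m ≠ 1 ∧ ∀ y, psi F K m y = y ↔ y = x := by
  have := fin_map30 (K := K) S
  obtain ⟨b, hb⟩ := one_lt_card_ex (α := {h : S.map (psi F K) // IsU x h}) h ⟨1, Or.inl rfl⟩
  obtain ⟨⟨b, hb1⟩, hb2⟩ := b
  obtain ⟨m, hm, rfl⟩ := hb1
  have hne : psi F K m ≠ 1 := by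
    intro h1
    apply hb
    apply Subtype.ext
    apply Subtype.ext
    exact h1
  refine ⟨m, hm, hne, ?_⟩
  rcases hb2 with h2 | h2
  · exact absurd (congrArg Subtype.val h2) hne
  · exact h2

theorem uc_of30 (S : Subgroup (GL (Fin 2) F)) (x : PX K) (m : GL (Fin 2) F) (hm : m ∈ S)
    (hne : psi F K m ≠ 1) (hx : ∀ y, psi F K m y = y ↔ y = x) : 1 < Uc (S.map (psi F K)) x := by
  have := fin_map30 (K := K) S
  have h1 : Nontrivial {h : S.map (psi F K) // IsU x h} :=
    ⟨⟨1, Or.inl rfl⟩, ⟨⟨psi F K m, ⟨m, hm, rfl⟩⟩, Or.inr hx⟩, by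
      intro h
      exact hne (congrArg (fun t => t.1.1) h).symm⟩
  exact Finite.one_lt_card_iff_nontrivial.2 h1

end

theorem suni30 : StSUni := by
  intro F K G Ω _ _ _ _ _ _ _ _ hL ω ⟨x, hx⟩ hlt
  obtain ⟨m, hm, hm1, hmx⟩ := uc_ex30 _ x hx
  have hxr : Rat F K x := (rat51 F K m hm1).1 x hmx
  have hfin : {z : PX K | 1 < Uc ((LS F G ω).map (psi F K)) z}.Finite := by
    refine (Set.finite_range (rp F K)).subset ?_
    intro z hz
    obtain ⟨n, _, hn1, hnz⟩ := uc_ex30 _ z hz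
    exact (rat_iff z).1 ((rat51 F K n hn1).1 z hnz)
  obtain ⟨y, hyr, hy⟩ := ex_rat _ hfin hlt
  obtain ⟨v, hv, hv1, rfl⟩ := hxr
  obtain ⟨w, hw, hw1, rfl⟩ := hyr
  refine ⟨v, w, hv, hw, fun g hg c hc => hy ?_⟩
  obtain ⟨m', hm', hmm⟩ := snorm30 F G Ω hL ω g hg m hm
  obtain ⟨σ, hσ⟩ := hL.semi g
  -- the rational fixed points of `m'`
  have hA : ∀ u : Fin 2 → F, u ≠ 0 → (∃ d : F, m' • u = d • u) → ∃ e : F, u = e • w := by
    rintro u hu ⟨d, hd⟩
    have h1 : m • (g⁻¹ • u) = σ.symm d • (g⁻¹ • u) := by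
      have h2 : g • (m • (g⁻¹ • u)) = g • (σ.symm d • (g⁻¹ • u)) := by
        rw [hmm, smul_inv_smul, hd, hσ, smul_inv_smul, RingEquiv.apply_symm_apply]
      exact smul_left_cancel g h2
    have hgu : g⁻¹ • u ≠ 0 := (smul_ne_zero_iff_ne _).2 hu
    have hmgu : m • (g⁻¹ • u) ≠ 0 := (smul_ne_zero_iff_ne _).2 hgu
    have h3 : psi F K m (Projectivization.mk K (up F K (g⁻¹ • u)) (up_ne hgu)) =
        Projectivization.mk K (up F K (g⁻¹ • u)) (up_ne hgu) := by
      rw [psi_up m (up_ne hgu) (up_ne hmgu), Projectivization.mk_eq_mk_iff']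
      refine ⟨algebraMap F K (σ.symm d), ?_⟩
      funext i
      have := congrFun h1 i
      show algebraMap F K (σ.symm d) * algebraMap F K ((g⁻¹ • u) i) = algebraMap F K ((m • (g⁻¹ • u)) i)
      rw [this, ← map_mul]
      rfl
    obtain ⟨e, he⟩ := mk_up_eq _ _ ((hmx _).1 h3)
    refine ⟨σ e * c, ?_⟩
    rw [inv_smul_eq_iff, hσ, hc] at he
    rw [he, smul_smul]
  -- `w` is fixed
  have hw2 : ∃ d : F, m' • w = d • w := by
    have h1 : psi F K m (Projectivization.mk K (up F K v) hv1) =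
        Projectivization.mk K (up F K v) hv1 := (hmx _).2 rfl
    have hmv : m • v ≠ 0 := (smul_ne_zero_iff_ne _).2 hv
    rw [psi_up m hv1 (up_ne hmv)] at h1
    obtain ⟨d, hd⟩ := mk_up_eq _ _ h1
    have h2 : m' • (c • w) = σ d • (c • w) := by
      rw [← hc, ← hmm, hd, hσ]
    have hc0 : c ≠ 0 := by
      rintro rfl
      rw [zero_smul] at hc
      exact hv ((smul_eq_zero_iff_eq g).1 hc)
    refine ⟨σ d, ?_⟩
    have h3 : c • (m' • w) = c • (σ d • w) := by
      rw [← smul_comm c (σ d) w] at h2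
      rw [← h2, gl_smul, gl_smul, Matrix.mulVec_smul]
    exact (smul_right_injective _ hc0) h3
  have hfixw : psi F K m' (Projectivization.mk K (up F K w) hw1) =
      Projectivization.mk K (up F K w) hw1 := by
    obtain ⟨d, hd⟩ := hw2
    have hmw : m' • w ≠ 0 := (smul_ne_zero_iff_ne _).2 hw
    rw [psi_up m' hw1 (up_ne hmw), Projectivization.mk_eq_mk_iff']
    refine ⟨algebraMap F K d, ?_⟩
    funext i
    have := congrFun hd i
    show algebraMap F K d * algebraMap F K (w i) = algebraMap F K ((m' • w) i)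
    rw [this, ← map_mul]
    rfl
  -- rational fixed points again
  have hB : ∀ z : PX K, Rat F K z → psi F K m' z = z →
      z = Projectivization.mk K (up F K w) hw1 := by
    rintro z ⟨u, hu, hu1, rfl⟩ hz
    have hmu : m' • u ≠ 0 := (smul_ne_zero_iff_ne _).2 hu
    rw [psi_up m' hu1 (up_ne hmu)] at hz
    obtain ⟨e, he⟩ := hA u hu (mk_up_eq _ _ hz)
    rw [Projectivization.mk_eq_mk_iff']
    refine ⟨algebraMap F K e, ?_⟩
    funext i
    have := congrFun he i
    show algebraMap F K e * algebraMap F K (w i) = algebraMap F K (u i)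
    rw [this, ← map_mul]
    rfl
  have hne : psi F K m' ≠ 1 := by
    intro h1
    have h2 := hB (rp F K none) (rp_rat _) (by rw [h1]; rfl)
    have h3 := hB (rp F K (some 0)) (rp_rat _) (by rw [h1]; rfl)
    have h4 := rp_inj (h2.trans h3.symm)
    exact absurd h4 (by simp)
  refine uc_of30 _ _ m' hm' hne ?_
  intro z
  constructor
  · intro hz
    by_contra hzw
    rcases (rat51 F K m' hne).2 z _ hzw hz hfixw with ⟨h1, _⟩ | ⟨a, b, c', han, h1⟩
    · exact hzw (hB z h1 hz)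
    · have h2 := (h1 (Projectivization.mk K (up F K w) hw1)).2 (Or.inr rfl)
      obtain ⟨t, ht⟩ := Projectivization.exists_smul_eq_mk_rep K (up F K w) hw1
      rw [← ht, Units.smul_def, bq_smul, bq_up51] at h2
      rcases mul_eq_zero.1 h2 with h3 | h3
      · exact t.ne_zero (pow_eq_zero_iff (two_ne_zero) |>.1 h3)
      · exact han w hw ((map_eq_zero (algebraMap F K)).1 h3)
  · rintro rfl
    exact hfixw

end

end SpreadPerm.PL
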