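import Pool.Agent.Lib.MP_e6ed9e_al.PL.Srb16

/-!
# Row SRP: the linear part of the stabilizer preserves a pair of rational points
-/

namespace SpreadPerm.PL

open scoped LinearAlgebra.Projectivization MatrixGroups
open MulAction Pgl16 Srb16

namespace Srp1

variable {F : Type} [Field F]

/-- both lines are fixed -/
def Fx (v w : Fin 2 → F) (m : GL (Fin 2) F) : Prop :=
  (∃ c : F, m • v = c • v) ∧ ∃ c : F, m • w = c • w

/-- the lines are exchanged -/
def Sw (v w : Fin 2 → F) (m : GL (Fin 2) F) : Prop :=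
  (∃ c : F, m • v = c • w) ∧ ∃ c : F, m • w = c • v

theorem ne_zero_of {v w : Fin 2 → F} (h : ∀ c : F, v ≠ c • w) : v ≠ 0 := by
  rintro rfl
  exact h 0 (by rw [zero_smul])

theorem inv_line {m : GL (Fin 2) F} {x y : Fin 2 → F} {c : F} (hx : x ≠ 0) (h : m • x = c • y) :
    c ≠ 0 ∧ m⁻¹ • y = c⁻¹ • x := by
  have hc : c ≠ 0 := by
    rintro rfl
    rw [zero_smul] at h
    exact hx ((smul_eq_zero_iff_eq m).1 h)
  refine ⟨hc, ?_⟩
  rw [inv_smul_eq_iff, smul_comm m c⁻¹ x, h, smul_smul, inv_mul_cancel₀ hc, one_smul]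

theorem comp_line {m n : GL (Fin 2) F} {x y z : Fin 2 → F} {c d : F} (h1 : n • x = c • y)
    (h2 : m • y = d • z) : (m * n) • x = (c * d) • z := by
  rw [mul_smul, h1, smul_comm m c y, h2, smul_smul]

/-- squares preserve both lines -/
theorem sq_fx {v w : Fin 2 → F} {m : GL (Fin 2) F} (h : Fx v w m ∨ Sw v w m) :
    Fx v w (m * m) := by
  rcases h with ⟨⟨a, ha⟩, b, hb⟩ | ⟨⟨a, ha⟩, b, hb⟩
  · exact ⟨⟨_, comp_line ha ha⟩, _, comp_line hb hb⟩
  · exact ⟨⟨_, comp_line ha hb⟩, _, comp_line hb ha⟩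

theorem quot_fx {v w : Fin 2 → F} {m n : GL (Fin 2) F} (hv : v ≠ 0) (hw : w ≠ 0)
    (hm : Sw v w m) (hn : Sw v w n) : Fx v w (m * n⁻¹) := by
  obtain ⟨⟨a, ha⟩, b, hb⟩ := hm
  obtain ⟨⟨c, hc⟩, d, hd⟩ := hn
  exact ⟨⟨_, comp_line (inv_line hw hd).2 hb⟩, _, comp_line (inv_line hv hc).2 ha⟩

section
variable {K : Type} [Field K] [Algebra F K]

theorem psi_one_of_sc (hK : StKer) {m : GL (Fin 2) F} (h : SC m) : psi F K m = 1 :=
  (hK F K m).2 (sc_scalar h)

/-- two nontrivial involutions with the same two fixed lines are equal -/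
theorem inv_eq (hK : StKer) {v w : Fin 2 → F} (hwv : ∀ c : F, w ≠ c • v) (hv0 : v ≠ 0)
    (hw0 : w ≠ 0) {m n : GL (Fin 2) F}
    (hm : Fx v w m) (hn : Fx v w n) (hm2 : SC (m * m)) (hn2 : SC (n * n))
    (hm1 : psi F K m ≠ 1) (hn1 : psi F K n ≠ 1) : psi F K m = psi F K n := by
  have key : ∀ {l : GL (Fin 2) F}, Fx v w l → SC (l * l) → psi F K l ≠ 1 →
      ∃ a : F, a ≠ 0 ∧ l • v = a • v ∧ l • w = (-a) • w := by
    rintro l ⟨⟨a, ha⟩, b, hb⟩ ⟨c, hc⟩ h1
    have e1 : a * a = c := by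
      have h2 := hc v
      rw [comp_line ha ha] at h2
      exact smul_left_injective F hv0 h2
    have e2 : b * b = c := by
      have h2 := hc w
      rw [comp_line hb hb] at h2
      exact smul_left_injective F hw0 h2
    have e3 : (a - b) * (a + b) = 0 := by
      linear_combination e1 - e2
    rcases mul_eq_zero.1 e3 with h2 | h2
    · exfalso
      apply h1
      apply psi_one_of_sc hK
      have h3 : a = b := sub_eq_zero.1 h2
      rw [← h3] at hb
      exact sc_of_two hwv hv0 ha hb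
    · refine ⟨a, (inv_line hv0 ha).1, ha, ?_⟩
      rw [hb]
      congr 1
      linear_combination h2
  obtain ⟨a, ha, h1, h2⟩ := key hm hm2 hm1
  obtain ⟨b, hb, h3, h4⟩ := key hn hn2 hn1
  have h5 : psi F K (m * n⁻¹) = 1 := by
    apply psi_one_of_sc hK
    have e1 := comp_line (inv_line hv0 h3).2 h1
    have e2 := comp_line (inv_line hw0 h4).2 h2
    refine sc_of_two hwv hv0 e1 ?_
    rw [e2]
    congr 1
    rw [inv_neg]
    ring
  rw [map_mul, map_inv, mul_inv_eq_one] at h5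
  exact h5

/-- If the square of every element of `N` is scalar, then `N` is small. -/
theorem card_le4 (hK : StKer) {v w : Fin 2 → F} (hwv : ∀ c : F, w ≠ c • v) (hv0 : v ≠ 0)
    (hw0 : w ≠ 0) (N : Subgroup (GL (Fin 2) F)) (hN : ∀ m ∈ N, Fx v w m ∨ Sw v w m)
    (hsq : ∀ m ∈ N, SC (m * m)) : Nat.card (N.map (psi F K)) ≤ 4 := by
  classical
  have h1 : ∃ s : Equiv.Perm (PX K), ∀ m ∈ N, Fx v w m → psi F K m = 1 ∨ psi F K m = s := by
    by_cases h : ∃ m ∈ N, Fx v w m ∧ psi F K m ≠ 1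
    · obtain ⟨m, hm, hm1, hm2⟩ := h
      refine ⟨psi F K m, fun n hn hn1 => ?_⟩
      by_cases h3 : psi F K n = 1
      · exact Or.inl h3
      · exact Or.inr (inv_eq hK hwv hv0 hw0 hn1 hm1 (hsq n hn) (hsq m hm) h3 hm2)
    · push Not at h
      exact ⟨1, fun n hn hn1 => Or.inl (h n hn hn1)⟩
  obtain ⟨s, hs⟩ := h1
  have h2 : ∃ t : Equiv.Perm (PX K), ∀ m ∈ N, psi F K m = 1 ∨ psi F K m = s ∨
      psi F K m = t ∨ psi F K m = s * t := by
    by_cases h : ∃ m ∈ N, Sw v w m
    · obtain ⟨n, hn, hn1⟩ := h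
      refine ⟨psi F K n, fun m hm => ?_⟩
      rcases hN m hm with h3 | h3
      · rcases hs m hm h3 with h4 | h4
        · exact Or.inl h4
        · exact Or.inr (Or.inl h4)
      · have h5 := hs (m * n⁻¹) (N.mul_mem hm (N.inv_mem hn)) (quot_fx hv0 hw0 h3 hn1)
        rw [map_mul, map_inv] at h5
        rcases h5 with h5 | h5
        · exact Or.inr (Or.inr (Or.inl (mul_inv_eq_one.1 h5)))
        · exact Or.inr (Or.inr (Or.inr (mul_inv_eq_iff_eq_mul.1 h5)))
    · push Not at h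
      refine ⟨1, fun m hm => ?_⟩
      rcases hN m hm with h3 | h3
      · rcases hs m hm h3 with h4 | h4
        · exact Or.inl h4
        · exact Or.inr (Or.inl h4)
      · exact absurd h3 (h m hm)
  obtain ⟨t, ht⟩ := h2
  have h3 : ((N.map (psi F K) : Subgroup (Equiv.Perm (PX K))) : Set (Equiv.Perm (PX K))) ⊆
      (({1, s, t, s * t} : Finset (Equiv.Perm (PX K))) : Set (Equiv.Perm (PX K))) := by
    rintro p ⟨m, hm, rfl⟩
    have h4 := ht m hm
    simp only [Finset.coe_insert, Finset.coe_singleton, Set.mem_insert_iff,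
      Set.mem_singleton_iff]
    exact h4
  have h4 : Nat.card (N.map (psi F K)) =
      ((N.map (psi F K) : Subgroup (Equiv.Perm (PX K))) : Set (Equiv.Perm (PX K))).ncard := rfl
  rw [h4]
  refine (Set.ncard_le_ncard h3 (Finset.finite_toSet _)).trans ?_
  rw [Set.ncard_coe_finset]
  exact Finset.card_le_four

end

end Srp1

open Srp1

/-- row SRP -/
theorem srp1 (hN : StSNorm) (hK : StKer) : StSRp := by
  intro F K G Ω _ _ _ _ _ _ _ _ hA ω hcard v w hvw hwv hpair g hg
  have hv0 : v ≠ 0 := ne_zero_of hvw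
  have hw0 : w ≠ 0 := ne_zero_of hwv
  have hne : ∀ (g : G) {u : Fin 2 → F}, u ≠ 0 → g • u ≠ 0 := by
    intro g u hu h
    exact hu ((smul_eq_zero_iff_eq g).1 h)
  have hpair' : ∀ m ∈ LS F G ω, Fx v w m ∨ Sw v w m := hpair
  obtain ⟨σ, hσ⟩ := hA.semi g
  -- the image of a fixed line of all squares
  have himg : ∀ x : Fin 2 → F, (x = v ∨ x = w) →
      (∃ c : F, g • x = c • v) ∨ ∃ c : F, g • x = c • w := by
    intro x hx
    by_contra hcon
    push Not at hcon
    have hsq : ∀ m ∈ LS F G ω, SC (m * m) := by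
      intro m hm
      have h1 := sq_fx (hpair' m hm)
      refine sc_three hv0 hwv hcon.1 hcon.2 h1.1 h1.2 ?_
      have hg' : g⁻¹ • ω = ω := by rw [inv_smul_eq_iff, hg]
      obtain ⟨m', hm', h⟩ := hN F G Ω hA ω g⁻¹ hg' m hm
      have h2 := sq_fx (hpair' m' hm')
      have h3 : ∃ c : F, (m' * m') • x = c • x := by
        rcases hx with rfl | rfl
        · exact h2.1
        · exact h2.2
      obtain ⟨c, hc⟩ := h3
      refine ⟨σ c, ?_⟩
      have h4 : m • (g • x) = g • (m' • x) := by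
        have h5 := h (g • x)
        rw [inv_smul_smul, inv_smul_eq_iff] at h5
        exact h5
      have h6 : m • (g • (m' • x)) = g • (m' • (m' • x)) := by
        have h5 := h (g • (m' • x))
        rw [inv_smul_smul, inv_smul_eq_iff] at h5
        exact h5
      rw [mul_smul, h4, h6, ← mul_smul m' m' x, hc, hσ]
    have h5 := card_le4 (K := K) hK hwv hv0 hw0 (LS F G ω) hpair' hsq
    omega
  -- two independent vectors are not mapped to the same line
  have hinj : ∀ x : Fin 2 → F, (∃ c : F, g • v = c • x) → (∃ c : F, g • w = c • x) → False := by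
    rintro x ⟨c, hc⟩ ⟨c', hc'⟩
    have hc0 : c ≠ 0 := by
      rintro rfl
      rw [zero_smul] at hc
      exact hne g hv0 hc
    apply hwv (σ.symm (c' / c))
    have h1 : g • w = g • (σ.symm (c' / c) • v) := by
      rw [hσ, RingEquiv.apply_symm_apply, hc, hc', smul_smul, div_mul_cancel₀ _ hc0]
    have h2 := congrArg (fun z => g⁻¹ • z) h1
    simpa only [inv_smul_smul] using h2
  rcases himg v (Or.inl rfl) with h1 | h1
  · rcases himg w (Or.inr rfl) with h2 | h2
    · exact (hinj v h1 h2).elim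
    · exact Or.inl ⟨h1, h2⟩
  · rcases himg w (Or.inr rfl) with h2 | h2
    · exact Or.inr ⟨h1, h2⟩
    · exact (hinj w h1 h2).elim

end SpreadPerm.PL
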