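import Pool.Agent.Lib.MP_e6ed9e_al.PL.Defs

/-!
# MP_e6ed9e_al, PL: the arithmetic of the class equation (row ARITH)
-/

namespace SpreadPerm.PL

namespace Arith84

/-- the summand -/
def tt (n k : ℕ) : ℚ := ((k : ℚ) - 1) / ((n * k : ℕ) : ℚ)

lemma tt_one {k : ℕ} (hk : 2 ≤ k) : tt 1 k = 1 - 1 / (k : ℚ) := by
  have : (k : ℚ) ≠ 0 := by positivity
  unfold tt; push_cast; field_simp

lemma tt_two {k : ℕ} (hk : 2 ≤ k) : tt 2 k = 1 / 2 - 1 / (2 * (k : ℚ)) := by
  have : (k : ℚ) ≠ 0 := by positivity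
  unfold tt; push_cast; field_simp

lemma inv_le {k : ℕ} (hk : 2 ≤ k) : 1 / (k : ℚ) ≤ 1 / 2 := by
  have h : (2 : ℚ) ≤ k := by exact_mod_cast hk
  exact one_div_le_one_div_of_le (by norm_num) h

lemma half_le {k : ℕ} (hk : 2 ≤ k) : 1 / 2 ≤ tt 1 k := by
  rw [tt_one hk]; have := inv_le hk; linarith

lemma quarter_le_two {k : ℕ} (hk : 2 ≤ k) : 1 / 4 ≤ tt 2 k := by
  rw [tt_two hk]
  have := inv_le hk
  have h2 : 1 / (2 * (k : ℚ)) = (1 / 2) * (1 / (k : ℚ)) := by
    have : (k : ℚ) ≠ 0 := by positivity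
    field_simp
  rw [h2]; linarith

lemma quarter_le {n k : ℕ} (hn : n = 1 ∨ n = 2) (hk : 2 ≤ k) : 1 / 4 ≤ tt n k := by
  rcases hn with rfl | rfl
  · have := half_le hk; linarith
  · exact quarter_le_two hk

lemma one1 {k h : ℕ} (hk : 2 ≤ k) (hh : 0 < h) (e : 1 / (h : ℚ) + tt 1 k = 1) : 1 * k = h := by
  rw [tt_one hk] at e
  have hk0 : (k : ℚ) ≠ 0 := by positivity
  have hh0 : (h : ℚ) ≠ 0 := by positivity
  field_simp at e
  have : (k : ℚ) = h := by linarith
  rw [one_mul]; exact_mod_cast this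

lemma inv_lt_one {h : ℕ} (hh : 0 < h) (e : 1 / 2 < 1 / (h : ℚ)) : h ≤ 1 := by
  by_contra hc
  have : 2 ≤ h := by omega
  have := inv_le this
  linarith

lemma tt_two_lt {k : ℕ} (hk : 2 ≤ k) : tt 2 k < 1 / 2 := by
  rw [tt_two hk]
  have : (0 : ℚ) < 1 / (2 * (k : ℚ)) := by positivity
  linarith

lemma tt_one_lt {k : ℕ} (hk : 2 ≤ k) : tt 1 k < 1 := by
  rw [tt_one hk]
  have : (0 : ℚ) < 1 / (k : ℚ) := by positivity
  linarith

lemma two12 {k l h : ℕ} (hk : 2 ≤ k) (hl : 2 ≤ l) (hh : 0 < h)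
    (e : 1 / (h : ℚ) + tt 1 k + tt 2 l = 1) : h ≤ 60 ∨ 2 * l = h := by
  rw [tt_one hk, tt_two hl] at e
  have hk0 : (k : ℚ) ≠ 0 := by positivity
  have hl0 : (l : ℚ) ≠ 0 := by positivity
  have hh0 : (h : ℚ) ≠ 0 := by positivity
  field_simp at e
  have e2 : (h : ℤ) * (2 * l + k - k * l) = 2 * k * l := by
    have : (h : ℚ) * (2 * l + k - k * l) = 2 * k * l := by linarith
    exact_mod_cast this
  have hpos : (0 : ℤ) < 2 * l + k - k * l := by
    by_contra hc
    push Not at hc
    have h1 : (h : ℤ) * (2 * l + k - k * l) ≤ 0 :=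
      mul_nonpos_of_nonneg_of_nonpos (by positivity) hc
    have h2 : (0 : ℤ) < 2 * k * l := by positivity
    omega
  have hk' : (2 : ℤ) ≤ k := by exact_mod_cast hk
  have hl' : (2 : ℤ) ≤ l := by exact_mod_cast hl
  have hfac : ((k : ℤ) - 2) * (l - 1) < 2 := by nlinarith
  have hk3 : k ≤ 3 := by
    by_contra hc
    have : (4 : ℤ) ≤ k := by omega
    nlinarith
  have hkk : k = 2 ∨ k = 3 := by omega
  rcases hkk with rfl | rfl
  · right
    push_cast at e2
    have : (h : ℤ) * 2 = 4 * l := by linarith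
    omega
  · left
    have : (l : ℤ) < 3 := by push_cast at hfac; linarith
    have hl2 : l = 2 := by omega
    subst hl2
    push_cast at e2
    omega

lemma three {a b c h : ℕ} (ha : 2 ≤ a) (hb : 2 ≤ b) (hc : 2 ≤ c) (hh : 0 < h)
    (e : 1 / (h : ℚ) + tt 2 a + tt 2 b + tt 2 c = 1) :
    h ≤ 60 ∨ 2 * a = h ∨ 2 * b = h ∨ 2 * c = h := by
  rw [tt_two ha, tt_two hb, tt_two hc] at e
  have ha0 : (a : ℚ) ≠ 0 := by positivity
  have hb0 : (b : ℚ) ≠ 0 := by positivity
  have hc0 : (c : ℚ) ≠ 0 := by positivity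
  have hh0 : (h : ℚ) ≠ 0 := by positivity
  have e1 : 1 / (a : ℚ) + 1 / b + 1 / c = 1 + 2 / h := by
    have q1 : 1 / (2 * (a : ℚ)) = (1 / a) / 2 := by field_simp
    have q2 : 1 / (2 * (b : ℚ)) = (1 / b) / 2 := by field_simp
    have q3 : 1 / (2 * (c : ℚ)) = (1 / c) / 2 := by field_simp
    have q4 : 2 / (h : ℚ) = 2 * (1 / h) := by ring
    rw [q1, q2, q3] at e
    rw [q4]; linarith
  field_simp at e1
  have e2 : (h : ℤ) * (a * b + b * c + a * c - a * b * c) = 2 * (a * b * c) := by
    have : (h : ℚ) * (a * b + b * c + a * c - a * b * c) = 2 * (a * b * c) := by linarith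
    exact_mod_cast this
  have hpos : (0 : ℤ) < a * b + b * c + a * c - a * b * c := by
    by_contra hcc
    push Not at hcc
    have h1 : (h : ℤ) * (a * b + b * c + a * c - a * b * c) ≤ 0 :=
      mul_nonpos_of_nonneg_of_nonpos (by positivity) hcc
    have h2 : (0 : ℤ) < 2 * (a * b * c) := by positivity
    omega
  -- the key case analysis with one entry equal to 2
  have key : ∀ x y : ℕ, 2 ≤ x → 2 ≤ y →
      (h : ℤ) * (2 * x + x * y + 2 * y - 2 * x * y) = 2 * (2 * x * y) →
      h ≤ 60 ∨ 2 * x = h ∨ 2 * y = h := by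
    intro x y hx hy e3
    have hx' : (2 : ℤ) ≤ x := by exact_mod_cast hx
    have hy' : (2 : ℤ) ≤ y := by exact_mod_cast hy
    have hp : (0 : ℤ) < 2 * x + x * y + 2 * y - 2 * x * y := by
      by_contra hcc
      push Not at hcc
      have h1 : (h : ℤ) * (2 * x + x * y + 2 * y - 2 * x * y) ≤ 0 :=
        mul_nonpos_of_nonneg_of_nonpos (by positivity) hcc
      have h2 : (0 : ℤ) < 2 * (2 * x * y) := by positivity
      omega
    have hf : ((x : ℤ) - 2) * (y - 2) < 4 := by nlinarith
    by_cases hx2 : x = 2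
    · subst hx2
      right; right
      push_cast at e3
      have : (h : ℤ) * 4 = 8 * y := by linarith
      omega
    by_cases hy2 : y = 2
    · subst hy2
      right; left
      push_cast at e3
      have : (h : ℤ) * 4 = 8 * x := by linarith
      omega
    have hx3 : (3 : ℤ) ≤ x := by omega
    have hy3 : (3 : ℤ) ≤ y := by omega
    have hx5 : x ≤ 5 := by
      by_contra hcc
      have : (6 : ℤ) ≤ x := by omega
      nlinarith
    have hy5 : y ≤ 5 := by
      by_contra hcc
      have : (6 : ℤ) ≤ y := by omega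
      nlinarith
    left
    have hx3n : 3 ≤ x := by omega
    have hy3n : 3 ≤ y := by omega
    interval_cases x <;> interval_cases y <;> push_cast at e3 hf <;> omega
  have ha' : (2 : ℤ) ≤ a := by exact_mod_cast ha
  have hb' : (2 : ℤ) ≤ b := by exact_mod_cast hb
  have hc' : (2 : ℤ) ≤ c := by exact_mod_cast hc
  have h2 : a = 2 ∨ b = 2 ∨ c = 2 := by
    by_contra hcc
    push Not at hcc
    obtain ⟨h1, h2, h3⟩ := hcc
    have p1 : (3 : ℤ) ≤ a := by omega
    have p2 : (3 : ℤ) ≤ b := by omega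
    have p3 : (3 : ℤ) ≤ c := by omega
    have q1 : (0 : ℤ) ≤ (a - 3) * b := mul_nonneg (by linarith) (by linarith)
    have q2 : (0 : ℤ) ≤ (a - 3) * b * c := mul_nonneg q1 (by linarith)
    have q3 : (0 : ℤ) ≤ (b - 3) * (c * a) := mul_nonneg (by linarith) (by positivity)
    have q4 : (0 : ℤ) ≤ (c - 3) * (a * b) := mul_nonneg (by linarith) (by positivity)
    nlinarith
  rcases h2 with rfl | rfl | rfl
  · rcases key b c hb hc (by push_cast at e2 ⊢; linarith) with h | h | h
    · exact Or.inl h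
    · exact Or.inr (Or.inr (Or.inl h))
    · exact Or.inr (Or.inr (Or.inr h))
  · rcases key a c ha hc (by push_cast at e2 ⊢; linarith) with h | h | h
    · exact Or.inl h
    · exact Or.inr (Or.inl h)
    · exact Or.inr (Or.inr (Or.inr h))
  · rcases key a b ha hb (by push_cast at e2 ⊢; linarith) with h | h | h
    · exact Or.inl h
    · exact Or.inr (Or.inl h)
    · exact Or.inr (Or.inr (Or.inl h))

/-- The part without unipotent elements. -/
lemma part1 (ι : Type) [Fintype ι] (k n : ι → ℕ) (h : ℕ) (hh : 0 < h) (hk : ∀ i, 2 ≤ k i)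
    (hn : ∀ i, n i = 1 ∨ n i = 2) (hd : ∀ i, n i * k i ∣ h)
    (e : (1 : ℚ) / h + ∑ i, tt (n i) (k i) = 1) : h ≤ 60 ∨ ∃ i, n i * k i = h := by
  classical
  have hq : ∀ i, 1 / 4 ≤ tt (n i) (k i) := fun i => quarter_le (hn i) (hk i)
  have hnn : ∀ S : Finset ι, 0 ≤ ∑ i ∈ S, tt (n i) (k i) := fun S =>
    Finset.sum_nonneg fun i _ => le_trans (by norm_num) (hq i)
  have hhq : (0 : ℚ) < 1 / h := by positivity
  rcases Finset.eq_empty_or_nonempty (Finset.univ : Finset ι) with h0 | ⟨i1, hi1⟩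
  · rw [h0, Finset.sum_empty] at e
    left
    have : h ≤ 1 := inv_lt_one hh (by linarith)
    omega
  rw [← Finset.add_sum_erase _ _ hi1] at e
  rcases Finset.eq_empty_or_nonempty (Finset.univ.erase i1) with h1 | ⟨i2, hi2⟩
  · rw [h1, Finset.sum_empty, add_zero] at e
    rcases hn i1 with hn1 | hn1
    · right
      refine ⟨i1, ?_⟩
      rw [hn1] at e ⊢
      exact one1 (hk i1) hh e
    · left
      rw [hn1] at e
      have := tt_two_lt (hk i1)
      have : h ≤ 1 := inv_lt_one hh (by linarith)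
      omega
  rw [← Finset.add_sum_erase _ _ hi2] at e
  rcases Finset.eq_empty_or_nonempty ((Finset.univ.erase i1).erase i2) with h2 | ⟨i3, hi3⟩
  · rw [h2, Finset.sum_empty, add_zero] at e
    rcases hn i1 with hn1 | hn1 <;> rcases hn i2 with hn2 | hn2
    · exfalso
      rw [hn1, hn2] at e
      have := half_le (hk i1)
      have := half_le (hk i2)
      linarith
    · rw [hn1, hn2] at e
      rcases two12 (hk i1) (hk i2) hh (by linarith) with h | h
      · exact Or.inl h
      · exact Or.inr ⟨i2, by rw [hn2]; exact h⟩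
    · rw [hn1, hn2] at e
      rcases two12 (hk i2) (hk i1) hh (by linarith) with h | h
      · exact Or.inl h
      · exact Or.inr ⟨i1, by rw [hn1]; exact h⟩
    · exfalso
      have d1 : 2 * k i1 ≤ h := by
        have := hd i1; rw [hn1] at this; exact Nat.le_of_dvd hh this
      rw [hn1, hn2, tt_two (hk i1), tt_two (hk i2)] at e
      have d1' : (2 * (k i1 : ℚ)) ≤ h := by exact_mod_cast d1
      have hpos : (0 : ℚ) < 2 * (k i1 : ℚ) := by have := hk i1; positivity
      have i1' : 1 / (h : ℚ) ≤ 1 / (2 * (k i1 : ℚ)) := one_div_le_one_div_of_le hpos d1'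
      have i2' : (0 : ℚ) < 1 / (2 * (k i2 : ℚ)) := by have := hk i2; positivity
      linarith
  rw [← Finset.add_sum_erase _ _ hi3] at e
  rcases Finset.eq_empty_or_nonempty (((Finset.univ.erase i1).erase i2).erase i3) with h3 | ⟨i4, hi4⟩
  · rw [h3, Finset.sum_empty, add_zero] at e
    have q1 := hq i1
    have q2 := hq i2
    have q3 := hq i3
    have hn1 : n i1 = 2 := by
      rcases hn i1 with h' | h'
      · exfalso; have := half_le (hk i1); rw [← h'] at this; linarith
      · exact h'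
    have hn2 : n i2 = 2 := by
      rcases hn i2 with h' | h'
      · exfalso; have := half_le (hk i2); rw [← h'] at this; linarith
      · exact h'
    have hn3 : n i3 = 2 := by
      rcases hn i3 with h' | h'
      · exfalso; have := half_le (hk i3); rw [← h'] at this; linarith
      · exact h'
    rw [hn1, hn2, hn3] at e
    rcases three (hk i1) (hk i2) (hk i3) hh (by linarith) with h | h | h | h
    · exact Or.inl h
    · exact Or.inr ⟨i1, by rw [hn1]; exact h⟩
    · exact Or.inr ⟨i2, by rw [hn2]; exact h⟩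
    · exact Or.inr ⟨i3, by rw [hn3]; exact h⟩
  exfalso
  rw [← Finset.add_sum_erase _ _ hi4] at e
  have := hq i1
  have := hq i2
  have := hq i3
  have := hq i4
  have := hnn ((((Finset.univ.erase i1).erase i2).erase i3).erase i4)
  linarith

/-- Number theory at the end of the case `k₀ ≥ 2`. -/
lemma endgame {q r k0 kj m : ℕ} (hq : 1 ≤ q) (hk0 : 2 ≤ k0) (hm : q + 1 = k0 * m)
    (e : (1 + r * (q + 2)) * k0 = kj * (1 + r * q)) :
    r = 0 ∨ (r = 1 ∧ (m = 1 ∨ m = 2)) ∨ (q = 1 ∧ r = 3 ∧ k0 = 2) := by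
  have hdv : 1 + r * q ∣ 2 * k0 := by
    have h1 : 1 + r * q ∣ (1 + r * (q + 2)) * k0 := e ▸ Dvd.intro_left _ rfl
    have h2 : (1 + r * (q + 2)) * k0 = (1 + r * q) * k0 + r * (2 * k0) := by ring
    rw [h2] at h1
    have h3 : 1 + r * q ∣ r * (2 * k0) := (Nat.dvd_add_right (Dvd.intro _ rfl)).1 h1
    refine Nat.Coprime.dvd_of_dvd_mul_left ?_ h3
    rw [Nat.coprime_add_mul_left_left]
    exact Nat.coprime_one_left r
  have hk0q : k0 ≤ q + 1 := Nat.le_of_dvd (by omega) (Dvd.intro m hm.symm)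
  rcases Nat.eq_zero_or_pos r with h0 | h0
  · exact Or.inl h0
  right
  by_cases h1 : r = 1
  · left
    refine ⟨h1, ?_⟩
    subst h1
    obtain ⟨c, hc⟩ := hdv
    have hc' : 2 * k0 = (k0 * m) * c := by rw [hc, ← hm]; ring
    have hmc : m * c = 2 := by
      have : k0 * (m * c) = k0 * 2 := by rw [← mul_assoc, ← hc']; ring
      exact Nat.eq_of_mul_eq_mul_left (by omega) this
    have hm2 : m ∣ 2 := Dvd.intro c hmc
    have := Nat.le_of_dvd (by norm_num) hm2
    have : m ≠ 0 := by rintro rfl; simp at hmc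
    omega
  by_cases h2 : r = 2
  · exfalso
    subst h2
    have h3 : 1 + 2 * q ∣ k0 := by
      refine Nat.Coprime.dvd_of_dvd_mul_left ?_ hdv
      rw [Nat.coprime_add_mul_left_left]
      exact Nat.coprime_one_left 2
    have := Nat.le_of_dvd (by omega) h3
    omega
  right
  have hle := Nat.le_of_dvd (by omega) hdv
  have h3 : 3 ≤ r := by omega
  have h4 : r * q ≤ 2 * q + 1 := by omega
  have h5 : q = 1 := by
    by_contra hc
    have : 2 ≤ q := by omega
    nlinarith
  subst h5
  have h6 : r = 3 := by omega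
  subst h6
  refine ⟨rfl, rfl, ?_⟩
  have : k0 ≤ 2 := by omega
  omega

/-- The part with unipotent elements. -/
lemma part2 (ι : Type) [Fintype ι] (k n : ι → ℕ) (h : ℕ) (hh : 0 < h) (hk : ∀ i, 2 ≤ k i)
    (hn : ∀ i, n i = 1 ∨ n i = 2) (Q k0 N : ℕ) (hQ : 2 ≤ Q) (hk0 : 1 ≤ k0)
    (hdvd : k0 ∣ Q - 1) (hhN : h = N * (Q * k0)) (hN : N % Q = 1)
    (hex : k0 = 1 ∨ ∃ i, k i = k0)
    (e : (1 : ℚ) / h + ((Q : ℚ) - 1) / (Q * k0 : ℕ) + ∑ i, tt (n i) (k i) = 1) :
    N = 1 ∨ h ≤ 60 ∨ (∃ i, n i * k i = h) ∨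
      (N = Q + 1 ∧ ∃ d : ℕ, (d = 1 ∨ d = 2) ∧ d * k0 = Q - 1) := by
  classical
  have hq : ∀ i, 1 / 4 ≤ tt (n i) (k i) := fun i => quarter_le (hn i) (hk i)
  have hnn : ∀ S : Finset ι, 0 ≤ ∑ i ∈ S, tt (n i) (k i) := fun S =>
    Finset.sum_nonneg fun i _ => le_trans (by norm_num) (hq i)
  obtain ⟨r, hr⟩ : ∃ r, N = 1 + r * Q :=
    ⟨N / Q, by have := Nat.mod_add_div N Q; rw [hN] at this; rw [mul_comm]; exact this.symm⟩
  have hN0 : 0 < N := by omega
  have hNq : (N : ℚ) ≠ 0 := by positivity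
  have hQq : (Q : ℚ) ≠ 0 := by positivity
  have hk0q : (k0 : ℚ) ≠ 0 := by positivity
  have hNp : (0 : ℚ) < N := by positivity
  have hQp : (0 : ℚ) < Q := by positivity
  have hk0p : (0 : ℚ) < k0 := by positivity
  have hQ2 : (2 : ℚ) ≤ Q := by exact_mod_cast hQ
  have hrq : (N : ℚ) = 1 + r * Q := by exact_mod_cast hr
  have hhq : (h : ℚ) = N * (Q * k0) := by exact_mod_cast hhN
  rcases Nat.eq_zero_or_pos r with hr0 | hr0
  · left; rw [hr, hr0]; ring
  have hN1 : (1 : ℚ) < N := by
    rw [hrq]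
    have : (0 : ℚ) < r := by exact_mod_cast hr0
    have := mul_pos this hQp
    linarith
  by_cases hk1 : k0 = 1
  · subst hk1
    -- the sum equals r / N
    have e1 : ∑ i, tt (n i) (k i) = r / N := by
      have : ∑ i, tt (n i) (k i) = 1 - 1 / (h : ℚ) - ((Q : ℚ) - 1) / (Q * 1 : ℕ) := by linarith
      rw [this, hhq]
      push_cast
      rw [hrq]
      have : (1 + (r : ℚ) * Q) ≠ 0 := by rw [← hrq]; exact hNq
      field_simp
      ring
    have hlt : (r : ℚ) / N < 1 / Q := by
      rw [div_lt_div_iff₀ hNp hQp, hrq]; linarith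
    have hQh : 1 / (Q : ℚ) ≤ 1 / 2 := one_div_le_one_div_of_le (by norm_num) hQ2
    rcases Finset.eq_empty_or_nonempty (Finset.univ : Finset ι) with h0 | ⟨i1, hi1⟩
    · exfalso
      rw [h0, Finset.sum_empty] at e1
      have : (0 : ℚ) < r / N := div_pos (by exact_mod_cast hr0) hNp
      linarith
    rw [← Finset.add_sum_erase _ _ hi1] at e1
    have q1 := hq i1
    have hn1 : n i1 = 2 := by
      rcases hn i1 with h' | h'
      · exfalso
        have := half_le (hk i1)
        rw [← h'] at this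
        have := hnn (Finset.univ.erase i1)
        linarith
      · exact h'
    rcases Finset.eq_empty_or_nonempty (Finset.univ.erase i1) with h1 | ⟨i2, hi2⟩
    swap
    · exfalso
      rw [← Finset.add_sum_erase _ _ hi2] at e1
      have := hq i2
      have := hnn ((Finset.univ.erase i1).erase i2)
      linarith
    rw [h1, Finset.sum_empty, add_zero, hn1] at e1
    rw [hn1] at q1
    have h4 : (1 : ℚ) / 4 ≤ r / N := by linarith
    have h5 : (1 : ℚ) + r * Q ≤ 4 * r := by
      rw [div_le_div_iff₀ (by norm_num) hNp, hrq] at h4; linarith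
    have h6 : 1 + r * Q ≤ 4 * r := by exact_mod_cast h5
    have hQ3 : Q ≤ 3 := by
      by_contra hc
      have : 4 ≤ Q := by omega
      have : r * 4 ≤ r * Q := Nat.mul_le_mul_left r this
      omega
    rw [tt_two (hk i1)] at e1
    have hkp : (0 : ℚ) < k i1 := by have := hk i1; positivity
    have hQQ : Q = 2 ∨ Q = 3 := by omega
    rcases hQQ with rfl | rfl
    · right; right; left
      refine ⟨i1, ?_⟩
      rw [hn1, hhN]
      have : (k i1 : ℚ) = N := by
        have hk' := hkp.ne'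
        field_simp at e1
        push_cast at hrq
        nlinarith
      have : k i1 = N := by exact_mod_cast this
      rw [this]; ring
    · right; left
      have hk3 : k i1 = 2 := by
        by_contra hc
        have h3 : 3 ≤ k i1 := by have := hk i1; omega
        have h3' : (3 : ℚ) ≤ k i1 := by exact_mod_cast h3
        have : 1 / (2 * (k i1 : ℚ)) ≤ 1 / (2 * 3) :=
          one_div_le_one_div_of_le (by norm_num) (by linarith)
        push_cast at hlt
        linarith
      rw [hk3] at e1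
      push_cast at e1 hrq
      rw [hrq] at e1
      have hne : (1 + (r : ℚ) * 3) ≠ 0 := by rw [← hrq]; exact hNq
      field_simp at e1
      have : (r : ℚ) = 1 := by linarith
      have hr1 : r = 1 := by exact_mod_cast this
      rw [hhN, hr, hr1]; norm_num
  · have hk2 : 2 ≤ k0 := by omega
    obtain ⟨m, hm⟩ := hdvd
    have hQm : Q = k0 * m + 1 := by omega
    have hm0 : m ≠ 0 := by
      rintro rfl
      simp at hQm
      omega
    have hk0le : k0 ≤ Q - 1 := Nat.le_of_dvd (by omega) ⟨m, hm⟩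
    have hQ3 : 3 ≤ Q := by omega
    have hQ3' : (3 : ℚ) ≤ Q := by exact_mod_cast hQ3
    have hk2' : (2 : ℚ) ≤ k0 := by exact_mod_cast hk2
    obtain ⟨i0, hi0⟩ := hex.resolve_left hk1
    -- rewrite the unipotent term
    have hu : ((Q : ℚ) - 1) / (Q * k0 : ℕ) = 1 / k0 - 1 / (Q * k0) := by
      push_cast; field_simp
    have hh1 : (1 : ℚ) / h = 1 / (N * (Q * k0)) := by rw [hhq]
    have hinv : (1 : ℚ) / (Q * k0) ≤ 1 / 6 := by
      apply one_div_le_one_div_of_le (by norm_num)
      nlinarith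
    have hinvh : (1 : ℚ) / (N * (Q * k0)) < 1 / (Q * k0) := by
      apply one_div_lt_one_div_of_lt (by positivity)
      have : (0 : ℚ) < Q * k0 := by positivity
      nlinarith
    have hinvh0 : (0 : ℚ) < 1 / (N * (Q * k0)) := by positivity
    rw [hu, hh1, ← Finset.add_sum_erase _ _ (Finset.mem_univ i0)] at e
    rcases hn i0 with hn0 | hn0
    · -- full torus
      exfalso
      rw [hn0, hi0, tt_one hk2] at e
      rcases Finset.eq_empty_or_nonempty (Finset.univ.erase i0) with h1 | ⟨j, hj⟩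
      · rw [h1, Finset.sum_empty, add_zero] at e
        linarith
      · rw [← Finset.add_sum_erase _ _ hj] at e
        have := hq j
        have := hnn ((Finset.univ.erase i0).erase j)
        linarith
    · rw [hn0, hi0, tt_two hk2] at e
      have hik0 : (1 : ℚ) / (2 * k0) = (1 / k0) / 2 := by field_simp
      have hik02 : (1 : ℚ) / k0 ≤ 1 / 2 := inv_le hk2
      have hik0p : (0 : ℚ) < 1 / k0 := by positivity
      have hqk : (1 : ℚ) / (Q * k0) ≤ (1 / k0) / 3 := by
        have : (1 : ℚ) / (Q * k0) = (1 / k0) * (1 / Q) := by field_simp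
        rw [this]
        have : (1 : ℚ) / Q ≤ 1 / 3 := one_div_le_one_div_of_le (by norm_num) hQ3'
        nlinarith
      rcases Finset.eq_empty_or_nonempty (Finset.univ.erase i0) with h1 | ⟨j, hj⟩
      · exfalso
        rw [h1, Finset.sum_empty, add_zero, hik0] at e
        linarith
      rw [← Finset.add_sum_erase _ _ hj] at e
      have qj := hq j
      rcases Finset.eq_empty_or_nonempty ((Finset.univ.erase i0).erase j) with h2 | ⟨l, hl⟩
      swap
      · exfalso
        rw [← Finset.add_sum_erase _ _ hl, hik0] at e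
        have := hq l
        have := hnn (((Finset.univ.erase i0).erase j).erase l)
        linarith
      rw [h2, Finset.sum_empty, add_zero] at e
      rcases hn j with hnj | hnj
      · exfalso
        rw [hnj, hik0] at e
        have := half_le (hk j)
        linarith
      rw [hnj, tt_two (hk j)] at e
      have hkj : (0 : ℚ) < k j := by have := hk j; positivity
      have hkj' := hkj.ne'
      have e3 : (N : ℚ) * Q * k0 = k j * (N * Q - 2 * N + 2) := by
        field_simp at e
        have hh2 : (N : ℚ) * Q * k0 * (N * Q * k0 - k j * (N * Q - 2 * N + 2)) = 0 := by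
          nlinarith
        have hne : (N : ℚ) * Q * k0 ≠ 0 := by positivity
        have := (mul_eq_zero.1 hh2).resolve_left hne
        linarith
      obtain ⟨q, rfl⟩ : ∃ q, Q = q + 2 := ⟨Q - 2, by omega⟩
      have e4 : ((1 : ℚ) + r * (q + 2)) * k0 = k j * (1 + r * q) := by
        rw [hrq] at e3
        push_cast at e3
        have hh2 : ((q : ℚ) + 2) * (((1 : ℚ) + r * (q + 2)) * k0 - k j * (1 + r * q)) = 0 := by
          nlinarith
        have hne : ((q : ℚ) + 2) ≠ 0 := by positivity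
        have := (mul_eq_zero.1 hh2).resolve_left hne
        linarith
      have e5 : (1 + r * (q + 2)) * k0 = k j * (1 + r * q) := by exact_mod_cast e4
      rcases endgame (by omega) hk2 (m := m) (by omega) e5 with h' | ⟨h', hm12⟩ | ⟨h1', h2', h3'⟩
      · omega
      · right; right; right
        refine ⟨by rw [hr, h']; ring, m, hm12, ?_⟩
        rw [mul_comm]; omega
      · right; left
        rw [hhN, hr, h1', h2', h3']

end Arith84

theorem arith84 : StArith := by
  intro ι _ k n h hh hk hn hd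
  have hs : ∀ i, ((k i : ℚ) - 1) / (n i * k i : ℕ) = Arith84.tt (n i) (k i) := fun i => rfl
  simp only [hs]
  refine ⟨fun e => Arith84.part1 ι k n h hh hk hn hd e, ?_⟩
  intro Q k0 N hQ hk0 hdvd hhN hN hex e
  exact Arith84.part2 ι k n h hh hk hn Q k0 N hQ hk0 hdvd hhN hN hex e

end SpreadPerm.PL
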