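import Pool.Agent.Lib.MP_e6ed9e_al.PL.Defs

/-!
# Orders of the pair stabilizers and their invariance
-/

namespace SpreadPerm.PL
open MulAction

section
variable {H X : Type} [Group H] [MulAction H X]

/-- The torus as a subgroup. -/
def Tsub (H : Type) {X : Type} [Group H] [MulAction H X] (x y : X) : Subgroup H :=
  stabilizer H x ⊓ stabilizer H y

theorem mem_Tsub {x y : X} {h : H} : h ∈ Tsub H x y ↔ h • x = x ∧ h • y = y := Iff.rfl

/-- The stabilizer of a pair as a subgroup. -/
def Nsub (H : Type) {X : Type} [Group H] [MulAction H X] (x y : X) : Subgroup H where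
  carrier := {h | (h • x = x ∧ h • y = y) ∨ (h • x = y ∧ h • y = x)}
  one_mem' := Or.inl ⟨one_smul _ _, one_smul _ _⟩
  mul_mem' := by
    rintro g h (⟨a, b⟩ | ⟨a, b⟩) (⟨c, d⟩ | ⟨c, d⟩)
    · left; simp [mul_smul, a, b, c, d]
    · right; simp [mul_smul, a, b, c, d]
    · right; simp [mul_smul, a, b, c, d]
    · left; simp [mul_smul, a, b, c, d]
  inv_mem' := by
    rintro g (⟨a, b⟩ | ⟨a, b⟩)
    · left; exact ⟨by rw [inv_smul_eq_iff, a], by rw [inv_smul_eq_iff, b]⟩
    · right; exact ⟨by rw [inv_smul_eq_iff, b], by rw [inv_smul_eq_iff, a]⟩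

theorem mem_Nsub {x y : X} {h : H} :
    h ∈ Nsub H x y ↔ (h • x = x ∧ h • y = y) ∨ (h • x = y ∧ h • y = x) := Iff.rfl

theorem Tc_eq_card (x y : X) : Tc H x y = Nat.card (Tsub H x y) := rfl

theorem Nc_eq_card (x y : X) : Nc H x y = Nat.card (Nsub H x y) := rfl

theorem Sc_eq_card (x : X) : Sc H x = Nat.card (stabilizer H x) := rfl

theorem Nc_dvd (x y : X) : Nc H x y ∣ Nat.card H := by
  rw [Nc_eq_card]; exact Subgroup.card_subgroup_dvd_card _

theorem Tc_dvd (x y : X) : Tc H x y ∣ Nat.card H := by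
  rw [Tc_eq_card]; exact Subgroup.card_subgroup_dvd_card _

theorem Sc_dvd (x : X) : Sc H x ∣ Nat.card H := by
  rw [Sc_eq_card]; exact Subgroup.card_subgroup_dvd_card _

theorem Tc_pos [Finite H] (x y : X) : 0 < Tc H x y := by
  rw [Tc_eq_card]; exact Nat.card_pos

theorem Nc_pos [Finite H] (x y : X) : 0 < Nc H x y := by
  rw [Nc_eq_card]; exact Nat.card_pos

theorem Tc_comm (x y : X) : Tc H x y = Tc H y x := by
  unfold Tc; congr 1; simp only [and_comm]

theorem Nc_comm (x y : X) : Nc H x y = Nc H y x := by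
  refine Nat.card_congr (Equiv.subtypeEquivRight fun h => ?_)
  tauto

/-- L1: the torus has index 1 or 2 in the stabilizer of the pair. -/
theorem Nc_eq [Finite H] {x y : X} (hxy : x ≠ y) :
    Nc H x y = Tc H x y ∨ Nc H x y = 2 * Tc H x y := by
  by_cases hs : ∃ s : H, s • x = y ∧ s • y = x
  · right
    obtain ⟨s, hs1, hs2⟩ := hs
    have e : {h : H // (h • x = x ∧ h • y = y) ∨ (h • x = y ∧ h • y = x)} ≃
        {h : H // h • x = x ∧ h • y = y} ⊕ {h : H // h • x = y ∧ h • y = x} := by
      classical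
      refine subtypeOrEquiv _ _ ?_
      rw [Pi.disjoint_iff]
      intro h
      rw [Prop.disjoint_iff, not_and_or, or_iff_not_imp_left, not_not]
      rintro ⟨a, -⟩ ⟨c, -⟩
      exact hxy (a.symm.trans c)
    have e2 : {h : H // h • x = x ∧ h • y = y} ≃ {h : H // h • x = y ∧ h • y = x} :=
      { toFun := fun h => ⟨s * h.1, by rw [mul_smul, h.2.1, hs1], by rw [mul_smul, h.2.2, hs2]⟩
        invFun := fun h => ⟨s⁻¹ * h.1, by rw [mul_smul, h.2.1, inv_smul_eq_iff, hs1],
          by rw [mul_smul, h.2.2, inv_smul_eq_iff, hs2]⟩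
        left_inv := fun h => by ext; simp
        right_inv := fun h => by ext; simp }
    unfold Nc Tc
    rw [Nat.card_congr e, Nat.card_sum, ← Nat.card_congr e2]
    ring
  · left
    refine Nat.card_congr (Equiv.subtypeEquivRight fun h => ?_)
    constructor
    · rintro (a | a)
      · exact a
      · exact (hs ⟨h, a⟩).elim
    · exact Or.inl

theorem smul_conj_iff (g h : H) (x y : X) : (g * h * g⁻¹) • (g • x) = g • y ↔ h • x = y := by
  rw [mul_smul, mul_smul, inv_smul_smul, smul_left_cancel_iff]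

theorem IsU_conj (g : H) (x : X) (h : H) : IsU (g • x) (g * h * g⁻¹) ↔ IsU x h := by
  unfold IsU
  have h1 : g * h * g⁻¹ = 1 ↔ h = 1 := by
    constructor
    · intro e
      have := congrArg (fun t => g⁻¹ * t * g) e
      simpa [mul_assoc] using this
    · rintro rfl; simp
  have h2 : (∀ y : X, (g * h * g⁻¹) • y = y ↔ y = g • x) ↔ ∀ y : X, h • y = y ↔ y = x := by
    constructor
    · intro hy y
      have := hy (g • y)
      rw [smul_conj_iff, smul_left_cancel_iff] at this
      exact this
    · intro hy y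
      have := hy (g⁻¹ • y)
      rw [← smul_conj_iff g h, smul_inv_smul, inv_smul_eq_iff] at this
      exact this
  rw [h1, h2]

theorem card_conj (g : H) (P R : H → Prop) (hPR : ∀ h, P (g * h * g⁻¹) ↔ R h) :
    Nat.card {h : H // P h} = Nat.card {h : H // R h} := by
  refine (Nat.card_congr ((MulAut.conj g).toEquiv.subtypeEquiv fun h => ?_)).symm
  exact (hPR h).symm

/-- L2 -/
theorem Uc_smul (g : H) (x : X) : Uc H (g • x) = Uc H x :=
  card_conj g _ _ fun h => IsU_conj g x h

theorem Sc_smul (g : H) (x : X) : Sc H (g • x) = Sc H x :=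
  card_conj g _ _ fun h => smul_conj_iff g h x x

theorem Tc_smul (g : H) (x y : X) : Tc H (g • x) (g • y) = Tc H x y :=
  card_conj g _ _ fun h => and_congr (smul_conj_iff g h x x) (smul_conj_iff g h y y)

theorem Nc_smul (g : H) (x y : X) : Nc H (g • x) (g • y) = Nc H x y :=
  card_conj g _ _ fun h => or_congr
    (and_congr (smul_conj_iff g h x x) (smul_conj_iff g h y y))
    (and_congr (smul_conj_iff g h x y) (smul_conj_iff g h y x))

end

end SpreadPerm.PL
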