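import Pool.Agent.Lib.MP_e6ed9e_al.PL.Defs

/-!
# CLASS: the class equation
-/

set_option autoImplicit false

namespace SpreadPerm.PL

open MulAction
open scoped Pointwise

section
variable {H X : Type} [Group H] [MulAction H X]

/-- the elements that fix every point of `S` -/
def tor62 (H : Type) {X : Type} [Group H] [MulAction H X] (S : Set X) : Set H :=
  {h | ∀ z ∈ S, h • z = z}

lemma one_mem_tor62 (S : Set X) : (1 : H) ∈ tor62 H S := fun z _ => one_smul H z

lemma tor_pair62 (x y : X) : tor62 H ({x, y} : Set X) = {h : H | h • x = x ∧ h • y = y} := by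
  ext h; simp [tor62]

lemma Tc_eq_tor62 (x y : X) : Tc H x y = Nat.card (tor62 H ({x, y} : Set X)) := by
  rw [tor_pair62]; rfl

lemma smul_pair62 (h : H) (x y : X) : h • ({x, y} : Set X) = {h • x, h • y} := by
  rw [Set.smul_set_insert, Set.smul_set_singleton]

lemma mem_stab_pair62 (h : H) (x y : X) : h ∈ stabilizer H ({x, y} : Set X) ↔
    (h • x = x ∧ h • y = y) ∨ (h • x = y ∧ h • y = x) := by
  rw [mem_stabilizer_iff, smul_pair62, Set.pair_eq_pair_iff]

lemma Nc_eq_stab62 (x y : X) : Nc H x y = Nat.card (stabilizer H ({x, y} : Set X)) := by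
  unfold Nc
  exact Nat.card_congr (Equiv.subtypeEquivRight (fun h => (mem_stab_pair62 h x y).symm))

lemma card_tor_smul62 (h : H) (S : Set X) :
    Nat.card (tor62 H (h • S)) = Nat.card (tor62 H S) := by
  refine Nat.card_congr (Equiv.subtypeEquiv (MulAut.conj h⁻¹).toEquiv ?_)
  intro g
  have e : ∀ z : X, ((MulAut.conj h⁻¹).toEquiv g) • z = h⁻¹ • g • h • z := by
    intro z
    show (h⁻¹ * g * h⁻¹⁻¹) • z = _
    rw [inv_inv, mul_smul, mul_smul]
  constructor
  · intro hg z hz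
    rw [e, hg (h • z) (Set.smul_mem_smul_set hz), inv_smul_smul]
  · rintro hg _ ⟨z, hz, rfl⟩
    have h1 := hg z hz
    rw [e, inv_smul_eq_iff] at h1
    exact h1

lemma Uc_smul62 (h : H) (x : X) : Uc H (h • x) = Uc H x := by
  refine Nat.card_congr (Equiv.subtypeEquiv (MulAut.conj h⁻¹).toEquiv ?_)
  intro g
  have e : ∀ z : X, ((MulAut.conj h⁻¹).toEquiv g) • z = h⁻¹ • g • h • z := by
    intro z
    show (h⁻¹ * g * h⁻¹⁻¹) • z = _
    rw [inv_inv, mul_smul, mul_smul]
  have e1 : (MulAut.conj h⁻¹).toEquiv g = 1 ↔ g = 1 := by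
    show (MulAut.conj h⁻¹) g = 1 ↔ _
    exact map_eq_one_iff _ (MulAut.conj h⁻¹).injective
  unfold IsU
  rw [e1]
  refine or_congr Iff.rfl ⟨fun hg y => ?_, fun hg y => ?_⟩
  · rw [e, inv_smul_eq_iff, hg (h • y)]
    exact smul_left_cancel_iff h
  · have := hg (h⁻¹ • y)
    rw [e, smul_inv_smul, smul_left_cancel_iff, inv_smul_eq_iff] at this
    exact this

lemma Nc_or62 [Finite H] {x y : X} (hxy : x ≠ y) :
    Nc H x y = Tc H x y ∨ Nc H x y = 2 * Tc H x y := by
  have hd : Disjoint (fun h : H => h • x = x ∧ h • y = y) (fun h : H => h • x = y ∧ h • y = x) := by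
    rw [Pi.disjoint_iff]
    intro h
    rw [Prop.disjoint_iff]
    rintro ⟨⟨h1, _⟩, ⟨h2, _⟩⟩
    exact hxy (h1.symm.trans h2)
  classical
  have h1 : Nc H x y = Tc H x y + Nat.card {h : H // h • x = y ∧ h • y = x} := by
    unfold Nc Tc
    rw [← Nat.card_sum]
    exact Nat.card_congr (subtypeOrEquiv _ _ hd)
  by_cases hs : ∃ s : H, s • x = y ∧ s • y = x
  · right
    obtain ⟨s, hs1, hs2⟩ := hs
    have h2 : Nat.card {h : H // h • x = y ∧ h • y = x} = Tc H x y := by
      unfold Tc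
      refine Nat.card_congr (Equiv.subtypeEquiv (Equiv.mulLeft s) ?_)
      intro g
      show _ ↔ (s * g) • x = x ∧ (s * g) • y = y
      rw [mul_smul, mul_smul]
      constructor
      · rintro ⟨h3, h4⟩
        rw [h3, h4]
        exact ⟨hs2, hs1⟩
      · rintro ⟨h3, h4⟩
        constructor
        · apply MulAction.injective s
          show s • g • x = s • y
          rw [h3, hs2]
        · apply MulAction.injective s
          show s • g • y = s • x
          rw [h4, hs1]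
    rw [h1, h2]; ring
  · left
    have : IsEmpty {h : H // h • x = y ∧ h • y = x} := ⟨fun h => hs ⟨h.1, h.2⟩⟩
    rw [h1, Nat.card_of_isEmpty, add_zero]

/-- pairs of points with a nontrivial torus -/
def VV62 (H X : Type) [Group H] [MulAction H X] : SubMulAction H (Set X) where
  carrier := {S | ∃ x y, x ≠ y ∧ S = {x, y} ∧ 1 < Nat.card (tor62 H S)}
  smul_mem' := by
    rintro h S ⟨x, y, hxy, hS, hc⟩
    refine ⟨h • x, h • y, fun e => hxy (MulAction.injective h e), ?_, ?_⟩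
    · rw [hS, smul_pair62]
    · rw [card_tor_smul62]; exact hc

lemma card_ne_one62 [Finite H] (A : Set H) (h1 : (1 : H) ∈ A) :
    Nat.card {h : H // h ≠ 1 ∧ h ∈ A} + 1 = Nat.card A := by
  have : Nat.card {h : H // h ≠ 1 ∧ h ∈ A} = (A \ {1}).ncard := by
    rw [← Nat.card_coe_set_eq]
    refine Nat.card_congr (Equiv.subtypeEquivRight (fun h => ?_))
    simp [and_comm]
  rw [this, Set.ncard_sdiff_singleton_add_one h1 (Set.toFinite A), Nat.card_coe_set_eq]

variable {p : ℕ}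

lemma fixedBy_eq62 (d : DAct H X p) {h : H} (hh : h ≠ 1) {x y : X} (hxy : x ≠ y)
    (h1 : h • x = x) (h2 : h • y = y) : fixedBy X h = {x, y} := by
  ext z
  simp only [mem_fixedBy, Set.mem_insert_iff, Set.mem_singleton_iff]
  constructor
  · intro hz
    rcases d.fix_le h hh x y z h1 h2 hz with e | e | e
    · exact absurd e hxy
    · exact Or.inl e.symm
    · exact Or.inr e.symm
  · rintro (rfl | rfl) <;> assumption

lemma exists_of_card62 [Finite H] {A : Set H} (h1 : 1 < Nat.card A) : ∃ h ∈ A, h ≠ 1 := by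
  by_contra hc
  push Not at hc
  have : A ⊆ {1} := fun h hh => hc h hh
  have h2 := Set.ncard_le_ncard this (Set.finite_singleton 1)
  rw [Set.ncard_singleton] at h2
  rw [Nat.card_coe_set_eq] at h1
  omega

lemma finite_VV62 [Finite H] (d : DAct H X p) : Finite (VV62 H X) := by
  have : ((VV62 H X : SubMulAction H (Set X)) : Set (Set X)) ⊆
      Set.range (fun h : H => fixedBy X h) := by
    rintro S ⟨x, y, hxy, hS, hc⟩
    obtain ⟨h, hh, hh1⟩ := exists_of_card62 hc
    rw [hS, tor_pair62] at hh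
    exact ⟨h, by rw [hS]; exact fixedBy_eq62 d hh1 hxy hh.1 hh.2⟩
  exact ((Set.finite_range _).subset this).to_subtype

/-- the elements with two fixed points -/
def D2 (H X : Type) [Group H] [MulAction H X] : Set H :=
  {h | h ≠ 1 ∧ ∃ x y : X, x ≠ y ∧ h • x = x ∧ h • y = y}

/-- the elements with one fixed point -/
def D1 (H X : Type) [Group H] [MulAction H X] : Set H :=
  {h | h ≠ 1 ∧ ∃ x : X, ∀ y : X, h • y = y ↔ y = x}

lemma card_D262 [Finite H] (d : DAct H X p) [Fintype (VV62 H X)] :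
    Nat.card (D2 H X) = ∑ S : VV62 H X, (Nat.card (tor62 H (S : Set X)) - 1) := by
  have h1 : ∀ S : VV62 H X, Nat.card (tor62 H (S : Set X)) - 1 =
      Nat.card {h : H // h ≠ 1 ∧ h ∈ tor62 H (S : Set X)} := by
    intro S
    have := card_ne_one62 (tor62 H (S : Set X)) (one_mem_tor62 _)
    omega
  simp_rw [h1]
  rw [← Nat.card_sigma]
  symm
  refine Nat.card_eq_of_bijective
    (fun s : (Σ S : VV62 H X, {h : H // h ≠ 1 ∧ h ∈ tor62 H (S : Set X)}) =>
      (⟨s.2.1, ?_⟩ : D2 H X)) ⟨?_, ?_⟩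
  · obtain ⟨⟨S, x, y, hxy, hS, hc⟩, h, hh1, hh⟩ := s
    refine ⟨hh1, x, y, hxy, hh x ?_, hh y ?_⟩ <;> simp [hS]
  · rintro ⟨⟨S, x, y, hxy, hS, hc⟩, h, hh1, hh⟩ ⟨⟨S', x', y', hxy', hS', hc'⟩, h', hh1', hh'⟩ e
    have e1 : h = h' := congrArg Subtype.val e
    subst e1
    have e2 : S = S' := by
      rw [hS, ← fixedBy_eq62 d hh1 hxy (hh x (by simp [hS])) (hh y (by simp [hS])), hS',
        ← fixedBy_eq62 d hh1 hxy' (hh' x' (by simp [hS'])) (hh' y' (by simp [hS']))]
    subst e2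
    rfl
  · rintro ⟨h, hh1, x, y, hxy, hx, hy⟩
    refine ⟨⟨⟨{x, y}, x, y, hxy, rfl, ?_⟩, h, hh1, ?_⟩, rfl⟩
    · rw [Nat.card_coe_set_eq]
      have : ({1, h} : Set H) ⊆ tor62 H {x, y} := by
        rintro g (rfl | rfl)
        · exact one_mem_tor62 _
        · rw [tor_pair62]; exact ⟨hx, hy⟩
      have h2 := Set.ncard_le_ncard this (Set.toFinite _)
      rw [Set.ncard_pair (Ne.symm hh1)] at h2
      omega
    · rw [tor_pair62]; exact ⟨hx, hy⟩

lemma card_H62 [Finite H] (d : DAct H X p) :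
    Nat.card H = 1 + Nat.card (D1 H X) + Nat.card (D2 H X) := by
  have h1 : (Set.univ : Set H) = ({1} ∪ D1 H X) ∪ D2 H X := by
    ext h
    simp only [Set.mem_univ, Set.mem_union, Set.mem_singleton_iff, true_iff]
    by_cases hh : h = 1
    · exact Or.inl (Or.inl hh)
    · obtain ⟨x, hx⟩ := d.fix_pos h hh
      by_cases h2 : ∃ y, y ≠ x ∧ h • y = y
      · obtain ⟨y, hy, hy2⟩ := h2
        exact Or.inr ⟨hh, x, y, Ne.symm hy, hx, hy2⟩
      · push Not at h2
        refine Or.inl (Or.inr ⟨hh, x, fun y => ⟨fun hy => ?_, fun e => e ▸ hx⟩⟩)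
        by_contra hne
        exact h2 y hne hy
  have h2 : Disjoint ({1} : Set H) (D1 H X) := by
    rw [Set.disjoint_singleton_left]
    exact fun h => h.1 rfl
  have h3 : Disjoint (({1} : Set H) ∪ D1 H X) (D2 H X) := by
    rw [Set.disjoint_left]
    rintro h (h4 | ⟨_, x, hx⟩) ⟨h5, y, z, hyz, hy, hz⟩
    · exact h5 h4
    · exact hyz (((hx y).1 hy).trans ((hx z).1 hz).symm)
  rw [← Set.ncard_univ, h1, Set.ncard_union_eq h3 (Set.toFinite _) (Set.toFinite _),
    Set.ncard_union_eq h2 (Set.toFinite _) (Set.toFinite _), Set.ncard_singleton,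
    Nat.card_coe_set_eq, Nat.card_coe_set_eq]

lemma card_D1_zero62 [Finite H] (h : ∀ x : X, Uc H x = 1) : Nat.card (D1 H X) = 0 := by
  have : IsEmpty (D1 H X) := by
    refine ⟨?_⟩
    rintro ⟨g, hg1, x, hx⟩
    have h1 := card_ne_one62 {h : H | IsU x h} (Or.inl rfl)
    have h2 : Nat.card {h : H | IsU x h} = 1 := h x
    have h3 : 0 < Nat.card {h : H // h ≠ 1 ∧ h ∈ {h : H | IsU x h}} := by
      have : Nonempty {h : H // h ≠ 1 ∧ h ∈ {h : H | IsU x h}} := ⟨⟨g, hg1, Or.inr hx⟩⟩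
      exact Nat.card_pos
    omega
  exact Nat.card_of_isEmpty

lemma card_D162 [Finite H] {x : X} (hx : 1 < Uc H x)
    (hz : ∀ z : X, 1 < Uc H z ↔ ∃ h : H, h • x = z) :
    Nat.card (D1 H X) = {z : X | 1 < Uc H z}.ncard * (Uc H x - 1) := by
  have hfin : Finite {z : X | 1 < Uc H z} := by
    have : {z : X | 1 < Uc H z} ⊆ Set.range (fun h : H => h • x) := by
      intro z h1
      exact (hz z).1 h1
    exact ((Set.finite_range _).subset this).to_subtype
  have := Fintype.ofFinite {z : X | 1 < Uc H z}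
  have h1 : ∀ z : {z : X | 1 < Uc H z},
      Nat.card {h : H // h ≠ 1 ∧ h ∈ {h : H | IsU z.1 h}} = Uc H x - 1 := by
    rintro ⟨z, h2⟩
    have h3 := card_ne_one62 {h : H | IsU z h} (Or.inl rfl)
    have h4 : Nat.card {h : H | IsU z h} = Uc H z := rfl
    obtain ⟨g, hg⟩ := (hz z).1 h2
    have h5 := Uc_smul62 g x
    rw [hg] at h5
    show Nat.card {h : H // h ≠ 1 ∧ h ∈ {h : H | IsU z h}} = Uc H x - 1
    omega
  have h2 : Nat.card (Σ z : {z : X | 1 < Uc H z}, {h : H // h ≠ 1 ∧ h ∈ {h : H | IsU z.1 h}}) =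
      {z : X | 1 < Uc H z}.ncard * (Uc H x - 1) := by
    rw [Nat.card_sigma]
    simp_rw [h1]
    rw [Finset.sum_const, Finset.card_univ, smul_eq_mul, ← Nat.card_eq_fintype_card,
      Nat.card_coe_set_eq]
  rw [← h2]
  symm
  refine Nat.card_eq_of_bijective
    (fun s : (Σ z : {z : X | 1 < Uc H z}, {h : H // h ≠ 1 ∧ h ∈ {h : H | IsU z.1 h}}) =>
      (⟨s.2.1, ?_⟩ : D1 H X)) ⟨?_, ?_⟩
  · obtain ⟨⟨z, h3⟩, h, hh1, hh⟩ := s
    exact ⟨hh1, z, hh.resolve_left hh1⟩
  · rintro ⟨⟨z, h3⟩, h, hh1, hh⟩ ⟨⟨z', h3'⟩, h', hh1', hh'⟩ e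
    have e1 : h = h' := congrArg Subtype.val e
    subst e1
    have e2 : z = z' := by
      have a := hh.resolve_left hh1
      have b := hh'.resolve_left hh1
      exact (b z).1 ((a z).2 rfl)
    subst e2
    rfl
  · rintro ⟨h, hh1, z, hz1⟩
    refine ⟨⟨⟨z, ?_⟩, h, hh1, Or.inr hz1⟩, rfl⟩
    show 1 < Nat.card {h : H | IsU z h}
    have h3 := card_ne_one62 {h : H | IsU z h} (Or.inl rfl)
    have h4 : 0 < Nat.card {h : H // h ≠ 1 ∧ h ∈ {h : H | IsU z h}} := by
      have : Nonempty {h : H // h ≠ 1 ∧ h ∈ {h : H | IsU z h}} := ⟨⟨h, hh1, Or.inr hz1⟩⟩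
      exact Nat.card_pos
    omega

lemma sum_orbits62 [Finite H] {V : Type} [MulAction H V] [Fintype V]
    [Fintype (orbitRel.Quotient H V)] (f : V → ℚ) (hf : ∀ (h : H) (v : V), f (h • v) = f v) :
    ∑ v : V, f v = ∑ i : orbitRel.Quotient H V,
      (Nat.card H : ℚ) / Nat.card (stabilizer H i.out) * f i.out := by
  classical
  have := Fintype.ofFinite H
  rw [← Fintype.sum_equiv (selfEquivSigmaOrbits H V).symm (fun s => f s.2.1) f (fun s => rfl)]
  rw [Fintype.sum_sigma]
  refine Finset.sum_congr rfl (fun i _ => ?_)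
  have h1 : ∀ s : orbit H i.out, f s.1 = f i.out := by
    rintro ⟨_, h, rfl⟩
    exact hf h _
  simp_rw [h1]
  rw [Finset.sum_const, Finset.card_univ, nsmul_eq_mul]
  congr 1
  have h2 := Subgroup.card_mul_index (stabilizer H i.out)
  rw [index_stabilizer] at h2
  have h3 : Fintype.card (orbit H i.out) = (orbit H i.out).ncard := by
    rw [← Nat.card_coe_set_eq, Nat.card_eq_fintype_card]
  rw [h3, ← h2]
  have h4 : (Nat.card (stabilizer H i.out) : ℚ) ≠ 0 := by
    exact_mod_cast (Nat.card_pos (α := stabilizer H i.out)).ne'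
  push_cast
  field_simp

end

theorem class62 (hSyl : StSyl) : StClass := by
  intro H X _ _ _ p hp d
  classical
  have := finite_VV62 d
  have := Fintype.ofFinite (VV62 H X)
  have := Fintype.ofFinite (orbitRel.Quotient H (VV62 H X))
  have hex : ∀ i : orbitRel.Quotient H (VV62 H X), ∃ x y : X, x ≠ y ∧
      ((i.out : VV62 H X) : Set X) = {x, y} ∧ 1 < Nat.card (tor62 H (i.out : Set X)) := by
    intro i
    exact i.out.2
  choose a b hab hS hc using hex
  have hT : ∀ i, Tc H (a i) (b i) = Nat.card (tor62 H (i.out : Set X)) := by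
    intro i; rw [Tc_eq_tor62, hS]
  have hN : ∀ i, Nc H (a i) (b i) = Nat.card (stabilizer H (i.out : VV62 H X)) := by
    intro i
    rw [Nc_eq_stab62, ← hS, SubMulAction.stabilizer_of_subMul]
  have hH : (Nat.card H : ℚ) ≠ 0 := by exact_mod_cast (Nat.card_pos (α := H)).ne'
  have hsum : (Nat.card (D2 H X) : ℚ) = Nat.card H *
      ∑ i, ((Tc H (a i) (b i) : ℚ) - 1) / Nc H (a i) (b i) := by
    rw [card_D262 d]
    push_cast
    have h1 : ∀ S : VV62 H X, ((Nat.card (tor62 H (S : Set X)) - 1 : ℕ) : ℚ) =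
        (Nat.card (tor62 H (S : Set X)) : ℚ) - 1 := by
      intro S
      rw [Nat.cast_sub, Nat.cast_one]
      obtain ⟨x, y, _, _, h⟩ := S.2
      exact h.le
    simp_rw [h1]
    rw [sum_orbits62 (H := H) (fun S : VV62 H X => (Nat.card (tor62 H (S : Set X)) : ℚ) - 1)
      (fun h S => by rw [SubMulAction.val_smul, card_tor_smul62]), Finset.mul_sum]
    refine Finset.sum_congr rfl (fun i _ => ?_)
    rw [hT, hN]
    ring
  have hcard := card_H62 d
  refine ⟨orbitRel.Quotient H (VV62 H X), inferInstance, a, b, ?_, ?_, ?_, ?_, ?_, ?_⟩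
  · intro i
    exact ⟨hab i, by rw [hT]; exact hc i⟩
  · intro i
    exact Nc_or62 (hab i)
  · intro i
    rw [hN]
    exact Subgroup.card_subgroup_dvd_card _
  · intro x y hxy h1
    have hmem : ({x, y} : Set X) ∈ VV62 H X := ⟨x, y, hxy, rfl, by rw [← Tc_eq_tor62]; exact h1⟩
    let S : VV62 H X := ⟨{x, y}, hmem⟩
    refine ⟨(Quotient.mk'' S : orbitRel.Quotient H (VV62 H X)), ?_⟩
    set i : orbitRel.Quotient H (VV62 H X) := Quotient.mk'' S with hi
    have h2 : (orbitRel H (VV62 H X)) i.out S := by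
      have : (Quotient.mk'' i.out : orbitRel.Quotient H (VV62 H X)) = Quotient.mk'' S := by
        rw [← hi]; exact Quotient.out_eq' i
      exact Quotient.eq''.1 this
    rw [orbitRel_apply] at h2
    obtain ⟨g, hg⟩ := h2
    have hg' : ((i.out : VV62 H X) : Set X) = g • ({x, y} : Set X) := by
      rw [← hg]; rfl
    constructor
    · rw [hT, hg', card_tor_smul62, Tc_eq_tor62]
    · rw [Nc_eq_stab62, Nc_eq_stab62, ← hS, hg']
      have := stabilizer_smul_eq_stabilizer_map_conj g ({x, y} : Set X)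
      rw [this]
      exact Nat.card_congr ((stabilizer H ({x, y} : Set X)).equivMapOfInjective _
        (MulAut.conj g).injective).toEquiv
  · intro hU
    rw [card_D1_zero62 hU, add_zero] at hcard
    have h1 : (Nat.card H : ℚ) = 1 + Nat.card (D2 H X) := by exact_mod_cast hcard
    rw [hsum] at h1
    have h2 : (1 : ℚ) / Nat.card H + ∑ i, ((Tc H (a i) (b i) : ℚ) - 1) / Nc H (a i) (b i) =
        (1 + Nat.card H * ∑ i, ((Tc H (a i) (b i) : ℚ) - 1) / Nc H (a i) (b i)) / Nat.card H := by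
      field_simp
    rw [h2, ← h1, div_self hH]
  · intro x hx
    obtain ⟨hz, hZ, _⟩ := hSyl H X p hp d x hx
    rw [card_D162 hx hz] at hcard
    have h1 : (Nat.card H : ℚ) = 1 + ({z : X | 1 < Uc H z}.ncard : ℚ) * ((Uc H x : ℚ) - 1) +
        Nat.card (D2 H X) := by
      have : ((Uc H x - 1 : ℕ) : ℚ) = (Uc H x : ℚ) - 1 := by
        rw [Nat.cast_sub hx.le, Nat.cast_one]
      rw [← this]
      exact_mod_cast hcard
    rw [hsum] at h1
    have hZ' : ({z : X | 1 < Uc H z}.ncard : ℚ) * Sc H x = Nat.card H := by exact_mod_cast hZ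
    have hS0 : (Sc H x : ℚ) ≠ 0 := by
      intro h
      rw [h, mul_zero] at hZ'
      exact hH hZ'.symm
    have h3 : ((Uc H x : ℚ) - 1) / Sc H x =
        ({z : X | 1 < Uc H z}.ncard : ℚ) * ((Uc H x : ℚ) - 1) / Nat.card H := by
      rw [← hZ']
      have hz0 : ({z : X | 1 < Uc H z}.ncard : ℚ) ≠ 0 := by
        intro h
        rw [h, zero_mul] at hZ'
        exact hH hZ'.symm
      field_simp
    have h2 : (1 : ℚ) / Nat.card H + ((Uc H x : ℚ) - 1) / Sc H x +
        ∑ i, ((Tc H (a i) (b i) : ℚ) - 1) / Nc H (a i) (b i) =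
        (1 + ({z : X | 1 < Uc H z}.ncard : ℚ) * ((Uc H x : ℚ) - 1) +
          Nat.card H * ∑ i, ((Tc H (a i) (b i) : ℚ) - 1) / Nc H (a i) (b i)) / Nat.card H := by
      rw [h3]
      field_simp
    rw [h2, ← h1, div_self hH]

end SpreadPerm.PL
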