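import Pool.Agent.Lib.MP_e6ed9e_al.PL.Defs

/-! # Row DICK: Dickson by numbers (helper54) -/

namespace SpreadPerm.PL

open MulAction

theorem dick54 (hStab : StStab) (hSyl : StSyl) (hClass : StClass) (hArith : StArith) :
    StDick := by
  intro H X _ _ _ p hp hD
  have hpos : 0 < Nat.card H := Nat.card_pos
  obtain ⟨ι, hι, a, b, h1, h2, h3, h4, h5, h6⟩ := hClass H X p hp hD
  have hk : ∀ i, 2 ≤ Tc H (a i) (b i) := fun i => (h1 i).2
  have hn : ∀ i, ∃ n : ℕ, (n = 1 ∨ n = 2) ∧ Nc H (a i) (b i) = n * Tc H (a i) (b i) := by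
    intro i
    rcases h2 i with h | h
    · exact ⟨1, Or.inl rfl, by rw [h, one_mul]⟩
    · exact ⟨2, Or.inr rfl, h⟩
  choose n hn1 hn2 using hn
  have hA := hArith ι (fun i => Tc H (a i) (b i)) n (Nat.card H) hpos hk hn1
    (fun i => by rw [← hn2 i]; exact h3 i)
  -- a pair stabilizer of full order
  have hfull : (∃ i, n i * Tc H (a i) (b i) = Nat.card H) →
      ∃ x y : X, x ≠ y ∧ 1 < Tc H x y ∧
        ∀ h : H, (h • x = x ∧ h • y = y) ∨ (h • x = y ∧ h • y = x) := by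
    rintro ⟨i, hi⟩
    refine ⟨a i, b i, (h1 i).1, (h1 i).2, ?_⟩
    rw [← hn2 i] at hi
    intro h
    have hle : Nat.card H ≤ Nat.card {h : H // (h • a i = a i ∧ h • b i = b i) ∨
        (h • a i = b i ∧ h • b i = a i)} := hi.symm.le
    obtain ⟨y, hy⟩ := (Function.Injective.bijective_of_nat_card_le
      (f := (Subtype.val : {h : H // (h • a i = a i ∧ h • b i = b i) ∨
        (h • a i = b i ∧ h • b i = a i)} → H)) Subtype.val_injective hle).2 h
    rw [← hy]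
    exact y.2
  by_cases hU : ∀ x : X, Uc H x = 1
  · have he := h5 hU
    have he' : (1 : ℚ) / Nat.card H +
        ∑ i, ((Tc H (a i) (b i) : ℚ) - 1) / (n i * Tc H (a i) (b i) : ℕ) = 1 := by
      have hs : ∑ i, ((Tc H (a i) (b i) : ℚ) - 1) / (n i * Tc H (a i) (b i) : ℕ) =
          ∑ i, ((Tc H (a i) (b i) : ℚ) - 1) / Nc H (a i) (b i) :=
        Finset.sum_congr rfl fun i _ => by rw [hn2 i]
      rw [hs]
      exact he
    rcases hA.1 he' with h | h
    · exact Or.inr (Or.inr (Or.inl h))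
    · exact Or.inr (Or.inl (hfull h))
  · push Not at hU
    obtain ⟨x0, hx0⟩ := hU
    have hx1 : 1 < Uc H x0 := by
      have h0 : 0 < Uc H x0 := by
        have : Nonempty {h : H // IsU x0 h} := ⟨⟨1, Or.inl rfl⟩⟩
        exact Nat.card_pos
      omega
    obtain ⟨s1, s2, s3⟩ := hSyl H X p hp hD x0 hx1
    have hst := hStab H X p hp hD x0
    -- the number k0
    obtain ⟨k0, k1, k2, k3, k4⟩ : ∃ k0 : ℕ, 1 ≤ k0 ∧ k0 ∣ Uc H x0 - 1 ∧
        Sc H x0 = Uc H x0 * k0 ∧ (k0 = 1 ∨ ∃ y, y ≠ x0 ∧ 1 < Tc H x0 y ∧ Tc H x0 y = k0) := by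
      rcases hst with h | ⟨y, y1, y2, y3, y4⟩
      · exact ⟨1, le_refl 1, one_dvd _, by rw [mul_one, h], Or.inl rfl⟩
      · exact ⟨Tc H x0 y, y2.le, y4, y3, Or.inr ⟨y, y1, y2, rfl⟩⟩
    have he := h6 x0 hx1
    have he' : (1 : ℚ) / Nat.card H + ((Uc H x0 : ℚ) - 1) / (Uc H x0 * k0 : ℕ) +
        ∑ i, ((Tc H (a i) (b i) : ℚ) - 1) / (n i * Tc H (a i) (b i) : ℕ) = 1 := by
      have hs : ∑ i, ((Tc H (a i) (b i) : ℚ) - 1) / (n i * Tc H (a i) (b i) : ℕ) =
          ∑ i, ((Tc H (a i) (b i) : ℚ) - 1) / Nc H (a i) (b i) :=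
        Finset.sum_congr rfl fun i _ => by rw [hn2 i]
      rw [hs, ← k3]
      exact he
    have hN : Nat.card H = {z : X | 1 < Uc H z}.ncard * (Uc H x0 * k0) := by
      rw [← k3]; exact s2.symm
    have hk0 : k0 = 1 ∨ ∃ i, Tc H (a i) (b i) = k0 := by
      rcases k4 with h | ⟨y, y1, y2, y3⟩
      · exact Or.inl h
      · obtain ⟨i, hi, -⟩ := h4 x0 y y1.symm y2
        exact Or.inr ⟨i, by rw [← hi, y3]⟩
    rcases hA.2 (Uc H x0) k0 _ hx1 k1 k2 hN s3 hk0 he' with h | h | h | ⟨h, d, hd, hd'⟩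
    · left
      refine ⟨x0, fun g => ?_⟩
      obtain ⟨z, hz⟩ := Set.ncard_eq_one.1 h
      have e1 : x0 ∈ {z : X | 1 < Uc H z} := hx1
      have e2 : g • x0 ∈ {z : X | 1 < Uc H z} := (s1 (g • x0)).2 ⟨g, rfl⟩
      rw [hz, Set.mem_singleton_iff] at e1 e2
      rw [e2, ← e1]
    · exact Or.inr (Or.inr (Or.inl h))
    · exact Or.inr (Or.inl (hfull h))
    · right; right
      rcases k4 with hk | ⟨y, y1, y2, y3⟩
      · left
        rw [hk, mul_one] at hd' hN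
        have hQ : Uc H x0 ≤ 3 := by
          rcases hd with hd | hd <;> omega
        rw [hN, h]
        have : (Uc H x0 + 1) * Uc H x0 ≤ 4 * 3 := Nat.mul_le_mul (by omega) hQ
        omega
      · right
        refine ⟨x0, y, d, y1.symm, hx1, h, hd, ?_, ?_⟩
        · rw [y3]; exact hd'
        · rw [y3, ← h]; exact hN

end SpreadPerm.PL
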