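import Mathlib
import Pool.Agent.Lib.MP_e6ed9e_al.PL.Semi30

/-!
# QI groups: statements of the rows
-/

namespace SpreadPerm.PL

open MulAction

noncomputable section

/-- `G` is QI on `Ω`: the functions `Ω → ℚ` with sum zero have no proper nonzero `G`-submodule. -/
def QI (G Ω : Type) [Group G] [Fintype Ω] [MulAction G Ω] : Prop :=
  ∀ W : Submodule ℚ (Ω → ℚ), (∀ w ∈ W, ∑ i, w i = 0) →
    (∀ (g : G), ∀ w ∈ W, (fun i => w (g⁻¹ • i)) ∈ W) →
    W = ⊥ ∨ ∀ w : Ω → ℚ, ∑ i, w i = 0 → w ∈ W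

/-- QI2: a 2-transitive group is QI. -/
def StQI2 : Prop := ∀ (G Ω : Type) [Group G] [Finite G] [Fintype Ω] [MulAction G Ω],
  IsMultiplyPretransitive G Ω 2 → QI G Ω

/-- QIP: cyclic groups of prime order (`Polynomial.cyclotomic.irreducible_rat`). -/
def StQIP : Prop := ∀ (r : ℕ) [Fact r.Prime] (W : Submodule ℚ (ZMod r → ℚ)),
  (∀ w ∈ W, (fun i => w (i + 1)) ∈ W) → (∃ w ∈ W, w ≠ 0 ∧ ∑ i, w i = 0) →
  ∀ w : ZMod r → ℚ, ∑ i, w i = 0 → w ∈ W

/-- QIE: the action on the anisotropic forms, `q = 2^n`, `q - 1` prime. -/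
def StQIE : Prop := ∀ (F G Ω : Type) [Field F] [Fintype F] [Group G] [Finite G] [Fintype Ω]
  [DistribMulAction G (Fin 2 → F)] [MulAction G Ω] [IsPretransitive G Ω] (A B C : Ω → F),
  SAct F G Ω → SEll F G Ω A B C → ringChar F = 2 → (Fintype.card F - 1).Prime → QI G Ω

/-- The final theorem. -/
def StSMainQI : Prop := ∀ (F G Ω : Type) [Field F] [Fintype F] [Group G] [Finite G] [Fintype Ω]
  [DistribMulAction G (Fin 2 → F)] [MulAction G Ω] [IsPretransitive G Ω], SAct F G Ω →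
  10000 ≤ Fintype.card F → Spreading G Ω → QI G Ω ∧ (IsMultiplyPretransitive G Ω 2 ∨
    (ringChar F = 2 ∧ (Fintype.card F - 1).Prime ∧
      2 * Fintype.card Ω = Fintype.card F * (Fintype.card F - 1)))

end

end SpreadPerm.PL
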