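import Mathlib
import Pool.Agent.Lib.MP_e6ed9e_al.PL.QDefs

/-! # QIP (second key, helper47) -/

namespace SpreadPerm.PL

open Polynomial

noncomputable section

/-- The shift. -/
def sh (r : ℕ) : (ZMod r → ℚ) →ₗ[ℚ] (ZMod r → ℚ) where
  toFun w := fun i => w (i + 1)
  map_add' _ _ := rfl
  map_smul' _ _ := rfl

theorem sh_pow (r k : ℕ) (w : ZMod r → ℚ) : ((sh r) ^ k) w = fun i => w (i + k) := by
  induction k generalizing w with
  | zero => funext i; simp
  | succ k ih =>
    rw [pow_succ, Module.End.mul_apply, ih]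
    funext i
    show w (i + k + 1) = w (i + ((k + 1 : ℕ) : ZMod r))
    push_cast
    ring_nf

theorem aeval_mem (r : ℕ) (W : Submodule ℚ (ZMod r → ℚ))
    (hW : ∀ w ∈ W, (fun i => w (i + 1)) ∈ W) (p : ℚ[X]) (w : ZMod r → ℚ) (hw : w ∈ W) :
    aeval (sh r) p w ∈ W := by
  have hk : ∀ (k : ℕ), ((sh r) ^ k) w ∈ W := by
    intro k
    induction k with
    | zero => simpa using hw
    | succ k ih =>
      rw [pow_succ', Module.End.mul_apply]
      exact hW _ ih
  induction p using Polynomial.induction_on' with
  | add p q hp hq =>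
    rw [map_add, LinearMap.add_apply]
    exact W.add_mem hp hq
  | monomial n a =>
    rw [aeval_monomial, Module.End.mul_apply, Module.algebraMap_end_apply]
    exact W.smul_mem _ (hk n)

theorem qip47 : StQIP := by
  intro r _ W hW ⟨w, hw, hw0, hws⟩ w' hw'
  have hr : r.Prime := Fact.out
  set δ : ZMod r → ℚ := Pi.single 0 1 with hδ
  -- every function is a polynomial in the shift applied to `δ`
  have hrep : ∀ u : ZMod r → ℚ,
      aeval (sh r) (∑ i : ZMod r, C (u i) * X ^ ((-i).val)) δ = u := by
    intro u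
    rw [map_sum, LinearMap.sum_apply]
    funext j
    rw [Finset.sum_apply, Finset.sum_eq_single j]
    · rw [map_mul, aeval_C, map_pow, aeval_X, Module.End.mul_apply, sh_pow]
      rw [Module.algebraMap_end_apply]
      show u j * δ (j + (((-j).val : ℕ) : ZMod r)) = u j
      rw [ZMod.natCast_zmod_val, add_neg_cancel, hδ, Pi.single_eq_same, mul_one]
    · intro i _ hij
      rw [map_mul, aeval_C, map_pow, aeval_X, Module.End.mul_apply, sh_pow]
      rw [Module.algebraMap_end_apply]
      show u i * δ (j + (((-i).val : ℕ) : ZMod r)) = 0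
      rw [ZMod.natCast_zmod_val, hδ, Pi.single_eq_of_ne, mul_zero]
      intro h
      exact hij (by rw [← sub_eq_add_neg, sub_eq_zero] at h; exact h.symm)
    · intro h
      exact absurd (Finset.mem_univ _) h
  set a : ℚ[X] := ∑ i : ZMod r, C (w i) * X ^ ((-i).val) with ha
  have haδ : aeval (sh r) a δ = w := hrep w
  have hirr : Irreducible (cyclotomic r ℚ) := cyclotomic.irreducible_rat hr.pos
  -- the cyclotomic polynomial maps everything to the constant functions
  have hcyc : ∀ u : ZMod r → ℚ, aeval (sh r) (cyclotomic r ℚ) u = fun _ => ∑ i, u i := by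
    intro u
    rw [cyclotomic_prime ℚ r, map_sum, LinearMap.sum_apply]
    funext j
    rw [Finset.sum_apply]
    have h1 : ∀ k ∈ Finset.range r, (aeval (sh r) ((X : ℚ[X]) ^ k) u) j = u (j + (k : ZMod r)) := by
      intro k _
      rw [map_pow, aeval_X, sh_pow]
    rw [Finset.sum_congr rfl h1]
    have h2 : ∑ k ∈ Finset.range r, u (j + (k : ZMod r)) = ∑ i : ZMod r, u (j + i) := by
      symm
      apply Finset.sum_nbij' (fun i : ZMod r => i.val) (fun k : ℕ => (k : ZMod r))
      · intro i _
        exact Finset.mem_range.2 (ZMod.val_lt i)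
      · intro k _
        exact Finset.mem_univ _
      · intro i _
        exact ZMod.natCast_zmod_val i
      · intro k hk
        exact ZMod.val_natCast_of_lt (Finset.mem_range.1 hk)
      · intro i _
        rw [ZMod.natCast_zmod_val]
    rw [h2]
    exact Fintype.sum_equiv (Equiv.addLeft j) _ _ (fun i => rfl)
  have hnd : ¬ cyclotomic r ℚ ∣ a := by
    rintro ⟨b, hb⟩
    apply hw0
    have h1 : w = fun _ => ∑ i, (aeval (sh r) b δ) i := by
      rw [← hcyc, ← Module.End.mul_apply, ← map_mul, ← hb, haδ]
    rw [h1] at hws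
    rw [Finset.sum_const, Finset.card_univ, ZMod.card, nsmul_eq_mul] at hws
    rw [h1]
    funext i
    show (∑ i, (aeval (sh r) b δ) i) = 0
    rcases mul_eq_zero.1 hws with h | h
    · exact absurd (by exact_mod_cast h) hr.ne_zero
    · exact h
  have hcop : IsCoprime (cyclotomic r ℚ) a := (hirr.coprime_iff_not_dvd).2 hnd
  obtain ⟨v, u, huv⟩ := hcop
  -- `δ - c` is in `W`
  have h1 : aeval (sh r) u w ∈ W := aeval_mem r W hW u w hw
  have h2 : aeval (sh r) u w = δ - aeval (sh r) v (fun _ => (1 : ℚ)) := by
    have h3 := congrArg (fun p => aeval (sh r) p δ) huv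
    simp only [map_add, map_mul, LinearMap.add_apply, Module.End.mul_apply, map_one,
      Module.End.one_apply, haδ, hcyc] at h3
    have h4 : (∑ i : ZMod r, δ i) = 1 := by
      rw [hδ, Finset.sum_pi_single']
      simp
    rw [h4] at h3
    rw [eq_sub_iff_add_eq, add_comm]
    exact h3
  -- constants are mapped to constants
  have hconst : ∀ (p : ℚ[X]) (c : ℚ), ∃ d : ℚ, aeval (sh r) p (fun _ : ZMod r => c) = fun _ => d := by
    intro p c
    induction p using Polynomial.induction_on' with
    | add p q hp hq =>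
      obtain ⟨d, hd⟩ := hp
      obtain ⟨e, he⟩ := hq
      refine ⟨d + e, ?_⟩
      rw [map_add, LinearMap.add_apply, hd, he]
      rfl
    | monomial n a =>
      refine ⟨a * c, ?_⟩
      rw [aeval_monomial, Module.End.mul_apply, sh_pow, Module.algebraMap_end_apply]
      rfl
  obtain ⟨d, hd⟩ := hconst v 1
  rw [h2, hd] at h1
  have h5 := aeval_mem r W hW (∑ i : ZMod r, C (w' i) * X ^ ((-i).val)) _ h1
  rw [map_sub, hrep] at h5
  have h6 : aeval (sh r) (∑ i : ZMod r, C (w' i) * X ^ ((-i).val)) (fun _ : ZMod r => d) = 0 := by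
    rw [map_sum, LinearMap.sum_apply]
    funext j
    rw [Finset.sum_apply]
    have h7 : ∀ i : ZMod r, (aeval (sh r) (C (w' i) * X ^ ((-i).val)) (fun _ : ZMod r => d)) j =
        w' i * d := by
      intro i
      rw [map_mul, aeval_C, map_pow, aeval_X, Module.End.mul_apply, sh_pow,
        Module.algebraMap_end_apply]
      rfl
    rw [Finset.sum_congr rfl (fun i _ => h7 i), ← Finset.sum_mul, hw', zero_mul]
    rfl
  rw [h6, sub_zero] at h5
  exact h5

end

end SpreadPerm.PL
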