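import Pool.Agent.Lib.MP_e6ed9e_al.PL.SMain30
import Pool.Agent.Lib.MP_e6ed9e_al.PL.Prim96
import Pool.Agent.Lib.MP_e6ed9e_al.PL.SBase30
import Pool.Agent.Lib.MP_e6ed9e_al.PL.SPair30
import Pool.Agent.Lib.MP_e6ed9e_al.PL.SLabel2
import Pool.Agent.Lib.MP_e6ed9e_al.PL.Surj88
import Pool.Agent.Lib.MP_e6ed9e_al.PL.Card88
import Pool.Agent.Lib.MP_e6ed9e_al.PL.STraRow30
import Pool.Agent.Lib.MP_e6ed9e_al.PL.SCon54
import Pool.Agent.Lib.MP_e6ed9e_al.PL.SMdim97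
import Pool.Agent.Lib.MP_e6ed9e_al.PL.SSmall62
import Pool.Agent.Lib.MP_e6ed9e_al.PL.SUni30
import Pool.Agent.Lib.MP_e6ed9e_al.PL.SRb25
import Pool.Agent.Lib.MP_e6ed9e_al.PL.Srp1
import Pool.Agent.Lib.MP_e6ed9e_al.PL.SRE84
import Pool.Agent.Lib.MP_e6ed9e_al.PL.Num97
import Pool.Agent.Lib.MP_e6ed9e_al.PL.Dick88
import Pool.Agent.Lib.MP_e6ed9e_al.PL.Syl88
import Pool.Agent.Lib.MP_e6ed9e_al.PL.Pgl16
import Pool.Agent.Lib.MP_e6ed9e_al.PL.KerRat51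
import Pool.Agent.Lib.MP_e6ed9e_al.PL.Sub25
import Pool.Agent.Lib.MP_e6ed9e_al.PL.Full1
import Pool.Agent.Lib.MP_e6ed9e_al.PL.QI2_1
import Pool.Agent.Lib.MP_e6ed9e_al.PL.QIE54

/-! # The semilinear theorem: spreading implies QI -/

namespace SpreadPerm.PL

open MulAction

theorem smainE30 :
    ∀ (F G Ω : Type) [Field F] [Fintype F] [Group G] [Finite G] [Fintype Ω]
      [DistribMulAction G (Fin 2 → F)] [MulAction G Ω] [IsPretransitive G Ω], SAct F G Ω →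
      10000 ≤ Fintype.card F → Spreading G Ω → IsMultiplyPretransitive G Ω 2 ∨
        (ringChar F = 2 ∧ (Fintype.card F - 1).Prime ∧ ∃ A B C : Ω → F, SEll F G Ω A B C) :=
  smain30 prim96 sborel30 spair30 (slabel2 surj88) stra30 scon54 scount30 smdim97 ssmall62 suni30
    (SRb25.srb25 snorm30) (srp1 snorm30 ker51) (sre84 snorm30) num97 dick88 syl88 pgl16 rat51
    Sub25.sub25 full1 ker51

theorem smain30_all : StSMain := by
  intro F G Ω _ _ _ _ _ _ _ _ hL hq hs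
  rcases smainE30 F G Ω hL hq hs with h | ⟨h1, h2, A, B, C, hE⟩
  · exact Or.inl h
  · exact Or.inr ⟨h1, h2, scard88 F G Ω A B C hE⟩

theorem smainQI30 (hP : StQIP) : StSMainQI := by
  intro F G Ω _ _ _ _ _ _ _ _ hL hq hs
  rcases smainE30 F G Ω hL hq hs with h | ⟨h1, h2, A, B, C, hE⟩
  · exact ⟨qi2_1 G Ω h, Or.inl h⟩
  · exact ⟨QIE54.qie54 hP F G Ω A B C hL hE h1 h2, Or.inr ⟨h1, h2, scard88 F G Ω A B C hE⟩⟩

end SpreadPerm.PL
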