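import Pool.Agent.Lib.MP_e6ed9e_al.PL.Semi30
import Pool.Agent.Lib.MP_e6ed9e_al.PL.Main47

/-! # Row SMAIN -/

namespace SpreadPerm.PL

open scoped LinearAlgebra.Projectivization MatrixGroups
open MulAction

noncomputable section

/-- The elliptic case. -/
theorem sell30 (hTra : StSTra) (hCon : StSCon)
    (F G Ω : Type) [Field F] [Fintype F] [Group G] [Fintype Ω]
    [DistribMulAction G (Fin 2 → F)] [MulAction G Ω] (A B C : Ω → F)
    (hE : SEll F G Ω A B C) (hq : 10000 ≤ Fintype.card F) (hs : Spreading G Ω) :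
    ringChar F = 2 ∧ (Fintype.card F - 1).Prime := by
  by_cases h2 : ringChar F = 2
  · refine ⟨h2, ?_⟩
    by_contra hnp
    have heven : Fintype.card F % 2 = 0 := FiniteField.even_card_of_char_two h2
    have hg : Nat.gcd 2 (Fintype.card F - 1) = 1 := by
      have : (Fintype.card F - 1) % 2 = 1 := by omega
      rw [Nat.gcd_rec, this]
      rfl
    obtain ⟨d, hd1, hd2, hd3⟩ := (Nat.not_prime_iff_exists_dvd_lt (by omega)).1 hnp
    obtain ⟨e, he⟩ := hd1
    have he2 : 2 ≤ e := by
      by_contra hcon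
      have : e = 0 ∨ e = 1 := by omega
      rcases this with rfl | rfl
      · omega
      · omega
    exact hs (hTra F G Ω A B C hE (Fintype.card F - 1) d e (by rw [hg, Nat.div_one]) he hd2 he2)
  · exfalso
    have hodd : Fintype.card F % 2 = 1 := FiniteField.odd_card_of_char_ne_two h2
    have h4 : Fintype.card F % 4 = 3 ∨ Fintype.card F % 4 = 1 := by omega
    rcases h4 with h4 | h4
    · exact hs (hCon F G Ω A B C hE h4 (by omega))
    · have hg : Nat.gcd 2 (Fintype.card F - 1) = 2 := by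
        apply Nat.gcd_eq_left
        omega
      exact hs (hTra F G Ω A B C hE ((Fintype.card F - 1) / 2) 2 ((Fintype.card F - 1) / 4)
        (by rw [hg]) (by omega) le_rfl (by omega))

/-- The group on the projective line over the big field. -/
abbrev SB (F K G : Type) [Field F] [Field K] [Algebra F K] [Group G]
    [DistribMulAction G (Fin 2 → F)] {Ω : Type} [MulAction G Ω] (ω : Ω) :
    Subgroup (Equiv.Perm (PX K)) := (LS F G ω).map (psi F K)

/-- SMAIN -/
theorem smain30 (hPrim : StPrim) (hBorel : StSBorel) (hPair : StSPair) (hLabel : StSLabel)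
    (hTra : StSTra) (hCon : StSCon) (hCount : StSCount) (hMdim : StSMdim) (hSmall : StSSmall)
    (hUni : StSUni) (hRb : StSRb) (hRp : StSRp) (hRe : StSRe) (hNum : StNum) (hDick : StDick)
    (hSyl : StSyl) (hPgl : StPgl) (hRat : StRat) (hSub : StSub) (hFull : StFull)
    (hKer : StKer) :
    ∀ (F G Ω : Type) [Field F] [Fintype F] [Group G] [Finite G] [Fintype Ω]
      [DistribMulAction G (Fin 2 → F)] [MulAction G Ω] [IsPretransitive G Ω], SAct F G Ω →
      10000 ≤ Fintype.card F → Spreading G Ω → IsMultiplyPretransitive G Ω 2 ∨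
        (ringChar F = 2 ∧ (Fintype.card F - 1).Prime ∧ ∃ A B C : Ω → F, SEll F G Ω A B C) := by
  intro F G Ω _ _ _ _ _ _ _ _ hL hq hs
  obtain ⟨g0, m0, hm0, hg0, ω, hω⟩ := hL.nt
  have hΩ : 1 < Fintype.card Ω := Fintype.one_lt_card_iff.2 ⟨_, _, hω⟩
  have hcoat := hPrim G Ω hs hΩ
  let K := AlgebraicClosure F
  let p := ringChar F
  have : CharP F p := ringChar.charP F
  have hp : p.Prime := CharP.char_is_prime F p
  have hD : DAct (SB F K G ω) (PX K) p := hPgl F K p hp _
  have : Finite (SB F K G ω) := by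
    have h1 : ((SB F K G ω : Subgroup (Equiv.Perm (PX K))) : Set (Equiv.Perm (PX K))).Finite := by
      have : ((LS F G ω : Subgroup (GL (Fin 2) F)) : Set (GL (Fin 2) F)).Finite := Set.toFinite _
      exact this.image _
    exact h1.to_subtype
  have mem_SB : ∀ h : Equiv.Perm (PX K), h ∈ SB F K G ω ↔ ∃ m ∈ LS F G ω, psi F K m = h := by
    intro h
    exact Subgroup.mem_map
  -- an intransitive stabilizer
  have hintr : Nat.card (SB F K G ω) ^ 2 ≤ Fintype.card F ^ 3 →
      (∃ x y : Fin 2 → F, x ≠ 0 ∧ y ≠ 0 ∧ ∀ g : G, g • ω = ω → ∀ c : F, g • x ≠ c • y) →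
      False := by
    intro h1 h2
    refine hs (hMdim F G Ω hL ω ?_ h2)
    exact hNum (Fintype.card F) (Fintype.card Ω) (Nat.card (SB F K G ω)) hq
      (hCount F K G Ω hL ω (hcoat ω)) h1
  have hsmall : ¬ Nat.card (SB F K G ω) ≤ 60 := by
    intro h60
    refine hintr ?_ (hSmall F K G Ω hL ω hq h60)
    calc Nat.card (SB F K G ω) ^ 2 ≤ 60 ^ 2 := Nat.pow_le_pow_left h60 2
      _ ≤ Fintype.card F ^ 1 := by
        rw [pow_one]
        omega
      _ ≤ Fintype.card F ^ 3 := Nat.pow_le_pow_right (by omega) (by norm_num)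
  have hbig : 60 < Nat.card (SB F K G ω) := by omega
  -- the elliptic case
  have hell : ∀ (a b c : F) (x : PX K), (∀ v : Fin 2 → F, v ≠ 0 → bq a b c v ≠ 0) →
      bq (algebraMap F K a) (algebraMap F K b) (algebraMap F K c) x.rep = 0 →
      (∀ m ∈ LS F G ω, bq (algebraMap F K a) (algebraMap F K b) (algebraMap F K c)
        (psi F K m x).rep = 0) →
      ringChar F = 2 ∧ (Fintype.card F - 1).Prime ∧ ∃ A B C : Ω → F, SEll F G Ω A B C := by
    intro a b c x han hx hmx
    have h1 : ∀ m ∈ LS F G ω, ∃ l : F, ∀ v : Fin 2 → F, bq a b c (m • v) = l * bq a b c v :=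
      fun m hm => form_scal han m x hx (hmx m hm)
    have h2 := hRe F K G Ω hL ω hbig a b c han h1
    obtain ⟨A, B, C, hE⟩ := hLabel F G Ω hL ω (hcoat ω) (by omega) ⟨a, b, c, han, h2⟩
    obtain ⟨h3, h4⟩ := sell30 hTra hCon F G Ω A B C hE hq hs
    exact ⟨h3, h4, A, B, C, hE⟩
  -- the pair case
  have hpair : ∀ v w : Fin 2 → F, (∀ c : F, v ≠ c • w) → (∀ c : F, w ≠ c • v) →
      (∀ g : G, g • ω = ω → ((∃ c : F, g • v = c • v) ∧ ∃ c : F, g • w = c • w) ∨
        ((∃ c : F, g • v = c • w) ∧ ∃ c : F, g • w = c • v)) → False :=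
    fun v w h1 h2 h3 => hs (hPair F G Ω hL ω (hcoat ω) (by omega) ⟨v, w, h1, h2, h3⟩)
  rcases hDick (SB F K G ω) (PX K) p hp hD with hA | hB | hC | hE
  · obtain ⟨x, hx⟩ := hA
    have hx' : ∀ m ∈ LS F G ω, psi F K m x = x := fun m hm =>
      hx ⟨psi F K m, (mem_SB _).2 ⟨m, hm, rfl⟩⟩
    by_cases hr : Rat F K x
    · left
      obtain ⟨v, hv, hv1, rfl⟩ := hr
      have h1 : ∀ m ∈ LS F G ω, ∃ c : F, m • v = c • v := by
        intro m hm
        have h1 := hx' m hm
        have h2 : m • v ≠ 0 := (smul_ne_zero_iff_ne m).2 hv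
        rw [psi_up m hv1 (up_ne h2)] at h1
        exact mk_up_eq _ _ h1
      have hcard1 : 1 < Nat.card (SB F K G ω) := by omega
      rcases hRb F K G Ω hL ω hcard1 ⟨v, hv, h1⟩ with h2 | ⟨v', w', h2, h3, h4⟩
      · exact hBorel F G Ω hL ω (hcoat ω) h2
      · exact (hpair v' w' h2 h3 h4).elim
    · obtain ⟨h, hh⟩ := one_lt_card_ex (α := SB F K G ω) (by omega) 1
      obtain ⟨m, hm, hmh⟩ := (mem_SB _).1 h.2
      have hg1 : psi F K m ≠ 1 := by
        intro h1
        apply hh
        apply Subtype.ext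
        rw [← hmh, h1]
        rfl
      obtain ⟨r1, r2⟩ := hRat F K m hg1
      have h3 : ∃ y, psi F K m y = y ∧ y ≠ x := by
        by_contra hcon
        push Not at hcon
        exact hr (r1 x (fun y => ⟨hcon y, fun hy => by rw [hy]; exact hx' m hm⟩))
      obtain ⟨y, hy1, hy2⟩ := h3
      rcases r2 x y (Ne.symm hy2) (hx' m hm) hy1 with h4 | ⟨a, b, c, han, hz⟩
      · exact absurd h4.1 hr
      · right
        refine hell a b c x han ((hz x).2 (Or.inl rfl)) (fun m' hm' => ?_)
        rw [hx' m' hm']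
        exact (hz x).2 (Or.inl rfl)
  · obtain ⟨x, y, hxy, hT, hst⟩ := hB
    have hst' : ∀ m ∈ LS F G ω, (psi F K m x = x ∧ psi F K m y = y) ∨
        (psi F K m x = y ∧ psi F K m y = x) := fun m hm =>
      hst ⟨psi F K m, (mem_SB _).2 ⟨m, hm, rfl⟩⟩
    obtain ⟨⟨h, hh1, hh2⟩, hh3⟩ := one_lt_card_ex hT ⟨1, one_smul _ x, one_smul _ y⟩
    obtain ⟨m, hm, hmh⟩ := (mem_SB _).1 h.2
    have hg1 : psi F K m ≠ 1 := by
      intro h1
      apply hh3
      apply Subtype.ext
      apply Subtype.ext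
      rw [← hmh, h1]
      rfl
    have hgx : psi F K m x = x := by rw [hmh]; exact hh1
    have hgy : psi F K m y = y := by rw [hmh]; exact hh2
    obtain ⟨r1, r2⟩ := hRat F K m hg1
    rcases r2 x y hxy hgx hgy with ⟨⟨v, hv, hv1, rfl⟩, ⟨w, hw, hw1, rfl⟩⟩ | ⟨a, b, c, han, hz⟩
    · exfalso
      have hne : ∀ (u t : Fin 2 → F) (hu : up F K u ≠ 0) (ht : up F K t ≠ 0),
          Projectivization.mk K (up F K u) hu ≠ Projectivization.mk K (up F K t) ht →
          ∀ c : F, u ≠ c • t := by
        intro u t hu ht hne c hc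
        apply hne
        rw [Projectivization.mk_eq_mk_iff']
        refine ⟨algebraMap F K c, ?_⟩
        rw [hc]
        funext i
        simp [up]
      have h5 : ∀ m' ∈ LS F G ω, ((∃ c : F, m' • v = c • v) ∧ ∃ c : F, m' • w = c • w) ∨
          ((∃ c : F, m' • v = c • w) ∧ ∃ c : F, m' • w = c • v) := by
        intro m' hm'
        have h2 : m' • v ≠ 0 := (smul_ne_zero_iff_ne m').2 hv
        have h3 : m' • w ≠ 0 := (smul_ne_zero_iff_ne m').2 hw
        rcases hst' m' hm' with ⟨h4, h5⟩ | ⟨h4, h5⟩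
        · left
          rw [psi_up m' hv1 (up_ne h2)] at h4
          rw [psi_up m' hw1 (up_ne h3)] at h5
          exact ⟨mk_up_eq _ _ h4, mk_up_eq _ _ h5⟩
        · right
          rw [psi_up m' hv1 (up_ne h2)] at h4
          rw [psi_up m' hw1 (up_ne h3)] at h5
          exact ⟨mk_up_eq _ _ h4, mk_up_eq _ _ h5⟩
      exact hpair v w (hne v w hv1 hw1 hxy) (hne w v hw1 hv1 hxy.symm)
        (hRp F K G Ω hL ω hbig v w (hne v w hv1 hw1 hxy) (hne w v hw1 hv1 hxy.symm) h5)
    · right
      refine hell a b c x han ((hz x).2 (Or.inl rfl)) (fun m' hm' => ?_)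
      rcases hst' m' hm' with ⟨h4, -⟩ | ⟨h4, -⟩
      · rw [h4]
        exact (hz x).2 (Or.inl rfl)
      · rw [h4]
        exact (hz y).2 (Or.inr rfl)
  · exact absurd hC hsmall
  · exfalso
    obtain ⟨x, y, d, hxy, hU, hcard, hd, hdT, hHB⟩ := hE
    have hZrat : ∀ z : PX K, 1 < Uc (SB F K G ω) z → Rat F K z := by
      intro z hz
      obtain ⟨⟨h, hh⟩, hh3⟩ := one_lt_card_ex hz ⟨1, Or.inl rfl⟩
      have hne : h ≠ 1 := by
        intro h1
        apply hh3
        apply Subtype.ext
        exact h1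
      obtain ⟨m, hm, hmh⟩ := (mem_SB _).1 h.2
      have hg1 : psi F K m ≠ 1 := by
        intro h1
        apply hne
        apply Subtype.ext
        rw [← hmh, h1]
        rfl
      rcases hh with hh | hh
      · exact absurd hh hne
      · refine (hRat F K m hg1).1 z (fun y => ?_)
        rw [hmh]
        exact hh y
    obtain ⟨hs1, hs2, hs3⟩ := hSyl (SB F K G ω) (PX K) p hp hD x hU
    have hZfin : {z : PX K | 1 < Uc (SB F K G ω) z}.Finite := by
      apply Set.finite_of_ncard_pos
      omega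
    rcases hSub F K _ x y d hxy hU hd hdT with hQ | hQ
    · -- the full group
      have hall : ∀ z : PX K, Rat F K z → 1 < Uc (SB F K G ω) z := by
        by_contra hcon
        push Not at hcon
        obtain ⟨z, hz1, hz2⟩ := hcon
        have h1 : insert z {z : PX K | 1 < Uc (SB F K G ω) z} ⊆ Set.range (rp F K) := by
          rintro w (rfl | hw)
          · exact (rat_iff _).1 hz1
          · exact (rat_iff _).1 (hZrat w hw)
        have h2 : (Set.range (rp F K)).ncard = Fintype.card F + 1 := by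
          rw [← Set.image_univ, Set.ncard_image_of_injective _ rp_inj, Set.ncard_univ,
            Nat.card_eq_fintype_card, Fintype.card_option]
        have h3 := Set.ncard_le_ncard h1 (Set.finite_range _)
        rw [Set.ncard_insert_of_notMem (by
          show ¬ (1 < Uc (SB F K G ω) z)
          omega) hZfin, hcard, hQ, Nat.card_eq_fintype_card] at h3
        omega
      have hUall : ∀ z : PX K, Rat F K z → Uc (SB F K G ω) z = Nat.card F := by
        intro z hz
        obtain ⟨h, rfl⟩ := (hs1 z).1 (hall z hz)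
        rw [Uc_smul, hQ]
      obtain ⟨m1, ⟨g1, hg1, hg1m⟩, hm1⟩ := (mem_SB _).1 (hFull F K _ hUall m0 hm0)
      have h1 : psi F K (m0 * m1⁻¹) = 1 := by
        rw [map_mul, map_inv, hm1, mul_inv_cancel]
      obtain ⟨c, hc⟩ := (hKer F K _).1 h1
      have h2 := hL.sc (g0 * g1⁻¹) ⟨c, fun v => by
        have h3 : g1⁻¹ • v = m1⁻¹ • v := by
          rw [inv_smul_eq_iff, hg1m, smul_inv_smul]
        rw [mul_smul, h3, hg0, smul_smul]
        show (m0 * m1⁻¹).1.mulVec v = c • v
        rw [hc]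
        ext i
        simp [Matrix.scalar_apply, Matrix.mulVec_diagonal]⟩ ω
      rw [mul_smul, inv_smul_eq_iff.2 hg1.symm] at h2
      exact hω h2
    · -- a subfield group
      rw [Nat.card_eq_fintype_card] at hQ
      have hlt : Uc (SB F K G ω) x < Fintype.card F := by nlinarith
      have hTle : Tc (SB F K G ω) x y ≤ Uc (SB F K G ω) x - 1 := by
        rw [← hdT]
        rcases hd with rfl | rfl
        · omega
        · omega
      refine hintr ?_ ?_
      · have h1 : Nat.card (SB F K G ω) ≤ Uc (SB F K G ω) x ^ 3 := by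
          rw [hHB]
          generalize Uc (SB F K G ω) x = Q at *
          generalize Tc (SB F K G ω) x y = T at *
          obtain ⟨r, rfl⟩ : ∃ r, Q = r + 1 := ⟨Q - 1, by omega⟩
          have h2 : T ≤ r := by omega
          calc (r + 1 + 1) * ((r + 1) * T) ≤ (r + 1 + 1) * ((r + 1) * r) := by gcongr
            _ ≤ (r + 1) ^ 3 := by nlinarith
        calc Nat.card (SB F K G ω) ^ 2 ≤ (Uc (SB F K G ω) x ^ 3) ^ 2 := Nat.pow_le_pow_left h1 2
          _ = (Uc (SB F K G ω) x ^ 2) ^ 3 := by ring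
          _ ≤ Fintype.card F ^ 3 := Nat.pow_le_pow_left hQ 3
      · have hlt2 : {z : PX K | 1 < Uc (SB F K G ω) z}.ncard < Fintype.card F + 1 := by omega
        exact hUni F K G Ω hL ω ⟨x, hU⟩ hlt2

end

end SpreadPerm.PL
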