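import Mathlib
import Pool.Agent.Lib.MP_e6ed9e_al.PL.Semi30
import Pool.Agent.Lib.MP_e6ed9e_al.PL.Intr97

/-! # Row SMDIM -/

namespace SpreadPerm.PL

open scoped LinearAlgebra.Projectivization MatrixGroups
open MulAction

noncomputable section

/-- The class of a vector in the projective line. -/
def cl97 {F : Type} [Field F] (v : Fin 2 → F) : Option F :=
  open Classical in if v 1 = 0 then none else some (v 0 / v 1)

theorem cl97_eq {F : Type} [Field F] {v w : Fin 2 → F} (hw : w ≠ 0)
    (h : cl97 v = cl97 w) : ∃ c : F, v = c • w := by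
  classical
  unfold cl97 at h
  by_cases hv1 : v 1 = 0
  · by_cases hw1 : w 1 = 0
    · have hw0 : w 0 ≠ 0 := by
        intro hw0
        apply hw
        funext i
        fin_cases i
        · exact hw0
        · exact hw1
      refine ⟨v 0 / w 0, ?_⟩
      funext i
      fin_cases i
      · show v 0 = v 0 / w 0 * w 0
        field_simp
      · show v 1 = v 0 / w 0 * w 1
        rw [hv1, hw1, mul_zero]
    · rw [if_pos hv1, if_neg hw1] at h
      exact absurd h (by simp)
  · by_cases hw1 : w 1 = 0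
    · rw [if_neg hv1, if_pos hw1] at h
      exact absurd h (by simp)
    · rw [if_neg hv1, if_neg hw1, Option.some_inj] at h
      refine ⟨v 1 / w 1, ?_⟩
      funext i
      fin_cases i
      · show v 0 = v 1 / w 1 * w 0
        rw [div_eq_div_iff hv1 hw1] at h
        field_simp
        linear_combination h
      · show v 1 = v 1 / w 1 * w 1
        field_simp

theorem smdim97 : StSMdim := by
  intro F G Ω _ _ _ _ _ _ _ _ hS ω hlt hxy
  classical
  obtain ⟨x, y, hx, hy, hno⟩ := hxy
  by_contra hsp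
  have hG : Spreading G Ω := hsp
  have hinvmem : ∀ (g : G) (c : F), g • x = c • x → ∃ c' : F, g⁻¹ • x = c' • x := by
    intro g c hg
    obtain ⟨σ, hσ⟩ := hS.semi g⁻¹
    have h1 : x = σ c • (g⁻¹ • x) := by
      rw [← hσ, ← hg, inv_smul_smul]
    have h2 : σ c ≠ 0 := by
      intro h2
      rw [h2, zero_smul] at h1
      exact hx h1
    refine ⟨(σ c)⁻¹, ?_⟩
    conv_rhs => rw [h1, smul_smul, inv_mul_cancel₀ h2, one_smul]
  let K : Subgroup G :=
    { carrier := {g | ∃ c : F, g • x = c • x}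
      one_mem' := ⟨1, by rw [one_smul, one_smul]⟩
      mul_mem' := by
        rintro g h ⟨c, hc⟩ ⟨d, hd⟩
        obtain ⟨σ, hσ⟩ := hS.semi g
        exact ⟨σ d * c, by rw [mul_smul, hd, hσ, hc, smul_smul]⟩
      inv_mem' := by
        rintro g ⟨c, hc⟩
        exact hinvmem g c hc }
  have hmem : ∀ g : G, g ∈ K ↔ ∃ c : F, g • x = c • x := fun _ => Iff.rfl
  -- the index
  have hidx : K.index ≤ Fintype.card F + 1 := by
    rw [Subgroup.index_eq_card]
    have hinj : Function.Injective (fun a : G ⧸ K => cl97 (a.out • x)) := by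
      intro a b hab
      obtain ⟨c, hc⟩ := cl97_eq ((smul_ne_zero_iff_ne b.out).2 hx) hab
      obtain ⟨σ, hσ⟩ := hS.semi (b.out)⁻¹
      have h1 : (b.out⁻¹ * a.out) ∈ K := by
        rw [hmem]
        refine ⟨σ c, ?_⟩
        rw [mul_smul, hc, hσ, inv_smul_smul]
      have h2 : (QuotientGroup.mk b.out : G ⧸ K) = QuotientGroup.mk a.out :=
        QuotientGroup.eq.2 h1
      rw [← QuotientGroup.out_eq' a, ← QuotientGroup.out_eq' b]
      exact h2.symm
    calc Nat.card (G ⧸ K) ≤ Nat.card (Option F) := Nat.card_le_card_of_injective _ hinj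
      _ = Fintype.card F + 1 := by rw [Nat.card_eq_fintype_card, Fintype.card_option]
  -- it is intransitive
  have hK : ¬ IsPretransitive K Ω := by
    intro hK
    obtain ⟨m1, hm1, hm1x⟩ := trans97 x hx
    obtain ⟨m2, hm2, hm2y⟩ := trans97 y hy
    have hdet : Matrix.det (m2 * m1⁻¹).1 = 1 := by
      have h2 : Matrix.GeneralLinearGroup.det (m2 * m1⁻¹) = 1 := by
        have hk' : Matrix.GeneralLinearGroup.det m2 = 1 := Units.ext hm2
        have hg' : Matrix.GeneralLinearGroup.det m1 = 1 := Units.ext hm1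
        rw [map_mul, map_inv, hk', hg', inv_one, mul_one]
      exact congrArg Units.val h2
    obtain ⟨t, ht⟩ := hS.sl _ hdet
    have htx : t • x = y := by
      rw [ht, mul_smul, ← hm1x, inv_smul_smul, hm2y]
    obtain ⟨k, hk⟩ := hK.exists_smul_eq (t⁻¹ • ω) ω
    have hk' : k.1 • t⁻¹ • ω = ω := hk
    have h1 : (t * k.1⁻¹) • ω = ω := by
      rw [mul_smul, inv_smul_eq_iff.2 hk'.symm, smul_inv_smul]
    obtain ⟨c, hc⟩ := k.2
    obtain ⟨c', hc'⟩ := hinvmem k.1 c hc
    obtain ⟨σ, hσ⟩ := hS.semi t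
    refine hno _ h1 (σ c') ?_
    rw [mul_smul, hc', hσ, htx]
  have hb := index_bound hG K hK
  have hn0 : 0 < Fintype.card Ω := Fintype.card_pos_iff.2 ⟨ω⟩
  have h4 : Fintype.card Ω ^ K.index ≤ Fintype.card Ω ^ (Fintype.card F + 1) :=
    Nat.pow_le_pow_right hn0 hidx
  omega

end

end SpreadPerm.PL
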