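import Pool.Agent.Lib.MP_e6ed9e_al.PL.QDefs
import Pool.Agent.Lib.MP_e6ed9e_al.PL.QI2_1
import Pool.Agent.Lib.MP_e6ed9e_al.PL.SMain30
import Pool.Agent.Lib.MP_e6ed9e_al.PL.SBase30
import Pool.Agent.Lib.MP_e6ed9e_al.PL.SLabel2
import Pool.Agent.Lib.MP_e6ed9e_al.PL.STraRow30
import Pool.Agent.Lib.MP_e6ed9e_al.PL.SCon54
import Pool.Agent.Lib.MP_e6ed9e_al.PL.SMdim97
import Pool.Agent.Lib.MP_e6ed9e_al.PL.SSmall62
import Pool.Agent.Lib.MP_e6ed9e_al.PL.SUni62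
import Pool.Agent.Lib.MP_e6ed9e_al.PL.SRb25
import Pool.Agent.Lib.MP_e6ed9e_al.PL.Srp1
import Pool.Agent.Lib.MP_e6ed9e_al.PL.SRE84
import Pool.Agent.Lib.MP_e6ed9e_al.PL.Prim96
import Pool.Agent.Lib.MP_e6ed9e_al.PL.Num97
import Pool.Agent.Lib.MP_e6ed9e_al.PL.Surj88
import Pool.Agent.Lib.MP_e6ed9e_al.PL.Card88
import Pool.Agent.Lib.MP_e6ed9e_al.PL.Dick88
import Pool.Agent.Lib.MP_e6ed9e_al.PL.Syl88
import Pool.Agent.Lib.MP_e6ed9e_al.PL.Pgl16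
import Pool.Agent.Lib.MP_e6ed9e_al.PL.KerRat51
import Pool.Agent.Lib.MP_e6ed9e_al.PL.Sub25
import Pool.Agent.Lib.MP_e6ed9e_al.PL.Full1

/-! # The theorem for all groups with socle `PSL(2,q)` -/

namespace SpreadPerm.PL

theorem sall47 (hPair : StSPair) (hE : StQIE) : StSMainQI := by
  intro F G Ω _ _ _ _ _ _ _ _ hA hq hs
  rcases smain30 prim96 sborel30 hPair (slabel2 surj88) stra30 scon54 scount30 smdim97 ssmall62
    (suni62 snorm30 rat51) (SRb25.srb25 snorm30) (srp1 snorm30 ker51) (sre84 snorm30) num97 dick88 syl88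
    pgl16 rat51 Sub25.sub25 full1 ker51 F G Ω hA hq hs with h | ⟨h2, hp, A, B, C, hS⟩
  · exact ⟨qi2_1 G Ω h, Or.inl h⟩
  · exact ⟨hE F G Ω A B C hA hS h2 hp, Or.inr ⟨h2, hp, scard88 F G Ω A B C hS⟩⟩

end SpreadPerm.PL
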