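import Mathlib
import Pool.Agent.Lib.MP_e6ed9e_al.PL.Semi30

/-!
# Row SCARD: the number of anisotropic forms, from the linear row (trivial group)
-/

namespace SpreadPerm.PL

open scoped LinearAlgebra.Projectivization MatrixGroups
open MulAction

theorem scard34 (hC : StCard) : StSCard := by
  intro F G Ω _ _ _ _ _ _ A B C h
  let _ : MulAction (⊥ : Subgroup (GL (Fin 2) F)) Ω :=
    { smul := fun _ ω => ω
      one_smul := fun _ => rfl
      mul_smul := fun _ _ _ => rfl }
  refine hC F Ω ⊥ A B C ⟨h.aniso, h.inj, h.surj, fun g ω => ⟨1, one_ne_zero, fun v => ?_⟩⟩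
  have hg : g.1 = 1 := Subgroup.mem_bot.1 g.2
  show bq (A ω) (B ω) (C ω) (g.1 • v) = 1 * bq (A ω) (B ω) (C ω) v
  rw [hg, one_smul, one_mul]

end SpreadPerm.PL
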