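import Pool.Agent.Lib.MP_e6ed9e_al.PL.SAll47
import Pool.Agent.Lib.MP_e6ed9e_al.PL.SPair30
import Pool.Agent.Lib.MP_e6ed9e_al.PL.QIE54
import Pool.Agent.Lib.MP_e6ed9e_al.PL.Qip47

/-! # The theorem for all groups with socle `PSL(2,q)`, final form -/

namespace SpreadPerm.PL

theorem sfinal47 : StSMainQI := sall47 spair30 (QIE54.qie54 qip47)

end SpreadPerm.PL
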