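import Mathlib
import Pool.Agent.Lib.MP_e6ed9e_al.PL.Semi30

/-!
# Row SNORM: conjugation of a linear element of the stabilizer by a semilinear one
-/

namespace SpreadPerm.PL

open scoped LinearAlgebra.Projectivization MatrixGroups
open MulAction

section
variable {F : Type} [Field F] {G : Type} [Group G] [DistribMulAction G (Fin 2 → F)]

/-- An element that acts linearly acts as an invertible matrix. -/
theorem exists_gl34 (g : G) (hg : ∀ (c : F) (v : Fin 2 → F), g • (c • v) = c • (g • v)) :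
    ∃ m : GL (Fin 2) F, ∀ v : Fin 2 → F, g • v = m • v := by
  let f : (Fin 2 → F) ≃ₗ[F] (Fin 2 → F) :=
    { toFun := fun v => g • v
      invFun := fun v => g⁻¹ • v
      left_inv := fun v => inv_smul_smul g v
      right_inv := fun v => smul_inv_smul g v
      map_add' := smul_add g
      map_smul' := hg }
  refine ⟨⟨LinearMap.toMatrix' f.toLinearMap, LinearMap.toMatrix' f.symm.toLinearMap, ?_, ?_⟩, ?_⟩
  · rw [← LinearMap.toMatrix'_comp, LinearEquiv.comp_symm, LinearMap.toMatrix'_id]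
  · rw [← LinearMap.toMatrix'_comp, LinearEquiv.symm_comp, LinearMap.toMatrix'_id]
  · intro v
    show g • v = (LinearMap.toMatrix' f.toLinearMap).mulVec v
    rw [LinearMap.toMatrix'_mulVec]
    rfl

/-- The inverse is semilinear for the inverse automorphism. -/
theorem inv_semi34 {g : G} {σ : F ≃+* F}
    (hg : ∀ (c : F) (v : Fin 2 → F), g • (c • v) = σ c • (g • v)) (c : F) (v : Fin 2 → F) :
    g⁻¹ • (c • v) = σ.symm c • (g⁻¹ • v) := by
  rw [inv_smul_eq_iff, hg, RingEquiv.apply_symm_apply, smul_inv_smul]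

end

theorem snorm34 : StSNorm := by
  intro F G Ω _ _ _ _ _ hS ω g hg m hm
  obtain ⟨g₀, hg₀, hm'⟩ := hm
  obtain ⟨σ, hσ⟩ := hS.semi g
  obtain ⟨m', h'⟩ := exists_gl34 (F := F) (g * g₀ * g⁻¹) (by
    intro c v
    have hlin : ∀ (c : F) (v : Fin 2 → F), g₀ • (c • v) = c • (g₀ • v) := by
      intro c v
      rw [hm', hm']
      exact (Matrix.mulVec_smul m.1 c v)
    rw [mul_smul, mul_smul, inv_semi34 hσ, hlin, hσ, RingEquiv.apply_symm_apply, mul_smul,
      mul_smul])
  refine ⟨m', ⟨g * g₀ * g⁻¹, ?_, h'⟩, ?_⟩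
  · rw [mul_smul, mul_smul, inv_smul_eq_iff.2 hg.symm, hg₀, hg]
  · intro v
    rw [← h', mul_smul, mul_smul, inv_smul_smul, hm']

end SpreadPerm.PL
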