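import Pool.Agent.Lib.MP_e6ed9e_al.PL.Semi30
import Pool.Agent.Lib.MP_e6ed9e_al.PL.Pair96

/-!
# SPAIR: the semilinear action on the pairs of rational points
-/

namespace SpreadPerm.PL

open scoped LinearAlgebra.Projectivization MatrixGroups Pointwise
open MulAction Finset

section
variable {F : Type} [Field F]

/-- the line of a vector -/
def ln (v : Fin 2 → F) : Set (Fin 2 → F) := {x | ∃ c : F, x = c • v}

theorem ln_smul {c : F} (hc : c ≠ 0) (v : Fin 2 → F) : ln (c • v) = ln v := by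
  ext x
  constructor
  · rintro ⟨a, rfl⟩
    exact ⟨a * c, by rw [mul_smul]⟩
  · rintro ⟨a, rfl⟩
    exact ⟨a * c⁻¹, by rw [smul_smul, mul_assoc, inv_mul_cancel₀ hc, mul_one]⟩

theorem ln_ne {v w : Fin 2 → F} (h : dt v w ≠ 0) : ln v ≠ ln w := by
  intro h1
  have h2 : v ∈ ln v := ⟨1, (one_smul _ _).symm⟩
  rw [h1] at h2
  obtain ⟨a, rfl⟩ := h2
  refine h ?_
  show a * w 0 * w 1 - a * w 1 * w 0 = 0
  ring

variable {G : Type} [Group G] [DistribMulAction G (Fin 2 → F)]

theorem smul_ln (g : G) (σ : F ≃+* F) (hσ : ∀ (c : F) (v : Fin 2 → F),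
    g • (c • v) = σ c • (g • v)) (v : Fin 2 → F) : g • ln v = ln (g • v) := by
  ext x
  rw [Set.mem_smul_set]
  constructor
  · rintro ⟨y, ⟨c, rfl⟩, rfl⟩
    exact ⟨σ c, hσ c v⟩
  · rintro ⟨c, rfl⟩
    refine ⟨σ.symm c • v, ⟨_, rfl⟩, ?_⟩
    rw [hσ, σ.apply_symm_apply]

theorem smul_ln_eq (g : G) (hg : ∃ σ : F ≃+* F, ∀ (c : F) (v : Fin 2 → F),
    g • (c • v) = σ c • (g • v)) (v v' : Fin 2 → F) (hv : v ≠ 0)
    (h : ∃ c : F, g • v = c • v') : g • ln v = ln v' := by
  obtain ⟨σ, hσ⟩ := hg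
  obtain ⟨c, hc⟩ := h
  have hc0 : c ≠ 0 := by
    rintro rfl
    rw [zero_smul] at hc
    have h1 : g • v = g • (0 : Fin 2 → F) := by rw [hc, smul_zero]
    exact hv (smul_left_cancel g h1)
  rw [smul_ln g σ hσ, hc, ln_smul hc0]

/-- the action on the pairs -/
def sac (g : G) (z : Sym2 (Set (Fin 2 → F))) : Sym2 (Set (Fin 2 → F)) :=
  Sym2.map (fun x => g • x) z

theorem sac_one (z : Sym2 (Set (Fin 2 → F))) : sac (1 : G) z = z := by
  rw [sac]
  simp

theorem sac_mul (g h : G) (z : Sym2 (Set (Fin 2 → F))) :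
    sac (g * h) z = sac g (sac h z) := by
  rw [sac, sac, sac, Sym2.map_map]
  congr 1
  funext x
  exact mul_smul g h x

end

theorem spair96 : StSPair := by
  intro F G Ω _ _ _ _ _ _ _ hL ω hco hF ⟨v, w, hv, hw, hst⟩
  classical
  have hdt := dt_ne hv hw
  have hv0 := ne_zero_left hdt
  have hw0 := ne_zero_right hdt
  let P0 : Sym2 (Set (Fin 2 → F)) := s(ln v, ln w)
  have hmk : ∀ (g : G) (x y x' y' : Fin 2 → F), x ≠ 0 → y ≠ 0 →
      (∃ c : F, g • x = c • x') → (∃ c : F, g • y = c • y') →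
      sac g s(ln x, ln y) = s(ln x', ln y') := by
    intro g x y x' y' hx hy h1 h2
    rw [sac, Sym2.map_mk, smul_ln_eq g (hL.semi g) x x' hx h1, smul_ln_eq g (hL.semi g) y y' hy h2]
  let S : Subgroup G :=
    { carrier := {g | sac g P0 = P0}
      mul_mem' := by
        intro a b ha hb
        show sac (a * b) P0 = P0
        rw [sac_mul, show sac b P0 = P0 from hb, show sac a P0 = P0 from ha]
      one_mem' := sac_one P0
      inv_mem' := by
        intro a ha
        show sac a⁻¹ P0 = P0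
        conv_lhs => rw [← show sac a P0 = P0 from ha]
        rw [← sac_mul, inv_mul_cancel, sac_one] }
  have hle : stabilizer G ω ≤ S := by
    intro g hg
    show sac g P0 = P0
    rcases hst g hg with ⟨h1, h2⟩ | ⟨h1, h2⟩
    · exact hmk g v w v w hv0 hw0 h1 h2
    · exact (hmk g v w w v hv0 hw0 h1 h2).trans Sym2.eq_swap
  have hne : S ≠ ⊤ := by
    intro htop
    have hd : dt v (w + v) ≠ 0 := by
      have : dt v (w + v) = dt v w := by
        show v 0 * (w 1 + v 1) - v 1 * (w 0 + v 0) = _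
        rw [dt]
        ring
      rw [this]
      exact hdt
    have hd2 : dt (w + v) w ≠ 0 := by
      have : dt (w + v) w = dt v w := by
        show (w 0 + v 0) * w 1 - (w 1 + v 1) * w 0 = _
        rw [dt]
        ring
      rw [this]
      exact hdt
    obtain ⟨m, hm1, hm2, c, hc, hm3⟩ := exists_sl hdt hd
    obtain ⟨g, hg⟩ := hL.sl m hm1
    have hgS : g ∈ S := by
      rw [htop]
      exact Subgroup.mem_top _
    have h1 : sac g P0 = P0 := hgS
    have h2 := hmk g v w v (w + v) hv0 hw0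
      ⟨1, by rw [one_smul, hg, hm2]⟩ ⟨c, by rw [hg, hm3]⟩
    rw [h1] at h2
    rcases Sym2.eq_iff.1 h2 with ⟨_, h4⟩ | ⟨h4, _⟩
    · exact ln_ne hd2 h4.symm
    · exact ln_ne hd h4
  have hS : S = stabilizer G ω := by
    rcases (hco.le_iff).1 hle with h | h
    · exact absurd h hne
    · exact h
  choose γ hγ using fun ω' => exists_smul_eq G ω ω'
  let L : Ω → Sym2 (Set (Fin 2 → F)) := fun ω' => sac (γ ω') P0
  have hact : ∀ g h : G, g • ω = h • ω ↔ sac g P0 = sac h P0 := by
    intro g h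
    have h1 : g • ω = h • ω ↔ (h⁻¹ * g) ∈ stabilizer G ω := by
      rw [mem_stabilizer_iff, mul_smul, inv_smul_eq_iff]
    rw [h1, ← hS]
    show sac (h⁻¹ * g) P0 = P0 ↔ _
    constructor
    · intro h2
      rw [sac_mul] at h2
      have h3 := congrArg (sac h) h2
      rwa [← sac_mul, mul_inv_cancel, sac_one] at h3
    · intro h2
      rw [sac_mul, h2, ← sac_mul, inv_mul_cancel, sac_one]
  have hLg : ∀ g : G, L (g • ω) = sac g P0 := fun g => (hact _ _).1 (hγ (g • ω))
  have hLinj : Function.Injective L := by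
    intro ω1 ω2 h
    rw [← hγ ω1, ← hγ ω2]
    exact (hact _ _).2 h
  have hLeq : ∀ (g : G) (ω' : Ω), L (g • ω') = sac g (L ω') := by
    intro g ω'
    have h1 : g • ω' = (g * γ ω') • ω := by rw [mul_smul, hγ]
    rw [h1, hLg]
    show sac (g * (γ ω')) P0 = _
    rw [sac_mul]
  have hrange : ∀ (u u' : Fin 2 → F), dt u u' ≠ 0 → s(ln u, ln u') ∈ Set.range L := by
    intro u u' hd
    obtain ⟨m, hm1, hm2, c, hc, hm3⟩ := exists_sl hdt hd
    obtain ⟨g, hg⟩ := hL.sl m hm1
    refine ⟨g • ω, ?_⟩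
    rw [hLg]
    exact hmk g v w u u' hv0 hw0 ⟨1, by rw [one_smul, hg, hm2]⟩ ⟨c, by rw [hg, hm3]⟩
  let e : Ω ≃ Set.range L := Equiv.ofInjective L hLinj
  let _ : MulAction G (Set.range L) := e.symm.mulAction G
  have hsm : ∀ (g : G) (x : Set.range L), g • x = e (g • e.symm x) := fun g x => rfl
  have : IsPretransitive G (Set.range L) := by
    refine ⟨fun x y => ?_⟩
    obtain ⟨g, hg⟩ := exists_smul_eq G (e.symm x) (e.symm y)
    exact ⟨g, by rw [hsm, hg, e.apply_symm_apply]⟩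
  refine transfer96 e (fun g ω' => by rw [hsm, e.symm_apply_apply]) ?_
  -- four points
  obtain ⟨t, ht0, ht1⟩ : ∃ t : F, t ≠ 0 ∧ t ≠ 1 := by
    have h1 : ({0, 1} : Finset F).card < (univ : Finset F).card := by
      have h2 : ({0, 1} : Finset F).card ≤ 2 := Finset.card_le_two
      rw [Finset.card_univ]
      omega
    obtain ⟨t, _, ht⟩ := Finset.exists_mem_notMem_of_card_lt_card h1
    simp only [Finset.mem_insert, Finset.mem_singleton, not_or] at ht
    exact ⟨t, ht.1, ht.2⟩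
  let a0 : Fin 2 → F := ![1, 0]
  let b0 : Fin 2 → F := ![0, 1]
  let a1 : Fin 2 → F := ![1, 1]
  let b1 : Fin 2 → F := ![1, t]
  have d1 : dt a0 b0 ≠ 0 := by simp [dt, a0, b0]
  have d2 : dt a0 a1 ≠ 0 := by simp [dt, a0, a1]
  have d3 : dt b0 a1 ≠ 0 := by simp [dt, b0, a1]
  have d4 : dt a0 b1 ≠ 0 := by simp [dt, a0, b1, ht0]
  have d5 : dt b0 b1 ≠ 0 := by simp [dt, b0, b1]
  have d6 : dt a1 b1 ≠ 0 := by
    simp only [dt, a1, b1, Matrix.cons_val_zero, Matrix.cons_val_one, one_mul, mul_one]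
    exact sub_ne_zero.2 ht1
  have d7 : dt b1 a0 ≠ 0 := by
    simp only [dt, a0, b1, Matrix.cons_val_zero, Matrix.cons_val_one, mul_zero, mul_one, zero_sub]
    exact neg_ne_zero.2 ht0
  have hz : ∀ i : ZMod 2, i = 0 ∨ i = 1 := by decide
  have hz1 : (1 : ZMod 2) ≠ 0 := by decide
  have hz2 : (1 : ZMod 2) + 1 = 0 := by decide
  let a : ZMod 2 → Set (Fin 2 → F) := fun i => if i = 0 then ln a0 else ln a1
  let b : ZMod 2 → Set (Fin 2 → F) := fun i => if i = 0 then ln b0 else ln b1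
  have ha0 : a 0 = ln a0 := if_pos rfl
  have ha1 : a 1 = ln a1 := if_neg hz1
  have hb0 : b 0 = ln b0 := if_pos rfl
  have hb1 : b 1 = ln b1 := if_neg hz1
  refine NS.edge47 (Set (Fin 2 → F)) (Set.range L) 2 le_rfl a b ?_ ?_ ?_ ?_ ?_ G ?_
  · intro i j h
    rcases hz i with rfl | rfl <;> rcases hz j with rfl | rfl
    · rfl
    · rw [ha0, ha1] at h
      exact absurd h (ln_ne d2)
    · rw [ha0, ha1] at h
      exact absurd h.symm (ln_ne d2)
    · rfl
  · intro i j h
    rcases hz i with rfl | rfl <;> rcases hz j with rfl | rfl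
    · rfl
    · rw [hb0, hb1] at h
      exact absurd h (ln_ne d5)
    · rw [hb0, hb1] at h
      exact absurd h.symm (ln_ne d5)
    · rfl
  · intro i j h
    rcases hz i with rfl | rfl <;> rcases hz j with rfl | rfl
    · rw [ha0, hb0] at h
      exact ln_ne d1 h
    · rw [ha0, hb1] at h
      exact ln_ne d4 h
    · rw [ha1, hb0] at h
      exact ln_ne d3 h.symm
    · rw [ha1, hb1] at h
      exact ln_ne d6 h
  · intro i
    rcases hz i with rfl | rfl
    · rw [ha0, hb0]
      exact hrange _ _ d1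
    · rw [ha1, hb1]
      exact hrange _ _ d6
  · intro i
    rcases hz i with rfl | rfl
    · rw [zero_add, hb0, ha1]
      exact hrange _ _ d3
    · rw [hz2, hb1, ha0]
      exact hrange _ _ d7
  · intro g x
    refine ⟨g • x, fun z => ?_⟩
    have h1 : (g • z).1 = sac g z.1 := by
      rw [hsm]
      show L (g • e.symm z) = sac g z.1
      rw [hLeq]
      congr 1
      have := congrArg Subtype.val (e.apply_symm_apply z)
      exact this
    rw [h1, sac, Sym2.mem_map]
    constructor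
    · intro h
      exact ⟨x, h, rfl⟩
    · rintro ⟨y, hy, hyx⟩
      have : y = x := smul_left_cancel g hyx
      exact this ▸ hy

end SpreadPerm.PL
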