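import Pool.Agent.Lib.MP_e6ed9e_al.PL.Semi30
import Pool.Agent.Lib.MP_e6ed9e_al.PL.KerRat51

/-!
# SUNI: the rational points with unipotent elements
-/

set_option autoImplicit false

namespace SpreadPerm.PL

open scoped LinearAlgebra.Projectivization MatrixGroups
open MulAction

noncomputable section

theorem one_lt_Uc62 {H X : Type} [Group H] [Finite H] [MulAction H X] {x : X} :
    1 < Uc H x ↔ ∃ h : H, h ≠ 1 ∧ ∀ y : X, h • y = y ↔ y = x := by
  unfold Uc
  rw [Finite.one_lt_card_iff_nontrivial]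
  constructor
  · intro hn
    obtain ⟨a, ha⟩ := exists_ne (⟨1, Or.inl rfl⟩ : {h : H // IsU x h})
    have h1 : a.1 ≠ 1 := fun h => ha (Subtype.ext h)
    exact ⟨a.1, h1, a.2.resolve_left h1⟩
  · rintro ⟨h, h1, h2⟩
    exact ⟨⟨h, Or.inr h2⟩, ⟨1, Or.inl rfl⟩, fun e => h1 (congrArg Subtype.val e)⟩

theorem finite_map62 {F K : Type} [Field F] [Finite F] [Field K] [Algebra F K]
    (S : Subgroup (GL (Fin 2) F)) : Finite (S.map (psi F K)) := by
  have : Finite (GL (Fin 2) F) := inferInstance
  have h2 : (S.map (psi F K) : Set (Equiv.Perm (PX K))).Finite := by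
    rw [Subgroup.coe_map]
    exact Set.toFinite _
  exact h2.to_subtype

/-- the lines of the big field that are fixed by `m`, for rational lines -/
theorem psi_up62 {F K : Type} [Field F] [Field K] [Algebra F K] (m : GL (Fin 2) F)
    (v w : Fin 2 → F) (hv : v ≠ 0) (hw : w ≠ 0) :
    psi F K m (Projectivization.mk K (up F K v) (up_ne51 hv)) =
      Projectivization.mk K (up F K w) (up_ne51 hw) ↔ ∃ a : F, a ≠ 0 ∧ m • v = a • w := by
  have e0 : (m • v) 0 = m.1 0 0 * v 0 + m.1 0 1 * v 1 := by
    change (m.1.mulVec v) 0 = _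
    simp [Matrix.mulVec, dotProduct, Fin.sum_univ_two]
  have e1 : (m • v) 1 = m.1 1 0 * v 0 + m.1 1 1 * v 1 := by
    change (m.1.mulVec v) 1 = _
    simp [Matrix.mulVec, dotProduct, Fin.sum_univ_two]
  have hne : m • v ≠ 0 := (smul_ne_zero_iff_ne _).mpr hv
  have h1 : psi F K m (Projectivization.mk K (up F K v) (up_ne51 hv)) =
      Projectivization.mk K (up F K w) (up_ne51 hw) ↔
      (m • v) 0 * w 1 - (m • v) 1 * w 0 = 0 := by
    rw [psi_mk51, mk_eq51, smul0_51, smul1_51, e0, e1]
    simp only [up]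
    rw [← map_mul, ← map_mul, ← map_mul, ← map_mul, ← map_add, ← map_add, ← map_mul, ← map_mul,
      ← map_sub, map_eq_zero_iff _ (algebraMap F K).injective]
  rw [h1, ← mk_eq51 hne hw, Projectivization.mk_eq_mk_iff']
  constructor
  · rintro ⟨a, ha⟩
    refine ⟨a, ?_, ha.symm⟩
    rintro rfl
    rw [zero_smul] at ha
    exact hne ha.symm
  · rintro ⟨a, _, ha⟩
    exact ⟨a, ha.symm⟩

theorem suni62 (hN : StSNorm) (hR : StRat) : StSUni := by
  intro F K G Ω _ _ _ _ _ _ _ _ hS ω ⟨x₀, hx₀⟩ hZ
  classical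
  have hfin := finite_map62 (K := K) (LS F G ω)
  -- the points with unipotent elements are rational
  have hrat : ∀ z : PX K, 1 < Uc ((LS F G ω).map (psi F K)) z →
      ∃ m ∈ LS F G ω, psi F K m ≠ 1 ∧ (∀ y, psi F K m y = y ↔ y = z) ∧ Rat F K z := by
    intro z hz
    obtain ⟨⟨h, m, hm, rfl⟩, h1, h2⟩ := one_lt_Uc62.1 hz
    have h3 : psi F K m ≠ 1 := fun e => h1 (Subtype.ext e)
    exact ⟨m, hm, h3, h2, (hR F K m h3).1 z h2⟩
  -- a rational point without
  let y : Option F → (Fin 2 → F) := fun o => o.elim ![1, 0] (fun c => ![c, 1])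
  have hy : ∀ o, y o ≠ 0 := by
    intro o h
    cases o with
    | none => exact one_ne_zero (congrFun h 0)
    | some c => exact one_ne_zero (congrFun h 1)
  let P : Option F → PX K := fun o => Projectivization.mk K (up F K (y o)) (up_ne51 (hy o))
  have hPinj : Function.Injective P := by
    intro o o' h
    simp only [P, mk_eq51] at h
    simp only [up] at h
    rw [← map_mul, ← map_mul, ← map_sub, map_eq_zero_iff _ (algebraMap F K).injective] at h
    cases o with
    | none =>
      cases o' with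
      | none => rfl
      | some c => simp [y] at h
    | some c =>
      cases o' with
      | none => simp [y] at h
      | some c' =>
        simp only [y, Option.elim_some, Matrix.cons_val_zero, Matrix.cons_val_one, mul_one,
          one_mul, sub_eq_zero] at h
        rw [h]
  obtain ⟨o, ho⟩ : ∃ o, ¬ 1 < Uc ((LS F G ω).map (psi F K)) (P o) := by
    by_contra hc
    push Not at hc
    have hfZ : {z : PX K | 1 < Uc ((LS F G ω).map (psi F K)) z}.Finite := by
      have : {z : PX K | 1 < Uc ((LS F G ω).map (psi F K)) z} ⊆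
          Set.range (fun v : {v : Fin 2 → F // v ≠ 0} =>
            Projectivization.mk K (up F K v.1) (up_ne51 v.2)) := by
        intro z hz
        obtain ⟨m, _, _, _, v, hv, hv', e⟩ := hrat z hz
        exact ⟨⟨v, hv⟩, e.symm⟩
      exact (Set.finite_range _).subset this
    have h1 : Set.range P ⊆ {z : PX K | 1 < Uc ((LS F G ω).map (psi F K)) z} := by
      rintro _ ⟨o, rfl⟩
      exact hc o
    have h2 := Set.ncard_le_ncard h1 hfZ
    rw [← Set.image_univ, Set.ncard_image_of_injective _ hPinj, Set.ncard_univ,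
      Nat.card_eq_fintype_card, Fintype.card_option] at h2
    omega
  obtain ⟨m, hm, hm1, hm2, x, hx, hx', hxe⟩ := hrat x₀ hx₀
  subst hxe
  refine ⟨x, y o, hx, hy o, ?_⟩
  intro g hg c hc
  apply ho
  obtain ⟨m', hm', hconj⟩ := hN F G Ω hS ω g hg m hm
  obtain ⟨σ, hσ⟩ := hS.semi g
  have hc0 : c ≠ 0 := by
    rintro rfl
    rw [zero_smul] at hc
    exact (smul_ne_zero_iff_ne g).mpr hx hc
  -- `m'` fixes the line of `y`
  have hmx : ∃ a : F, a ≠ 0 ∧ m • x = a • x := (psi_up62 (K := K) m x x hx hx).1 ((hm2 _).2 rfl)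
  obtain ⟨a, ha0, ha⟩ := hmx
  have hm'y : psi F K m' (P o) = P o := by
    refine (psi_up62 (K := K) m' (y o) (y o) (hy o) (hy o)).2 ⟨σ a, ?_, ?_⟩
    · rwa [ne_eq, map_eq_zero_iff _ σ.injective]
    · have h1 := hconj x
      rw [ha, hσ, hc, smul_comm m' c (y o), smul_comm (σ a) c (y o)] at h1
      exact (smul_right_injective (Fin 2 → F) hc0 h1).symm
  -- every rational line fixed by `m'` is the line of `y`
  have huniq : ∀ w : Fin 2 → F, w ≠ 0 → (∃ b : F, b ≠ 0 ∧ m' • w = b • w) →
      ∃ e : F, w = e • y o := by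
    rintro w hw ⟨b, hb0, hb⟩
    have hw' : g⁻¹ • w ≠ 0 := (smul_ne_zero_iff_ne _).mpr hw
    have h1 : m • (g⁻¹ • w) = σ.symm b • (g⁻¹ • w) := by
      apply (MulAction.injective g)
      show g • (m • (g⁻¹ • w)) = g • (σ.symm b • (g⁻¹ • w))
      rw [hconj, hσ, smul_inv_smul, RingEquiv.apply_symm_apply, hb]
    have h2 := (hm2 _).1 ((psi_up62 (K := K) m (g⁻¹ • w) (g⁻¹ • w) hw' hw').2
      ⟨σ.symm b, by rwa [ne_eq, map_eq_zero_iff _ σ.symm.injective], h1⟩)
    have h3 : Projectivization.mk F (g⁻¹ • w) hw' = Projectivization.mk F x hx := by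
      rw [mk_eq51] at h2 ⊢
      simp only [up] at h2
      rw [← map_mul, ← map_mul, ← map_sub, map_eq_zero_iff _ (algebraMap F K).injective] at h2
      exact h2
    rw [Projectivization.mk_eq_mk_iff'] at h3
    obtain ⟨e, he⟩ := h3
    refine ⟨σ e * c, ?_⟩
    have h4 : w = g • (e • x) := by rw [he, smul_inv_smul]
    rw [h4, hσ, hc, smul_smul]
  have hm'1 : psi F K m' ≠ 1 := by
    intro h
    -- every line is fixed
    have h1 : ∀ w : Fin 2 → F, w ≠ 0 → ∃ e : F, w = e • y o := by
      intro w hw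
      refine huniq w hw ((psi_up62 (K := K) m' w w hw hw).1 ?_)
      rw [h]; rfl
    obtain ⟨e, he⟩ := h1 ![1, 0] (fun h => one_ne_zero (congrFun h 0))
    obtain ⟨e', he'⟩ := h1 ![0, 1] (fun h => one_ne_zero (congrFun h 1))
    have a0 := congrFun he 0
    have a1 := congrFun he 1
    have b0 := congrFun he' 0
    have b1 := congrFun he' 1
    simp only [Matrix.cons_val_zero, Matrix.cons_val_one, Pi.smul_apply, smul_eq_mul] at a0 a1 b0 b1
    have e0 : e ≠ 0 := by rintro rfl; simp at a0
    have y1 : y o 1 = 0 := by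
      rcases mul_eq_zero.1 a1.symm with h | h
      · exact absurd h e0
      · exact h
    rw [y1, mul_zero] at b1
    exact one_ne_zero b1
  refine one_lt_Uc62.2 ⟨⟨psi F K m', Subgroup.mem_map_of_mem _ hm'⟩,
    fun e => hm'1 (congrArg Subtype.val e), ?_⟩
  intro z
  constructor
  · intro hz
    by_contra hne
    rcases (hR F K m' hm'1).2 z (P o) hne hz hm'y with ⟨⟨w, hw, hw', hzw⟩, _⟩ | ⟨A, B, C, h1, h2⟩
    · subst hzw
      obtain ⟨e, he⟩ := huniq w hw ((psi_up62 (K := K) m' w w hw hw).1 hz)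
      apply hne
      show Projectivization.mk K (up F K w) hw' = Projectivization.mk K (up F K (y o)) _
      rw [mk_eq51, he]
      simp only [up, Pi.smul_apply, smul_eq_mul, map_mul]
      ring
    · have h3 := (h2 (P o)).2 (Or.inr rfl)
      have h4 : ∃ k : K, k ≠ 0 ∧ (P o).rep = k • up F K (y o) := by
        obtain ⟨k, hk⟩ := (Projectivization.mk_eq_mk_iff' K _ _ (Projectivization.rep_nonzero (P o))
          (up_ne51 (hy o))).1 (Projectivization.mk_rep (P o))
        refine ⟨k, ?_, hk.symm⟩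
        rintro rfl
        rw [zero_smul] at hk
        exact Projectivization.rep_nonzero (P o) hk.symm
      obtain ⟨k, hk0, hk⟩ := h4
      rw [hk] at h3
      have h5 : bq (algebraMap F K A) (algebraMap F K B) (algebraMap F K C) (k • up F K (y o)) =
          k ^ 2 * algebraMap F K (bq A B C (y o)) := by
        rw [← bq_up51]
        simp only [bq, Pi.smul_apply, smul_eq_mul]
        ring
      rw [h5] at h3
      rcases mul_eq_zero.1 h3 with h6 | h6
      · exact hk0 (pow_eq_zero_iff (by norm_num) |>.1 h6)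
      · rw [map_eq_zero_iff _ (algebraMap F K).injective] at h6
        exact h1 _ (hy o) h6
  · rintro rfl
    exact hm'y

end

end SpreadPerm.PL
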