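import Mathlib
import Pool.Agent.Lib.MP_e6ed9e_al.PL.Semi30
import Pool.Agent.Lib.MP_e6ed9e_al.PL.Pgl16

/-!
# Row SRB: the linear part of the stabilizer fixes a rational point
-/

namespace SpreadPerm.PL

open scoped LinearAlgebra.Projectivization MatrixGroups
open MulAction Pgl16

namespace Srb16

variable {F : Type} [Field F]

/-- three independent eigenlines make a matrix scalar -/
theorem sc_three {m : GL (Fin 2) F} {v w u : Fin 2 → F} (hv : v ≠ 0) (hw : ∀ c : F, w ≠ c • v)
    (huv : ∀ c : F, u ≠ c • v) (huw : ∀ c : F, u ≠ c • w) (h1 : ∃ c : F, m • v = c • v)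
    (h2 : ∃ c : F, m • w = c • w) (h3 : ∃ c : F, m • u = c • u) : SC m := by
  obtain ⟨a, ha⟩ := h1
  obtain ⟨b, hb⟩ := h2
  obtain ⟨d, hd⟩ := h3
  obtain ⟨s, t, hst⟩ := span_two hw hv u
  have hs : s ≠ 0 := by
    rintro rfl
    rw [zero_smul, zero_add] at hst
    exact huw t hst
  have ht : t ≠ 0 := by
    rintro rfl
    rw [zero_smul, add_zero] at hst
    exact huv s hst
  rw [hst, smul_comb, ha, hb, smul_add, smul_smul, smul_smul, smul_smul, smul_smul] at hd
  obtain ⟨h1, h2⟩ := indep_coef hw hv hd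
  have h3 : a = d := by
    have : s * a = s * d := by rw [h1]; ring
    exact mul_left_cancel₀ hs this
  have h4 : b = d := by
    have : t * b = t * d := by rw [h2]; ring
    exact mul_left_cancel₀ ht this
  rw [h3] at ha
  rw [h4] at hb
  exact sc_of_two hw hv ha hb

theorem sc_scalar {m : GL (Fin 2) F} (h : SC m) : ∃ c : F, m.1 = Matrix.scalar (Fin 2) c := by
  obtain ⟨c, hc⟩ := h
  refine ⟨c, ?_⟩
  ext i j
  have h1 := congrFun (hc (Pi.single j 1)) i
  change (m.1.mulVec (Pi.single j 1)) i = _ at h1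
  rw [Matrix.mulVec_single_one] at h1
  simp only [Matrix.col_apply, Pi.smul_apply, smul_eq_mul] at h1
  rw [h1, Matrix.scalar_apply, Matrix.diagonal_apply, Pi.single_apply]
  split_ifs <;> simp

/-- images of eigenvectors of the linear part are eigenvectors of the linear part -/
theorem image_fix {G Ω : Type} [Group G] [Fintype F] [DistribMulAction G (Fin 2 → F)]
    [MulAction G Ω] (hN : StSNorm) (hA : SAct F G Ω) {ω : Ω} {g : G} (hg : g • ω = ω)
    {u : Fin 2 → F} (hu : ∀ m ∈ LS F G ω, ∃ c : F, m • u = c • u) :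
    ∀ m ∈ LS F G ω, ∃ c : F, m • (g • u) = c • (g • u) := by
  intro m hm
  have hg' : g⁻¹ • ω = ω := by rw [inv_smul_eq_iff, hg]
  obtain ⟨m', hm', h⟩ := hN F G Ω hA ω g⁻¹ hg' m hm
  obtain ⟨c, hc⟩ := hu m' hm'
  obtain ⟨σ, hσ⟩ := hA.semi g
  refine ⟨σ c, ?_⟩
  have h1 := h (g • u)
  rw [inv_smul_smul, hc, inv_smul_eq_iff, hσ] at h1
  exact h1

theorem not_mul_symm {v w : Fin 2 → F} (hv : v ≠ 0) (h : ∀ c : F, w ≠ c • v) :
    ∀ c : F, v ≠ c • w := by
  intro c hc
  have hc0 : c ≠ 0 := by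
    rintro rfl
    rw [zero_smul] at hc
    exact hv hc
  apply h c⁻¹
  rw [hc, smul_smul, inv_mul_cancel₀ hc0, one_smul]

end Srb16

open Srb16

/-- row SRB -/
theorem srb16 (hN : StSNorm) (hK : StKer) : StSRb := by
  intro F K G Ω _ _ _ _ _ _ _ _ hA ω hcard hv
  obtain ⟨v, hv0, hv⟩ := hv
  have hne : ∀ (g : G) {u : Fin 2 → F}, u ≠ 0 → g • u ≠ 0 := by
    intro g u hu h
    exact hu ((smul_eq_zero_iff_eq g).1 h)
  by_cases hex : ∃ w : Fin 2 → F, (∀ c : F, w ≠ c • v) ∧ ∀ m ∈ LS F G ω, ∃ c : F, m • w = c • w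
  · obtain ⟨w, hwv, hw⟩ := hex
    have hvw := not_mul_symm hv0 hwv
    have hw0 : w ≠ 0 := by
      rintro rfl
      exact hwv 0 (by rw [zero_smul])
    right
    refine ⟨v, w, hvw, hwv, ?_⟩
    -- the fixed lines of the linear part
    have htwo : ∀ u : Fin 2 → F, (∀ m ∈ LS F G ω, ∃ c : F, m • u = c • u) →
        (∃ c : F, u = c • v) ∨ ∃ c : F, u = c • w := by
      intro u hu
      by_contra hcon
      push Not at hcon
      have hbot : (LS F G ω).map (psi F K) = ⊥ := by
        rw [Subgroup.map_eq_bot_iff]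
        intro m hm
        rw [MonoidHom.mem_ker, hK F K m]
        exact sc_scalar (sc_three hv0 hwv hcon.1 hcon.2 (hv m hm) (hw m hm) (hu m hm))
      rw [hbot, Subgroup.card_bot] at hcard
      exact absurd hcard (lt_irrefl 1)
    intro g hg
    obtain ⟨σ, hσ⟩ := hA.semi g
    -- two independent vectors are not mapped to the same line
    have hinj : ∀ x : Fin 2 → F, (∃ c : F, g • v = c • x) → (∃ c : F, g • w = c • x) → False := by
      rintro x ⟨c, hc⟩ ⟨c', hc'⟩
      have hc0 : c ≠ 0 := by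
        rintro rfl
        rw [zero_smul] at hc
        exact hne g hv0 hc
      apply hwv (σ.symm (c' / c))
      have h1 : g • w = g • (σ.symm (c' / c) • v) := by
        rw [hσ, RingEquiv.apply_symm_apply, hc, hc', smul_smul, div_mul_cancel₀ _ hc0]
      have h2 := congrArg (fun z => g⁻¹ • z) h1
      simpa only [inv_smul_smul] using h2
    rcases htwo _ (image_fix hN hA hg hv) with h1 | h1
    · rcases htwo _ (image_fix hN hA hg hw) with h2 | h2
      · exact (hinj v h1 h2).elim
      · exact Or.inl ⟨h1, h2⟩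
    · rcases htwo _ (image_fix hN hA hg hw) with h2 | h2
      · exact Or.inr ⟨h1, h2⟩
      · exact (hinj w h1 h2).elim
  · push Not at hex
    left
    refine ⟨v, hv0, fun g hg => ?_⟩
    by_contra hcon
    push Not at hcon
    obtain ⟨m, hm, hmc⟩ := hex (g • v) hcon
    obtain ⟨c, hc⟩ := image_fix hN hA hg hv m hm
    exact hmc c hc

end SpreadPerm.PL
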