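import Pool.Agent.Lib.MP_e6ed9e_al.PL.Defs

/-!
# Row SYL: the points with unipotent elements
-/

namespace SpreadPerm.PL

open MulAction

section
variable {H X : Type} [Group H] [MulAction H X]

theorem syl15_inv {x : X} {h : H} (hu : IsU x h) : IsU x h⁻¹ := by
  rcases hu with rfl | hu
  · left; simp
  · right; intro y
    rw [← hu y]
    constructor
    · intro h1
      rw [inv_smul_eq_iff] at h1
      exact h1.symm
    · intro h1
      rw [inv_smul_eq_iff]
      exact h1.symm

/-- The unipotent group at `x`. -/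
def syl15U {p : ℕ} (hD : DAct H X p) (x : X) : Subgroup H where
  carrier := {h | IsU x h}
  one_mem' := Or.inl rfl
  mul_mem' := fun {a b} ha hb => hD.U_mul x a b ha hb
  inv_mem' := fun {_} ha => syl15_inv ha

theorem syl15_mem {p : ℕ} (hD : DAct H X p) (x : X) (h : H) : h ∈ syl15U hD x ↔ IsU x h :=
  Iff.rfl

theorem syl15_fix {x y : X} {h : H} (hu : IsU x h) (h1 : h ≠ 1) : h • y = y ↔ y = x := by
  rcases hu with hu | hu
  · exact absurd hu h1
  · exact hu y

theorem syl15_conj {x : X} {u : H} (h : H) (hu : IsU x u) : IsU (h • x) (h * u * h⁻¹) := by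
  rcases hu with rfl | hu
  · left; simp
  · right; intro y
    have := hu (h⁻¹ • y)
    rw [mul_smul, mul_smul]
    constructor
    · intro h1
      have h2 : u • h⁻¹ • y = h⁻¹ • y := by
        rw [eq_inv_smul_iff]; exact h1
      rw [this, inv_smul_eq_iff] at h2
      exact h2
    · intro h1
      have h2 : h⁻¹ • y = x := by rw [inv_smul_eq_iff]; exact h1
      rw [this.2 h2, smul_inv_smul]

theorem syl15_pg {p : ℕ} (hD : DAct H X p) (x : X) : IsPGroup p (syl15U hD x) := by
  intro g
  refine ⟨1, ?_⟩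
  rw [pow_one]
  apply Subtype.ext
  rw [Subgroup.coe_pow]
  exact hD.U_pow x g.1 g.2

theorem syl15_two {p : ℕ} (hp : p.Prime) (hD : DAct H X p) {x y : X} {h : H} {k : ℕ}
    (hk : orderOf h = p ^ k) (hx : h • x = x) (hy : h • y = y) (hxy : x ≠ y) : h = 1 := by
  rcases Nat.eq_zero_or_pos k with rfl | hk0
  · rw [pow_zero, orderOf_eq_one_iff] at hk
    exact hk
  · exfalso
    have hfix : ∀ z : X, h • z = z → ∀ m : ℕ, (h ^ m) • z = z := by
      intro z hz m
      induction m with
      | zero => simp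
      | succ m ih => rw [pow_succ, mul_smul, hz, ih]
    have h1 : (h ^ (p ^ (k - 1))) ^ p = 1 := by
      rw [← pow_mul, ← pow_succ, Nat.sub_add_cancel hk0, ← hk, pow_orderOf_eq_one]
    have h2 := hD.T_ord x y _ hxy (hfix x hx (p ^ (k - 1))) (hfix y hy (p ^ (k - 1))) h1
    have h3 := orderOf_dvd_of_pow_eq_one h2
    rw [hk, Nat.pow_dvd_pow_iff_le_right hp.one_lt] at h3
    omega

theorem syl15_le [Finite H] {p : ℕ} (hp : p.Prime) (hD : DAct H X p) (P : Subgroup H)
    (hP : IsPGroup p P) (hP1 : P ≠ ⊥) : ∃ x0 : X, P ≤ syl15U hD x0 := by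
  have := Fact.mk hp
  have : Nontrivial P := (Subgroup.nontrivial_iff_ne_bot P).2 hP1
  have := hP.center_nontrivial
  have hdvd : p ∣ Nat.card (Subgroup.center P) := by
    have hc : IsPGroup p (Subgroup.center P) := hP.to_subgroup _
    obtain ⟨n, hn⟩ := (IsPGroup.iff_card).1 hc
    have h1 : 1 < Nat.card (Subgroup.center P) := Finite.one_lt_card
    rw [hn] at h1 ⊢
    have : n ≠ 0 := by rintro rfl; simp at h1
    exact dvd_pow_self p this
  obtain ⟨z, hz⟩ := exists_prime_orderOf_dvd_card' p hdvd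
  set w : H := z.1.1 with hw
  have hw1 : w ≠ 1 := by
    intro h
    have : z = 1 := by
      apply Subtype.ext; apply Subtype.ext; exact h
    rw [this, orderOf_one] at hz
    exact hp.one_lt.ne hz
  have hwp : w ^ p = 1 := by
    have : z ^ p = 1 := by rw [← hz]; exact pow_orderOf_eq_one z
    have h2 := congrArg (fun t : Subgroup.center P => (t.1.1 : H)) this
    simpa using h2
  obtain ⟨x0, hx0⟩ := hD.fix_pos w hw1
  have huniq : ∀ y : X, w • y = y → y = x0 := by
    intro y hy
    by_contra hne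
    exact hw1 (hD.T_ord y x0 w hne hy hx0 hwp)
  refine ⟨x0, ?_⟩
  intro h hh
  have hcomm : h * w = w * h := by
    have := (Subgroup.mem_center_iff.1 z.2) ⟨h, hh⟩
    have h2 := congrArg (fun t : P => (t.1 : H)) this
    simpa using h2
  have hfx : h • x0 = x0 := by
    apply huniq
    rw [← mul_smul, ← hcomm, mul_smul, hx0]
  rw [syl15_mem]
  by_cases h1 : h = 1
  · left; exact h1
  · right
    intro y
    constructor
    · intro hy
      by_contra hne
      obtain ⟨k, hk⟩ := (IsPGroup.iff_orderOf).1 hP ⟨h, hh⟩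
      have hk' : orderOf h = p ^ k := by
        rw [← hk, Subgroup.orderOf_mk]
      exact h1 (syl15_two hp hD hk' hy hfx hne)
    · rintro rfl; exact hfx

theorem syl15_card {p : ℕ} (hD : DAct H X p) (x : X) :
    Uc H x = Nat.card (syl15U hD x) := rfl

theorem syl15_ne_bot [Finite H] {p : ℕ} (hD : DAct H X p) (x : X) (hx : 1 < Uc H x) :
    syl15U hD x ≠ ⊥ := by
  intro h
  rw [syl15_card hD x, h] at hx
  simp at hx

theorem syl15_eq {p : ℕ} (hD : DAct H X p) {x y : X} (h1 : syl15U hD x ≠ ⊥)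
    (h2 : syl15U hD x ≤ syl15U hD y) : x = y := by
  obtain ⟨u, hu, hu1⟩ := (Subgroup.ne_bot_iff_exists_ne_one).1 h1 |>.elim
    (fun a ha => (⟨a.1, a.2, fun h => ha (Subtype.ext h)⟩ :
      ∃ u : H, u ∈ syl15U hD x ∧ u ≠ 1))
  have h3 : u • x = x := (syl15_fix hu hu1).2 rfl
  exact (syl15_fix (h2 hu) hu1).1 h3

/-- `U x` is a Sylow subgroup. -/
theorem syl15_sylow [Finite H] {p : ℕ} (hp : p.Prime) (hD : DAct H X p) (x : X)
    (hx : 1 < Uc H x) : ∃ P : Sylow p H, P.1 = syl15U hD x := by
  have := Fact.mk hp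
  obtain ⟨P, hP⟩ := (syl15_pg hD x).exists_le_sylow
  have hb := syl15_ne_bot hD x hx
  have hP1 : P.1 ≠ ⊥ := by
    intro h
    apply hb
    rw [eq_bot_iff, ← h]; exact hP
  obtain ⟨y, hy⟩ := syl15_le hp hD P.1 P.2 hP1
  have := syl15_eq hD hb (hP.trans hy)
  subst this
  exact ⟨P, le_antisymm hy hP⟩

theorem syl15_smul (x : X) (h : H) :
    Uc H (h • x) = Uc H x := by
  rw [Uc, Uc]
  symm
  apply Nat.card_congr
  refine ⟨fun u => ⟨h * u.1 * h⁻¹, syl15_conj h u.2⟩, fun u => ⟨h⁻¹ * u.1 * h, ?_⟩, ?_, ?_⟩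
  · have := syl15_conj h⁻¹ u.2
    rw [inv_smul_smul, inv_inv] at this
    exact this
  · intro u; apply Subtype.ext; simp [mul_assoc]
  · intro u; apply Subtype.ext; simp [mul_assoc]

theorem syl15_iff [Finite H] {p : ℕ} (hp : p.Prime) (hD : DAct H X p) (x : X)
    (hx : 1 < Uc H x) (z : X) : 1 < Uc H z ↔ ∃ h : H, h • x = z := by
  have := Fact.mk hp
  constructor
  · intro hz
    obtain ⟨P, hP⟩ := syl15_sylow hp hD x hx
    obtain ⟨R, hR⟩ := syl15_sylow hp hD z hz
    obtain ⟨h, hh⟩ := exists_smul_eq H P R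
    refine ⟨h, ?_⟩
    obtain ⟨u, hu, hu1⟩ : ∃ u : H, u ∈ syl15U hD x ∧ u ≠ 1 := by
      obtain ⟨a, ha⟩ := (Subgroup.ne_bot_iff_exists_ne_one).1 (syl15_ne_bot hD x hx)
      exact ⟨a.1, a.2, fun h => ha (Subtype.ext h)⟩
    have h3 : h * u * h⁻¹ ∈ syl15U hD z := by
      rw [← hR, ← hh]
      have : u ∈ P.1 := by rw [hP]; exact hu
      change h * u * h⁻¹ ∈ (h • P : Sylow p H)
      rw [Sylow.smul_def]
      exact ⟨u, this, by simp [MulAut.conj_apply]⟩
    have h4 := syl15_conj h (hu : IsU x u)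
    have h5 : h * u * h⁻¹ ≠ 1 := by
      intro h6
      apply hu1
      have : h * u = h := by
        have := congrArg (· * h) h6
        simpa using this
      simpa using this
    exact (syl15_fix (h3 : IsU z _) h5).1 ((syl15_fix h4 h5).2 rfl)
  · rintro ⟨h, rfl⟩
    rw [syl15_smul]; exact hx

end

theorem syl15_free (U T : Type) [Group U] [Finite U] [Finite T] [MulAction U T]
    (h : ∀ (u : U) (t : T), u • t = t → u = 1) : Nat.card U ∣ Nat.card T := by
  classical
  have e := MulAction.selfEquivSigmaOrbitsQuotientStabilizer U T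
  have := Fintype.ofFinite (Quotient (orbitRel U T))
  rw [Nat.card_congr e, Nat.card_sigma]
  apply Finset.dvd_sum
  intro ω _
  have h1 : stabilizer U (Quotient.out ω) = ⊥ := by
    rw [eq_bot_iff]
    intro u hu
    rw [mem_stabilizer_iff] at hu
    rw [Subgroup.mem_bot]
    exact h u _ hu
  rw [← Subgroup.index_eq_card, h1, Subgroup.index_bot]

theorem sylRow15 : StSyl := by
  intro H X _ _ _ p hp hD x hx
  have := Fact.mk hp
  have hiff := syl15_iff hp hD x hx
  have hset : {z : X | 1 < Uc H z} = orbit H x := by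
    ext z
    rw [Set.mem_ofPred_eq, hiff z, mem_orbit_iff]
  refine ⟨hiff, ?_, ?_⟩
  · rw [hset, ← index_stabilizer]
    exact Subgroup.index_mul_card (stabilizer H x)
  · rw [hset]
    have hfin : (orbit H x).Finite := Set.finite_range _
    let act : MulAction (syl15U hD x) {z : X // z ∈ orbit H x ∧ z ≠ x} :=
      { smul := fun u z => ⟨u.1 • z.1, by
          refine ⟨?_, ?_⟩
          · obtain ⟨g, hg⟩ := z.2.1
            exact ⟨u.1 * g, by rw [← hg]; exact mul_smul u.1 g x⟩
          · intro h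
            apply z.2.2
            by_cases h1 : u.1 = 1
            · rw [h1, one_smul] at h; exact h
            · have h2 : u.1 • x = x := (syl15_fix u.2 h1).2 rfl
              exact smul_left_cancel u.1 (h.trans h2.symm)⟩
        one_smul := fun z => Subtype.ext (one_smul H z.1)
        mul_smul := fun u v z => Subtype.ext (mul_smul u.1 v.1 z.1) }
    have : Finite {z : X // z ∈ orbit H x ∧ z ≠ x} :=
      (hfin.subset (fun z hz => hz.1 : {z : X | z ∈ orbit H x ∧ z ≠ x} ⊆ orbit H x)).to_subtype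
    have hd := syl15_free (syl15U hD x) {z : X // z ∈ orbit H x ∧ z ≠ x} (by
      intro u t h
      by_contra h1
      have h2 : u.1 ≠ 1 := fun h3 => h1 (Subtype.ext h3)
      exact t.2.2 ((syl15_fix u.2 h2).1 (congrArg Subtype.val h)))
    rw [← syl15_card] at hd
    have hc : (orbit H x).ncard = Nat.card {z : X // z ∈ orbit H x ∧ z ≠ x} + 1 := by
      have h1 : {z : X | z ∈ orbit H x ∧ z ≠ x} = orbit H x \ {x} := by
        ext z; simp
      have h2 := Set.ncard_sdiff_singleton_add_one (mem_orbit_self x : x ∈ orbit H x) hfin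
      rw [← h2, ← h1]
      rfl
    rw [hc]
    obtain ⟨c, hc⟩ := hd
    rw [hc, Nat.mul_add_mod]
    exact Nat.mod_eq_of_lt hx

end SpreadPerm.PL
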