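import Pool.Agent.Lib.MP_e6ed9e_al.Defs

/-!
# The transversal trick (abstract form)
-/

namespace SpreadPerm

open Finset

/-- Every coset of `H` contains exactly one of the chosen representatives. -/
theorem card_out30 {E : Type*} [CommGroup E] [Fintype E] [DecidableEq E] (H : Subgroup E)
    [DecidablePred (· ∈ H)] (z : E) :
    (univ.filter fun x : E => ((x : E ⧸ H)).out = x ∧ x⁻¹ * z ∈ H).card = 1 := by
  rw [Finset.card_eq_one]
  refine ⟨((z : E ⧸ H)).out, ?_⟩
  ext x
  simp only [Finset.mem_filter, Finset.mem_univ, true_and, Finset.mem_singleton]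
  constructor
  · rintro ⟨h1, h2⟩
    have h3 : (x : E ⧸ H) = (z : E ⧸ H) := QuotientGroup.eq.2 h2
    rw [← h3, h1]
  · rintro rfl
    have h3 : ((((z : E ⧸ H)).out : E) : E ⧸ H) = (z : E ⧸ H) := Quotient.out_eq _
    exact ⟨by rw [h3], QuotientGroup.eq.1 h3⟩

/-- The transversal trick. -/
theorem tra0 {G Ω E : Type*} [Group G] [Fintype Ω] [MulAction G Ω] [CommGroup E] [Fintype E]
    [DecidableEq E] (N : Ω → E) (K : ℕ) (hK : 0 < K)
    (hN : ∀ x, (univ.filter fun w => N w = x).card = K)
    (hg : ∀ g : G, (∃ e, ∀ w, N (g⁻¹ • w) = e * N w) ∨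
      ∃ ν : E → ℕ, ∀ x y, (univ.filter fun w => N w = x ∧ N (g⁻¹ • w) = y).card = ν (x * y))
    (H : Subgroup E) (h1 : H ≠ ⊥) (h2 : H ≠ ⊤) : NonSpreading G Ω := by
  classical
  let R : E → Prop := fun x => ((x : E ⧸ H)).out = x
  have hR : ∀ x, R x ↔ ((x : E ⧸ H)).out = x := fun x => Iff.rfl
  -- counting by fibres
  have fib : ∀ (P : E → Prop) [DecidablePred P],
      (univ.filter fun w => P (N w)).card = K * (univ.filter fun x : E => P x).card := by
    intro P _
    rw [Finset.card_eq_sum_card_fiberwise (f := N) (t := univ.filter fun x : E => P x)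
      (fun w hw => by
        simp only [Finset.coe_filter, Finset.mem_univ, true_and, Set.mem_ofPred_eq] at hw ⊢
        exact hw)]
    rw [Finset.sum_congr rfl (g := fun _ => K)]
    · rw [Finset.sum_const, smul_eq_mul, mul_comm]
    · intro x hx
      rw [← hN x]
      congr 1
      ext w
      simp only [Finset.mem_filter, Finset.mem_univ, true_and] at hx ⊢
      constructor
      · exact fun h => h.2
      · exact fun h => ⟨h ▸ hx, h⟩
  have hex : ∀ x, ∃ w, N w = x := by
    intro x
    have h3 : 0 < (univ.filter fun w => N w = x).card := by rw [hN x]; exact hK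
    obtain ⟨w, hw⟩ := Finset.card_pos.1 h3
    exact ⟨w, (Finset.mem_filter.1 hw).2⟩
  have hout : ∀ z : E, R ((z : E ⧸ H)).out := by
    intro z
    rw [hR]
    have h3 : ((((z : E ⧸ H)).out : E) : E ⧸ H) = (z : E ⧸ H) := Quotient.out_eq _
    rw [h3]
  obtain ⟨h0, hh0, hh1⟩ : ∃ h0 ∈ H, h0 ≠ 1 := by
    by_contra hcon
    push Not at hcon
    exact h1 ((Subgroup.eq_bot_iff_forall H).2 hcon)
  obtain ⟨x0, hx0⟩ : ∃ x0, x0 ∉ H := by
    by_contra hcon
    push Not at hcon
    exact h2 ((Subgroup.eq_top_iff' H).2 hcon)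
  have hnR : ∃ x, ¬ R x := by
    by_contra hcon
    push Not at hcon
    have h3 := hcon h0
    have h4 := hcon 1
    have h5 : (h0 : E ⧸ H) = ((1 : E) : E ⧸ H) := by
      rw [QuotientGroup.eq, mul_one]
      exact H.inv_mem hh0
    rw [hR, h5] at h3
    rw [hR] at h4
    exact hh1 (h3.symm.trans h4)
  refine ⟨fun w => if R (N w) then 1 else 0, fun w => if N w ∈ H then 1 else 0, K, hK, ?_, ?_,
    ?_, ?_, ?_⟩
  · rintro (⟨c, hc⟩ | ⟨i, hi⟩)
    · obtain ⟨x, hx⟩ := hnR
      obtain ⟨w, hw⟩ := hex x
      obtain ⟨w', hw'⟩ := hex ((x0 : E ⧸ H)).out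
      have e1 := hc w
      have e2 := hc w'
      simp only [hw, hw', if_neg hx, if_pos (hout x0)] at e1 e2
      omega
    · obtain ⟨w, hw⟩ := hex ((x0 : E ⧸ H)).out
      obtain ⟨w', hw'⟩ := hex (((1 : E) : E ⧸ H)).out
      have e1 : w = i := (hi w).1 (by simp only [hw, if_pos (hout x0)]; exact one_ne_zero)
      have e2 : w' = i := (hi w').1 (by simp only [hw', if_pos (hout 1)]; exact one_ne_zero)
      have e3 : ((x0 : E ⧸ H)).out = (((1 : E) : E ⧸ H)).out := by
        rw [← hw, ← hw', e1, e2]
      have e4 : (x0 : E ⧸ H) = ((1 : E) : E ⧸ H) := by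
        have := congrArg (fun y : E => (y : E ⧸ H)) e3
        simpa using this
      rw [eq_comm, QuotientGroup.eq, inv_one, one_mul] at e4
      exact hx0 e4
  · rintro (⟨c, hc⟩ | ⟨i, hi⟩)
    · obtain ⟨w, hw⟩ := hex x0
      obtain ⟨w', hw'⟩ := hex 1
      have e1 := hc w
      have e2 := hc w'
      simp only [hw, hw', if_neg hx0, if_pos H.one_mem] at e1 e2
      omega
    · obtain ⟨w, hw⟩ := hex h0
      obtain ⟨w', hw'⟩ := hex 1
      have e1 : w = i := (hi w).1 (by simp only [hw, if_pos hh0]; exact one_ne_zero)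
      have e2 : w' = i := (hi w').1 (by simp only [hw', if_pos H.one_mem]; exact one_ne_zero)
      apply hh1
      rw [← hw, ← hw', e1, e2]
  · intro g
    have e0 : ∑ i, (if R (N i) then 1 else 0) * (if N (g⁻¹ • i) ∈ H then 1 else 0) =
        (univ.filter fun w => R (N w) ∧ N (g⁻¹ • w) ∈ H).card := by
      rw [Finset.card_filter]
      refine Finset.sum_congr rfl fun w _ => ?_
      by_cases ha : R (N w) <;> by_cases hb : N (g⁻¹ • w) ∈ H <;> simp [ha, hb]
    show ∑ i, (if R (N i) then 1 else 0) * (if N (g⁻¹ • i) ∈ H then 1 else 0) = K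
    rw [e0]
    rcases hg g with ⟨e, he⟩ | ⟨ν, hν⟩
    · have e1 : (univ.filter fun w => R (N w) ∧ N (g⁻¹ • w) ∈ H) =
          univ.filter fun w => (fun x : E => ((x : E ⧸ H)).out = x ∧ x⁻¹ * e⁻¹ ∈ H) (N w) := by
        ext w
        simp only [Finset.mem_filter, Finset.mem_univ, true_and]
        rw [he, hR, ← mul_inv_rev, H.inv_mem_iff]
      rw [e1]
      exact (fib (fun x : E => ((x : E ⧸ H)).out = x ∧ x⁻¹ * e⁻¹ ∈ H)).trans
        (by rw [card_out30, mul_one])
    · have e1 : (univ.filter fun w => R (N w) ∧ N (g⁻¹ • w) ∈ H).card =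
          ∑ x : E, ∑ y : E, if R x ∧ y ∈ H then ν (x * y) else 0 := by
        have e2 : ∀ x y : E, (if R x ∧ y ∈ H then ν (x * y) else 0) =
            ∑ w : Ω, if (R (N w) ∧ N (g⁻¹ • w) ∈ H) ∧ N w = x ∧ N (g⁻¹ • w) = y then 1 else 0 := by
          intro x y
          rw [← hν x y, Finset.card_filter]
          by_cases hxy : R x ∧ y ∈ H
          · rw [if_pos hxy]
            refine Finset.sum_congr rfl fun w _ => ?_
            by_cases hw : N w = x ∧ N (g⁻¹ • w) = y
            · rw [if_pos hw, if_pos]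
              rw [hw.1, hw.2]
              exact ⟨hxy, rfl, rfl⟩
            · rw [if_neg hw, if_neg]
              exact fun h => hw h.2
          · rw [if_neg hxy]
            symm
            refine Finset.sum_eq_zero fun w _ => ?_
            rw [if_neg]
            rintro ⟨h3, h4, h5⟩
            rw [h4, h5] at h3
            exact hxy h3
        simp_rw [e2]
        rw [Finset.card_filter]
        have e3 : ∀ w : Ω, (∑ x : E, ∑ y : E,
            if (R (N w) ∧ N (g⁻¹ • w) ∈ H) ∧ N w = x ∧ N (g⁻¹ • w) = y then 1 else 0) =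
            if R (N w) ∧ N (g⁻¹ • w) ∈ H then 1 else 0 := by
          intro w
          by_cases hw : R (N w) ∧ N (g⁻¹ • w) ∈ H
          · simp [hw, Finset.sum_ite_eq, ite_and]
          · simp [hw]
        rw [← Finset.sum_congr rfl (fun w _ => e3 w)]
        rw [Finset.sum_comm]
        refine Finset.sum_congr rfl fun x _ => ?_
        rw [Finset.sum_comm]
      rw [e1]
      -- substitute `y = x⁻¹ z`
      have e4 : ∀ x : E, (∑ y : E, if R x ∧ y ∈ H then ν (x * y) else 0) =
          ∑ z : E, if R x ∧ x⁻¹ * z ∈ H then ν z else 0 := by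
        intro x
        refine (Fintype.sum_equiv (Equiv.mulLeft x⁻¹) _ _ fun z => ?_).symm
        simp
      simp_rw [e4]
      rw [Finset.sum_comm]
      have e5 : ∀ z : E, (∑ x : E, if R x ∧ x⁻¹ * z ∈ H then ν z else 0) = ν z := by
        intro z
        rw [← Finset.sum_filter, Finset.sum_const, card_out30, one_smul]
      simp_rw [e5]
      rw [← hN 1, Finset.card_eq_sum_card_fiberwise (f := fun w => N (g⁻¹ • w)) (t := univ)
        (fun w _ => Finset.mem_coe.2 (Finset.mem_univ _))]
      refine Finset.sum_congr rfl fun z _ => ?_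
      have h3 := hν 1 z
      rw [one_mul] at h3
      rw [← h3, Finset.filter_filter]
  · intro i
    by_cases h : N i ∈ H
    · right; simp [h]
    · left; simp [h]
  · have e1 : ∑ i, (if R (N i) then 1 else 0) = K * (univ.filter fun x : E => R x).card := by
      rw [← fib R, Finset.card_filter]
    have e2 : Fintype.card Ω = K * Fintype.card E := by
      have := fib (fun _ => True)
      simpa using this
    have e3 : Fintype.card E = (univ.filter fun x : E => R x).card * Nat.card H := by
      have e4 : (univ.filter fun x : E => R x).card = Nat.card (E ⧸ H) := by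
        rw [Nat.card_eq_fintype_card, ← Finset.card_univ]
        refine (Finset.card_bij (fun (q : E ⧸ H) _ => q.out) ?_ ?_ ?_).symm
        · intro q _
          rw [Finset.mem_filter]
          refine ⟨Finset.mem_univ _, ?_⟩
          rw [hR]
          congr 1
          exact Quotient.out_eq q
        · intro q _ q' _ hqq
          rw [← Quotient.out_eq q, ← Quotient.out_eq q', hqq]
        · intro x hx
          exact ⟨(x : E ⧸ H), Finset.mem_univ _, (Finset.mem_filter.1 hx).2⟩
      rw [e4, ← Nat.card_eq_fintype_card, H.card_eq_card_quotient_mul_card_subgroup]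
    show (∑ i, (if R (N i) then 1 else 0)) ∣ Fintype.card Ω
    rw [e1, e2, e3, ← mul_assoc]
    exact Dvd.intro _ rfl

end SpreadPerm
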